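import Pool.Agent.Lib.MP_f80667_ag.Dh.Bl

/-!
The orders of the functions `gl φ j k = c_j(φ) c_k - c_k(φ) c_j`, lines and exceptional points.
-/

open ZC BE PE CV QS Polynomial TensorProduct

namespace DH

private theorem bm_roots {Ω A : Type} [Field Ω] [CommRing A] [IsDomain A] [Algebra Ω A] {d : ℕ}
    (hd : 0 < d) {ζ₀ : Ω} (h : IsPrimitiveRoot ζ₀ d) (x y : A) :
    ∏ ζ ∈ nthRootsFinset d (1 : Ω), (x - algebraMap Ω A ζ * y) = x ^ d - y ^ d := by
  have hinj : Function.Injective (algebraMap Ω A) := (algebraMap Ω A).injective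
  have h' : IsPrimitiveRoot (algebraMap Ω A ζ₀) d := h.map_of_injective hinj
  rw [h'.pow_sub_pow_eq_prod_sub_mul x y hd]
  refine Finset.prod_nbij (algebraMap Ω A) (fun a ha => map_mem_nthRootsFinset_one ha _)
    (fun a _ b _ H => hinj H) (fun a ha => ?_) (fun _ _ => rfl)
  have := Set.surj_on_of_inj_on_of_ncard_le (s := nthRootsFinset d (1 : Ω))
    (t := nthRootsFinset d (1 : A)) _ (fun _ hr => map_mem_nthRootsFinset_one hr _)
    (fun a _ b _ H => hinj H) (by simp [h.card_nthRootsFinset, h'.card_nthRootsFinset])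
  obtain ⟨x, hx, hx1⟩ := this _ ha
  exact ⟨x, hx, hx1.symm⟩

variable {M : Type} [Field M] [CharZero M] {d : ℕ} {ε : M} {D : Crv M} (c : Cu D d (Af d ε))
  {Ω : Type} [Field Ω] [Algebra M Ω]

variable [IsAlgClosed Ω]

/-- **Products.** `∏ ζ, (c_j(φ) c_k - ζ c_k(φ) c_j) = c_j(φ) ^ d c_k ^ d - c_k(φ) ^ d c_j ^ d` over the `d`-th roots of unity.
Proof: `∏ ζ, (X - ζ Y) = X ^ d - Y ^ d` (`IsPrimitiveRoot.pow_sub_pow_eq_prod_sub_mul`). -/
theorem gl_prod (hd : 0 < d) (φ : D.A →ₐ[M] Ω) (j k : Fin 3) :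
    ∏ ζ ∈ nthRootsFinset d (1 : Ω), (φ (sc c j) ⊗ₜ[M] sc c k - (ζ * φ (sc c k)) ⊗ₜ[M] sc c j) =
      (φ (sc c j) ^ d) ⊗ₜ[M] (sc c k ^ d) - (φ (sc c k) ^ d) ⊗ₜ[M] (sc c j ^ d) := by
  have hcz : CharZero Ω := charZero_of_injective_algebraMap (algebraMap M Ω).injective
  have hne : NeZero ((d : ℕ) : Ω) := ⟨Nat.cast_ne_zero.2 hd.ne'⟩
  obtain ⟨ζ₀, hζ⟩ := HasEnoughRootsOfUnity.exists_primitiveRoot Ω d
  have h1 := bm_roots (A := Ω ⊗[M] D.A) hd hζ (φ (sc c j) ⊗ₜ[M] sc c k)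
    (φ (sc c k) ⊗ₜ[M] sc c j)
  rw [Algebra.TensorProduct.tmul_pow, Algebra.TensorProduct.tmul_pow] at h1
  rw [← h1]
  refine Finset.prod_congr rfl fun ζ _ => ?_
  rw [Algebra.TensorProduct.algebraMap_apply, Algebra.TensorProduct.tmul_mul_tmul, one_mul]
  rfl

/-- The order of `c_j(φ) ^ d c_k ^ d - c_k(φ) ^ d c_j ^ d` at `φ` is the order of `gl φ j k`. Proof: `gl_prod`; the factors with
`ζ ≠ 1` do not vanish at `φ`. -/
theorem vo_pw (hd : 2 ≤ d) (hε : ε ^ d = -1) {φ : D.A →ₐ[M] Ω} {j k : Fin 3} (hjk : j ≠ k)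
    (hj : φ (sc c j) ≠ 0) (hk : φ (sc c k) ≠ 0) :
    vo φ ((φ (sc c j) ^ d) ⊗ₜ[M] (sc c k ^ d) - (φ (sc c k) ^ d) ⊗ₜ[M] (sc c j ^ d)) =
      vo φ (gl c φ j k) := by
  have hv : ∀ ζ : Ω, ζ ≠ 1 →
      vx φ (φ (sc c j) ⊗ₜ[M] sc c k - (ζ * φ (sc c k)) ⊗ₜ[M] sc c j) ≠ 0 := by
    intro ζ hζ h
    rw [map_sub, vx_tmul, vx_tmul] at h
    have h1 : (1 - ζ) * (φ (sc c j) * φ (sc c k)) = 0 := by
      rw [← h]
      ring
    rcases mul_eq_zero.1 h1 with h2 | h2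
    · exact hζ (sub_eq_zero.1 h2).symm
    · exact mul_ne_zero hj hk h2
  have h1 : φ (sc c j) ⊗ₜ[M] sc c k - ((1 : Ω) * φ (sc c k)) ⊗ₜ[M] sc c j = gl c φ j k := by
    rw [one_mul]
    rfl
  have hne : ∀ ζ : Ω, φ (sc c j) ⊗ₜ[M] sc c k - (ζ * φ (sc c k)) ⊗ₜ[M] sc c j ≠ 0 := by
    intro ζ
    by_cases hζ : ζ = 1
    · rw [hζ, h1]
      exact gl_ne c hd hε φ hjk hj hk
    · intro h
      exact hv ζ hζ (by rw [h, map_zero])
  rw [← gl_prod c (by omega) φ j k, vo_prod _ _ fun ζ _ => hne ζ, Finset.sum_eq_single (1 : Ω),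
    h1]
  · intro ζ _ hζ
    exact (vo_zero (hne ζ)).2 (hv ζ hζ)
  · intro h
    exact absurd ((mem_nthRootsFinset (by omega) 1).2 (one_pow d)) h

/-- **The parameter.** Proof: with `{i, j, k} = {0, 1, 2}`: the functions of `vo_pw` for `(i, j)` and `(i, k)` have the sum `0`
(`sc_sum`), so all three `gl` have the same order; it is `≥ 1`, and if it is `≥ 2` then `mx φ ≤ mx φ ^ 2` by `mx_gen`:
`X - X(φ) = - gl 0 1`, `ε (U - U(φ)) = gl 1 2 - ε gl 0 2` (`sc_one`). -/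
theorem vo_gl (hd : 2 ≤ d) (hε : ε ^ d = -1) {φ : D.A →ₐ[M] Ω} (h : φ (sb c) ≠ 0) {j k : Fin 3}
    (hjk : j ≠ k) : vo φ (gl c φ j k) = 1 := by
  have hc : ∀ i, φ (sc c i) ≠ 0 := (sb_val c φ).1 h
  have hε0 : ε ≠ 0 := by
    rintro rfl
    rw [zero_pow (by omega)] at hε
    exact absurd hε.symm (neg_ne_zero.2 one_ne_zero)
  have hs := sc_sum c hε
  rw [Fin.sum_univ_three] at hs
  have hφs : φ (sc c 0) ^ d + φ (sc c 1) ^ d + φ (sc c 2) ^ d = 0 := by
    rw [← map_pow, ← map_pow, ← map_pow, ← map_add, ← map_add, hs, map_zero]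
  -- the three functions
  have hadd : ∀ a b e : Fin 3, a ≠ b → a ≠ e → b ≠ e →
      vo φ (gl c φ a b) = vo φ (gl c φ a e) := by
    intro a b e hab hae hbe
    rw [← vo_pw c hd hε hab (hc a) (hc b), ← vo_pw c hd hε hae (hc a) (hc e), ← vo_neg]
    congr 1
    have h1 : sc c a ^ d + sc c b ^ d + sc c e ^ d = 0 := by
      rw [← hs]
      fin_cases a <;> fin_cases b <;> fin_cases e <;>
        first | exact absurd rfl hab | exact absurd rfl hae | exact absurd rfl hbe |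
          (simp only [Fin.zero_eta, Fin.mk_one, Fin.reduceFinMk] <;> ring)
    have h2 : φ (sc c a) ^ d + φ (sc c b) ^ d + φ (sc c e) ^ d = 0 := by
      rw [← map_pow, ← map_pow, ← map_pow, ← map_add, ← map_add, h1, map_zero]
    have h3 : sc c e ^ d = - sc c a ^ d - sc c b ^ d := by
      rw [← sub_eq_zero, ← h1]
      ring
    have h4 : φ (sc c e) ^ d = - φ (sc c a) ^ d - φ (sc c b) ^ d := by
      rw [← sub_eq_zero, ← h2]
      ring
    rw [h3, h4, tmul_sub, tmul_neg, sub_tmul, neg_tmul]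
    abel
  have hsym : ∀ a b : Fin 3, vo φ (gl c φ a b) = vo φ (gl c φ b a) := by
    intro a b
    rw [gl_symm, vo_neg]
  have hall : ∀ a b : Fin 3, a ≠ b → vo φ (gl c φ a b) = vo φ (gl c φ 0 1) := by
    have h02 : vo φ (gl c φ 0 2) = vo φ (gl c φ 0 1) :=
      hadd 0 2 1 (by decide) (by decide) (by decide)
    have h12 : vo φ (gl c φ 1 2) = vo φ (gl c φ 0 1) := by
      rw [hadd 1 2 0 (by decide) (by decide) (by decide), hsym]
    intro a b hab
    fin_cases a <;> fin_cases b <;>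
      first | exact absurd rfl hab | exact rfl | exact h02 | exact h12 |
        exact hsym _ _ | exact (hsym _ _).trans h02 | exact (hsym _ _).trans h12
  have hg : ∀ a b : Fin 3, a ≠ b → gl c φ a b ≠ 0 := fun a b hab =>
    gl_ne c hd hε φ hab (hc a) (hc b)
  rw [hall j k hjk]
  have hv1 : vo φ (gl c φ 0 1) ≠ 0 := by
    rw [Ne, vo_zero (hg 0 1 (by decide)), not_not, vx_gl]
    ring
  have hv0 := vo_nonneg φ (gl c φ 0 1)
  by_contra hne
  have h2 : ((2 : ℕ) : ℤ) ≤ vo φ (gl c φ 0 1) := by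
    push_cast
    omega
  have hmem : ∀ a b : Fin 3, a ≠ b → gl c φ a b ∈ (mx φ : Ideal (Ω ⊗[M] D.A)) ^ 2 :=
    fun a b hab => (mem_mxp (hg a b hab) 2).2 (by rw [hall a b hab]; exact h2)
  have hle : (mx φ : Ideal (Ω ⊗[M] D.A)) ≤ mx φ ^ 2 := by
    have e0 : sc c 0 = c.X := rfl
    have e1 : sc c 1 = 1 + ε • c.X := rfl
    have e2 : sc c 2 = ε • c.U := rfl
    conv_lhs => rw [mx_gen c φ]
    rw [Ideal.span_le]
    rintro z (rfl | rfl)
    · have h3 : (1 : Ω) ⊗ₜ[M] c.X - φ c.X ⊗ₜ[M] (1 : D.A) = - gl c φ 0 1 := by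
        unfold gl
        rw [e0, e1, map_add, map_one, map_smul, tmul_add, add_tmul, tmul_smul, smul_tmul',
          neg_sub]
        abel
      rw [h3]
      exact neg_mem (hmem 0 1 (by decide))
    · have h3 : (1 : Ω) ⊗ₜ[M] c.U - φ c.U ⊗ₜ[M] (1 : D.A) =
          (ε⁻¹) • (gl c φ 1 2 - ε • gl c φ 0 2) := by
        unfold gl
        rw [e0, e1, e2, map_add, map_one, map_smul, map_smul, add_tmul, tmul_add]
        simp only [tmul_smul, ← smul_tmul', smul_sub, smul_add, smul_smul]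
        rw [inv_mul_cancel₀ hε0, one_smul, one_smul]
        simp only [mul_comm, mul_assoc, mul_inv_cancel₀ hε0, mul_one]
        abel
      rw [h3]
      exact Submodule.smul_of_tower_mem _ _ (sub_mem (hmem 1 2 (by decide))
        (Submodule.smul_of_tower_mem _ _ (hmem 0 2 (by decide))))
  obtain ⟨q, hq0, hq1, hq2⟩ := exists_unif φ
  have h3 : q ∈ (mx φ : Ideal (Ω ⊗[M] D.A)) ^ 2 := hle (mem_mx.2 hq1)
  have h4 := (mem_mxp hq0 2).1 h3
  rw [hq2] at h4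
  exact absurd h4 (by norm_num)

end DH
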