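import Pool.Agent.Lib.MP_f80667_ag.Dh.Bo

/-!
The points of a curve and the zeros of functions.
-/

open ZC BE PE CV Polynomial TensorProduct

namespace DH

variable {F : Type} [Field F] {C : Crv F} {Ω : Type} [Field Ω] [Algebra F Ω] [IsAlgClosed Ω]

omit [IsAlgClosed Ω] in
private theorem bz_span {f : Ω ⊗[F] C.A} (hf : f ≠ 0) :
    (Ideal.span {f} : Ideal (Ω ⊗[F] C.A)) ≠ ⊥ := by
  rw [Ne, Ideal.span_singleton_eq_bot]
  exact hf

/-- Proof: the support of `cy (Ideal.span {f})` (`mem_support_cy`). -/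
theorem zer_fin {f : Ω ⊗[F] C.A} (hf : f ≠ 0) : {φ : C.A →ₐ[F] Ω | vx φ f = 0}.Finite := by
  have h1 : {φ : C.A →ₐ[F] Ω | vx φ f = 0} ⊆
      (fun φ : C.A →ₐ[F] Ω => (some φ : C.V.pt Ω)) ⁻¹'
        ((cy (Ideal.span {f})).support : Set (C.V.pt Ω)) := by
    intro φ hφ
    have h2 : some φ ∈ (cy (Ideal.span {f})).support := by
      rw [mem_support_cy (bz_span hf), Ideal.span_singleton_le_iff_mem, mem_mx]
      exact hφ
    exact h2
  exact ((Finset.finite_toSet _).preimage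
    (fun a _ b _ h => Option.some_injective _ h)).subset h1

variable (C Ω) in
/-- There are infinitely many points. Proof: `x` of positive degree (`Dg.tail`); for every `c` the element `x - c` has
positive degree, so it is not a unit (`deg_cy_span`: its cycle is not `0`) and vanishes at a point; `Ω` is infinite. -/
theorem pts_inf : Infinite (C.A →ₐ[F] Ω) := by
  obtain ⟨n₀, hn⟩ := (C.dgO Ω).tail
  obtain ⟨x, hx⟩ := hn (n₀ + 1) (by omega)
  have hΩ : Infinite Ω := IsAlgClosed.instInfinite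
  refine Infinite.of_surjective (fun φ : C.A →ₐ[F] Ω => vx φ x) fun c => ?_
  have h1 : (C.dgO Ω).d (x - algebraMap Ω (Ω ⊗[F] C.A) c) = (n₀ + 1 : ℕ) := by
    have h2 : (C.dgO Ω).d (-(algebraMap Ω (Ω ⊗[F] C.A) c)) < (C.dgO Ω).d x := by
      rw [(C.dgO Ω).neg, hx]
      have h3 := (C.dgO Ω).smul_le c 1
      rw [← Algebra.algebraMap_eq_smul_one, (C.dgO Ω).one] at h3
      refine lt_of_le_of_lt h3 ?_
      rw [← Nat.cast_zero, Nat.cast_lt]
      omega
    have h4 := (C.dgO Ω).add_eq h2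
    rw [neg_add_eq_sub] at h4
    rw [h4, hx]
  have h5 := deg_cy_span h1
  have h6 : cy (Ideal.span {x - algebraMap Ω (Ω ⊗[F] C.A) c}) ≠ 0 := by
    intro h7
    rw [h7, map_zero] at h5
    omega
  obtain ⟨y, hy⟩ := Finsupp.support_nonempty_iff.2 h6
  rcases y with _ | φ
  · exact absurd (cy_efc _).2 (Finsupp.mem_support_iff.1 hy)
  · refine ⟨φ, ?_⟩
    have h8 := (mem_support_cy (bz_span ((C.dgO Ω).ne_zero h1)) φ).1 hy
    rw [Ideal.span_singleton_le_iff_mem, mem_mx, map_sub, AlgHom.commutes, sub_eq_zero] at h8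
    exact h8

/-- Functions with the same values. Proof: `(f - g) b` vanishes at all points: `zer_fin`, `pts_inf`. -/
theorem eq_of_pts {b f g : Ω ⊗[F] C.A} (hb : b ≠ 0)
    (h : ∀ φ : C.A →ₐ[F] Ω, vx φ b ≠ 0 → vx φ f = vx φ g) : f = g := by
  by_contra hne
  have h1 : (f - g) * b ≠ 0 := mul_ne_zero (sub_ne_zero.2 hne) hb
  have h2 := zer_fin h1
  have h3 : {φ : C.A →ₐ[F] Ω | vx φ ((f - g) * b) = 0} = Set.univ := by
    refine Set.eq_univ_of_forall fun φ => ?_
    change vx φ ((f - g) * b) = 0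
    rw [map_mul, map_sub]
    by_cases hφ : vx φ b = 0
    · rw [hφ, mul_zero]
    · rw [h φ hφ, sub_self, zero_mul]
  rw [h3] at h2
  have := pts_inf C Ω
  exact Set.infinite_univ h2

omit [IsAlgClosed Ω] in
private theorem bz_deg {w : C.V.pt Ω →₀ ℤ} (hw : Efc w) (hd : C.V.deg Ω w ≤ 0) : w = 0 := by
  have h1 : C.V.deg Ω w = ∑ x ∈ w.support, w x := rfl
  have h2 : 0 ≤ ∑ x ∈ w.support, w x := Finset.sum_nonneg fun x _ => hw.1 x
  have h3 : ∑ x ∈ w.support, w x = 0 := by omega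
  rw [Finset.sum_eq_zero_iff_of_nonneg fun x _ => hw.1 x] at h3
  ext x
  by_cases hx : x ∈ w.support
  · exact h3 x hx
  · exact Finsupp.notMem_support_iff.1 hx

/-- An effective cycle below the cycle of a function of at most its degree. Proof: `cy (Ideal.span {f}) - w` is effective
and of degree `≤ 0` (`deg_cy_span`), so `0`; `pc_span`. -/
theorem pc_of_le {f : Ω ⊗[F] C.A} (hf : f ≠ 0) {n : ℕ} (hd : (C.dgO Ω).d f ≤ n)
    {w : C.V.pt Ω →₀ ℤ} (hw : Efc w) (hn : C.V.deg Ω w = n)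
    (h : ∀ φ : C.A →ₐ[F] Ω, w (some φ) ≤ vo φ f) :
    w - Finsupp.single (C.bp.o Ω) (n : ℤ) ∈ Pc C Ω := by
  obtain ⟨m, hm⟩ := (C.dgO Ω).exists_nat hf
  have hmn : m ≤ n := by
    rw [hm, Nat.cast_le] at hd
    exact hd
  have h1 := deg_cy_span hm
  have h2 : Efc (cy (Ideal.span {f}) - w) := by
    refine ⟨fun x => ?_, ?_⟩
    · rcases x with _ | φ
      · rw [Finsupp.sub_apply, (cy_efc _).2, hw.2, sub_self]
      · rw [Finsupp.sub_apply]
        exact sub_nonneg.2 (h φ)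
    · rw [Finsupp.sub_apply, (cy_efc _).2, hw.2, sub_self]
  have h3 : cy (Ideal.span {f}) - w = 0 := by
    refine bz_deg h2 ?_
    rw [map_sub, h1, hn]
    omega
  have h4 : cy (Ideal.span {f}) = w := sub_eq_zero.1 h3
  have h5 : m = n := by
    rw [h4, hn] at h1
    omega
  rw [← h4, ← h5]
  exact pc_span hm

/-- The principal cycles are differences of cycles of functions. Proof: `mem_Pc`, `cy_mul`, `cy_idl` for the positive
parts (`CV.pp`, `idl_pp`, `pp_sub`), degrees. -/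
theorem pc_split {z : C.V.pt Ω →₀ ℤ} (hz : z ∈ Pc C Ω) :
    ∃ (f g : Ω ⊗[F] C.A) (k : ℤ), f ≠ 0 ∧ g ≠ 0 ∧ z = cy (Ideal.span {f}) - cy (Ideal.span {g}) +
      Finsupp.single (C.bp.o Ω) k := by
  obtain ⟨-, f, g, hf, hg, h⟩ := mem_Pc.1 hz
  refine ⟨f, g, z none, hf, hg, ?_⟩
  have h1 := congrArg cy h
  rw [cy_mul (bz_span hf) (idl_ne_bot _), cy_mul (bz_span hg) (idl_ne_bot _), ← idl_pp (-z),
    ← idl_pp z, cy_idl (pp_efc _), cy_idl (pp_efc _)] at h1
  have h2 : zp z - zp (-z) = cy (Ideal.span {f}) - cy (Ideal.span {g}) := by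
    rw [sub_eq_sub_iff_add_eq_add, add_comm (zp z), ← h1]
  rw [← h2]
  exact pp_sub z

end DH
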