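import Pool.Agent.Lib.MP_f80667_ag.Dh.Bg
import Pool.Agent.Lib.MP_f80667_ag.Dh.Bz

/-!
Pull-back of functions under a rational map.

* `g.Pb e h H k`: `H = b ^ k * (pull-back of h)`.
* `g.Pa e Ω`: for every point `φ` with `b ≠ 0` there is a function on `E` which vanishes at the image, with a pull-back of
  order `1` at `φ` (`g` is unramified at `φ`).
-/

open ZC BE PE CV QS Polynomial TensorProduct

namespace DH

namespace Gm

variable {M : Type} [Field M] {D E : Crv M} {n : ℕ} {a : M[X]} (g : Gm D n a) (e : Cu E n a)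
  {Ω : Type} [Field Ω] [Algebra M Ω]

/-- `H = b ^ k * (pull-back of h)`. -/
def Pb (h : Ω ⊗[M] E.A) (H : Ω ⊗[M] D.A) (k : ℕ) : Prop :=
  ∀ (φ : D.A →ₐ[M] Ω) (ψ : E.A →ₐ[M] Ω), φ g.b ≠ 0 → g.f e (some φ : D.V.pt Ω) = some ψ →
    vx φ H = φ g.b ^ k * vx ψ h

variable (Ω) in
/-- The map is unramified where `b ≠ 0`. -/
def Pa : Prop := ∀ φ : D.A →ₐ[M] Ω, φ g.b ≠ 0 → ∃ (h : Ω ⊗[M] E.A) (H : Ω ⊗[M] D.A) (k : ℕ),
  g.Pb e h H k ∧ (∀ ψ : E.A →ₐ[M] Ω, g.f e (some φ : D.V.pt Ω) = some ψ → vx ψ h = 0) ∧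
    vo φ H = 1

variable {g e} {h h' : Ω ⊗[M] E.A} {H H' : Ω ⊗[M] D.A} {k k' : ℕ}

theorem Pb.mul (hb : g.Pb e h H k) (hb' : g.Pb e h' H' k') :
    g.Pb e (h * h') (H * H') (k + k') := by
  intro φ ψ h0 h1
  rw [map_mul, map_mul, hb φ ψ h0 h1, hb' φ ψ h0 h1]
  ring

theorem Pb.up (hb : g.Pb e h H k) (j : ℕ) : g.Pb e h ((1 ⊗ₜ g.b) ^ j * H) (k + j) := by
  intro φ ψ h0 h1
  rw [map_mul, map_pow, vx_tmul, one_mul, hb φ ψ h0 h1]
  ring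

theorem Pb.pow (hb : g.Pb e h H k) (j : ℕ) : g.Pb e (h ^ j) (H ^ j) (j * k) := by
  intro φ ψ h0 h1
  rw [map_pow, map_pow, hb φ ψ h0 h1, mul_pow, ← pow_mul, mul_comm k j]

theorem Pb.add (hb : g.Pb e h H k) (hb' : g.Pb e h' H' k) : g.Pb e (h + h') (H + H') k := by
  intro φ ψ h0 h1
  rw [map_add, map_add, hb φ ψ h0 h1, hb' φ ψ h0 h1]
  ring

theorem Pb.smul (c : Ω) (hb : g.Pb e h H k) : g.Pb e (c • h) (c • H) k := by
  intro φ ψ h0 h1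
  rw [map_smul, map_smul, hb φ ψ h0 h1, smul_eq_mul, smul_eq_mul]
  ring

theorem pb_one : g.Pb e (1 : Ω ⊗[M] E.A) (1 : Ω ⊗[M] D.A) 0 := by
  intro φ ψ _ _
  rw [map_one, map_one, pow_zero, mul_one]

/-- The function `x`. -/
theorem pb_X : g.Pb e ((1 : Ω) ⊗ₜ e.X) ((1 : Ω) ⊗ₜ g.x) g.N := by
  intro φ ψ h0 h1
  obtain ⟨ψ', h2, h3, -⟩ := g.f_gn e h0
  obtain rfl : ψ' = ψ := Option.some_injective _ (h2.symm.trans h1)
  rw [vx_tmul, vx_tmul, one_mul, one_mul, h3, mul_div_cancel₀ _ (pow_ne_zero _ h0)]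

/-- The function `u`. -/
theorem pb_U : g.Pb e ((1 : Ω) ⊗ₜ e.U) ((1 : Ω) ⊗ₜ g.u) g.N' := by
  intro φ ψ h0 h1
  obtain ⟨ψ', h2, -, h3⟩ := g.f_gn e h0
  obtain rfl : ψ' = ψ := Option.some_injective _ (h2.symm.trans h1)
  rw [vx_tmul, vx_tmul, one_mul, one_mul, h3, mul_div_cancel₀ _ (pow_ne_zero _ h0)]

variable (g e) in
/-- Every function has a pull-back. Proof: induction (`TensorProduct.induction_on`; `e.gen`, `Algebra.adjoin_induction` for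
`1 ⊗ a`), `Pb.up` for sums. -/
theorem exists_pb (h : Ω ⊗[M] E.A) : ∃ (H : Ω ⊗[M] D.A) (k : ℕ), g.Pb e h H k := by
  have hadd : ∀ h h' : Ω ⊗[M] E.A, (∃ (H : Ω ⊗[M] D.A) (k : ℕ), g.Pb e h H k) →
      (∃ (H : Ω ⊗[M] D.A) (k : ℕ), g.Pb e h' H k) →
      ∃ (H : Ω ⊗[M] D.A) (k : ℕ), g.Pb e (h + h') H k := by
    rintro h h' ⟨H, k, hb⟩ ⟨H', k', hb'⟩
    exact ⟨_, k + k', (hb.up k').add (by rw [add_comm k k']; exact hb'.up k)⟩
  have hone : ∀ a : E.A, ∃ (H : Ω ⊗[M] D.A) (k : ℕ), g.Pb e ((1 : Ω) ⊗ₜ a) H k := by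
    intro a
    have ha : a ∈ Algebra.adjoin M {e.X, e.U} := by
      rw [e.gen]
      exact Algebra.mem_top
    refine Algebra.adjoin_induction (p := fun a _ => ∃ (H : Ω ⊗[M] D.A) (k : ℕ),
      g.Pb e ((1 : Ω) ⊗ₜ a) H k) ?_ ?_ ?_ ?_ ha
    · intro x hx
      rcases hx with hx | hx
      · rw [hx]
        exact ⟨_, _, pb_X⟩
      · rw [Set.mem_singleton_iff.1 hx]
        exact ⟨_, _, pb_U⟩
    · intro r
      refine ⟨algebraMap M Ω r • 1, 0, ?_⟩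
      have h1 : (1 : Ω) ⊗ₜ[M] (algebraMap M E.A r) = algebraMap M Ω r • (1 : Ω ⊗[M] E.A) := by
        rw [Algebra.algebraMap_eq_smul_one, ← TensorProduct.smul_tmul, Algebra.TensorProduct.one_def,
          TensorProduct.smul_tmul', Algebra.smul_def, smul_eq_mul]
      rw [h1]
      exact pb_one.smul _
    · intro x y _ _ hx hy
      rw [TensorProduct.tmul_add]
      exact hadd _ _ hx hy
    · rintro x y _ _ ⟨H, k, hb⟩ ⟨H', k', hb'⟩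
      refine ⟨H * H', k + k', ?_⟩
      have h1 : (1 : Ω) ⊗ₜ[M] (x * y) = (1 : Ω) ⊗ₜ[M] x * (1 : Ω) ⊗ₜ[M] y := by
        rw [Algebra.TensorProduct.tmul_mul_tmul, mul_one]
      rw [h1]
      exact hb.mul hb'
  induction h using TensorProduct.induction_on with
  | zero => exact ⟨0, 0, fun φ ψ _ _ => by rw [map_zero, map_zero, mul_zero]⟩
  | tmul c a =>
    obtain ⟨H, k, hb⟩ := hone a
    refine ⟨c • H, k, ?_⟩
    have h1 : c ⊗ₜ[M] a = c • ((1 : Ω) ⊗ₜ[M] a) := by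
      rw [TensorProduct.smul_tmul', smul_eq_mul, mul_one]
    rw [h1]
    exact hb.smul c
  | add x y hx hy => exact hadd _ _ hx hy

end Gm

end DH
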