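import Pool.Agent.Lib.MP_f80667_ag.Dh.B4
import Pool.Agent.Lib.MP_f80667_ag.Dh.Bm
import Pool.Agent.Lib.MP_f80667_ag.Dh.Bp

/-! Degree `4`: the three maps are unramified where `b ≠ 0`. -/

open ZC BE PE CV QS Polynomial TensorProduct

namespace DH

variable {M : Type} [Field M] [CharZero M] {ε : M} {D : Crv M} (c : Cu D 4 (Af 4 ε))
  {E : Crv M} (e : Cu E 2 (a4 M)) {Ω : Type} [Field Ω] [Algebra M Ω] [IsAlgClosed Ω]

omit [CharZero M] in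
private theorem sb_rot (i : Fin 3) : sb c = sc c i * sc c (i + 1) * sc c (i + 2) := by
  unfold sb
  rw [Fin.prod_univ_three]
  fin_cases i
  · rfl
  · show sc c 0 * sc c 1 * sc c 2 = sc c 1 * sc c 2 * sc c 0
    ring
  · show sc c 0 * sc c 1 * sc c 2 = sc c 2 * sc c 0 * sc c 1
    ring

omit [CharZero M] in
private theorem sum_rot (hε : ε ^ 4 = -1) (i : Fin 3) :
    sc c i ^ 4 + sc c (i + 1) ^ 4 + sc c (i + 2) ^ 4 = 0 := by
  have h := sc_sum c hε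
  rw [Fin.sum_univ_three] at h
  fin_cases i
  · exact h
  · show sc c 1 ^ 4 + sc c 2 ^ 4 + sc c 0 ^ 4 = 0
    rw [← h]
    ring
  · show sc c 2 ^ 4 + sc c 0 ^ 4 + sc c 1 ^ 4 = 0
    rw [← h]
    ring

omit [CharZero M] [IsAlgClosed Ω] in
private theorem w_ne (hε : ε ^ 4 = -1) (i : Fin 3) (φ : D.A →ₐ[M] Ω) (h : φ (sb c) ≠ 0) :
    φ (sc c (i + 1)) ^ 2 + algebraMap M Ω ε ^ 2 * φ (sc c i) ^ 2 ≠ 0 := by
  intro h0
  have h1 : φ (sc c i) ^ 4 + φ (sc c (i + 1)) ^ 4 + φ (sc c (i + 2)) ^ 4 = 0 := by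
    have := congrArg φ (sum_rot c hε i)
    simpa only [map_add, map_pow, map_zero] using this
  have h2 : (algebraMap M Ω ε) ^ 4 = -1 := by
    rw [← map_pow, hε, map_neg, map_one]
  have h3 : φ (sc c (i + 2)) ^ 4 = 0 := by
    linear_combination h1 - (φ (sc c (i + 1)) ^ 2 - algebraMap M Ω ε ^ 2 * φ (sc c i) ^ 2) * h0 -
      φ (sc c i) ^ 4 * h2
  exact ((sb_val c φ).1 h (i + 2)) (pow_eq_zero_iff (by norm_num) |>.1 h3)

private theorem th_ne (hε : ε ^ 4 = -1) : algebraMap M Ω ε - algebraMap M Ω ε ^ 3 ≠ 0 := by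
  intro h0
  have h1 : (ε - ε ^ 3) = 0 := by
    apply FaithfulSMul.algebraMap_injective M Ω
    rw [map_sub, map_pow, h0, map_zero]
  have h2 : (2 : M) = 0 := by
    linear_combination (ε - ε ^ 3) * h1 - (ε ^ 2 - 2) * hε
  exact two_ne_zero h2

/-- **Unramified.** Proof: `x(φ) ≠ 0` (`(c_j ^ 2 + ε ^ 2 c_i ^ 2) (c_j ^ 2 - ε ^ 2 c_i ^ 2) = - c_k ^ 4`); `h = U - (U / X)(φ) X`
with the pull-back `θ (c_j ^ 2 + ε ^ 2 c_i ^ 2) c_i ^ 3 c_j ^ 3 (c_j - (c_j / c_k)(φ) c_k)`, `k = 3`: `vo_gl`. -/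
theorem g4_pa (hε : ε ^ 4 = -1) (i : Fin 3) : (g4 c hε i).Pa e Ω := by
  intro φ hφ
  have hb : φ (sb c) ≠ 0 := hφ
  have hi : ∀ j, φ (sc c j) ≠ 0 := (sb_val c φ).1 hb
  have hθ : algebraMap M Ω ε - algebraMap M Ω ε ^ 3 ≠ 0 := th_ne hε
  have hw := w_ne c hε i φ hb
  set θ : Ω := algebraMap M Ω ε - algebraMap M Ω ε ^ 3 with hθd
  set t : Ω := θ * (φ (sc c (i + 1)) / φ (sc c (i + 2))) with ht
  have p1 : (g4 c hε i).Pb e ((1 : Ω) ⊗ₜ e.U) ((1 : Ω) ⊗ₜ u4 c i) 3 := Gm.pb_U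
  have p2 : (g4 c hε i).Pb e ((1 : Ω) ⊗ₜ e.X) ((1 : Ω) ⊗ₜ x4 c i) 2 := Gm.pb_X
  have p3 := p2.up 1
  have p4 := p1.add (p3.smul (-t))
  refine ⟨_, _, _, p4, ?_, ?_⟩
  · intro ψ hψ
    obtain ⟨ψ', h1, h2, h3⟩ := (g4 c hε i).f_gn e hφ
    rw [h1] at hψ
    obtain rfl : ψ' = ψ := Option.some_injective _ hψ
    have h2' : ψ' e.X = φ (x4 c i) / φ (sb c) ^ 2 := h2
    have h3' : ψ' e.U = φ (u4 c i) / φ (sb c) ^ 3 := h3
    rw [x4_val c i hb] at h2'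
    rw [u4_val c i hb] at h3'
    rw [map_add, map_smul, vx_tmul, vx_tmul, one_mul, one_mul, h2', h3', smul_eq_mul, ht]
    ring
  · have e1 : ((1 : Ω) ⊗ₜ u4 c i + -t • (((1 : Ω) ⊗ₜ[M] (g4 c hε i).b) ^ 1 * (1 : Ω) ⊗ₜ[M] x4 c i) :
        Ω ⊗[M] D.A) = (θ / φ (sc c (i + 2))) • (((1 : Ω) ⊗ₜ[M] ((sc c (i + 1) ^ 2 +
          ε ^ 2 • sc c i ^ 2) * sc c i ^ 3 * sc c (i + 1) ^ 3)) * gl c φ (i + 2) (i + 1)) := by
      have hb' : (g4 c hε i).b = sc c i * sc c (i + 1) * sc c (i + 2) := sb_rot c i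
      have k1 : (1 : Ω) ⊗ₜ[M] u4 c i = θ • ((1 : Ω) ⊗ₜ[M] ((sc c (i + 1) ^ 2 +
          ε ^ 2 • sc c i ^ 2) * sc c i ^ 3 * sc c (i + 1) ^ 4)) := by
        unfold u4
        rw [TensorProduct.tmul_smul, TensorProduct.smul_tmul', TensorProduct.smul_tmul',
          smul_eq_mul, mul_one, Algebra.smul_def, mul_one, map_sub, map_pow]
      rw [hb', k1, pow_one, Algebra.TensorProduct.tmul_mul_tmul, mul_one]
      unfold gl x4
      rw [mul_sub, Algebra.TensorProduct.tmul_mul_tmul, Algebra.TensorProduct.tmul_mul_tmul,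
        TensorProduct.smul_tmul', TensorProduct.smul_tmul', smul_sub, TensorProduct.smul_tmul',
        TensorProduct.smul_tmul', smul_eq_mul, smul_eq_mul, smul_eq_mul, smul_eq_mul, one_mul,
        one_mul, mul_one, mul_one, sub_eq_add_neg, ← TensorProduct.neg_tmul]
      congr 2
      · rw [div_mul_cancel₀ _ (hi _)]
      · ring
      · rw [ht]
        ring
      · ring
    rw [e1]
    have hg : gl c φ (i + 2) (i + 1) ≠ 0 := by
      refine gl_ne c (by norm_num) hε φ ?_ (hi _) (hi _)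
      fin_cases i <;> decide
    have hv : vx φ ((1 : Ω) ⊗ₜ[M] ((sc c (i + 1) ^ 2 +
          ε ^ 2 • sc c i ^ 2) * sc c i ^ 3 * sc c (i + 1) ^ 3)) ≠ 0 := by
      rw [vx_tmul, one_mul, map_mul, map_mul, map_add, map_smul, map_pow, map_pow, map_pow, map_pow]
      refine mul_ne_zero (mul_ne_zero ?_ (pow_ne_zero _ (hi _))) (pow_ne_zero _ (hi _))
      rw [Algebra.smul_def, map_pow]
      exact hw
    have hv0 : ((1 : Ω) ⊗ₜ[M] ((sc c (i + 1) ^ 2 +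
          ε ^ 2 • sc c i ^ 2) * sc c i ^ 3 * sc c (i + 1) ^ 3)) ≠ 0 := by
      intro h0
      rw [h0, map_zero] at hv
      exact hv rfl
    rw [vo_smul (div_ne_zero hθ (hi _)), vo_mul hv0 hg, (vo_zero hv0).2 hv, zero_add]
    refine vo_gl c (by norm_num) hε hb ?_
    fin_cases i <;> decide

end DH
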