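import Pool.Agent.Lib.MP_f80667_ag.Dh.Bk

/-! The pull-back of a principal cycle, up to the points where `b = 0`. -/

open ZC BE PE CV QS Polynomial TensorProduct

namespace DH

variable {M : Type} [Field M] {D E : Crv M} {Ω : Type} [Field Ω] [Algebra M Ω]

private theorem ba_deg (C : Crv M) (x : C.V.pt Ω) (n : ℤ) :
    C.V.deg Ω (Finsupp.single x n) = n :=
  Finsupp.liftAddHom_apply_single _ _ _

/-- Cycles supported where `b = 0`. Proof: `w = ∑ w(φ) ([φ] - [∞])` over the finite points of the support. -/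
theorem pc_exc {b : D.A} {k : ℕ} (hk : ∀ φ : D.A →ₐ[M] Ω, φ b = 0 →
    k • ((Finsupp.single (some φ) 1 : D.V.pt Ω →₀ ℤ) - Finsupp.single (D.bp.o Ω) 1) ∈ Pc D Ω)
    {w : D.V.pt Ω →₀ ℤ} (h0 : D.V.deg Ω w = 0) (hw : ∀ φ : D.A →ₐ[M] Ω, φ b ≠ 0 → w (some φ) = 0) :
    k • w ∈ Pc D Ω := by
  classical
  have h1 : w = ∑ x ∈ w.support, Finsupp.single x (w x) := (Finsupp.sum_single w).symm
  have h2 : ∑ x ∈ w.support, w x = 0 := by
    have h3 : D.V.deg Ω w = ∑ x ∈ w.support, w x := by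
      conv_lhs => rw [h1]
      rw [map_sum]
      exact Finset.sum_congr rfl fun x _ => ba_deg D x _
    rw [← h3, h0]
  have h3 : w = ∑ x ∈ w.support,
      w x • ((Finsupp.single x 1 : D.V.pt Ω →₀ ℤ) - Finsupp.single (D.bp.o Ω) 1) := by
    have h4 : ∀ x ∈ w.support,
        w x • ((Finsupp.single x 1 : D.V.pt Ω →₀ ℤ) - Finsupp.single (D.bp.o Ω) 1) =
        Finsupp.single x (w x) - w x • (Finsupp.single (D.bp.o Ω) 1 : D.V.pt Ω →₀ ℤ) := by
      intro x _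
      rw [smul_sub, Finsupp.smul_single, smul_eq_mul, mul_one]
    rw [Finset.sum_congr rfl h4, Finset.sum_sub_distrib, ← Finset.sum_smul, h2, zero_smul,
      sub_zero, ← h1]
  rw [h3, Finset.smul_sum]
  refine AddSubgroup.sum_mem _ fun x hx => ?_
  rw [smul_comm]
  refine AddSubgroup.zsmul_mem _ ?_ _
  rcases x with _ | φ
  · have h5 : (Finsupp.single (none : D.V.pt Ω) 1 : D.V.pt Ω →₀ ℤ) -
        Finsupp.single (D.bp.o Ω) 1 = 0 := sub_self _
    rw [h5, smul_zero]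
    exact AddSubgroup.zero_mem _
  · refine hk φ ?_
    by_contra hne
    exact (Finsupp.mem_support_iff.1 hx) (hw φ hne)

variable {n : ℕ} {a : M[X]} (g : Gm D n a) (e : Cu E n a) [IsAlgClosed Ω]

/-- **Pull-back of principal cycles.** Proof: `pc_split`: `z = cy h - cy h' + k [∞]`; pull-backs `H`, `H'` with the same
exponent (`exists_pb`, `Pb.up`); `w = cy H - cy H' + k' [∞]` of degree `0` is in `Pc` (`pc_of_rel` or `pc_split` backwards:
`pc_span`), and `w - psi z` vanishes at the finite points with `b ≠ 0` (`psi_apply`, `Pb.vo`): `pc_exc`. -/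
theorem psi_pc (hp : g.Pa e Ω) {k : ℕ} (hk : ∀ φ : D.A →ₐ[M] Ω, φ g.b = 0 →
    k • ((Finsupp.single (some φ) 1 : D.V.pt Ω →₀ ℤ) - Finsupp.single (D.bp.o Ω) 1) ∈ Pc D Ω)
    (r : ℤ) {z : E.V.pt Ω →₀ ℤ} (hz : z ∈ Pc E Ω) : k • g.psi e r z ∈ Pc D Ω := by
  have hdz : D.V.deg Ω (g.psi e r z) = 0 := by
    rw [g.psi_deg e r z, deg_Pc hz, mul_zero]
  obtain ⟨h, h', kk, hh, hh', hzs⟩ := pc_split hz
  obtain ⟨H, k1, hH⟩ := Gm.exists_pb g e h
  obtain ⟨H', k2, hH'⟩ := Gm.exists_pb g e h'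
  have hH0 : H ≠ 0 := hH.ne hp hh
  have hH0' : H' ≠ 0 := hH'.ne hp hh'
  obtain ⟨m, hm⟩ := (D.dgO Ω).exists_nat hH0
  obtain ⟨m', hm'⟩ := (D.dgO Ω).exists_nat hH0'
  obtain ⟨w, hw⟩ : ∃ w : D.V.pt Ω →₀ ℤ, w = (cy (Ideal.span {H}) -
      Finsupp.single (D.bp.o Ω) (m : ℤ)) - (cy (Ideal.span {H'}) -
      Finsupp.single (D.bp.o Ω) (m' : ℤ)) := ⟨_, rfl⟩
  have hwP : w ∈ Pc D Ω := by
    rw [hw]
    exact AddSubgroup.sub_mem _ (pc_span hm) (pc_span hm')
  have hs : ∀ (C : Crv M) (j : ℤ) (φ : C.A →ₐ[M] Ω),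
      (Finsupp.single (C.bp.o Ω) j : C.V.pt Ω →₀ ℤ) (some φ) = 0 := fun C j φ =>
    Finsupp.single_eq_of_ne (by exact Option.some_ne_none φ)
  have hv : k • (g.psi e r z - w) ∈ Pc D Ω := by
    refine pc_exc hk ?_ fun φ hφ => ?_
    · rw [map_sub, hdz, deg_Pc hwP, sub_zero]
    · obtain ⟨ψ, hψ, -, -⟩ := g.f_gn e hφ
      have h1 : g.psi e r z (some φ) = vo ψ h - vo ψ h' := by
        rw [g.psi_apply e hp r z φ, if_pos hφ, hψ, hzs, Finsupp.add_apply, Finsupp.sub_apply,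
          hs E, add_zero]
        rfl
      have h2 : w (some φ) = vo φ H - vo φ H' := by
        rw [hw, Finsupp.sub_apply, Finsupp.sub_apply, Finsupp.sub_apply, hs D, hs D, sub_zero,
          sub_zero]
        rfl
      rw [Finsupp.sub_apply, h1, h2, (hH.vo hp hh hφ hψ).2, (hH'.vo hp hh' hφ hψ).2, sub_self]
  have h3 : k • g.psi e r z = k • (g.psi e r z - w) + k • w := by
    rw [← smul_add, sub_add_cancel]
  rw [h3]
  exact AddSubgroup.add_mem _ hv (AddSubgroup.nsmul_mem _ hwP k)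

end DH
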