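import Pool.Agent.Lib.MP_f80667_ag.Dh.Bm

/-!
Lines and exceptional points: principal cycles on the Fermat curve.
-/

open ZC BE PE CV QS Polynomial TensorProduct

namespace DH

variable {M : Type} [Field M] [CharZero M] {d : ℕ} {ε : M} {D : Crv M} (c : Cu D d (Af d ε))
  {Ω : Type} [Field Ω] [Algebra M Ω]

variable [IsAlgClosed Ω]

private theorem bh_univ : ∀ j k l : Fin 3, j ≠ k → j ≠ l → k ≠ l →
    (Finset.univ : Finset (Fin 3)) = {j, k, l} := by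
  decide

private theorem bh_two : ∀ j : Fin 3, ∃ k l : Fin 3, j ≠ k ∧ j ≠ l ∧ k ≠ l := by
  decide

private theorem bh_cases : ∀ j k l i : Fin 3, j ≠ k → j ≠ l → k ≠ l → i = j ∨ i = k ∨ i = l := by
  decide

private theorem bh_sum {A : Type} [AddCommMonoid A] (f : Fin 3 → A) {j k l : Fin 3} (h1 : j ≠ k)
    (h2 : j ≠ l) (h3 : k ≠ l) : ∑ i, f i = f j + (f k + f l) := by
  rw [bh_univ j k l h1 h2 h3, Finset.sum_insert, Finset.sum_insert, Finset.sum_singleton]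
  · rwa [Finset.mem_singleton]
  · rw [Finset.mem_insert, Finset.mem_singleton]
    exact not_or.2 ⟨h1, h2⟩

private theorem bh_zero (hd : 2 ≤ d) (hε : ε ^ d = -1) {φ : D.A →ₐ[M] Ω} {j k l : Fin 3}
    (h1 : j ≠ k) (h2 : j ≠ l) (h3 : k ≠ l) (h : φ (sc c j) = 0) : φ (sc c k) ≠ 0 := by
  intro hk
  have hd0 : d ≠ 0 := by omega
  have h4 := congrArg φ ((bh_sum (fun i => sc c i ^ d) h1 h2 h3).symm.trans (sc_sum c hε))
  rw [map_add, map_add, map_pow, map_pow, map_pow, map_zero, h, hk, zero_pow hd0, zero_add,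
    zero_add] at h4
  have hl : φ (sc c l) = 0 := (pow_eq_zero_iff hd0).1 h4
  have hall : ∀ i, φ (sc c i) = 0 := by
    intro i
    rcases bh_cases j k l i h1 h2 h3 with rfl | rfl | rfl
    · exact h
    · exact hk
    · exact hl
  have h5 := congrArg φ (sc_one c)
  rw [map_sub, map_smul, hall, hall, smul_zero, sub_zero, map_one] at h5
  exact zero_ne_one h5

private theorem bh_one_tmul {a : D.A} (ha : a ≠ 0) : (1 : Ω) ⊗ₜ[M] a ≠ 0 := by
  intro h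
  have h1 := D.dgO_one Ω a
  rw [h, (D.dgO Ω).zero] at h1
  exact ha ((D.G.bot a).1 h1.symm)

private theorem bh_sc_ne (hd : 2 ≤ d) (hε : ε ^ d = -1) (j : Fin 3) : sc c j ≠ 0 := by
  intro h
  exact sb_ne c hd hε (Finset.prod_eq_zero (Finset.mem_univ j) h)

private theorem bh_vo (hd : 2 ≤ d) (hε : ε ^ d = -1) {φ : D.A →ₐ[M] Ω} {j k l : Fin 3}
    (h1 : j ≠ k) (h2 : j ≠ l) (h3 : k ≠ l) (h : φ (sc c j) = 0) :
    (d : ℤ) ≤ vo φ (gl c φ k l) := by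
  have hd0 : d ≠ 0 := by omega
  have hk : φ (sc c k) ≠ 0 := bh_zero c hd hε h1 h2 h3 h
  have hl : φ (sc c l) ≠ 0 := bh_zero c hd hε h2 h1 h3.symm h
  have hg : gl c φ k l ≠ 0 := gl_ne c hd hε φ h3 hk hl
  have hone : (1 : Ω) ∈ nthRootsFinset d (1 : Ω) :=
    (mem_nthRootsFinset (by omega) 1).2 (one_pow d)
  have hf1 : φ (sc c k) ⊗ₜ[M] sc c l - (1 * φ (sc c l)) ⊗ₜ[M] sc c k = gl c φ k l := by
    rw [one_mul]
    rfl
  have hvx : ∀ ζ : Ω, ζ ≠ 1 →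
      vx φ (φ (sc c k) ⊗ₜ[M] sc c l - (ζ * φ (sc c l)) ⊗ₜ[M] sc c k) ≠ 0 := by
    intro ζ hζ
    have h4 : vx φ (φ (sc c k) ⊗ₜ[M] sc c l - (ζ * φ (sc c l)) ⊗ₜ[M] sc c k) =
        (1 - ζ) * (φ (sc c k) * φ (sc c l)) := by
      rw [map_sub, vx_tmul, vx_tmul]
      ring
    rw [h4]
    exact mul_ne_zero (sub_ne_zero.2 hζ.symm) (mul_ne_zero hk hl)
  have hne : ∀ ζ ∈ nthRootsFinset d (1 : Ω),
      φ (sc c k) ⊗ₜ[M] sc c l - (ζ * φ (sc c l)) ⊗ₜ[M] sc c k ≠ 0 := by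
    intro ζ _
    by_cases hζ : ζ = 1
    · rw [hζ, hf1]
      exact hg
    · intro h4
      refine hvx ζ hζ ?_
      rw [h4, map_zero]
  have h4 : vo φ (∏ ζ ∈ nthRootsFinset d (1 : Ω),
      (φ (sc c k) ⊗ₜ[M] sc c l - (ζ * φ (sc c l)) ⊗ₜ[M] sc c k)) = vo φ (gl c φ k l) := by
    rw [vo_prod _ _ hne, Finset.sum_eq_single_of_mem 1 hone, hf1]
    intro ζ hζ hζ1
    exact (vo_zero (hne ζ hζ)).2 (hvx ζ hζ1)
  have h5 : φ (sc c l) ^ d = - φ (sc c k) ^ d := by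
    have h6 := congrArg φ ((bh_sum (fun i => sc c i ^ d) h1 h2 h3).symm.trans (sc_sum c hε))
    rw [map_add, map_add, map_pow, map_pow, map_pow, map_zero, h, zero_pow hd0, zero_add] at h6
    exact eq_neg_of_add_eq_zero_right h6
  have h6 : sc c l ^ d + sc c k ^ d = - sc c j ^ d := by
    have h7 := (bh_sum (fun i => sc c i ^ d) h1 h2 h3).symm.trans (sc_sum c hε)
    rw [add_comm (sc c l ^ d)]
    exact eq_neg_of_add_eq_zero_right h7
  have h7 : (φ (sc c k) ^ d) ⊗ₜ[M] (sc c l ^ d) - (φ (sc c l) ^ d) ⊗ₜ[M] (sc c k ^ d) =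
      - ((φ (sc c k) ^ d) • ((1 : Ω) ⊗ₜ[M] sc c j) ^ d) := by
    rw [h5, neg_tmul, sub_neg_eq_add, ← tmul_add, h6, tmul_neg,
      Algebra.TensorProduct.tmul_pow, one_pow, smul_tmul', smul_eq_mul, mul_one]
  have hcj : (1 : Ω) ⊗ₜ[M] sc c j ≠ 0 := bh_one_tmul (bh_sc_ne c hd hε j)
  rw [← h4, gl_prod c (by omega) φ k l, h7, vo_neg, vo_smul (pow_ne_zero d hk), vo_pow hcj]
  have h8 : vo φ ((1 : Ω) ⊗ₜ[M] sc c j) ≠ 0 := by
    intro h9
    refine (vo_zero hcj).1 h9 ?_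
    rw [vx_tmul, h, mul_zero]
  have h9 := vo_nonneg φ ((1 : Ω) ⊗ₜ[M] sc c j)
  have h10 : 1 ≤ vo φ ((1 : Ω) ⊗ₜ[M] sc c j) := by omega
  have h11 : (0 : ℤ) ≤ d := Int.natCast_nonneg d
  nlinarith

private theorem bh_deg (x : D.V.pt Ω) (n : ℤ) : D.V.deg Ω (Finsupp.single x n) = n :=
  Finsupp.liftAddHom_apply_single _ _ _

/-- **The exceptional points.** Proof: `c_j(φ) = 0`, the two others are not `0`; for `g = gl φ k l` (`{j, k, l} = {0, 1, 2}`):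
`gl_prod` gives `- c_k(φ) ^ d c_j ^ d`, so `vo φ g = d * vo φ c_j ≥ d`; `pc_of_le` with `w = d [φ]`. -/
theorem exc_pc (hd : 2 ≤ d) (hε : ε ^ d = -1) {φ : D.A →ₐ[M] Ω} (h : φ (sb c) = 0) :
    d • ((Finsupp.single (some φ) 1 : D.V.pt Ω →₀ ℤ) - Finsupp.single (D.bp.o Ω) 1) ∈
      Pc D Ω := by
  classical
  have h0 : ∃ j, φ (sc c j) = 0 := by
    unfold sb at h
    rw [map_prod] at h
    obtain ⟨j, -, hj⟩ := Finset.prod_eq_zero_iff.1 h
    exact ⟨j, hj⟩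
  obtain ⟨j, hj⟩ := h0
  obtain ⟨k, l, h1, h2, h3⟩ := bh_two j
  have hk : φ (sc c k) ≠ 0 := bh_zero c hd hε h1 h2 h3 hj
  have hl : φ (sc c l) ≠ 0 := bh_zero c hd hε h2 h1 h3.symm hj
  have h4 : d • ((Finsupp.single (some φ) 1 : D.V.pt Ω →₀ ℤ) - Finsupp.single (D.bp.o Ω) 1) =
      (Finsupp.single (some φ) (d : ℤ) : D.V.pt Ω →₀ ℤ) - Finsupp.single (D.bp.o Ω) (d : ℤ) := by
    rw [smul_sub, Finsupp.smul_single, Finsupp.smul_single, nsmul_eq_mul, mul_one]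
  rw [h4]
  refine pc_of_le (gl_ne c hd hε φ h3 hk hl) (gl_deg c hd hε φ k l)
    (efc_single φ (Int.natCast_nonneg d)) (bh_deg _ _) ?_
  intro ψ
  rw [Finsupp.single_apply]
  split_ifs with h5
  · obtain rfl : φ = ψ := Option.some_injective _ h5
    exact bh_vo c hd hε h1 h2 h3 hj
  · exact vo_nonneg _ _

/-- **Lines.** Proof: `g = gl φ k l` vanishes at the `d` distinct points; `pc_of_le`. -/
theorem line_pc (hd : 2 ≤ d) (hε : ε ^ d = -1) {φ : D.A →ₐ[M] Ω} (h : φ (sb c) ≠ 0) (j : Fin 3) :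
    ∑ ζ ∈ nthRootsFinset d (1 : Ω),
      (Finsupp.single (some (zs c φ fun i => if i = j then ζ else 1)) 1 : D.V.pt Ω →₀ ℤ) -
        Finsupp.single (D.bp.o Ω) (d : ℤ) ∈ Pc D Ω := by
  classical
  have : CharZero Ω := charZero_of_injective_algebraMap (algebraMap M Ω).injective
  have hd0 : d ≠ 0 := by omega
  obtain ⟨k, l, h1, h2, h3⟩ := bh_two j
  have hn := (sb_val c φ).1 h
  have hg : gl c φ k l ≠ 0 := gl_ne c hd hε φ h3 (hn k) (hn l)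
  obtain ⟨z, hz⟩ : ∃ z : Ω → Fin 3 → Ω, ∀ ζ i, z ζ i = if i = j then ζ else 1 :=
    ⟨_, fun _ _ => rfl⟩
  have hz' : ∀ ζ : Ω, (fun i => if i = j then ζ else 1) = z ζ := fun ζ => funext fun i => (hz ζ i).symm
  have hzp : ∀ ζ ∈ nthRootsFinset d (1 : Ω), ∀ i, z ζ i ^ d = 1 := by
    intro ζ hζ i
    rw [hz]
    split_ifs
    · exact (mem_nthRootsFinset (by omega) 1).1 hζ
    · exact one_pow d
  have hzk : ∀ ζ, z ζ k = 1 := fun ζ => by rw [hz, if_neg h1.symm]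
  have hzl : ∀ ζ, z ζ l = 1 := fun ζ => by rw [hz, if_neg h2.symm]
  have hzj : ∀ ζ, z ζ j = ζ := fun ζ => by rw [hz, if_pos rfl]
  have hinj : ∀ ζ ∈ nthRootsFinset d (1 : Ω), ∀ ζ' ∈ nthRootsFinset d (1 : Ω),
      zs c φ (z ζ) = zs c φ (z ζ') → ζ' = ζ := by
    intro ζ hζ ζ' hζ' he
    obtain ⟨r, hr⟩ := (zs_eq c hε (by omega) h (hzp ζ hζ) (hzp ζ' hζ')).1 he
    have h4 := hr k
    rw [hzk, hzk, mul_one] at h4
    have h5 := hr j
    rw [hzj, hzj, ← h4, one_mul] at h5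
    exact h5
  have hvo : ∀ ζ ∈ nthRootsFinset d (1 : Ω), 1 ≤ vo (zs c φ (z ζ)) (gl c φ k l) := by
    intro ζ hζ
    have h4 : vx (zs c φ (z ζ)) (gl c φ k l) = 0 := by
      obtain ⟨r, -, hr⟩ := zs_spec c hε (by omega) h (hzp ζ hζ)
      rw [vx_gl, hr, hr, hzk, hzl]
      ring
    have h5 := vo_nonneg (zs c φ (z ζ)) (gl c φ k l)
    have h6 : vo (zs c φ (z ζ)) (gl c φ k l) ≠ 0 := fun h7 => (vo_zero hg).1 h7 h4
    omega
  simp only [hz']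
  refine pc_of_le hg (gl_deg c hd hε φ k l) ?_ ?_ ?_
  · exact Finset.sum_induction _ Efc (fun _ _ => Efc.add) Efc.zero fun ζ _ =>
      efc_single _ zero_le_one
  · rw [map_sum, Finset.sum_congr rfl fun ζ _ => bh_deg _ _, Finset.sum_const, nsmul_eq_mul, mul_one]
    have : NeZero (d : Ω) := ⟨Nat.cast_ne_zero.2 hd0⟩
    obtain ⟨ω, hω⟩ := HasEnoughRootsOfUnity.exists_primitiveRoot Ω d
    rw [hω.card_nthRootsFinset]
  · intro ψ
    rw [Finsupp.finsetSum_apply]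
    by_cases h4 : ∃ ζ ∈ nthRootsFinset d (1 : Ω), zs c φ (z ζ) = ψ
    · obtain ⟨ζ, hζ, rfl⟩ := h4
      rw [Finset.sum_eq_single_of_mem ζ hζ, Finsupp.single_eq_same]
      · exact hvo ζ hζ
      · intro ζ' hζ' hne
        rw [Finsupp.single_apply, if_neg]
        intro h5
        exact hne (hinj ζ hζ ζ' hζ' (Option.some_injective _ h5).symm)
    · rw [Finset.sum_eq_zero]
      · exact vo_nonneg _ _
      · intro ζ hζ
        rw [Finsupp.single_apply, if_neg]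
        intro h5
        exact h4 ⟨ζ, hζ, Option.some_injective _ h5⟩

end DH
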