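import Pool.Agent.Lib.MP_f80667_ag.Dh.B4f
import Pool.Agent.Lib.MP_f80667_ag.Dh.B4p
import Pool.Agent.Lib.MP_f80667_ag.Dh.Ba
import Pool.Agent.Lib.MP_f80667_ag.Dh.Bh

/-! Degree `4`: the identity between the correspondences. -/

open ZC BE PE CV QS Polynomial TensorProduct

namespace DH

private theorem b4i_deg {M : Type} [Field M] {E : Crv M} {Ω : Type} [Field Ω] [Algebra M Ω]
    (x : E.V.pt Ω) (n : ℤ) : E.V.deg Ω (Finsupp.single x n) = n :=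
  Finsupp.liftAddHom_apply_single _ _ _

private theorem b4i_two {M : Type} [Field M] {E : Crv M} {Ω : Type} [Field Ω] [Algebra M Ω]
    (x : E.V.pt Ω) : (Finsupp.single x 2 : E.V.pt Ω →₀ ℤ) =
      Finsupp.single x 1 + Finsupp.single x 1 := by
  rw [← Finsupp.single_add]
  rfl

private theorem b4i_fin {G : Type} [AddCommGroup G] (a b₀ b₁ b₂ o : G) :
    (4 : ℕ) • ((2 : ℕ) • (a - o) -
      ((a + b₀ - (o + o)) + (a + b₁ - (o + o)) + (a + b₂ - (o + o)))) =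
      -((4 : ℕ) • ((a + b₀) + (b₁ + b₂) - ((o + o) + (o + o)))) := by
  abel

/-- The points `P`, `- P`. Proof: `pc_of_le` for the function `1 ⊗ X - ψ(X) ⊗ 1` of degree `2`. -/
theorem inv_pc {M : Type} [Field M] {E : Crv M} {a : M[X]} (e : Cu E 2 a) {Ω : Type} [Field Ω]
    [Algebra M Ω] [IsAlgClosed Ω] {ψ ψ' : E.A →ₐ[M] Ω} (h : ψ' e.X = ψ e.X) (h' : ψ' e.U ≠ ψ e.U) :
    (Finsupp.single (some ψ) 1 : E.V.pt Ω →₀ ℤ) +
      (Finsupp.single (some ψ') 1 : E.V.pt Ω →₀ ℤ) - Finsupp.single (E.bp.o Ω) 2 ∈ Pc E Ω := by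
  have hne : ψ ≠ ψ' := fun h1 => h' (by rw [h1])
  obtain ⟨f, hf⟩ : ∃ f : Ω ⊗[M] E.A, f = (1 : Ω) ⊗ₜ[M] e.X - ψ e.X ⊗ₜ[M] (1 : E.A) := ⟨_, rfl⟩
  have hd1 : (E.dgO Ω).d ((1 : Ω) ⊗ₜ[M] e.X) = ((2 : ℕ) : WithBot ℕ) := by
    rw [E.dgO_one, e.deg]
  have hd2 : (E.dgO Ω).d (ψ e.X ⊗ₜ[M] (1 : E.A)) ≤ 0 := by
    have h1 : (ψ e.X ⊗ₜ[M] (1 : E.A) : Ω ⊗[M] E.A) = ψ e.X • (1 : Ω ⊗[M] E.A) := by
      rw [Algebra.TensorProduct.one_def, TensorProduct.smul_tmul', smul_eq_mul, mul_one]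
    rw [h1]
    exact ((E.dgO Ω).smul_le _ _).trans (E.dgO Ω).one.le
  have hd : (E.dgO Ω).d f = ((2 : ℕ) : WithBot ℕ) := by
    have h1 : (E.dgO Ω).d (-(ψ e.X ⊗ₜ[M] (1 : E.A))) < (E.dgO Ω).d ((1 : Ω) ⊗ₜ[M] e.X) := by
      rw [(E.dgO Ω).neg, hd1]
      refine lt_of_le_of_lt hd2 ?_
      rw [← Nat.cast_zero, Nat.cast_lt]
      exact Nat.two_pos
    rw [hf, sub_eq_add_neg, add_comm, (E.dgO Ω).add_eq h1, hd1]
  have hf0 : f ≠ 0 := (E.dgO Ω).ne_zero hd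
  have hv : ∀ φ : E.A →ₐ[M] Ω, φ e.X = ψ e.X → (1 : ℤ) ≤ vo φ f := by
    intro φ h1
    have h2 := (mem_mxp (φ := φ) hf0 1).1 (by
      rw [pow_one, mem_mx, hf, map_sub, vx_tmul, vx_tmul, h1, map_one, one_mul, mul_one, sub_self])
    rwa [Nat.cast_one] at h2
  have hw : Efc ((Finsupp.single (some ψ) 1 : E.V.pt Ω →₀ ℤ) +
      (Finsupp.single (some ψ') 1 : E.V.pt Ω →₀ ℤ)) :=
    (efc_single ψ zero_le_one).add (efc_single ψ' zero_le_one)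
  have hp := pc_of_le hf0 hd.le hw (by rw [map_add, b4i_deg, b4i_deg]; rfl) (by
    intro φ
    have e1 : ∀ χ : E.A →ₐ[M] Ω, (Finsupp.single (some χ) 1 : E.V.pt Ω →₀ ℤ) (some χ) = 1 :=
      fun χ => Finsupp.single_eq_same
    have e2 : ∀ χ : E.A →ₐ[M] Ω, φ ≠ χ →
        (Finsupp.single (some χ) 1 : E.V.pt Ω →₀ ℤ) (some φ) = 0 := fun χ hχ =>
      Finsupp.single_eq_of_ne (fun h1 => hχ (Option.some_injective _ h1))
    rw [Finsupp.add_apply]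
    by_cases h1 : φ = ψ
    · rw [h1, e1]
      have h2 : (Finsupp.single (some ψ') 1 : E.V.pt Ω →₀ ℤ) (some ψ) = 0 :=
        Finsupp.single_eq_of_ne (fun h3 => hne (Option.some_injective _ h3))
      rw [h2, add_zero]
      exact hv ψ rfl
    · rw [e2 ψ h1, zero_add]
      by_cases h2 : φ = ψ'
      · rw [h2, e1]
        exact hv ψ' h
      · rw [e2 ψ' h2]
        exact vo_nonneg φ f)
  exact hp

variable {M : Type} [Field M] [CharZero M] {ε : M} {D : Crv M} (c : Cu D 4 (Af 4 ε))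
  {E : Crv M} (e : Cu E 2 (a4 M)) {Ω : Type} [Field Ω] [Algebra M Ω] [IsAlgClosed Ω]

private theorem b4i_h4 {Ω : Type} [Field Ω] (i m : Fin 3) : (h4 i m : Ω) ^ 4 = 1 := by
  unfold h4
  split_ifs <;> norm_num

/-- The images of `φ` and `σ_1 φ` under the map `0`. -/
private theorem b4i_inv (hε : ε ^ 4 = -1) {φ : D.A →ₐ[M] Ω} (h : φ (sb c) ≠ 0) :
    Finsupp.single ((g4 c hε 0).f e (some φ : D.V.pt Ω)) 1 +
      Finsupp.single ((g4 c hε 0).f e (some (zs c φ (h4 1)) : D.V.pt Ω)) 1 -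
        Finsupp.single (E.bp.o Ω) 2 ∈ Pc E Ω := by
  have hc : CharZero Ω := charZero_of_injective_algebraMap (algebraMap M Ω).injective
  have h1 : zs c φ (h4 1) (sb c) ≠ 0 := zs_gn c hε (by norm_num) h (b4i_h4 1)
  obtain ⟨ψ, hψ, hX, hU⟩ := (g4 c hε 0).f_gn e (φ := φ) h
  obtain ⟨ψ', hψ', hX', hU'⟩ := (g4 c hε 0).f_gn e (φ := zs c φ (h4 1)) h1
  obtain ⟨r, hr, hz⟩ := zs_spec c hε (by norm_num) h (b4i_h4 1)
  have z0 : zs c φ (h4 1) (sc c 0) = r * φ (sc c 0) := by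
    rw [hz 0]
    have h2 : (h4 1 0 : Ω) = 1 := if_neg (by decide)
    rw [h2, one_mul]
  have z1 : zs c φ (h4 1) (sc c 1) = -(r * φ (sc c 1)) := by
    rw [hz 1]
    have h2 : (h4 1 1 : Ω) = -1 := if_pos rfl
    rw [h2]
    ring
  have z2 : zs c φ (h4 1) (sc c 2) = r * φ (sc c 2) := by
    rw [hz 2]
    have h2 : (h4 1 2 : Ω) = 1 := if_neg (by decide)
    rw [h2, one_mul]
  have n0 := (sb_val c φ).1 h 0
  have n1 := (sb_val c φ).1 h 1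
  have n2 := (sb_val c φ).1 h 2
  have hs : φ (sc c 0) ^ 4 + φ (sc c 1) ^ 4 + φ (sc c 2) ^ 4 = 0 := by
    have h2 := congrArg φ (sc_sum c hε)
    rw [map_sum, map_zero, Fin.sum_univ_three, map_pow, map_pow, map_pow] at h2
    exact h2
  have he : algebraMap M Ω ε ^ 4 = -1 := by
    rw [← map_pow, hε, map_neg, map_one]
  have vX := x4_val c 0 h
  have vX' := x4_val c 0 h1
  have vU := u4_val c 0 h
  have vU' := u4_val c 0 h1
  have f1 : (0 + 1 : Fin 3) = 1 := rfl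
  have f2 : (0 + 2 : Fin 3) = 2 := rfl
  rw [f1, f2] at vX vX' vU vU'
  have eX : ψ e.X = (φ (sc c 1) ^ 2 + algebraMap M Ω ε ^ 2 * φ (sc c 0) ^ 2) /
      φ (sc c 2) ^ 2 := hX.trans vX
  have eX' : ψ' e.X = (zs c φ (h4 1) (sc c 1) ^ 2 +
      algebraMap M Ω ε ^ 2 * zs c φ (h4 1) (sc c 0) ^ 2) / zs c φ (h4 1) (sc c 2) ^ 2 :=
    hX'.trans vX'
  have eU : ψ e.U = (algebraMap M Ω ε - algebraMap M Ω ε ^ 3) *
      ((φ (sc c 1) ^ 2 + algebraMap M Ω ε ^ 2 * φ (sc c 0) ^ 2) / φ (sc c 2) ^ 2) *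
        (φ (sc c 1) / φ (sc c 2)) := hU.trans vU
  have eU' : ψ' e.U = (algebraMap M Ω ε - algebraMap M Ω ε ^ 3) *
      ((zs c φ (h4 1) (sc c 1) ^ 2 + algebraMap M Ω ε ^ 2 * zs c φ (h4 1) (sc c 0) ^ 2) /
        zs c φ (h4 1) (sc c 2) ^ 2) * (zs c φ (h4 1) (sc c 1) / zs c φ (h4 1) (sc c 2)) :=
    hU'.trans vU'
  have hXX : ψ' e.X = ψ e.X := by
    rw [eX, eX', z0, z1, z2]
    field_simp
    try ring
  have hUU : ψ' e.U = -ψ e.U := by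
    rw [eU, eU', z0, z1, z2]
    field_simp
    try ring
  have hθ : algebraMap M Ω ε - algebraMap M Ω ε ^ 3 ≠ 0 := by
    intro h2
    have h3 : (algebraMap M Ω ε - algebraMap M Ω ε ^ 3) ^ 2 = 2 := by
      linear_combination (algebraMap M Ω ε ^ 2 - 2) * he
    rw [h2] at h3
    norm_num at h3
  have hx : φ (sc c 1) ^ 2 + algebraMap M Ω ε ^ 2 * φ (sc c 0) ^ 2 ≠ 0 := by
    intro h2
    have h3 : (φ (sc c 1) ^ 2 + algebraMap M Ω ε ^ 2 * φ (sc c 0) ^ 2) *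
        (φ (sc c 1) ^ 2 - algebraMap M Ω ε ^ 2 * φ (sc c 0) ^ 2) = -φ (sc c 2) ^ 4 := by
      linear_combination hs - φ (sc c 0) ^ 4 * he
    rw [h2, zero_mul] at h3
    exact pow_ne_zero 4 n2 (neg_eq_zero.1 h3.symm)
  have hU0 : ψ e.U ≠ 0 := by
    rw [eU]
    exact mul_ne_zero (mul_ne_zero hθ (div_ne_zero hx (pow_ne_zero 2 n2))) (div_ne_zero n1 n2)
  have hne : ψ' e.U ≠ ψ e.U := by
    rw [hUU]
    intro h2
    exact hU0 (self_eq_neg.1 h2.symm)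
  have hp := inv_pc e hXX hne
  rw [← hψ, ← hψ'] at hp
  exact hp

omit [CharZero M] [IsAlgClosed Ω] in
/-- `σ_0 σ_1 φ = σ_2 φ`. -/
private theorem b4i_zs (hε : ε ^ 4 = -1) {φ : D.A →ₐ[M] Ω} (h : φ (sb c) ≠ 0) :
    zs c (zs c φ (h4 1)) (h4 0) = zs c φ (h4 2) := by
  rw [zs_zs c hε (by norm_num) h (b4i_h4 1) (b4i_h4 0)]
  refine (zs_eq c hε (by norm_num) h (fun i => ?_) (b4i_h4 2)).2 ⟨-1, fun i => ?_⟩
  · rw [mul_pow, b4i_h4, b4i_h4, one_mul]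
  · fin_cases i <;> simp [h4]

/-- **The identity.** Proof: the cycle is minus `[φ] + ∑ [σ_i φ] - 4 [∞] = psi 0 ([P] + [- P] - 2 [∞])`, `P` the image of `φ`,
`- P` the image of `σ_1 φ` (`psi4`, `zs_zs`, `zs_eq`: `σ_0 σ_1 φ = σ_2 φ`; `psi_emp`, `fb_none`), `inv_pc`, `psi_pc` with
`exc_pc`. -/
theorem id4 (hε : ε ^ 4 = -1) {φ : D.A →ₐ[M] Ω} (h : φ (sb c) ≠ 0) :
    4 • (2 • ((Finsupp.single (some φ) 1 : D.V.pt Ω →₀ ℤ) - Finsupp.single (D.bp.o Ω) 1) -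
      ∑ i : Fin 3, (g4 c hε i).psi e 2 (Finsupp.mapDomain ((g4 c hε i).f e)
        ((Finsupp.single (some φ) 1 : D.V.pt Ω →₀ ℤ) - Finsupp.single (D.bp.o Ω) 1))) ∈
      Pc D Ω := by
  have h1 : zs c φ (h4 1) (sb c) ≠ 0 := zs_gn c hε (by norm_num) h (b4i_h4 1)
  have he : ∀ i : Fin 3, (g4 c hε i).psi e 2 (Finsupp.single (E.bp.o Ω) 1) =
      Finsupp.single (D.bp.o Ω) 2 := fun i => (g4 c hε i).psi_emp e 2 ((g4 c hε i).fb_none e)
  have hA : ∀ i : Fin 3, (g4 c hε i).psi e 2 (Finsupp.mapDomain ((g4 c hε i).f e)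
        ((Finsupp.single (some φ) 1 : D.V.pt Ω →₀ ℤ) - Finsupp.single (D.bp.o Ω) 1)) =
      (Finsupp.single (some φ) 1 : D.V.pt Ω →₀ ℤ) +
        (Finsupp.single (some (zs c φ (h4 i))) 1 : D.V.pt Ω →₀ ℤ) -
          Finsupp.single (D.bp.o Ω) 2 := by
    intro i
    have h2 : (g4 c hε i).f e (D.bp.o Ω) = E.bp.o Ω := (g4 c hε i).f_not e gn_none
    have h3 : Finsupp.mapDomain ((g4 c hε i).f e)
        ((Finsupp.single (some φ) 1 : D.V.pt Ω →₀ ℤ) - Finsupp.single (D.bp.o Ω) 1) =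
        Finsupp.single ((g4 c hε i).f e (some φ : D.V.pt Ω)) 1 -
          Finsupp.single (E.bp.o Ω) 1 := by
      refine (map_sub (Finsupp.mapDomain.addMonoidHom (M := ℤ) ((g4 c hε i).f e)) _ _).trans ?_
      refine congrArg₂ (· - ·) Finsupp.mapDomain_single ?_
      exact Finsupp.mapDomain_single.trans (by rw [h2])
    rw [h3, map_sub, psi4 c e hε i h, he]
  have hB : (g4 c hε 0).psi e 2 (Finsupp.single ((g4 c hε 0).f e (some φ : D.V.pt Ω)) 1 +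
      Finsupp.single ((g4 c hε 0).f e (some (zs c φ (h4 1)) : D.V.pt Ω)) 1 -
        Finsupp.single (E.bp.o Ω) 2) =
      ((Finsupp.single (some φ) 1 : D.V.pt Ω →₀ ℤ) +
        (Finsupp.single (some (zs c φ (h4 0))) 1 : D.V.pt Ω →₀ ℤ)) +
      ((Finsupp.single (some (zs c φ (h4 1))) 1 : D.V.pt Ω →₀ ℤ) +
        (Finsupp.single (some (zs c φ (h4 2))) 1 : D.V.pt Ω →₀ ℤ)) -
          (Finsupp.single (D.bp.o Ω) 2 + Finsupp.single (D.bp.o Ω) 2) := by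
    rw [b4i_two (E.bp.o Ω), map_sub, map_add, map_add, he, psi4 c e hε 0 h, psi4 c e hε 0 h1,
      b4i_zs c hε h]
  have hk : ∀ χ : D.A →ₐ[M] Ω, χ (g4 c hε 0).b = 0 →
      4 • ((Finsupp.single (some χ) 1 : D.V.pt Ω →₀ ℤ) - Finsupp.single (D.bp.o Ω) 1) ∈
        Pc D Ω := fun χ hχ => exc_pc c (by norm_num) hε hχ
  have hP := psi_pc (g4 c hε 0) e (g4_pa c e hε 0) hk 2 (b4i_inv c e hε h)
  rw [hB] at hP
  rw [Finset.sum_congr rfl fun i _ => hA i, Fin.sum_univ_three]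
  have hN := neg_mem hP
  rw [b4i_two (D.bp.o Ω)] at hN ⊢
  rw [b4i_fin]
  exact hN

end DH
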