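import Mathlib

/-! The six lines of the plane over the field with five elements. -/

namespace DH

private theorem six_sum {A : Type} [AddCommGroup A] (g : ZMod 5 → A) :
    ∑ t, g t = g 0 + g 1 + g 2 + g 3 + g 4 := by
  exact Fin.sum_univ_five g

/-- The six lines of the plane over the field with five elements. Proof: write out all sums. -/
theorem six {A : Type} [AddCommGroup A] (f : ZMod 5 → ZMod 5 → A) :
    ∑ t, f t (-t) + ∑ t, f t (2 * t) + ∑ t, f (3 * t) (4 * t) + ∑ t, f (4 * t) (4 * t) +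
      ∑ t, f t 0 + ∑ t, f 0 t = (5 : ℕ) • f 0 0 + ∑ s, ∑ t, f s t := by
  have n0 : (-0 : ZMod 5) = 0 := by decide
  have n1 : (-1 : ZMod 5) = 4 := by decide
  have n2 : (-2 : ZMod 5) = 3 := by decide
  have n3 : (-3 : ZMod 5) = 2 := by decide
  have n4 : (-4 : ZMod 5) = 1 := by decide
  have a0 : (2 * 0 : ZMod 5) = 0 := by decide
  have a1 : (2 * 1 : ZMod 5) = 2 := by decide
  have a2 : (2 * 2 : ZMod 5) = 4 := by decide
  have a3 : (2 * 3 : ZMod 5) = 1 := by decide
  have a4 : (2 * 4 : ZMod 5) = 3 := by decide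
  have b0 : (3 * 0 : ZMod 5) = 0 := by decide
  have b1 : (3 * 1 : ZMod 5) = 3 := by decide
  have b2 : (3 * 2 : ZMod 5) = 1 := by decide
  have b3 : (3 * 3 : ZMod 5) = 4 := by decide
  have b4 : (3 * 4 : ZMod 5) = 2 := by decide
  have c0 : (4 * 0 : ZMod 5) = 0 := by decide
  have c1 : (4 * 1 : ZMod 5) = 4 := by decide
  have c2 : (4 * 2 : ZMod 5) = 3 := by decide
  have c3 : (4 * 3 : ZMod 5) = 2 := by decide
  have c4 : (4 * 4 : ZMod 5) = 1 := by decide
  simp only [six_sum, n0, n1, n2, n3, n4, a0, a1, a2, a3, a4, b0, b1, b2, b3, b4,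
    c0, c1, c2, c3, c4]
  abel

end DH
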