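import Pool.Agent.Lib.MP_f80667_ag.Dh.B5b
import Pool.Agent.Lib.MP_f80667_ag.Dh.B5s
import Pool.Agent.Lib.MP_f80667_ag.Dh.Bh

/-! Degree `5`: the identity between the correspondences. -/

open ZC BE PE CV QS Polynomial TensorProduct

namespace DH

variable {M : Type} [Field M] [CharZero M] {ε : M} {D : Crv M} (c : Cu D 5 (Af 5 ε)) (R : R5 M)
  {E : Crv M} (e : Cu E 2 (Se.q5 (R.ρ ^ 2))) {Ω : Type} [Field Ω] [Algebra M Ω] [IsAlgClosed Ω]

open Classical in
/-- A parametrisation of the fifth roots of unity by the residues modulo `5`. -/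
private theorem id5_roots (Ω : Type) [Field Ω] [CharZero Ω] [IsAlgClosed Ω] :
    ∃ z : ZMod 5 → Ω, (∀ t, z t ^ 5 = 1) ∧ z 0 = 1 ∧ (∀ s t, z (s + t) = z s * z t) ∧
      Function.Injective z ∧ Finset.univ.image z = nthRootsFinset 5 (1 : Ω) := by
  obtain ⟨ζ, hζ⟩ := HasEnoughRootsOfUnity.exists_primitiveRoot Ω 5
  have h5 : ζ ^ 5 = 1 := hζ.pow_eq_one
  have hz5 : ∀ t : ZMod 5, (ζ ^ t.val) ^ 5 = 1 := fun t => by
    rw [← pow_mul, mul_comm, pow_mul, h5, one_pow]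
  have hinj : Function.Injective fun t : ZMod 5 => ζ ^ t.val := by
    intro s t h
    exact ZMod.val_injective 5 (hζ.pow_inj (ZMod.val_lt s) (ZMod.val_lt t) h)
  refine ⟨fun t => ζ ^ t.val, hz5, ?_, ?_, hinj, ?_⟩
  · change ζ ^ (0 : ZMod 5).val = 1
    rw [ZMod.val_zero, pow_zero]
  · intro s t
    change ζ ^ (s + t).val = ζ ^ s.val * ζ ^ t.val
    rw [← pow_add, ZMod.val_add]
    exact (pow_eq_pow_mod _ h5).symm
  · refine Finset.eq_of_subset_of_card_le ?_ ?_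
    · intro x hx
      obtain ⟨t, -, rfl⟩ := Finset.mem_image.1 hx
      exact (mem_nthRootsFinset (by norm_num) _).2 (hz5 t)
    · rw [hζ.card_nthRootsFinset, Finset.card_image_of_injective _ hinj, Finset.card_univ,
        ZMod.card]

/-- The action of `ζ` with quotient map `g5 i`, up to a common factor. -/
private theorem id5_h5 {Ω : Type} [Field Ω] {z : ZMod 5 → Ω} (z0 : z 0 = 1)
    (za : ∀ s t, z (s + t) = z s * z t) (t : ZMod 5) :
    (∀ m, (![1, z t, z (-t)] : Fin 3 → Ω) m = 1 * h5 0 (z t) m) ∧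
    (∀ m, (![1, z t, z (2 * t)] : Fin 3 → Ω) m = z t * h5 1 (z t) m) ∧
    (∀ m, (![1, z (3 * t), z (4 * t)] : Fin 3 → Ω) m = z (-t) * h5 2 (z t) m) := by
  have e0 : z t * z (-t) = 1 := by rw [← za, add_neg_cancel, z0]
  have e2 : z (2 * t) = z t * z t := by rw [← za, two_mul]
  have e4 : z t ^ 4 = z (4 * t) := by
    have h1 : (4 : ZMod 5) * t = t + t + t + t := by ring
    rw [h1, za, za, za]
    ring
  have hm : z (4 * t) = z (-t) := by
    congr 1
    have h1 : (4 : ZMod 5) = -1 := by decide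
    rw [h1]
    ring
  have e3 : z (3 * t) = z (-t) * z (4 * t) := by
    rw [← za]
    congr 1
    ring
  have c1 : (2 : Fin 3) ≠ 0 := by decide
  refine ⟨?_, ?_, ?_⟩
  · intro m
    fin_cases m
    · simp [h5]
    · simp [h5]
    · simp [h5, e4, hm]
  · intro m
    fin_cases m
    · simp [h5, e4, hm, e0]
    · simp [h5]
    · simp [h5, e2]
  · intro m
    fin_cases m
    · simp [h5, mul_comm (z (-t)) (z t), e0]
    · simp [h5, e3, e4]
    · simp [h5, hm]

/-- **The identity.** Proof: a primitive root `ζ`, `f s t = [zs c φ ![1, ζ ^ s, ζ ^ t]]` (`s`, `t` natural numbers mod `5`):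
`six`, `zs_eq` (`h5 1 (ζ ^ t)` is proportional to `![1, ζ ^ t, ζ ^ (2 t)]`, `h5 2 (ζ ^ t)` to
`![1, ζ ^ (3 t), ζ ^ (4 t)]`, the multiplication of `c_0` to `![1, ζ ^ (4 t), ζ ^ (4 t)]`), `line_pc` for `φ` and for the points
`zs c φ ![1, ζ ^ s, 1]` (`zs_zs`); `psi5`, `psi_emp`, `fb_none`. -/
theorem id5 (hε : ε ^ 5 = -1) {φ : D.A →ₐ[M] Ω} (h : φ (sb c) ≠ 0) :
    5 • ((Finsupp.single (some φ) 1 : D.V.pt Ω →₀ ℤ) - Finsupp.single (D.bp.o Ω) 1) -
      ∑ i : Fin 3, (g5 c R hε i).psi e 5 (Finsupp.mapDomain ((g5 c R hε i).f e)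
        ((Finsupp.single (some φ) 1 : D.V.pt Ω →₀ ℤ) - Finsupp.single (D.bp.o Ω) 1)) ∈
      Pc D Ω := by
  classical
  have : CharZero Ω := charZero_of_injective_algebraMap (algebraMap M Ω).injective
  obtain ⟨z, z5, z0, za, zi, zim⟩ := id5_roots Ω
  have hd : 0 < 5 := by norm_num
  have hd2 : 2 ≤ 5 := by norm_num
  -- sums over the roots of unity
  have hsum : ∀ g : Ω → (D.V.pt Ω →₀ ℤ), ∑ ζ ∈ nthRootsFinset 5 (1 : Ω), g ζ = ∑ t, g (z t) := by
    intro g
    rw [← zim, Finset.sum_image fun s _ t _ h => zi h]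
  set f : ZMod 5 → ZMod 5 → (D.V.pt Ω →₀ ℤ) := fun s t =>
    Finsupp.single (some (zs c φ ![1, z s, z t]) : D.V.pt Ω) 1 with hf
  have hv : ∀ s t : ZMod 5, ∀ i, (![1, z s, z t] : Fin 3 → Ω) i ^ 5 = 1 := by
    intro s t i
    fin_cases i
    · exact one_pow 5
    · exact z5 s
    · exact z5 t
  have hh : ∀ (i : Fin 3) (t : ZMod 5), ∀ m, h5 i (z t) m ^ 5 = 1 := by
    intro i t m
    unfold h5
    split_ifs
    · exact one_pow 5
    · exact z5 t
    · rw [← pow_mul, mul_comm, pow_mul, z5, one_pow]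
  have hf0 : f 0 0 = (Finsupp.single (some φ) 1 : D.V.pt Ω →₀ ℤ) := by
    have h1 : (![1, z 0, z 0] : Fin 3 → Ω) = fun _ => 1 := by
      funext i
      fin_cases i
      · rfl
      · exact z0
      · exact z0
    change (Finsupp.single (some (zs c φ ![1, z 0, z 0])) 1 : D.V.pt Ω →₀ ℤ) = _
    rw [h1, zs_one c hε hd h]
  -- the three pull-backs
  have hpsi : ∀ i : Fin 3, (g5 c R hε i).psi e 5 (Finsupp.mapDomain ((g5 c R hε i).f e)
      ((Finsupp.single (some φ) 1 : D.V.pt Ω →₀ ℤ) - Finsupp.single (D.bp.o Ω) 1)) =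
      ∑ t, (Finsupp.single (some (zs c φ (h5 i (z t)))) 1 : D.V.pt Ω →₀ ℤ) -
        Finsupp.single (D.bp.o Ω) 5 := by
    intro i
    have h1 := (Finsupp.mapDomain.addMonoidHom (M := ℤ) ((g5 c R hε i).f e)).map_sub
      (Finsupp.single (some φ : D.V.pt Ω) 1) (Finsupp.single (D.bp.o Ω) 1)
    have h2 : Finsupp.mapDomain ((g5 c R hε i).f e)
        ((Finsupp.single (some φ) 1 : D.V.pt Ω →₀ ℤ) - Finsupp.single (D.bp.o Ω) 1) =
        (Finsupp.single ((g5 c R hε i).f e (some φ : D.V.pt Ω)) 1 : E.V.pt Ω →₀ ℤ) -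
          (Finsupp.single (none : E.V.pt Ω) 1 : E.V.pt Ω →₀ ℤ) := by
      refine h1.trans ?_
      rw [Finsupp.mapDomain.addMonoidHom_apply, Finsupp.mapDomain.addMonoidHom_apply,
        Finsupp.mapDomain_single, Finsupp.mapDomain_single]
      have h3 : (g5 c R hε i).f e (D.bp.o Ω) = (none : E.V.pt Ω) :=
        (g5 c R hε i).f_not e gn_none
      rw [h3]
    have h4 : (g5 c R hε i).psi e 5
        (Finsupp.single ((g5 c R hε i).f e (some φ : D.V.pt Ω)) 1 : E.V.pt Ω →₀ ℤ) =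
        ∑ ζ ∈ nthRootsFinset 5 (1 : Ω),
          (Finsupp.single (some (zs c φ (h5 i ζ))) 1 : D.V.pt Ω →₀ ℤ) := psi5 c R e hε i h
    have h5' : (g5 c R hε i).psi e 5 (Finsupp.single (none : E.V.pt Ω) 1 : E.V.pt Ω →₀ ℤ) =
        Finsupp.single (D.bp.o Ω) 5 :=
      (g5 c R hε i).psi_emp e 5 ((g5 c R hε i).fb_none e)
    rw [h2, map_sub, h4, hsum, h5']
  have hL1 : ∑ t, (Finsupp.single (some (zs c φ (h5 0 (z t)))) 1 : D.V.pt Ω →₀ ℤ) =
      ∑ t, f t (-t) := by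
    refine Finset.sum_congr rfl fun t _ => ?_
    rw [hf, (zs_eq c hε hd h (hh 0 t) (hv t (-t))).2 ⟨1, (id5_h5 z0 za t).1⟩]
  have hL2 : ∑ t, (Finsupp.single (some (zs c φ (h5 1 (z t)))) 1 : D.V.pt Ω →₀ ℤ) =
      ∑ t, f t (2 * t) := by
    refine Finset.sum_congr rfl fun t _ => ?_
    rw [hf, (zs_eq c hε hd h (hh 1 t) (hv t (2 * t))).2 ⟨z t, (id5_h5 z0 za t).2.1⟩]
  have hL3 : ∑ t, (Finsupp.single (some (zs c φ (h5 2 (z t)))) 1 : D.V.pt Ω →₀ ℤ) =
      ∑ t, f (3 * t) (4 * t) := by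
    refine Finset.sum_congr rfl fun t _ => ?_
    rw [hf, (zs_eq c hε hd h (hh 2 t) (hv (3 * t) (4 * t))).2 ⟨z (-t), (id5_h5 z0 za t).2.2⟩]
  -- the three lines through the point
  have hone : ∀ (j : Fin 3) (t : ZMod 5), ∀ i : Fin 3,
      (if i = j then z t else (1 : Ω)) ^ 5 = 1 := by
    intro j t i
    split_ifs
    · exact z5 t
    · exact one_pow 5
  have hline : ∀ {ψ : D.A →ₐ[M] Ω}, ψ (sb c) ≠ 0 → ∀ j : Fin 3,
      ∑ t, (Finsupp.single (some (zs c ψ fun i => if i = j then z t else 1)) 1 :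
        D.V.pt Ω →₀ ℤ) - Finsupp.single (D.bp.o Ω) 5 ∈ Pc D Ω := by
    intro ψ hψ j
    have h1 := line_pc c hd2 hε hψ j
    rw [hsum] at h1
    exact h1
  have hM0 : ∑ t, (Finsupp.single (some (zs c φ fun i => if i = 0 then z t else 1)) 1 :
      D.V.pt Ω →₀ ℤ) = ∑ t, f (4 * t) (4 * t) := by
    refine Finset.sum_congr rfl fun t _ => ?_
    have e0 : z (4 * t) * z t = 1 := by
      rw [← za, ← z0]
      congr 1
      have h1 : (4 : ZMod 5) = -1 := by decide
      rw [h1]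
      ring
    rw [hf, (zs_eq c hε hd h (hone 0 t) (hv (4 * t) (4 * t))).2 ⟨z (4 * t), ?_⟩]
    intro i
    fin_cases i
    · simp [e0]
    · simp
    · simp
  have hM1 : ∑ t, (Finsupp.single (some (zs c φ fun i => if i = 1 then z t else 1)) 1 :
      D.V.pt Ω →₀ ℤ) = ∑ t, f t 0 := by
    refine Finset.sum_congr rfl fun t _ => ?_
    have e1 : (fun i : Fin 3 => if i = 1 then z t else 1) = ![1, z t, z 0] := by
      funext i
      fin_cases i
      · rfl
      · rfl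
      · exact z0.symm
    rw [hf, e1]
  have hM2 : ∑ t, (Finsupp.single (some (zs c φ fun i => if i = 2 then z t else 1)) 1 :
      D.V.pt Ω →₀ ℤ) = ∑ t, f 0 t := by
    refine Finset.sum_congr rfl fun t _ => ?_
    have e1 : (fun i : Fin 3 => if i = 2 then z t else 1) = ![1, z 0, z t] := by
      funext i
      fin_cases i
      · rfl
      · exact z0.symm
      · rfl
    rw [hf, e1]
  -- the parallel lines
  have hP : ∀ s, ∑ t, f s t - Finsupp.single (D.bp.o Ω) 5 ∈ Pc D Ω := by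
    intro s
    have hv' : ∀ i, (![1, z s, 1] : Fin 3 → Ω) i ^ 5 = 1 := by
      have h1 := hv s 0
      rw [z0] at h1
      exact h1
    have h1 := hline (zs_gn c hε hd h hv') 2
    have h2 : ∑ t, (Finsupp.single (some (zs c (zs c φ ![1, z s, 1])
        fun i => if i = 2 then z t else 1)) 1 : D.V.pt Ω →₀ ℤ) = ∑ t, f s t := by
      refine Finset.sum_congr rfl fun t _ => ?_
      have e1 : (fun i : Fin 3 => (if i = 2 then z t else 1) * (![1, z s, 1] : Fin 3 → Ω) i) =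
          ![1, z s, z t] := by
        funext i
        fin_cases i
        · exact mul_one _
        · exact one_mul _
        · exact mul_one _
      rw [hf, zs_zs c hε hd h hv' (hone 2 t), e1]
    rw [h2] at h1
    exact h1
  have h0 := hline h 0
  have h1 := hline h 1
  have h2 := hline h 2
  rw [hM0] at h0
  rw [hM1] at h1
  rw [hM2] at h2
  have hs := six f
  have hS : ∑ s, (∑ t, f s t - Finsupp.single (D.bp.o Ω) 5) ∈ Pc D Ω := sum_mem fun s _ => hP s
  have key : 5 • ((Finsupp.single (some φ) 1 : D.V.pt Ω →₀ ℤ) - Finsupp.single (D.bp.o Ω) 1) -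
      ∑ i : Fin 3, (g5 c R hε i).psi e 5 (Finsupp.mapDomain ((g5 c R hε i).f e)
        ((Finsupp.single (some φ) 1 : D.V.pt Ω →₀ ℤ) - Finsupp.single (D.bp.o Ω) 1)) =
      (∑ t, f (4 * t) (4 * t) - Finsupp.single (D.bp.o Ω) 5) +
      (∑ t, f t 0 - Finsupp.single (D.bp.o Ω) 5) + (∑ t, f 0 t - Finsupp.single (D.bp.o Ω) 5) -
      ∑ s, (∑ t, f s t - Finsupp.single (D.bp.o Ω) 5) := by
    rw [Finset.sum_congr rfl fun i _ => hpsi i, Fin.sum_univ_three, hL1, hL2, hL3,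
      Finset.sum_sub_distrib, Finset.sum_const, Finset.card_univ, ZMod.card]
    have e5 : (Finsupp.single (D.bp.o Ω) 5 : D.V.pt Ω →₀ ℤ) =
        5 • Finsupp.single (D.bp.o Ω) 1 := by
      rw [Finsupp.smul_single]
      rfl
    rw [hf0] at hs
    rw [e5]
    have hs' : ∑ s, ∑ t, f s t = ∑ t, f t (-t) + ∑ t, f t (2 * t) + ∑ t, f (3 * t) (4 * t) +
        ∑ t, f (4 * t) (4 * t) + ∑ t, f t 0 + ∑ t, f 0 t -
        (5 : ℕ) • (Finsupp.single (some φ) 1 : D.V.pt Ω →₀ ℤ) := by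
      rw [hs]
      abel
    rw [hs']
    abel
  rw [key]
  exact sub_mem (add_mem (add_mem h0 h1) h2) hS

end DH
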