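import Pool.Agent.Lib.MP_f80667_ag.Dh.B5a
import Pool.Agent.Lib.MP_f80667_ag.Dh.Bm
import Pool.Agent.Lib.MP_f80667_ag.Dh.Bp

/-! Degree `5`: the three maps are unramified where `b ≠ 0`. -/

open ZC BE PE CV QS Polynomial TensorProduct

namespace DH

variable {M : Type} [Field M] [CharZero M] {ε : M} {D : Crv M} (c : Cu D 5 (Af 5 ε)) (R : R5 M)
  {E : Crv M} (e : Cu E 2 (Se.q5 (R.ρ ^ 2))) {Ω : Type} [Field Ω] [Algebra M Ω] [IsAlgClosed Ω]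

private theorem b5_prod {A : Type} [CommRing A] (f : Fin 3 → A) (i : Fin 3) :
    ∏ j, f j = f i * f (i + 1) * f (i + 2) := by
  rw [Fin.prod_univ_three]
  fin_cases i
  · rfl
  · change f 0 * f 1 * f 2 = f 1 * f 2 * f 0
    ring
  · change f 0 * f 1 * f 2 = f 2 * f 0 * f 1
    ring

omit [CharZero M] [IsAlgClosed Ω] in
private theorem b5_tm (w : Ω) (y : D.A) : w ⊗ₜ[M] y =
    algebraMap Ω (Ω ⊗[M] D.A) w * ((1 : Ω) ⊗ₜ[M] y) := by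
  rw [Algebra.TensorProduct.algebraMap_apply, Algebra.TensorProduct.tmul_mul_tmul, one_mul, mul_one]
  rfl

omit [CharZero M] [IsAlgClosed Ω] in
private theorem b5_ne {φ : D.A →ₐ[M] Ω} {f : Ω ⊗[M] D.A} (h : vo φ f = 1) : f ≠ 0 := by
  rintro rfl
  have h1 : ¬ ∃ z : D.V.pt Ω →₀ ℤ, Efc z ∧ idl D z = Ideal.span {(0 : Ω ⊗[M] D.A)} := by
    rintro ⟨z, -, hz⟩
    refine idl_ne_bot z ?_
    rw [hz]
    exact Ideal.span_singleton_eq_bot.2 rfl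
  unfold vo CV.cy at h
  rw [dif_neg h1] at h
  exact zero_ne_one h

/-- **Unramified.** Proof: `h = 1 ⊗ U - ψ(U) ⊗ 1` with the pull-back
`H = - 2 ρ⁻⁵ c_i(φ)⁻⁵ c_j ^ 5 c_k ^ 5 (c_i(φ) ^ 5 c_j ^ 5 - c_j(φ) ^ 5 c_i ^ 5)`, `k = 5`: `vo_pw`, `vo_gl`. -/
theorem g5_pa (hε : ε ^ 5 = -1) (i : Fin 3) : (g5 c R hε i).Pa e Ω := by
  intro φ hφ
  have hb : φ (sb c) ≠ 0 := hφ
  have hsc := (sb_val c φ).1 hb
  obtain ⟨a, ha⟩ : ∃ a : Ω, a = φ (u5 c R i) / φ (sb c) ^ 5 := ⟨_, rfl⟩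
  refine ⟨(1 : Ω) ⊗ₜ[M] e.U - a ⊗ₜ[M] (1 : E.A), (1 : Ω) ⊗ₜ[M] u5 c R i - a ⊗ₜ[M] (sb c ^ 5), 5,
    ?_, ?_, ?_⟩
  · intro χ ψ hχ hf
    obtain ⟨ψ', h1, -, h3⟩ := (g5 c R hε i).f_gn e hχ
    obtain rfl : ψ' = ψ := Option.some_injective _ (h1.symm.trans hf)
    have h4 : ψ' e.U = χ (u5 c R i) / χ (sb c) ^ 5 := h3
    have h5 : χ (sb c) ≠ 0 := hχ
    have h6 : (g5 c R hε i).b = sb c := rfl
    rw [map_sub, map_sub, vx_tmul, vx_tmul, vx_tmul, vx_tmul, h6, h4, map_one, map_pow]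
    field_simp
  · intro ψ hf
    obtain ⟨ψ', h1, -, h3⟩ := (g5 c R hε i).f_gn e hφ
    obtain rfl : ψ' = ψ := Option.some_injective _ (h1.symm.trans hf)
    have h4 : ψ' e.U = φ (u5 c R i) / φ (sb c) ^ 5 := h3
    rw [map_sub, vx_tmul, vx_tmul, h4, map_one, ha]
    ring
  · have hne : i ≠ i + 1 := by
      fin_cases i <;> decide
    have hpw := vo_pw c (by norm_num : 2 ≤ 5) hε hne (hsc i) (hsc (i + 1))
    rw [vo_gl c (by norm_num : 2 ≤ 5) hε hb hne] at hpw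
    have hpw0 := b5_ne hpw
    have hf1 : vx φ ((1 : Ω) ⊗ₜ[M] (sc c (i + 1) ^ 5 * sc c (i + 2) ^ 5)) ≠ 0 := by
      rw [vx_tmul, one_mul, map_mul, map_pow, map_pow]
      exact mul_ne_zero (pow_ne_zero _ (hsc _)) (pow_ne_zero _ (hsc _))
    have hf0 : (1 : Ω) ⊗ₜ[M] (sc c (i + 1) ^ 5 * sc c (i + 2) ^ 5) ≠ 0 := by
      intro h
      rw [h, map_zero] at hf1
      exact hf1 rfl
    have hρ : algebraMap M Ω (R.ρ ^ 5)⁻¹ ≠ 0 := by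
      rw [_root_.map_ne_zero]
      refine inv_ne_zero (pow_ne_zero _ ?_)
      intro h
      have h1 := R.hρ
      rw [h, zero_pow (by norm_num)] at h1
      norm_num at h1
    have h2 : (2 : Ω) ≠ 0 := by
      have h1 : (2 : M) ≠ 0 := two_ne_zero
      have h3 : algebraMap M Ω 2 ≠ 0 := (_root_.map_ne_zero _).2 h1
      rwa [map_ofNat] at h3
    obtain ⟨C, hC⟩ : ∃ C : Ω, C = -2 * algebraMap M Ω (R.ρ ^ 5)⁻¹ * (φ (sc c i))⁻¹ ^ 5 := ⟨_, rfl⟩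
    have hC0 : C ≠ 0 := by
      rw [hC]
      exact mul_ne_zero (mul_ne_zero (neg_ne_zero.2 h2) hρ) (pow_ne_zero _ (inv_ne_zero (hsc i)))
    have key : (1 : Ω) ⊗ₜ[M] u5 c R i - a ⊗ₜ[M] (sb c ^ 5) =
        C • (((1 : Ω) ⊗ₜ[M] (sc c (i + 1) ^ 5 * sc c (i + 2) ^ 5)) *
          ((φ (sc c i) ^ 5) ⊗ₜ[M] (sc c (i + 1) ^ 5) -
            (φ (sc c (i + 1)) ^ 5) ⊗ₜ[M] (sc c i ^ 5))) := by
      have hsb : sb c = sc c i * sc c (i + 1) * sc c (i + 2) := b5_prod (sc c) i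
      have hφb : φ (sb c) = φ (sc c i) * φ (sc c (i + 1)) * φ (sc c (i + 2)) := by
        rw [hsb, map_mul, map_mul]
      have hφu : φ (u5 c R i) = algebraMap M Ω (R.ρ ^ 5)⁻¹ *
          (-2 * (φ (sc c (i + 1)) ^ 10 * φ (sc c (i + 2)) ^ 5) - φ (sb c) ^ 5) := by
        rw [u5, map_smul, Algebra.smul_def]
        simp only [map_sub, map_mul, map_neg, map_pow, map_ofNat]
      have h1 := hsc i
      have h3 := hsc (i + 1)
      have h4 := hsc (i + 2)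
      have ha' : a = algebraMap M Ω (R.ρ ^ 5)⁻¹ *
          (-2 * φ (sc c (i + 1)) ^ 5 * (φ (sc c i))⁻¹ ^ 5 - 1) := by
        rw [ha, hφu, hφb]
        generalize algebraMap M Ω (R.ρ ^ 5)⁻¹ = r
        generalize φ (sc c i) = x at *
        generalize φ (sc c (i + 1)) = y at *
        generalize φ (sc c (i + 2)) = z at *
        field_simp
      have hU : (1 : Ω) ⊗ₜ[M] u5 c R i = algebraMap Ω (Ω ⊗[M] D.A) (algebraMap M Ω (R.ρ ^ 5)⁻¹) *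
          (-2 * (((1 : Ω) ⊗ₜ[M] sc c (i + 1)) ^ 10 * ((1 : Ω) ⊗ₜ[M] sc c (i + 2)) ^ 5) -
            (((1 : Ω) ⊗ₜ[M] sc c i) * ((1 : Ω) ⊗ₜ[M] sc c (i + 1)) *
              ((1 : Ω) ⊗ₜ[M] sc c (i + 2))) ^ 5) := by
        have h5 : (1 : Ω) ⊗ₜ[M] u5 c R i =
            (Algebra.TensorProduct.includeRight : D.A →ₐ[M] Ω ⊗[M] D.A) (u5 c R i) := rfl
        rw [h5, u5, hsb, map_smul, Algebra.smul_def,
          IsScalarTower.algebraMap_apply M Ω (Ω ⊗[M] D.A)]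
        simp only [map_sub, map_mul, map_neg, map_pow, map_ofNat]
        rfl
      have hB : (1 : Ω) ⊗ₜ[M] (sb c ^ 5) = (((1 : Ω) ⊗ₜ[M] sc c i) *
          ((1 : Ω) ⊗ₜ[M] sc c (i + 1)) * ((1 : Ω) ⊗ₜ[M] sc c (i + 2))) ^ 5 := by
        have h5 : (1 : Ω) ⊗ₜ[M] (sb c ^ 5) =
            (Algebra.TensorProduct.includeRight : D.A →ₐ[M] Ω ⊗[M] D.A) (sb c ^ 5) := rfl
        rw [h5, hsb]
        simp only [map_mul, map_pow]
        rfl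
      have hP : ∀ m : Fin 3, (1 : Ω) ⊗ₜ[M] (sc c m ^ 5) = ((1 : Ω) ⊗ₜ[M] sc c m) ^ 5 := by
        intro m
        exact map_pow (Algebra.TensorProduct.includeRight : D.A →ₐ[M] Ω ⊗[M] D.A) (sc c m) 5
      have hP2 : (1 : Ω) ⊗ₜ[M] (sc c (i + 1) ^ 5 * sc c (i + 2) ^ 5) =
          ((1 : Ω) ⊗ₜ[M] sc c (i + 1)) ^ 5 * ((1 : Ω) ⊗ₜ[M] sc c (i + 2)) ^ 5 := by
        have h5 := map_mul (Algebra.TensorProduct.includeRight : D.A →ₐ[M] Ω ⊗[M] D.A)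
          (sc c (i + 1) ^ 5) (sc c (i + 2) ^ 5)
        rw [map_pow, map_pow] at h5
        exact h5
      rw [b5_tm a, b5_tm (φ (sc c i) ^ 5), b5_tm (φ (sc c (i + 1)) ^ 5), hU, hB, hP, hP, hP2,
        Algebra.smul_def, hC, ha']
      have hst : algebraMap Ω (Ω ⊗[M] D.A) (φ (sc c i)) *
          algebraMap Ω (Ω ⊗[M] D.A) (φ (sc c i))⁻¹ = 1 := by
        rw [← map_mul, mul_inv_cancel₀ h1, map_one]
      simp only [map_sub, map_mul, map_neg, map_pow, map_ofNat, map_one]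
      generalize algebraMap Ω (Ω ⊗[M] D.A) (φ (sc c i))⁻¹ = s at *
      generalize algebraMap Ω (Ω ⊗[M] D.A) (φ (sc c i)) = t at *
      generalize algebraMap Ω (Ω ⊗[M] D.A) (φ (sc c (i + 1))) = y at *
      generalize algebraMap Ω (Ω ⊗[M] D.A) ((algebraMap M Ω) (R.ρ ^ 5)⁻¹) = r at *
      generalize (1 : Ω) ⊗ₜ[M] sc c i = X at *
      generalize (1 : Ω) ⊗ₜ[M] sc c (i + 1) = Y at *
      generalize (1 : Ω) ⊗ₜ[M] sc c (i + 2) = Z at *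
      have hst5 : (t * s) ^ 5 = 1 := by rw [hst, one_pow]
      linear_combination (2 * r * Y ^ 10 * Z ^ 5) * hst5
    have i1 : IsDomain (Ω ⊗[M] D.A) := D.domO Ω
    rw [key, vo_smul hC0, vo_mul hf0 hpw0, (vo_zero hf0).2 hf1, hpw, zero_add]

end DH
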