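import Pool.Agent.Lib.MP_f80667_ag.Cv.ExAll

/-!
Divisibility and norms over unramified extensions, `l` prime to the residue characteristic.
-/

open ZC BE PE CV Polynomial IntermediateField

namespace DH

variable {F : Type} [Field F] {K Ω : Type} [Field K] [Field Ω] [Algebra K Ω] [Algebra F K]
  [Algebra F Ω] [IsScalarTower F K Ω]

/-- Every class over `M` is divisible over an unramified extension. -/
def DvL (L : Ld K Ω) (C : Crv F) (l : ℕ) : Prop :=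
  ∀ M : IntermediateField K Ω, FiniteDimensional K M → ∀ z ∈ Zd C.V M,
    ∃ N : ℕ, N ≠ 0 ∧ ∀ N' : ℕ, N' ≠ 0 → N ∣ N' →
      ∃ z' ∈ Zd C.V (L.Ur M N'), z - l • z' ∈ Pc C Ω

/-- Every class over `M` is a norm from the unramified extensions up to a multiple of `l`. -/
def NmL (L : Ld K Ω) (C : Crv F) (l : ℕ) : Prop :=
  ∀ M : IntermediateField K Ω, FiniteDimensional K M → ∀ z ∈ Zd C.V M, ∀ N : ℕ, N ≠ 0 →
    ∃ z' ∈ Zd C.V (L.Ur M N), ∃ z'' ∈ Zd C.V M, z - rtr C.V M (L.Ur M N) z' - l • z'' ∈ Pc C Ω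

variable [CharZero K] [IsAlgClosure K Ω] {L : Ld K Ω} {C : Crv F}

/-- Proof: `exDv`, `exSl` over `L.Ur M N'` (`Ld.ur_fin`). -/
theorem dvL_of (m : Mod C (Ok L) K) {l : ℕ} (hl : l.Prime) (h : l ≠ L.p) : DvL L C l := by
  intro M hM z hz
  obtain ⟨N, hN, h1⟩ := exDv m hl.ne_zero M hM z hz
  refine ⟨N, hN, fun N' hN' hd => ?_⟩
  obtain ⟨z', hz', r, hr, h2⟩ := h1 N' hN' hd
  obtain ⟨a, ha, b, hb, hab⟩ := AddSubgroup.mem_sup.1 h2
  have hf : FiniteDimensional K (L.Ur M N') := L.ur_fin M N' hN'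
  obtain ⟨z'', hz'', h3⟩ := exSl m hl h (L.Ur M N') hf r hr b hb
  refine ⟨z' + z'', add_mem hz' hz'', ?_⟩
  have h4 : z - l • (z' + z'') = a + (b - l • z'') := by
    rw [smul_add, ← sub_sub, ← hab, add_sub_assoc]
  rw [h4]
  exact add_mem ha h3

/-- Proof: `exNm`, `exSl`. -/
theorem nmL_of (m : Mod C (Ok L) K) {l : ℕ} (hl : l.Prime) (h : l ≠ L.p) : NmL L C l := by
  intro M hM z hz N hN
  obtain ⟨z', hz', r, hr, h2⟩ := exNm m M hM z hz N hN
  obtain ⟨a, ha, b, hb, hab⟩ := AddSubgroup.mem_sup.1 h2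
  obtain ⟨z'', hz'', h3⟩ := exSl m hl h M hM r hr b hb
  refine ⟨z', hz', z'', hz'', ?_⟩
  rw [← hab, add_sub_assoc]
  exact add_mem ha h3

end DH
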