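import Pool.Agent.Lib.MP_f80667_ag.Dh.Ba
import Pool.Agent.Lib.MP_f80667_ag.Dh.Bc

/-! Correspondences from rational maps. -/

open ZC BE PE CV QS Polynomial TensorProduct

namespace DH

variable {M : Type} [Field M] {D E : Crv M} {n : ℕ} {a : M[X]} (e : Cu E n a)
  {K Ω : Type} [Field K] [Field Ω] [Algebra K Ω] [Algebra M K] [Algebra M Ω]
  [IsScalarTower M K Ω] [IsAlgClosed Ω]

/-- Three rational maps with the same `b`. Proof: `f_act`, `psi_act`, `psi_deg`, `psi_pc`; `id`: a cycle of degree `0` is a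
combination of the `[φ] - [∞]`; if `φ b = 0` then `g.f e (some φ) = none` and only `k • q • ([φ] - [∞])` remains. -/
noncomputable def tf_of (b : D.A) (g : Fin 3 → Gm D n a) (hb : ∀ i, (g i).b = b)
    (hp : ∀ i, (g i).Pa e Ω) (r : ℤ) (k q : ℕ) (hk : ∀ φ : D.A →ₐ[M] Ω, φ b = 0 →
      k • ((Finsupp.single (some φ) 1 : D.V.pt Ω →₀ ℤ) - Finsupp.single (D.bp.o Ω) 1) ∈ Pc D Ω)
    (hid : ∀ φ : D.A →ₐ[M] Ω, φ b ≠ 0 →
      k • (q • ((Finsupp.single (some φ) 1 : D.V.pt Ω →₀ ℤ) - Finsupp.single (D.bp.o Ω) 1) -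
        ∑ i, (g i).psi e r (Finsupp.mapDomain ((g i).f e)
          ((Finsupp.single (some φ) 1 : D.V.pt Ω →₀ ℤ) - Finsupp.single (D.bp.o Ω) 1))) ∈
        Pc D Ω) : Tf D E K Ω k q where
  f i := (g i).f e
  psi i := (g i).psi e r
  f_act i γ P := (g i).f_act e γ P
  psi_act i γ z := (g i).psi_act e r γ z
  deg i z hz := by rw [(g i).psi_deg e r z, hz, mul_zero]
  pc i z hz := psi_pc (g i) e (hp i) (by rw [hb]; exact hk) r hz
  id z hz := by
    classical
    obtain ⟨T, hT⟩ : ∃ T : (D.V.pt Ω →₀ ℤ) →+ (D.V.pt Ω →₀ ℤ), ∀ w, T w =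
        k • (q • w - ∑ i, (g i).psi e r (Finsupp.mapDomain ((g i).f e) w)) := by
      refine ⟨AddMonoidHom.mk' (fun w =>
        k • (q • w - ∑ i, (g i).psi e r (Finsupp.mapDomain ((g i).f e) w))) fun v w => ?_,
        fun _ => rfl⟩
      have h1 : ∑ i, (g i).psi e r (Finsupp.mapDomain ((g i).f e) (v + w)) =
          ∑ i, (g i).psi e r (Finsupp.mapDomain ((g i).f e) v) +
            ∑ i, (g i).psi e r (Finsupp.mapDomain ((g i).f e) w) := by
        rw [← Finset.sum_add_distrib]
        refine Finset.sum_congr rfl fun i _ => ?_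
        rw [Finsupp.mapDomain_add, map_add]
      rw [h1, smul_add, add_sub_add_comm, smul_add]
    have h1 : ∀ P : D.V.pt Ω,
        T ((Finsupp.single P 1 : D.V.pt Ω →₀ ℤ) - Finsupp.single (D.bp.o Ω) 1) ∈ Pc D Ω := by
      intro P
      by_cases hP : ∃ φ : D.A →ₐ[M] Ω, P = some φ
      · obtain ⟨φ, rfl⟩ := hP
        by_cases hb0 : φ b = 0
        · have h2 : ∀ i, Finsupp.mapDomain ((g i).f e)
              ((Finsupp.single (some φ) 1 : D.V.pt Ω →₀ ℤ) - Finsupp.single (D.bp.o Ω) 1) = 0 := by
            intro i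
            have e1 : (g i).f e (some φ : D.V.pt Ω) = none := (g i).f_not e (by
              rw [gn_some, hb i]
              exact not_not.2 hb0)
            have e2 : (g i).f e (D.bp.o Ω : D.V.pt Ω) = none := (g i).f_not e gn_none
            have e3 : Finsupp.mapDomain ((g i).f e)
                ((Finsupp.single (some φ) 1 : D.V.pt Ω →₀ ℤ) - Finsupp.single (D.bp.o Ω) 1) =
                Finsupp.mapDomain ((g i).f e) (Finsupp.single (some φ) 1 : D.V.pt Ω →₀ ℤ) -
                  Finsupp.mapDomain ((g i).f e) (Finsupp.single (D.bp.o Ω) 1) :=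
              map_sub (Finsupp.mapDomain.addMonoidHom (M := ℤ) ((g i).f e)) _ _
            rw [e3, Finsupp.mapDomain_single, Finsupp.mapDomain_single, e1, e2, sub_self]
          rw [hT, Finset.sum_eq_zero fun i _ => by rw [h2 i, map_zero], sub_zero, smul_comm]
          exact nsmul_mem (hk φ hb0) q
        · rw [hT]
          exact hid φ hb0
      · have h2 : P = D.bp.o Ω := by
          rcases P with _ | φ
          · rfl
          · exact absurd ⟨φ, rfl⟩ hP
        rw [h2, sub_self, map_zero]
        exact zero_mem _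
    have h2 : ∀ w : D.V.pt Ω →₀ ℤ, T w - T (Finsupp.single (D.bp.o Ω) (D.V.deg Ω w)) ∈ Pc D Ω := by
      intro w
      induction w using Finsupp.induction_linear with
      | zero =>
        rw [map_zero, map_zero, Finsupp.single_zero, map_zero, sub_zero]
        exact zero_mem _
      | add v w hv hw =>
        rw [map_add, map_add, Finsupp.single_add, map_add, add_sub_add_comm]
        exact add_mem hv hw
      | single P c =>
        have h3 : D.V.deg Ω (Finsupp.single P c) = c := by
          rw [Vr.deg, Finsupp.liftAddHom_apply_single, AddMonoidHom.id_apply]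
        have h4 : T (Finsupp.single P c) - T (Finsupp.single (D.bp.o Ω) c) =
            c • T ((Finsupp.single P 1 : D.V.pt Ω →₀ ℤ) - Finsupp.single (D.bp.o Ω) 1) := by
          rw [← map_zsmul, smul_sub, Finsupp.smul_single, Finsupp.smul_single, smul_eq_mul,
            mul_one, map_sub]
        rw [h3, h4]
        exact zsmul_mem (h1 P) c
    have h3 := h2 z
    rw [hz, Finsupp.single_zero, map_zero, sub_zero, hT] at h3
    exact h3

end DH
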