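import Pool.Agent.Lib.MP_f80667_ag.Cv.NfA
import Pool.Agent.Lib.MP_f80667_ag.Cv.HdD
import Pool.Agent.Lib.MP_f80667_ag.Cv.HdE
import Pool.Agent.Lib.MP_f80667_ag.Dh.Dn

/-!
Symbols in two coordinates of a product of curves, `l` prime to the residue characteristic.
-/

open ZC BE PE CV Polynomial IntermediateField

namespace DH

variable {F : Type} [Field F] {K Ω : Type} [Field K] [CharZero K] [Field Ω] [Algebra K Ω]
  [Algebra F K] [Algebra F Ω] [IsScalarTower F K Ω] [IsAlgClosure K Ω] {L : Ld K Ω}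
  {ι : Type} {C : ι → Crv F}

/-- The symbol: the norm of `(a × b)` in the coordinates `i`, `j`, the others are those of `w`. -/
noncomputable def sm (M : IntermediateField K Ω) (w : (Vpi fun i => (C i).V).pt Ω) (i j : ι)
    (a : (C i).V.pt Ω →₀ ℤ) (b : (C j).V.pt Ω →₀ ℤ) : (Vpi fun i => (C i).V).pt Ω →₀ ℤ :=
  Nm (⊥ : IntermediateField K Ω) M (Finsupp.mapDomain (u₂ w i j) (bx a b))

variable {M M' : IntermediateField K Ω} {w : (Vpi fun i => (C i).V).pt Ω} {i j : ι}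
  {a a' : (C i).V.pt Ω →₀ ℤ} {b b' : (C j).V.pt Ω →₀ ℤ}

private theorem bt_mono {V : Vr F} (h : M ≤ M') {x : V.pt Ω} (hx : Fp V M x) : Fp V M' x :=
  fun γ hγ => hx γ (fix_le h hγ)

private theorem bt_u₂_smul (hw : Fp (Vpi fun i => (C i).V) M w) (i j : ι) {γ : Ω ≃ₐ[K] Ω}
    (hγ : γ ∈ M.fixingSubgroup) (z : (Vpr (C i).V (C j).V).pt Ω →₀ ℤ) :
    Finsupp.mapDomain (u₂ w i j) (γ • z) = γ • Finsupp.mapDomain (u₂ w i j) z := by
  rw [CV.smul_def, CV.smul_def, ← Finsupp.mapDomain_comp, ← Finsupp.mapDomain_comp]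
  exact congrArg (fun g => Finsupp.mapDomain g z) (funext fun x => (u₂_act hw i j x hγ).symm)

private theorem bt_u₂_fx (hw : Fp (Vpi fun i => (C i).V) M w) (i j : ι)
    {z : (Vpr (C i).V (C j).V).pt Ω →₀ ℤ} (hz : Fx M z) :
    Fx M (Finsupp.mapDomain (u₂ w i j) z) := fun γ hγ => by
  rw [← bt_u₂_smul hw i j hγ, hz γ hγ]

private theorem bt_smul {V W : Vr F} [Hf V] [Hf W] (φ : Mo V W) (γ : Ω ≃ₐ[K] Ω)
    (z : V.pt Ω →₀ ℤ) :
    Finsupp.mapDomain (φ.f Ω) (γ • z) = γ • Finsupp.mapDomain (φ.f Ω) z := by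
  rw [CV.smul_def, CV.smul_def, ← Finsupp.mapDomain_comp, ← Finsupp.mapDomain_comp]
  exact congrArg (fun g => Finsupp.mapDomain g z) (funext fun x => (φ.act γ x).symm)

private theorem bt_nm_zero {V : Vr F} [Hf V] [FiniteDimensional K M] :
    Nm (⊥ : IntermediateField K Ω) M (0 : V.pt Ω →₀ ℤ) = 0 := by
  obtain ⟨s, -, -, -, h3⟩ := nm_rep (M := (⊥ : IntermediateField K Ω)) (N := M) bot_le
  rw [h3]
  exact Finset.sum_eq_zero fun γ _ => smul_zero γ

private theorem bt_nm_D0 {V : Vr F} [Hf V] [FiniteDimensional K M] {z : V.pt Ω →₀ ℤ}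
    (h : Fx M z) (h0 : V.deg Ω z = 0) : Nm (⊥ : IntermediateField K Ω) M z ∈ V.D0 K Ω := by
  refine ⟨fun γ => ?_, ?_⟩
  · refine nm_fx (M := (⊥ : IntermediateField K Ω)) (N := M) bot_le h γ ?_
    rw [IntermediateField.fixingSubgroup_bot]
    trivial
  · obtain ⟨s, -, -, -, h3⟩ := nm_rep (M := (⊥ : IntermediateField K Ω)) (N := M) bot_le
    change V.deg Ω _ = 0
    rw [h3, map_sum]
    exact Finset.sum_eq_zero fun γ _ => by rw [deg_smul, h0]

private theorem bt_const {V W : Vr F} (o : W.pt Ω) (u : V.pt Ω →₀ ℤ) :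
    Finsupp.mapDomain (fun _ => o) u = Finsupp.single o (V.deg Ω u) := by
  induction u using Finsupp.induction_linear with
  | zero => rw [Finsupp.mapDomain_zero, map_zero, Finsupp.single_zero]
  | add f g hf hg => rw [Finsupp.mapDomain_add, hf, hg, map_add, Finsupp.single_add]
  | single a n =>
    rw [Finsupp.mapDomain_single, Vr.deg, Finsupp.liftAddHom_apply_single]
    rfl

private theorem bt_deg {C : Crv F} {a : C.V.pt Ω →₀ ℤ} (ha : a ∈ Pc C Ω) :
    C.V.deg Ω a = 0 := by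
  have h : Pc C Ω ≤ (C.V.deg Ω).ker := by
    rw [Pc, AddSubgroup.closure_le]
    rintro z ⟨hz, -⟩
    exact hz
  exact h ha

private theorem bt_bx₁ {V W : Vr F} (a : V.pt Ω →₀ ℤ) (y : W.pt Ω) :
    bx a (Finsupp.single y 1) = Finsupp.mapDomain (fun x => pp x y) a := by
  induction a using Finsupp.induction_linear with
  | zero => rw [map_zero, AddMonoidHom.zero_apply, Finsupp.mapDomain_zero]
  | add f g hf hg => rw [map_add, AddMonoidHom.add_apply, hf, hg, Finsupp.mapDomain_add]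
  | single x m => rw [bx_ss, mul_one, Finsupp.mapDomain_single]

private theorem bt_bx₂ {V W : Vr F} (x : V.pt Ω) (b : W.pt Ω →₀ ℤ) :
    bx (Finsupp.single x 1) b = Finsupp.mapDomain (fun y => pp x y) b := by
  rw [bx_single, one_smul]

theorem sm_add₁ [FiniteDimensional K M] : sm M w i j (a + a') b = sm M w i j a b + sm M w i j a' b := by
  unfold sm
  rw [map_add, AddMonoidHom.add_apply, Finsupp.mapDomain_add, nm_add bot_le]

theorem sm_add₂ [FiniteDimensional K M] : sm M w i j a (b + b') = sm M w i j a b + sm M w i j a b' := by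
  unfold sm
  rw [map_add, Finsupp.mapDomain_add, nm_add bot_le]

theorem sm_nsmul₁ [FiniteDimensional K M] (n : ℕ) : sm M w i j (n • a) b = n • sm M w i j a b := by
  unfold sm
  have h := (Finsupp.mapDomain.addMonoidHom (M := ℤ) (u₂ w i j)).map_nsmul n (bx a b)
  rw [Finsupp.mapDomain.addMonoidHom_apply, Finsupp.mapDomain.addMonoidHom_apply] at h
  rw [map_nsmul, AddMonoidHom.nsmul_apply, h, nm_nsmul bot_le]

theorem sm_nsmul₂ [FiniteDimensional K M] (n : ℕ) : sm M w i j a (n • b) = n • sm M w i j a b := by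
  unfold sm
  have h := (Finsupp.mapDomain.addMonoidHom (M := ℤ) (u₂ w i j)).map_nsmul n (bx a b)
  rw [Finsupp.mapDomain.addMonoidHom_apply, Finsupp.mapDomain.addMonoidHom_apply] at h
  rw [map_nsmul, h, nm_nsmul bot_le]

/-- **Projection formula.** Proof: `hom_nm` for `b ↦ mapDomain (u₂ w i j) (bx a b)` (`bx_smul`, `u₂_act`), `nm_tr`. -/
theorem sm_nm₂ [FiniteDimensional K M'] (h : M ≤ M') (hw : Fp (Vpi fun i => (C i).V) M w)
    (ha : Fx M a) (hb : Fx M' b) : sm M w i j a (Nm M M' b) = sm M' w i j a b := by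
  have hM : FiniteDimensional K M := fin_le h
  unfold sm
  have h1 := hom_nm ((Finsupp.mapDomain.addMonoidHom (M := ℤ) (u₂ w i j)).comp (bx a)) h
    (fun γ hγ c => by
      change Finsupp.mapDomain (u₂ w i j) (bx a (γ • c)) =
        γ • Finsupp.mapDomain (u₂ w i j) (bx a c)
      rw [← bt_u₂_smul hw i j hγ, bx_smul, ha γ hγ]) b
  have h2 : Fx M' (Finsupp.mapDomain (u₂ w i j) (bx a b)) :=
    bt_u₂_fx (bt_mono h hw) i j (bx_fx (ha.mono h) hb)
  rw [nm_tr bot_le h h2]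
  exact congrArg (Nm (⊥ : IntermediateField K Ω) M) h1

theorem sm_nm₁ [FiniteDimensional K M'] (h : M ≤ M') (hw : Fp (Vpi fun i => (C i).V) M w)
    (ha : Fx M' a) (hb : Fx M b) : sm M w i j (Nm M M' a) b = sm M' w i j a b := by
  have hM : FiniteDimensional K M := fin_le h
  unfold sm
  have h1 := hom_nm ((Finsupp.mapDomain.addMonoidHom (M := ℤ) (u₂ w i j)).comp (bx.flip b)) h
    (fun γ hγ c => by
      change Finsupp.mapDomain (u₂ w i j) (bx (γ • c) b) =
        γ • Finsupp.mapDomain (u₂ w i j) (bx c b)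
      rw [← bt_u₂_smul hw i j hγ, bx_smul, hb γ hγ]) a
  have h2 : Fx M' (Finsupp.mapDomain (u₂ w i j) (bx a b)) :=
    bt_u₂_fx (bt_mono h hw) i j (bx_fx ha (hb.mono h))
  rw [nm_tr bot_le h h2]
  exact congrArg (Nm (⊥ : IntermediateField K Ω) M) h1

/-- **Principal cycles.** Proof (compare `sy_pc₁` in `Cv/HdD.lean`): `fx_gen` for `b` and `sm_nm₂`: `b = [y]`, `y` over `M'`;
then the cycle is `Nm ⊥ M'` of the push-forward of `a` by `x ↦ u₂ w i j (x, y)`, in `ratEq M' Ω` by `hP` and `mor_ratEq`: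
`nm_ratEq`. -/
theorem sm_pc₁ (hP : ExPr (C i) K Ω) (hij : i ≠ j) [FiniteDimensional K M]
    (hw : Fp (Vpi fun i => (C i).V) M w) (ha : a ∈ Pc (C i) Ω) (ha' : Fx M a) (hb : Fx M b) :
    sm M w i j a b ∈ (Vpi fun i => (C i).V).ratEq K Ω := by
  have hdeg : (C i).V.deg Ω a = 0 := bt_deg ha
  have hz : sm M w i j a 0 = 0 := by
    have h1 := sm_add₂ (M := M) (w := w) (a := a) (b := (0 : (C j).V.pt Ω →₀ ℤ)) (b' := 0)
    rw [add_zero] at h1
    exact left_eq_add.1 h1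
  have key : Fx M b ∧ sm M w i j a b ∈ (Vpi fun i => (C i).V).ratEq K Ω := by
    refine AddSubgroup.closure_induction (p := fun b _ => Fx M b ∧
      sm M w i j a b ∈ (Vpi fun i => (C i).V).ratEq K Ω) ?_ ?_ ?_ ?_ (fx_gen (exists_fp (C j)) hb)
    · rintro _ ⟨M', y, hM', hfin, hy, rfl⟩
      have hy1 : Fx M' (Finsupp.single y 1 : (C j).V.pt Ω →₀ ℤ) := fx_single hy 1
      refine ⟨nm_fx hM' hy1, ?_⟩
      rw [sm_nm₂ hM' hw ha' hy1]
      have hr : a ∈ (C i).V.ratEq M' Ω := hP M' hfin a ha ⟨ha'.mono hM', hdeg⟩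
      unfold sm
      refine nm_ratEq ?_ (bt_u₂_fx (bt_mono hM' hw) i j (bx_fx (ha'.mono hM') hy1))
      refine u₂_ratEq (bt_mono hM' hw) hij ?_
      rw [bt_bx₁]
      exact ins_ratEq₁ hy hr
    · refine ⟨Fx.zero, ?_⟩
      rw [hz]
      exact zero_mem _
    · rintro x y _ _ ⟨hx, hx'⟩ ⟨hy, hy'⟩
      refine ⟨hx.add hy, ?_⟩
      rw [sm_add₂]
      exact add_mem hx' hy'
    · rintro x _ ⟨hx, hx'⟩
      refine ⟨hx.neg, ?_⟩
      have h2 := sm_add₂ (M := M) (w := w) (a := a) (b := x) (b' := -x)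
      rw [add_neg_cancel, hz] at h2
      rw [← neg_eq_of_add_eq_zero_right h2.symm]
      exact neg_mem hx'
  exact key.2

theorem sm_pc₂ (hP : ExPr (C j) K Ω) (hij : i ≠ j) [FiniteDimensional K M]
    (hw : Fp (Vpi fun i => (C i).V) M w) (ha : Fx M a) (hb : b ∈ Pc (C j) Ω) (hb' : Fx M b) :
    sm M w i j a b ∈ (Vpi fun i => (C i).V).ratEq K Ω := by
  have hdeg : (C j).V.deg Ω b = 0 := bt_deg hb
  have hz : sm M w i j 0 b = 0 := by
    have h1 := sm_add₁ (M := M) (w := w) (a := (0 : (C i).V.pt Ω →₀ ℤ)) (a' := 0) (b := b)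
    rw [add_zero] at h1
    exact left_eq_add.1 h1
  have key : Fx M a ∧ sm M w i j a b ∈ (Vpi fun i => (C i).V).ratEq K Ω := by
    refine AddSubgroup.closure_induction (p := fun a _ => Fx M a ∧
      sm M w i j a b ∈ (Vpi fun i => (C i).V).ratEq K Ω) ?_ ?_ ?_ ?_ (fx_gen (exists_fp (C i)) ha)
    · rintro _ ⟨M', x, hM', hfin, hx, rfl⟩
      have hx1 : Fx M' (Finsupp.single x 1 : (C i).V.pt Ω →₀ ℤ) := fx_single hx 1
      refine ⟨nm_fx hM' hx1, ?_⟩
      rw [sm_nm₁ hM' hw hx1 hb']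
      have hr : b ∈ (C j).V.ratEq M' Ω := hP M' hfin b hb ⟨hb'.mono hM', hdeg⟩
      unfold sm
      refine nm_ratEq ?_ (bt_u₂_fx (bt_mono hM' hw) i j (bx_fx hx1 (hb'.mono hM')))
      refine u₂_ratEq (bt_mono hM' hw) hij ?_
      rw [bt_bx₂]
      exact ins_ratEq₂ hx hr
    · refine ⟨Fx.zero, ?_⟩
      rw [hz]
      exact zero_mem _
    · rintro x y _ _ ⟨hx, hx'⟩ ⟨hy, hy'⟩
      refine ⟨hx.add hy, ?_⟩
      rw [sm_add₁]
      exact add_mem hx' hy'
    · rintro x _ ⟨hx, hx'⟩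
      refine ⟨hx.neg, ?_⟩
      have h2 := sm_add₁ (M := M) (w := w) (a := x) (a' := -x) (b := b)
      rw [add_neg_cancel, hz] at h2
      rw [← neg_eq_of_add_eq_zero_right h2.symm]
      exact neg_mem hx'
  exact key.2

/-- The degree and the push-forwards of a symbol. Proof: `bx_fst`, `bx_snd`, `to_dv` (`Cv/NfD.lean`) contains the same
computation. -/
theorem sm_D0 [FiniteDimensional K M] (hij : i ≠ j) (hw : Fp (Vpi fun i => (C i).V) M w)
    (ha : a ∈ Zd (C i).V M) (hb : b ∈ Zd (C j).V M) :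
    sm M w i j a b ∈ (Vpi fun i => (C i).V).D0 K Ω ∧
      ∀ k, Finsupp.mapDomain ((pr k).f Ω) (sm M w i j a b) = 0 := by
  classical
  obtain ⟨ha1, ha2⟩ := mem_Zd.1 ha
  obtain ⟨hb1, hb2⟩ := mem_Zd.1 hb
  have hbf : Fx M (bx a b) := bx_fx ha1 hb1
  have h1 : Finsupp.mapDomain (fun x : (Vpr (C i).V (C j).V).pt Ω => x.1) (bx a b) = 0 := by
    rw [bx_fst, hb2, zero_smul]
  have h2 : Finsupp.mapDomain (fun x : (Vpr (C i).V (C j).V).pt Ω => x.2) (bx a b) = 0 := by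
    rw [bx_snd, ha2, zero_smul]
  have hd : (Vpr (C i).V (C j).V).deg Ω (bx a b) = 0 := by
    have h := Mo.deg (V := Vpr (C i).V (C j).V) (V' := (C i).V)
      (fun x : (Vpr (C i).V (C j).V).pt Ω => x.1) (bx a b)
    rw [h1, map_zero] at h
    exact h.symm
  refine ⟨bt_nm_D0 (bt_u₂_fx hw i j hbf)
    ((Mo.deg (V' := Vpi fun i => (C i).V) (u₂ w i j) (bx a b)).trans hd), fun k => ?_⟩
  have hk : Finsupp.mapDomain ((pr k).f Ω) (sm M w i j a b) =
      Nm (⊥ : IntermediateField K Ω) M (Finsupp.mapDomain (fun x => u₂ w i j x k) (bx a b)) := by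
    have h := hom_nm (M := (⊥ : IntermediateField K Ω)) (N := M)
      (Finsupp.mapDomain.addMonoidHom ((pr (V := fun i => (C i).V) k).f Ω)) bot_le
      (fun γ _ a => bt_smul (pr (V := fun i => (C i).V) k) γ a)
      (Finsupp.mapDomain (u₂ w i j) (bx a b))
    refine h.trans ?_
    congr 1
    exact (Finsupp.mapDomain_comp (v := bx a b) (f := u₂ w i j)
      (g := (pr (V := fun i => (C i).V) k).f Ω)).symm
  rw [hk]
  have h0 : Finsupp.mapDomain (fun x => u₂ w i j x k) (bx a b) = 0 := by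
    rcases eq_or_ne k j with rfl | hkj
    · have e : (fun x => u₂ w i k x k) = fun x : (Vpr (C i).V (C k).V).pt Ω => x.2 :=
        funext fun x => Function.update_self _ _ _
      rw [e]
      exact h2
    · rcases eq_or_ne k i with rfl | hki
      · have e : (fun x => u₂ w k j x k) = fun x : (Vpr (C k).V (C j).V).pt Ω => x.1 :=
          funext fun x => (Function.update_of_ne hkj _ _).trans (Function.update_self _ _ _)
        rw [e]
        exact h1
      · have e : (fun x => u₂ w i j x k) = fun _ : (Vpr (C i).V (C j).V).pt Ω => w k :=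
          funext fun x => (Function.update_of_ne hkj _ _).trans (Function.update_of_ne hki _ _)
        rw [e]
        have h := bt_const (V := Vpr (C i).V (C j).V) (W := (C k).V) (w k) (bx a b)
        rw [hd, Finsupp.single_zero] at h
        exact h
  rw [h0]
  exact bt_nm_zero

/-- **Symbols are divisible.** Proof: `N` from `DvL` for `a`; `NmL` for `b` and `N`: `b = Nm M M' b' + l b'' + p`,
`M' = L.Ur M N`; `sm M a (Nm b') = sm M' a b'`, `a = l a' + p'` over `M'`: `sm M' a b' = l sm M' a' b'` modulo `ratEq`. -/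
theorem sm_dv (hP : ∀ i, ExPr (C i) K Ω) {l : ℕ} (h₁ : ∀ i, DvL L (C i) l)
    (h₂ : ∀ i, NmL L (C i) l) (hij : i ≠ j) [FiniteDimensional K M]
    (hw : Fp (Vpi fun i => (C i).V) M w) (ha : a ∈ Zd (C i).V M) (hb : b ∈ Zd (C j).V M) :
    ∃ z' ∈ (Vpi fun i => (C i).V).D0 K Ω, (∀ k, Finsupp.mapDomain ((pr k).f Ω) z' = 0) ∧
      sm M w i j a b - l • z' ∈ (Vpi fun i => (C i).V).ratEq K Ω := by
  obtain ⟨ha1, ha2⟩ := mem_Zd.1 ha
  obtain ⟨hb1, hb2⟩ := mem_Zd.1 hb
  obtain ⟨N, hN, h3⟩ := h₁ i M inferInstance a ha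
  obtain ⟨a', ha', hpa⟩ := h3 N hN dvd_rfl
  obtain ⟨b', hb', b'', hb'', hpb⟩ := h₂ j M inferInstance b hb N hN
  have hle : M ≤ L.Ur M N := Ld.ur_le
  have hfin : FiniteDimensional K (L.Ur M N) := L.ur_fin M N hN
  have hw' : Fp (Vpi fun i => (C i).V) (L.Ur M N) w := bt_mono hle hw
  obtain ⟨ha'1, ha'2⟩ := mem_Zd.1 ha'
  obtain ⟨hb'1, hb'2⟩ := mem_Zd.1 hb'
  obtain ⟨hb''1, hb''2⟩ := mem_Zd.1 hb''
  rw [rtr_eq hle] at hpb
  obtain ⟨d1, e1⟩ := sm_D0 hij hw' ha' hb'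
  obtain ⟨d2, e2⟩ := sm_D0 hij hw ha hb''
  refine ⟨sm (L.Ur M N) w i j a' b' + sm M w i j a b'', add_mem d1 d2, fun k => ?_, ?_⟩
  · rw [Finsupp.mapDomain_add, e1 k, e2 k, add_zero]
  · have hp : Fx M (b - Nm M (L.Ur M N) b' - l • b'') :=
      (hb1.sub (nm_fx hle hb'1)).sub (hb''1.nsmul l)
    have hq : Fx (L.Ur M N) (a - l • a') := (ha1.mono hle).sub (ha'1.nsmul l)
    have h4 : sm M w i j a b = sm M w i j a (b - Nm M (L.Ur M N) b' - l • b'') +
        sm M w i j a (Nm M (L.Ur M N) b') + l • sm M w i j a b'' := by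
      rw [← sm_nsmul₂, ← sm_add₂, ← sm_add₂]
      congr 1
      abel
    have h5 : sm M w i j a (Nm M (L.Ur M N) b') =
        sm (L.Ur M N) w i j (a - l • a') b' + l • sm (L.Ur M N) w i j a' b' := by
      rw [sm_nm₂ hle hw ha1 hb'1, ← sm_nsmul₁, ← sm_add₁, sub_add_cancel]
    have h6 : sm M w i j a b - l • (sm (L.Ur M N) w i j a' b' + sm M w i j a b'') =
        sm M w i j a (b - Nm M (L.Ur M N) b' - l • b'') +
          sm (L.Ur M N) w i j (a - l • a') b' := by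
      rw [h4, h5, smul_add]
      abel
    rw [h6]
    exact add_mem (sm_pc₂ (hP j) hij hw ha1 hpb hp)
      (sm_pc₁ (hP i) hij hw' hpa hq hb'1)

end DH
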