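import Pool.Agent.Lib.MP_f80667_ag.Cv.NfD2
import Pool.Agent.Lib.MP_f80667_ag.Dh.Bt

/-!
The local theorem for a product of several curves, `l` prime to the residue characteristic, from divisibility and norms
over unramified extensions (no good reduction).
-/

open ZC BE PE CV Polynomial IntermediateField

namespace DH

variable {F : Type} [Field F] {K Ω : Type} [Field K] [CharZero K] [Field Ω] [Algebra K Ω]
  [Algebra F K] [Algebra F Ω] [IsScalarTower F K Ω] [IsAlgClosure K Ω] {L : Ld K Ω}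
  {ι : Type} {C : ι → Crv F}

/-- Every point of the product has a finite field of definition. -/
private theorem bn_fp [Finite ι] (x : (Vpi fun i => (C i).V).pt Ω) :
    ∃ M : IntermediateField K Ω, FiniteDimensional K M ∧ Fp (Vpi fun i => (C i).V) M x := by
  choose M hM hfp using fun i => exists_fp (K := K) (C i) (x i)
  refine ⟨⨆ i, M i, ?_, ?_⟩
  · have : ∀ i, FiniteDimensional K (M i) := hM
    exact IntermediateField.finiteDimensional_iSup_of_finite
  · intro γ hγ
    exact funext fun i => hfp i γ (fix_le (le_iSup M i) hγ)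

/-- The cycles which are divisible modulo rational equivalence. -/
private def bnD (C : ι → Crv F) (K Ω : Type) [Field K] [Field Ω] [Algebra K Ω] [Algebra F K]
    [Algebra F Ω] [IsScalarTower F K Ω] (l : ℕ) :
    AddSubgroup ((Vpi fun i => (C i).V).pt Ω →₀ ℤ) where
  carrier := {z | ∃ z' ∈ (Vpi fun i => (C i).V).D0 K Ω,
    (∀ i, Finsupp.mapDomain ((pr i).f Ω) z' ∈ (C i).V.ratEq K Ω) ∧
      z - l • z' ∈ (Vpi fun i => (C i).V).ratEq K Ω}
  zero_mem' := by
    refine ⟨0, zero_mem _, fun i => ?_, ?_⟩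
    · rw [Finsupp.mapDomain_zero]
      exact zero_mem _
    · rw [smul_zero, sub_zero]
      exact zero_mem _
  add_mem' := by
    rintro a b ⟨a', h1, h2, h3⟩ ⟨b', h1', h2', h3'⟩
    refine ⟨a' + b', add_mem h1 h1', fun i => ?_, ?_⟩
    · rw [Finsupp.mapDomain_add]
      exact add_mem (h2 i) (h2' i)
    · have e : a + b - l • (a' + b') = (a - l • a') + (b - l • b') := by
        rw [smul_add]
        abel
      rw [e]
      exact add_mem h3 h3'
  neg_mem' := by
    rintro a ⟨a', h1, h2, h3⟩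
    refine ⟨-a', neg_mem h1, fun i => ?_, ?_⟩
    · have e := (Finsupp.mapDomain.addMonoidHom (M := ℤ)
        ((pr i).f Ω : (Vpi fun i => (C i).V).pt Ω → (C i).V.pt Ω)).map_neg a'
      rw [Finsupp.mapDomain.addMonoidHom_apply, Finsupp.mapDomain.addMonoidHom_apply] at e
      rw [e]
      exact neg_mem (h2 i)
    · have e : -a - l • (-a') = -(a - l • a') := by
        rw [smul_neg]
        abel
      rw [e]
      exact neg_mem h3

/-- Norms of sums of symbols in two coordinates are divisible. -/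
private theorem bn_to (hP : ∀ i, ExPr (C i) K Ω) {l : ℕ} (h₁ : ∀ i, DvL L (C i) l)
    (h₂ : ∀ i, NmL L (C i) l) {M : IntermediateField K Ω} [FiniteDimensional K M]
    {z : (Vpi fun i => (C i).V).pt Ω →₀ ℤ} (hz : z ∈ To C M) :
    Nm (⊥ : IntermediateField K Ω) M z ∈ bnD C K Ω l := by
  let φ : ((Vpi fun i => (C i).V).pt Ω →₀ ℤ) →+ ((Vpi fun i => (C i).V).pt Ω →₀ ℤ) :=
    AddMonoidHom.mk' (fun z => Nm (⊥ : IntermediateField K Ω) M z) fun a b => nm_add bot_le a b
  have hle : To C M ≤ (bnD C K Ω l).comap φ := by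
    refine (AddSubgroup.closure_le _).2 ?_
    rintro _ ⟨i, j, w, p, q, hij, hw, hp, hq, rfl⟩
    have ha : rd (C i).bp (Finsupp.single p 1) ∈ Zd (C i).V M :=
      mem_Zd.2 ⟨rd_fx _ (fx_single hp 1), rd_deg _ _⟩
    have hb : rd (C j).bp (Finsupp.single q 1) ∈ Zd (C j).V M :=
      mem_Zd.2 ⟨rd_fx _ (fx_single hq 1), rd_deg _ _⟩
    obtain ⟨z', hz', h0, h⟩ := sm_dv hP h₁ h₂ hij hw ha hb
    refine ⟨z', hz', fun k => ?_, h⟩
    rw [h0 k]
    exact zero_mem _
  exact hle hz

/-- Proof: as `loc_n` (`Cv/NfD2.lean`): `fx_gen` over `⊥`: `z` is a combination of `Nm ⊥ M [x]`, `x` over `M`; `th` of it is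
`Nm ⊥ M` of a sum of elements of `To C M` (`tele`, `hom_nm`, `th_smul`), every one of them is a symbol `sm M w i j (rd [p]) (rd
[q])`: `sm_dv`; `th_id`. -/
theorem dvG_of [Finite ι] (hP : ∀ i, ExPr (C i) K Ω) {l : ℕ} (h₁ : ∀ i, DvL L (C i) l)
    (h₂ : ∀ i, NmL L (C i) l) : DvG (fun i => (C i).V) K Ω l := by
  classical
  have _ : Fintype ι := Fintype.ofFinite ι
  intro z hz ha
  have hrat : (Vpi fun i => (C i).V).ratEq K Ω ≤ bnD C K Ω l := by
    intro a h
    refine ⟨0, zero_mem _, fun i => ?_, ?_⟩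
    · rw [Finsupp.mapDomain_zero]
      exact zero_mem _
    · rw [smul_zero, sub_zero]
      exact h
  -- the cycle is a sum of norms of points
  have hfx : Fx (⊥ : IntermediateField K Ω) z := fun γ _ => hz.1 γ
  have hcl := fx_gen (V := Vpi fun i => (C i).V) bn_fp hfx
  have hle : AddSubgroup.closure {z | ∃ (M' : IntermediateField K Ω)
      (x : (Vpi fun i => (C i).V).pt Ω), (⊥ : IntermediateField K Ω) ≤ M' ∧
      FiniteDimensional K M' ∧ Fp (Vpi fun i => (C i).V) M' x ∧
      z = Nm (⊥ : IntermediateField K Ω) M' (Finsupp.single x 1)} ≤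
      (bnD C K Ω l).comap (CV.th Ω C) := by
    refine (AddSubgroup.closure_le _).2 ?_
    rintro _ ⟨M', x, -, hf, hx, rfl⟩
    change CV.th Ω C (Nm (⊥ : IntermediateField K Ω) M' (Finsupp.single x 1)) ∈ bnD C K Ω l
    rw [hom_nm (CV.th Ω C) bot_le (fun γ _ a => (CV.th_smul C γ a).symm)]
    exact bn_to hP h₁ h₂ (tele C hx)
  have h3 : CV.th Ω C z ∈ bnD C K Ω l := hle hcl
  have h4 := hrat (th_id C hz ha)
  have h5 := sub_mem h3 h4
  have e : CV.th Ω C z - (CV.th Ω C z - z) = z := by abel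
  rw [e] at h5
  exact h5

end DH
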