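import Pool.Agent.Lib.MP_f80667_ag.Dh.Fer

/-! Points of the Fermat curve with given coordinates; the values of the coordinates at places. -/

open ZC BE PE CV QS Polynomial

namespace DH

variable {M : Type} [Field M] {d : ℕ} {ε : M} {D : Crv M} (c : Cu D d (Af d ε)) {L : Type}
  [Field L] [Algebra M L]

/-- Every point of `x ^ d + y ^ d = z ^ d` is a point of the curve. Proof: if `y ≠ ε x` divide by `y - ε x`: `exists_pt`.
Otherwise `z = 0` and the point is `none`. -/
theorem exists_c (hd : 0 < d) (hε : ε ^ d = -1) {x y z : L} (h : x ^ d + y ^ d = z ^ d)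
    (hne : x ≠ 0 ∨ y ≠ 0 ∨ z ≠ 0) :
    ∃ (P : D.V.pt L) (b : L), b ≠ 0 ∧ x = b * cx c P ∧ y = b * cy c P ∧ z = b * cz c P := by
  set e : L := algebraMap M L ε with he
  have hed : e ^ d = -1 := by rw [he, ← map_pow, hε, map_neg, map_one]
  by_cases hb : y - e * x = 0
  · have hy : y = e * x := sub_eq_zero.1 hb
    have hz : z = 0 := by
      rw [hy, mul_pow, hed, neg_one_mul, add_neg_cancel] at h
      exact (pow_eq_zero_iff hd.ne').1 h.symm
    have hx : x ≠ 0 := by
      rintro rfl
      rw [mul_zero] at hy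
      rcases hne with h1 | h1 | h1
      · exact h1 rfl
      · exact h1 hy
      · exact h1 hz
    refine ⟨(none : Option (D.A →ₐ[M] L)), x, hx, ?_, ?_, ?_⟩
    · change x = x * 1
      rw [mul_one]
    · change y = x * (0 + e * 1)
      rw [hy]
      ring
    · change z = x * 0
      rw [hz, mul_zero]
  · have h1 : (z / (y - e * x)) ^ d = aeval (x / (y - e * x)) (Af d ε) := by
      unfold Af
      rw [map_add, map_pow, map_pow, map_add, map_mul, aeval_X, aeval_C, map_one, ← he]
      have h2 : 1 + e * (x / (y - e * x)) = y / (y - e * x) := by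
        field_simp
        ring
      rw [h2, div_pow, div_pow, div_pow, ← add_div, h]
    obtain ⟨P, hP1, hP2⟩ := c.exists_pt h1
    refine ⟨P, y - e * x, hb, ?_, ?_, ?_⟩
    · rw [cx, hP1, mul_div_cancel₀ _ hb]
    · rw [cy, hP1, ← he]
      field_simp
      ring
    · rw [cz, hP2, mul_div_cancel₀ _ hb]

/-- The point `(0 : 1 : 1)`: `t = 0`, `s = 1`, over every extension of `M`; natural in the extension. -/
theorem exists_nat (hd : 0 < d) : ∃ o : ∀ (L : Type) [Field L] [Algebra M L], D.V.pt L,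
    (∀ (L L' : Type) [Field L] [Field L'] [Algebra M L] [Algebra M L'] (σ : L →ₐ[M] L'),
      D.V.map σ (o L) = o L') ∧
    ∀ (L : Type) [Field L] [Algebra M L], cx c (o L) = 0 ∧ cy c (o L) = 1 ∧ cz c (o L) = 1 := by
  obtain ⟨φ, h1, h2⟩ := c.lift M 0 1 (by
    unfold Af
    rw [map_add, map_pow, map_pow, map_add, map_mul, aeval_X, aeval_C, map_one, mul_zero,
      add_zero, one_pow, zero_pow hd.ne', zero_add])
  refine ⟨fun L _ _ => (some ((Algebra.ofId M L).comp φ) : Option (D.A →ₐ[M] L)), ?_, ?_⟩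
  · intro L L' _ _ _ _ σ
    refine congrArg some (AlgHom.ext fun a => ?_)
    exact σ.commutes (φ a)
  · intro L _ _
    refine ⟨?_, ?_, ?_⟩
    · change algebraMap M L (φ c.X) = 0
      rw [h1, map_zero]
    · change (1 : L) + algebraMap M L ε * algebraMap M L (φ c.X) = 1
      rw [h1, map_zero, mul_zero, add_zero]
    · change algebraMap M L (φ c.U) = 1
      rw [h2, map_one]

section red

variable [CharZero M] {K Ω : Type} [Field K] [Field Ω] [Algebra K L] [Algebra K Ω] [Algebra M K]
  [Algebra M Ω] [IsScalarTower M K L] [IsScalarTower M K Ω]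

/-- The values of the coordinates. Proof: `Cu.red` with `r = 1`. -/
theorem c_red (hd : 2 ≤ d) (hε : ε ^ d = -1) (w : Place K L Ω) {P : D.V.pt L} {Q : D.V.pt Ω}
    (h : D.V.red w P Q) : ∃ b : L, b ≠ 0 ∧ Hv w (b * cx c P) (cx c Q) ∧
      Hv w (b * cy c P) (cy c Q) ∧ Hv w (b * cz c P) (cz c Q) := by
  obtain ⟨b, hb, h1, h2⟩ := c.red (by omega) (Af_deg hd hε) w h
  rw [rd_iff] at h1
  have h3 : Hv w (algebraMap M L ε) (algebraMap M Ω ε) := by
    rw [IsScalarTower.algebraMap_apply M K L, IsScalarTower.algebraMap_apply M K Ω]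
    exact ⟨w.mem _, w.res_k _⟩
  refine ⟨b, hb, h1.1, ?_, ?_⟩
  · have h4 := h1.2.add (h3.mul h1.1)
    have h5 : b * cy c P = b * (c.xh P).2 + algebraMap M L ε * (b * (c.xh P).1) := by
      rw [cy]
      ring
    rw [h5]
    exact h4
  · rw [pow_one] at h2
    exact h2

end red

end DH
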