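import Pool.Agent.Lib.MP_f80667_ag.Dh.PhiB
import Pool.Agent.Lib.MP_f80667_ag.Dh.FerA

/-! The Albanese component of a cycle on the product. -/

open ZC BE PE CV QS Polynomial

namespace DH

private theorem alb_const {F' : Type} [Field F'] {V : Vr F'} {Ω' : Type} [Field Ω']
    [Algebra F' Ω'] {α : Type} (f : V.pt Ω' → α) (o : α) (h : ∀ x, f x = o)
    (u : V.pt Ω' →₀ ℤ) (hu : V.deg Ω' u = 0) : Finsupp.mapDomain f u = 0 := by
  have h1 : f = fun _ => o := funext h
  have h2 : ∀ u : V.pt Ω' →₀ ℤ, Finsupp.mapDomain (fun _ => o) u =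
      Finsupp.single o (V.deg Ω' u) := by
    intro u
    induction u using Finsupp.induction_linear with
    | zero => simp
    | add f g hf hg => rw [Finsupp.mapDomain_add, hf, hg, map_add, Finsupp.single_add]
    | single a n => rw [Finsupp.mapDomain_single, Vr.deg, Finsupp.liftAddHom_apply_single]; rfl
  rw [h1, h2, hu, Finsupp.single_zero]

/-- Push-forward of cycles of degree `0` by an equivariant map. -/
private theorem alb_D0 {F' : Type} [Field F'] {V V' : Vr F'} {K' : Type} [Field K']
    [Algebra F' K'] {Ω' : Type} [Field Ω'] [Algebra K' Ω'] [Algebra F' Ω'] [IsScalarTower F' K' Ω']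
    (f : V.pt Ω' → V'.pt Ω') (hf : ∀ (σ : Ω' ≃ₐ[K'] Ω') (x : V.pt Ω'), V'.act σ (f x) =
      f (V.act σ x)) {z : V.pt Ω' →₀ ℤ} (hz : z ∈ V.D0 K' Ω') :
    Finsupp.mapDomain f z ∈ V'.D0 K' Ω' := by
  refine ⟨fun σ => ?_, (Mo.deg f z).trans hz.2⟩
  rw [← Finsupp.mapDomain_comp]
  have h1 : V'.act σ ∘ f = f ∘ V.act σ := funext fun x => hf σ x
  rw [h1, Finsupp.mapDomain_comp]
  exact congrArg _ (hz.1 σ)

/-- The push-forward of the Albanese component by a map with trivial restriction to the axes. -/
private theorem alb_push {α β : Type} {ι : Type} (s : Finset ι) (f : α → β) (z : α →₀ ℤ)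
    (w : ι → (α →₀ ℤ)) : Finsupp.mapDomain f (z - ∑ i ∈ s, w i) =
      Finsupp.mapDomain f z - ∑ i ∈ s, Finsupp.mapDomain f (w i) := by
  have h := (Finsupp.mapDomain.addMonoidHom (M := ℤ) f).map_sub z (∑ i ∈ s, w i)
  rw [map_sum] at h
  exact h

variable {F : Type} [Field F] {d n : ℕ} {a : Fin (n + 2) → F} {M : Type} [Field M] [CharZero M]
  [Algebra F M] (T : Rt d a M) {D : Crv M} (c : Cu D d (Af d T.ε)) {K : Type} [Field K] [CharZero K]
  [Algebra F K] [Algebra M K] [IsScalarTower F M K] {Ω : Type} [Field Ω] [Algebra K Ω]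
  [Algebra F Ω] [Algebra M Ω] [IsScalarTower F K Ω] [IsScalarTower M K Ω] [IsScalarTower F M Ω]
  [IsAlgClosure K Ω]

/-- **The Albanese component.** Proof: base points `o i`: `∞` for the first `n - 1` curves and `(0 : 1 : 1)` (`exists_nat`) for
the last one; `b = z - ∑ i, (s i)_* (pr i)_* z`, `s i x` = the base point with `x` in the place `i` (as `piR` in `Cv/Pi.lean`). Its
push-forwards to the factors are `0` (`z` has degree `0`). The image under `phi` of a point of `s i` is `B` (`phi_base`,
`n ≥ 2`: if `i` is the last curve, the first coordinate is `∞`, otherwise the last coordinate is `(0 : 1 : 1)`), so the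
push-forward of `(s i)_* (pr i)_* z` under `phi` is `(deg z) [B] = 0`. -/
theorem phi_alb (hd : 0 < d) (hn : 2 ≤ n) {z : (Vn D n).pt Ω →₀ ℤ} (hz : z ∈ (Vn D n).D0 K Ω) :
    ∃ b ∈ (Vn D n).D0 K Ω, (∀ i : Fin n, Finsupp.mapDomain
        ((pr (V := fun _ : Fin n => D.V) i).f Ω) b ∈ D.V.ratEq K Ω) ∧
      Finsupp.mapDomain (phi T c hd) b = Finsupp.mapDomain (phi T c hd) z := by
  classical
  obtain ⟨o1, hnat, ho1⟩ := exists_nat c hd
  let o : Fin n → D.V.pt Ω := fun i =>
    if (i : ℕ) + 1 = n then o1 Ω else (none : Option (D.A →ₐ[M] Ω))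
  let s : ∀ _ : Fin n, D.V.pt Ω → (Vn D n).pt Ω := fun i x => Function.update o i x
  let w : Fin n → ((Vn D n).pt Ω →₀ ℤ) := fun i =>
    Finsupp.mapDomain (s i) (Finsupp.mapDomain ((pr (V := fun _ : Fin n => D.V) i).f Ω) z)
  have hw : ∀ i, Finsupp.mapDomain ((pr (V := fun _ : Fin n => D.V) i).f Ω) z ∈ D.V.D0 K Ω :=
    fun i => (pr (V := fun _ : Fin n => D.V) i).D0 hz
  have hself : ∀ (i : Fin n) (x : D.V.pt Ω), s i x i = x := fun i x =>
    Function.update_self i x o
  have hne : ∀ (i j : Fin n), j ≠ i → ∀ x : D.V.pt Ω, s i x j = o j := fun i j h x =>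
    Function.update_of_ne h x o
  have hoact : ∀ (σ : Ω ≃ₐ[K] Ω) (j : Fin n), D.V.act σ (o j) = o j := by
    intro σ j
    by_cases hj : (j : ℕ) + 1 = n
    · have h1 : o j = o1 Ω := if_pos hj
      rw [h1]
      exact hnat Ω Ω _
    · have h1 : o j = (none : Option (D.A →ₐ[M] Ω)) := if_neg hj
      rw [h1]
      rfl
  have hsact : ∀ (i : Fin n) (σ : Ω ≃ₐ[K] Ω) (x : D.V.pt Ω),
      (Vn D n).act σ (s i x) = s i (D.V.act σ x) := by
    intro i σ x
    funext j
    change D.V.act σ (s i x j) = s i (D.V.act σ x) j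
    by_cases hj : j = i
    · rw [hj, hself, hself]
    · rw [hne i j hj, hne i j hj, hoact]
  refine ⟨z - ∑ i, w i, ?_, fun j => ?_, ?_⟩
  · exact sub_mem hz (sum_mem fun i _ => alb_D0 (V := D.V) (V' := Vn D n) (s i) (hsact i) (hw i))
  · rw [alb_push, Finset.sum_eq_single j]
    · have h1 : Finsupp.mapDomain ((pr (V := fun _ : Fin n => D.V) j).f Ω) (w j) =
          Finsupp.mapDomain ((pr (V := fun _ : Fin n => D.V) j).f Ω) z := by
        change Finsupp.mapDomain _ (Finsupp.mapDomain _ _) = _
        rw [← Finsupp.mapDomain_comp]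
        have h2 : (pr (V := fun _ : Fin n => D.V) j).f Ω ∘ s j = id :=
          funext fun x => hself j x
        rw [h2, Finsupp.mapDomain_id]
      rw [h1, sub_self]
      exact zero_mem _
    · intro i _ hij
      change Finsupp.mapDomain _ (Finsupp.mapDomain _ _) = _
      rw [← Finsupp.mapDomain_comp]
      exact alb_const (V := D.V) _ (o j) (fun x => hne i j hij.symm x) _
        (hw i).2
    · intro h
      exact absurd (Finset.mem_univ j) h
  · rw [alb_push]
    have h0 : ∀ i, Finsupp.mapDomain (phi T c hd) (w i) = 0 := by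
      intro i
      change Finsupp.mapDomain _ (Finsupp.mapDomain _ _) = _
      rw [← Finsupp.mapDomain_comp]
      refine alb_const (V := D.V) _ (T.B Ω hd) (fun x => ?_) _ (hw i).2
      refine phi_base T c hd hn ?_
      by_cases hi : (i : ℕ) + 1 = n
      · left
        have h0i : (⟨0, by omega⟩ : Fin n) ≠ i := by
          intro h
          have h2 := congrArg Fin.val h
          change 0 = (i : ℕ) at h2
          omega
        refine ⟨⟨0, by omega⟩, by
          change 0 + 1 < n
          omega, ?_⟩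
        have h3 : s i x ⟨0, by omega⟩ = (none : Option (D.A →ₐ[M] Ω)) := by
          rw [hne i _ h0i x]
          exact if_neg (by
            change ¬ 0 + 1 = n
            omega)
        rw [h3]
        rfl
      · right
        intro j hj
        have hji : j ≠ i := by
          rintro rfl
          exact hi hj
        have h3 : s i x j = o1 Ω := by
          rw [hne i j hji x]
          exact if_pos hj
        rw [h3]
        obtain ⟨h5, h6, h7⟩ := ho1 Ω
        exact ⟨h5, h6.trans h7.symm⟩
    rw [Finset.sum_congr rfl fun i _ => h0 i, Finset.sum_const_zero, sub_zero]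

end DH
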