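import Pool.Agent.Lib.MP_f80667_ag.Be.Defs

/-! Divisibility of the group of zero-cycles of degree `0` modulo rational equivalence. -/

open ZC BE

namespace DH

/-- The classes of the zero-cycles of degree `0` over `K` are divisible by `m`. -/
def Dl {F : Type} [Field F] (V : Vr F) (K Ω : Type) [Field K] [Algebra F K] [Field Ω] [Algebra K Ω]
    [Algebra F Ω] [IsScalarTower F K Ω] (m : ℕ) : Prop :=
  ∀ z ∈ V.D0 K Ω, ∃ z' ∈ V.D0 K Ω, z - m • z' ∈ V.ratEq K Ω

end DH
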