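import Pool.Agent.Lib.MP_f80667_ag.Dh.Gen
import Pool.Agent.Lib.MP_f80667_ag.Dh.Alb
import Pool.Agent.Lib.MP_f80667_ag.Dh.Dl

/-! The local conclusion. -/

open ZC BE PE CV QS Polynomial IntermediateField

namespace DH

private theorem cnc_deg {F M : Type} [Field F] [Field M] {V : Vr F} {W : Vr M} {Ω : Type}
    [Field Ω] [Algebra F Ω] [Algebra M Ω] (f : V.pt Ω → W.pt Ω) (z : V.pt Ω →₀ ℤ) :
    W.deg Ω (Finsupp.mapDomain f z) = V.deg Ω z := by
  unfold Vr.deg
  rw [Finsupp.liftAddHom_apply, Finsupp.liftAddHom_apply]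
  exact Finsupp.sum_mapDomain_index (fun _ => rfl) (fun _ _ _ => rfl)

private theorem cnc_alg {G : Type} [AddCommGroup G] (z w : G) (l R : ℕ) (u v : ℤ)
    (h : (1 : ℤ) = R * u + l * v) :
    z - l • (v • z + u • w) = u • (R • z - l • w) := by
  have h5 : z - l • (v • z + u • w) - u • (R • z - l • w) =
      (1 - ((R : ℤ) * u + l * v)) • z := by
    simp only [← natCast_zsmul]
    module
  rw [← h, sub_self, zero_smul] at h5
  exact sub_eq_zero.1 h5

variable {F : Type} [Field F] {d n : ℕ} {a : Fin (n + 2) → F} {M : Type} [Field M] [CharZero M]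
  [Algebra F M] (T : Rt d a M) {D : Crv M} (c : Cu D d (Af d T.ε)) {K : Type} [Field K] [CharZero K]
  [Algebra F K] [Algebra M K] [IsScalarTower F M K] {Ω : Type} [Field Ω] [Algebra K Ω]
  [Algebra F Ω] [Algebra M Ω] [IsScalarTower F K Ω] [IsScalarTower M K Ω] [IsScalarTower F M Ω]
  [IsAlgClosure K Ω]

include T c in
/-- **Conclusion.** If the Albanese kernel of the product of `n` Fermat curves over `K` is `l`-divisible, `l` not a divisor of
`d`, then the group of zero-cycles of degree `0` on the hypersurface is `l`-divisible. Proof: `gen`, `phi_alb`, the hypothesis,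
`phi_ratEq`; `R` is prime to `l` (Bezout). -/
theorem con {l : ℕ} (hl : l.Prime) (hld : ¬ l ∣ d) (hd : 2 ≤ d) (hd0 : 0 < d) (hn : 2 ≤ n)
    (h : DvG (fun _ : Fin n => D.V) K Ω l) : Dl (Xd d a) K Ω l := by
  intro z hz
  obtain ⟨R, hR0, hRp, b, hb, hbd, hbr⟩ := gen T c hd hd0 hn hz.1
  have hz0 : (Xd d a).deg Ω z = 0 := hz.2
  have hb0 : b ∈ (Vn D n).D0 K Ω := by
    refine ⟨hb, ?_⟩
    change (Vn D n).deg Ω b = 0
    rw [hbd, hz0, mul_zero]
  obtain ⟨b', hb', ha', he'⟩ := phi_alb T c hd0 hn hb0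
  obtain ⟨y, hy, _, hr⟩ := h b' hb' ha'
  have h1 := phi_ratEq T c hd hd0 hn hr
  have h2 : Finsupp.mapDomain (phi T c hd0) (b' - l • y) =
      Finsupp.mapDomain (phi T c hd0) b - l • Finsupp.mapDomain (phi T c hd0) y := by
    rw [← he']
    have e := map_sub (Finsupp.mapDomain.addMonoidHom (M := ℤ) (phi T c (L := Ω) hd0)) b' (l • y)
    rw [map_nsmul] at e
    exact e
  rw [h2] at h1
  have h3 : R • z - l • Finsupp.mapDomain (phi T c hd0) y ∈ (Xd d a).ratEq K Ω := by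
    have h4 := add_mem hbr h1
    rw [sub_add_sub_cancel] at h4
    exact h4
  have hco : R.Coprime l := by
    rw [Nat.coprime_comm, Nat.Prime.coprime_iff_not_dvd hl]
    exact fun hlR => hld (hRp l hl hlR)
  have hbz := Nat.gcd_eq_gcd_ab R l
  rw [hco.gcd_eq_one, Nat.cast_one] at hbz
  have hw : Finsupp.mapDomain (phi T c hd0) y ∈ (Xd d a).D0 K Ω := by
    refine ⟨phi_cyc T c hd0 hy.1, ?_⟩
    change (Xd d a).deg Ω (Finsupp.mapDomain (phi T c hd0) y) = 0
    rw [cnc_deg]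
    exact hy.2
  refine ⟨R.gcdB l • z + R.gcdA l • Finsupp.mapDomain (phi T c hd0) y,
    add_mem (zsmul_mem hz _) (zsmul_mem hw _), ?_⟩
  rw [cnc_alg z _ l R (R.gcdA l) (R.gcdB l) hbz]
  exact zsmul_mem h3 _

end DH
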