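import Pool.Agent.Lib.MP_f80667_ag.Cv.Tc
import Pool.Agent.Lib.MP_f80667_ag.Dh.Dl

/-!
Descent of divisibility.
-/

open ZC BE PE CV IntermediateField

namespace DH

variable {F : Type} [Field F] {d n : ℕ} {a : Fin (n + 2) → F} {K : Type} [Field K] [CharZero K]
  [Algebra F K] {Ω : Type} [Field Ω] [Algebra K Ω] [Algebra F Ω] [IsScalarTower F K Ω]
  [IsAlgClosure K Ω]

/-- Descent from an extension of degree prime to `l`. Proof: as `dvG_tr` in `Cv/Tc.lean`: the trace, `tr_ratEqV`, `vtr_res`,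
`vtr_D0`, Bezout. -/
theorem dm_desc {V : Vr F} (hV : Fct V) (N : IntermediateField K Ω) [FiniteDimensional K N]
    [IsScalarTower F N Ω] {m : ℕ}
    (hc : (Module.finrank K N).Coprime m) (h : Dl V N Ω m) : Dl V K Ω m := by
  intro z hz
  obtain ⟨z', hz', hr⟩ := h z (D0_res hz)
  set t := vtr hV K N z' with ht
  have h3 : t ∈ V.D0 K Ω := vtr_D0 hV N hz'
  have h1 : vtr hV K N (z - m • z') ∈ V.ratEq K Ω := tr_ratEqV hV N hr
  rw [map_sub, map_nsmul, vtr_res hV N hz.1] at h1
  have hb := Nat.gcd_eq_gcd_ab (Module.finrank K N) m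
  rw [hc.gcd_eq_one, Nat.cast_one] at hb
  set a : ℤ := (Module.finrank K N).gcdA m
  set b : ℤ := (Module.finrank K N).gcdB m
  refine ⟨a • t + b • z, AddSubgroup.add_mem _ (AddSubgroup.zsmul_mem _ h3 _)
    (AddSubgroup.zsmul_mem _ hz _), ?_⟩
  have h4 : z - m • (a • t + b • z) = a • (Module.finrank K N • z - m • t) := by
    have h5 : z - m • (a • t + b • z) - a • (Module.finrank K N • z - m • t) =
        (1 - ((Module.finrank K N : ℤ) * a + m * b)) • z := by
      simp only [← natCast_zsmul]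
      module
    rw [← hb, sub_self, zero_smul] at h5
    exact sub_eq_zero.1 h5
  rw [h4]
  exact AddSubgroup.zsmul_mem _ h1 _

end DH
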