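import Mathlib

/-!
Roots in extensions of controlled degree.
-/

open IntermediateField Polynomial

namespace DH

/-- All prime factors of `m` divide `N`. -/
def Pf (N m : ℕ) : Prop := ∀ p : ℕ, p.Prime → p ∣ m → p ∣ N

theorem Pf.one (N : ℕ) : Pf N 1 := fun p hp h => absurd (Nat.dvd_one.1 h) hp.ne_one

theorem Pf.mul {N m m' : ℕ} (h : Pf N m) (h' : Pf N m') : Pf N (m * m') := fun p hp hd =>
  ((Nat.Prime.dvd_mul hp).1 hd).elim (h p hp) (h' p hp)

theorem Pf.mono {N N' m : ℕ} (h : Pf N m) (hN : N ∣ N') : Pf N' m := fun p hp hd =>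
  (h p hp hd).trans hN

theorem Pf.coprime {N m l : ℕ} (h : Pf N m) (hl : l.Prime) (hN : ¬ l ∣ N) : Nat.Coprime m l :=
  (Nat.coprime_comm.1 ((Nat.Prime.coprime_iff_not_dvd hl).2 fun hd => hN (h l hl hd)))

variable {K Ω : Type*} [Field K] [Field Ω] [Algebra K Ω] [IsAlgClosed Ω]

private theorem prime_step (N : IntermediateField K Ω) [FiniteDimensional K N] {q : ℕ}
    (hq : q.Prime) {S : Ω}
    (hS : S ∈ N) : ∃ (N' : IntermediateField K Ω) (r : Ω), N ≤ N' ∧ FiniteDimensional K N' ∧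
      r ∈ N' ∧ r ^ q = S ∧ ∃ k, Module.finrank K N' = Module.finrank K N * k ∧ Pf q k := by
  by_cases h : ∃ b : N, b ^ q = (⟨S, hS⟩ : N)
  · obtain ⟨b, hb⟩ := h
    refine ⟨N, b, le_refl _, inferInstance, b.2, ?_, 1, (mul_one _).symm, Pf.one _⟩
    have := congrArg Subtype.val hb
    simpa using this
  · push Not at h
    obtain ⟨r, hr⟩ := IsAlgClosed.exists_pow_nat_eq S hq.pos
    have hirr : Irreducible (X ^ q - C (⟨S, hS⟩ : N)) := X_pow_sub_C_irreducible_of_prime hq h
    have hmon : (X ^ q - C (⟨S, hS⟩ : N)).Monic := monic_X_pow_sub_C _ hq.ne_zero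
    have hroot : aeval r (X ^ q - C (⟨S, hS⟩ : N)) = 0 := by
      rw [map_sub, map_pow, aeval_X, aeval_C, hr]
      exact sub_self S
    have hmin : X ^ q - C (⟨S, hS⟩ : N) = minpoly N r :=
      minpoly.eq_of_irreducible_of_monic hirr hroot hmon
    have hint : IsIntegral N r := ⟨_, hmon, hroot⟩
    have hfr : Module.finrank N N⟮r⟯ = q := by
      rw [IntermediateField.adjoin.finrank hint, ← hmin, natDegree_X_pow_sub_C]
    have hfd : FiniteDimensional N N⟮r⟯ := IntermediateField.adjoin.finiteDimensional hint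
    have hfd' : FiniteDimensional K N⟮r⟯ := FiniteDimensional.trans K N N⟮r⟯
    have hmul : Module.finrank K N⟮r⟯ = Module.finrank K N * q := by
      rw [← Module.finrank_mul_finrank K N N⟮r⟯, hfr]
    refine ⟨IntermediateField.restrictScalars K N⟮r⟯, r, ?_, hfd', ?_, hr, q, hmul, fun p _ hd => hd⟩
    · intro x hx
      exact IntermediateField.algebraMap_mem N⟮r⟯ (⟨x, hx⟩ : N)
    · exact IntermediateField.mem_adjoin_simple_self N r

/-- A root of `T ^ d - S` in an extension whose degree has only prime factors which divide `d`. Proof: induction on `d` by prime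
factors (`induction_on_primes`): for a prime `q` the polynomial `T ^ q - S` has a root in the field or is irreducible
(`X_pow_sub_C_irreducible_of_prime`), then the degree is `q`; `T ^ (q m) = S`: first `T₁ ^ q = S`, then `T ^ m = T₁`; degrees
multiply. -/
theorem exists_root (N : IntermediateField K Ω) [FiniteDimensional K N] {d : ℕ} (hd : 0 < d) {S : Ω}
    (hS : S ∈ N) : ∃ (N' : IntermediateField K Ω) (r : Ω), N ≤ N' ∧ FiniteDimensional K N' ∧
      r ∈ N' ∧ r ^ d = S ∧ ∃ k, Module.finrank K N' = Module.finrank K N * k ∧ Pf d k := by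
  suffices key : ∀ (d : ℕ), 0 < d → ∀ (N : IntermediateField K Ω) (_ : FiniteDimensional K N)
      (S : Ω) (_ : S ∈ N), ∃ (N' : IntermediateField K Ω) (r : Ω), N ≤ N' ∧
      FiniteDimensional K N' ∧
      r ∈ N' ∧ r ^ d = S ∧ ∃ k, Module.finrank K N' = Module.finrank K N * k ∧ Pf d k from
    key d hd N inferInstance S hS
  intro d
  induction d using induction_on_primes with
  | zero => exact fun h => absurd h (lt_irrefl 0)
  | one =>
    intro _ N hN S hS
    exact ⟨N, S, le_refl _, hN, hS, pow_one S, 1, (mul_one _).symm, Pf.one _⟩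
  | prime_mul q m hq ih =>
    intro hqm N hN S hS
    have hm : 0 < m := Nat.pos_of_mul_pos_left hqm
    obtain ⟨N₁, r₁, hN₁, hfd₁, hr₁, hrS, k₁, hk₁, hp₁⟩ := prime_step N hq hS
    obtain ⟨N₂, r₂, hN₂, hfd₂, hr₂, hr₂S, k₂, hk₂, hp₂⟩ := ih hm N₁ hfd₁ r₁ hr₁
    refine ⟨N₂, r₂, hN₁.trans hN₂, hfd₂, hr₂, ?_, k₁ * k₂, ?_, ?_⟩
    · rw [mul_comm q m, pow_mul, hr₂S, hrS]
    · rw [hk₂, hk₁, mul_assoc]
    · exact (hp₁.mono (Dvd.intro m rfl)).mul (hp₂.mono (Dvd.intro_left q rfl))

/-- Finitely many roots. Proof: induction. -/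
theorem exists_roots (N : IntermediateField K Ω) [FiniteDimensional K N] {ι : Type*} (I : Finset ι)
    (e : ι → ℕ) (he : ∀ i ∈ I, 0 < e i) (S : ι → Ω) (hS : ∀ i ∈ I, S i ∈ N) {D : ℕ}
    (hD : ∀ i ∈ I, e i ∣ D) : ∃ (N' : IntermediateField K Ω) (r : ι → Ω), N ≤ N' ∧
      FiniteDimensional K N' ∧ (∀ i ∈ I, r i ∈ N' ∧ r i ^ e i = S i) ∧
      ∃ k, Module.finrank K N' = Module.finrank K N * k ∧ Pf D k := by
  classical
  induction I using Finset.induction_on with
  | empty =>
    exact ⟨N, fun _ => 0, le_refl _, inferInstance, fun i hi => absurd hi (Finset.notMem_empty i),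
      1, (mul_one _).symm, Pf.one _⟩
  | insert a I ha ih =>
    obtain ⟨N₁, r₁, hN₁, hfd₁, hr₁, k₁, hk₁, hp₁⟩ :=
      ih (fun i hi => he i (Finset.mem_insert_of_mem hi))
        (fun i hi => hS i (Finset.mem_insert_of_mem hi))
        (fun i hi => hD i (Finset.mem_insert_of_mem hi))
    obtain ⟨N₂, r₂, hN₂, hfd₂, hr₂, hr₂S, k₂, hk₂, hp₂⟩ :=
      exists_root N₁ (he a (Finset.mem_insert_self a I)) (hN₁ (hS a (Finset.mem_insert_self a I)))
    refine ⟨N₂, Function.update r₁ a r₂, hN₁.trans hN₂, hfd₂, ?_, k₁ * k₂, ?_, ?_⟩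
    · intro i hi
      rcases Finset.mem_insert.1 hi with rfl | hi'
      · rw [Function.update_self]
        exact ⟨hr₂, hr₂S⟩
      · have hne : i ≠ a := fun h => ha (h ▸ hi')
        rw [Function.update_of_ne hne]
        exact ⟨hN₂ (hr₁ i hi').1, (hr₁ i hi').2⟩
    · rw [hk₂, hk₁, mul_assoc]
    · exact hp₁.mul (hp₂.mono (hD a (Finset.mem_insert_self a I)))

end DH
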