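import Pool.Agent.Lib.MP_f80667_ag.Dh.Rt
import Pool.Agent.Lib.MP_f80667_ag.Dh.Root

/-!
The extension with the roots.
-/

open ZC BE PE CV IntermediateField

namespace DH

variable {F : Type} [Field F] {d n : ℕ} {a : Fin (n + 2) → F} {K : Type} [Field K] [CharZero K]
  [Algebra F K] {Ω : Type} [Field Ω] [Algebra K Ω] [Algebra F Ω] [IsScalarTower F K Ω]
  [IsAlgClosure K Ω]

/-- The roots exist over an extension of degree with prime factors dividing `d`; more roots: `e i ∣ D`. Proof:
`exists_roots`; `c = a 0`, `α_i ^ d = a 0 / a i`, `α_(n+1) ^ d = - a 0 / a_(n+1)`, `ε ^ d = - 1`. -/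
theorem exists_rt (hd : 0 < d) (ha : ∀ i, a i ≠ 0) (N : IntermediateField K Ω)
    [FiniteDimensional K N] : ∃ N' : IntermediateField K Ω, N ≤ N' ∧ FiniteDimensional K N' ∧
      Nonempty (Rt d a N') ∧ ∃ k, Module.finrank K N' = Module.finrank K N * k ∧ Pf d k := by
  haveI : IsAlgClosed Ω := IsAlgClosure.isAlgClosed K
  have hF : ∀ x : F, algebraMap F Ω x ∈ N := by
    intro x
    rw [IsScalarTower.algebraMap_apply F K Ω]
    exact N.algebraMap_mem _
  obtain ⟨N', r, hN, hfin, hr, hk⟩ := exists_roots N (Finset.univ : Finset (Option (Fin (n + 2))))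
    (fun _ => d) (fun _ _ => hd)
    (fun o => o.elim (-1 : Ω) fun i => if i = Fin.last (n + 1) then
      -(algebraMap F Ω (a 0)) / algebraMap F Ω (a i) else
      algebraMap F Ω (a 0) / algebraMap F Ω (a i))
    (by
      intro o _
      rcases o with _ | i
      · exact neg_mem (one_mem N)
      · change (if i = Fin.last (n + 1) then
          -(algebraMap F Ω (a 0)) / algebraMap F Ω (a i) else
          algebraMap F Ω (a 0) / algebraMap F Ω (a i)) ∈ N
        split_ifs
        · exact div_mem (neg_mem (hF _)) (hF _)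
        · exact div_mem (hF _) (hF _)) (D := d) (fun _ _ => dvd_rfl)
  have hane : ∀ i, algebraMap F Ω (a i) ≠ 0 := fun i => by
    rw [Ne, map_eq_zero]
    exact ha i
  refine ⟨N', hN, hfin, ⟨?_⟩, hk⟩
  refine
    { c := algebraMap F N' (a 0)
      hc := by
        rw [Ne, map_eq_zero]
        exact ha 0
      ε := ⟨r none, (hr none (Finset.mem_univ _)).1⟩
      hε := by
        apply Subtype.ext
        have h1 := (hr none (Finset.mem_univ _)).2
        simpa using h1
      α := fun i => ⟨r (some i), (hr (some i) (Finset.mem_univ _)).1⟩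
      hα := ?_
      hl := ?_ }
  · intro i
    apply Subtype.ext
    have h1 := (hr (some i.castSucc) (Finset.mem_univ _)).2
    have h2 : i.castSucc ≠ Fin.last (n + 1) := (Fin.castSucc_lt_last i).ne
    have h3 : r (some i.castSucc) ^ d = algebraMap F Ω (a 0) / algebraMap F Ω (a i.castSucc) := by
      rw [h1]
      exact if_neg h2
    have h4 : algebraMap F Ω (a i.castSucc) * r (some i.castSucc) ^ d = algebraMap F Ω (a 0) := by
      rw [h3, mul_div_cancel₀ _ (hane _)]
    exact h4
  · apply Subtype.ext
    have h1 := (hr (some (Fin.last (n + 1))) (Finset.mem_univ _)).2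
    have h3 : r (some (Fin.last (n + 1))) ^ d =
        -(algebraMap F Ω (a 0)) / algebraMap F Ω (a (Fin.last (n + 1))) := by
      rw [h1]
      exact if_pos rfl
    have h4 : algebraMap F Ω (a (Fin.last (n + 1))) * r (some (Fin.last (n + 1))) ^ d =
        -(algebraMap F Ω (a 0)) := by
      rw [h3, mul_div_cancel₀ _ (hane _)]
    exact h4

end DH
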