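import Pool.Agent.Lib.MP_f80667_ag.Dh.FerM
import Pool.Agent.Lib.MP_f80667_ag.Dh.Cnc
import Pool.Agent.Lib.MP_f80667_ag.Dh.Desc
import Pool.Agent.Lib.MP_f80667_ag.Dh.RtE
import Pool.Agent.Lib.MP_f80667_ag.Dh.B5p
import Pool.Agent.Lib.MP_f80667_ag.Dh.B5i
import Pool.Agent.Lib.MP_f80667_ag.Dh.Bi
import Pool.Agent.Lib.MP_f80667_ag.Dh.Bn
import Pool.Agent.Lib.MP_f80667_ag.Pe.Bs

/-! The local theorem for quintics at the places over `5`. -/

open ZC BE PE CV QS Polynomial IntermediateField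

namespace DH

/-- The roots over an extension. -/
def Rt.up {F : Type} [Field F] {d n : ℕ} {a : Fin (n + 2) → F} {M : Type} [Field M] [Algebra F M]
    (T : Rt d a M) (N : Type) [Field N] [Algebra F N] [Algebra M N] [IsScalarTower F M N] :
    Rt d a N where
  c := algebraMap M N T.c
  hc := (_root_.map_ne_zero _).2 T.hc
  ε := algebraMap M N T.ε
  hε := by rw [← map_pow, T.hε, map_neg, map_one]
  α i := algebraMap M N (T.α i)
  hα i := by rw [← map_pow, IsScalarTower.algebraMap_apply F M N, ← map_mul, T.hα]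
  hl := by rw [← map_pow, IsScalarTower.algebraMap_apply F M N, ← map_mul, T.hl, map_neg]

section tf

variable {M : Type} [Field M] [CharZero M] {ε : M} {D : Crv M} (c : Cu D 5 (Af 5 ε)) (R : R5 M)
  {E : Crv M} (e : Cu E 2 (Se.q5 (R.ρ ^ 2))) {Ω : Type} [Field Ω] [Algebra M Ω] [IsAlgClosure M Ω]
  (L : Ld M Ω)

include c R e in
/-- Transfer from `E` to `D`. Proof: `tf_of` with `b = sb c`, `g5`, `r = 5`, `k = q = 5`: `g5_pa`, `exc_pc`, `id5`; `Tf.dvL`,
`Tf.nmL`; `dvL_of`, `nmL_of` for `E`. -/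
theorem dvnm5 (hε : ε ^ 5 = -1) (m : Mod E (Ok L) M) {l : ℕ} (hl : l.Prime) (h5 : l ≠ 5)
    (h : l ≠ L.p) : DvL L D l ∧ NmL L D l := by
  have halg : IsAlgClosed Ω := IsAlgClosure.isAlgClosed M
  have T : Tf D E M Ω 5 5 := tf_of e (sb c) (g5 c R hε) (fun _ => rfl)
    (fun i => g5_pa c R e hε i) 5 5 5 (fun φ h0 => exc_pc c (by norm_num) hε h0)
    (fun φ h0 => nsmul_mem (id5 c R e hε h0) 5)
  have hc : Nat.Coprime (5 * 5) l := by
    have h1 : Nat.Coprime 5 l := (Nat.coprime_primes (by norm_num) hl).2 (Ne.symm h5)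
    exact Nat.Coprime.mul_left h1 h1
  exact ⟨T.dvL hc (dvL_of m hl h), T.nmL hc (nmL_of m hl h)⟩

end tf

private theorem l5_mem {K Ω : Type} [Field K] [Field Ω] [Algebra K Ω] (L : Ld K Ω) (x : Ok L)
    (h : L.nm (algebraMap K Ω x.1) < 1) : x ∈ IsLocalRing.maximalIdeal (Ok L) := by
  rw [IsLocalRing.mem_maximalIdeal, mem_nonunits_iff]
  rintro ⟨u, hu⟩
  have h1 : x.1 * ((u⁻¹ : (Ok L)ˣ) : Ok L).1 = 1 := by
    have h4 := congrArg Subtype.val (Units.mul_inv u)
    rw [hu] at h4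
    exact h4
  have h2 := congrArg (fun y => L.nm (algebraMap K Ω y)) h1
  simp only [map_mul, map_one, L.mul, L.one] at h2
  have h3 : L.nm (algebraMap K Ω ((u⁻¹ : (Ok L)ˣ) : Ok L).1) ≤ 1 := ((u⁻¹ : (Ok L)ˣ) : Ok L).2
  exact absurd h2 (mul_lt_one_of_nonneg_of_lt_one_left (L.nonneg _) h h3).ne

variable {F : Type} [Field F] {n : ℕ} {a : Fin (n + 2) → F} {K : Type} [Field K] [CharZero K]
  [Algebra F K] {Ω : Type} [Field Ω] [Algebra K Ω] [Algebra F Ω] [IsScalarTower F K Ω]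
  [IsAlgClosure K Ω] {L : Ld K Ω}

/-- The numbers `ρ`, `κ` and the roots in one extension. Proof: `exists_rt`, `exists_roots` (`ρ ^ 8 = - 5`,
`κ ^ 5 = 1 / 4`, `D = 10`), `Rt.up`. -/
theorem exists_r5 (ha : ∀ i, a i ≠ 0) : ∃ N' : IntermediateField K Ω, FiniteDimensional K N' ∧
    Nonempty (Rt 5 a N') ∧ Nonempty (R5 N') ∧ Pf 10 (Module.finrank K N') := by
  have halg : IsAlgClosed Ω := IsAlgClosure.isAlgClosed K
  obtain ⟨N₁, -, hfd, ⟨T⟩, k, hk, hp⟩ :=
    exists_rt (K := K) (Ω := Ω) (d := 5) (by norm_num) ha (⊥ : IntermediateField K Ω)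
  obtain ⟨N', r, hle, hfd', hr, k', hk', hp'⟩ := exists_roots N₁ (Finset.univ : Finset Bool)
    (fun b => if b = true then 8 else 5) (fun b _ => by cases b <;> simp)
    (fun b => if b = true then -5 else 1 / 4)
    (fun b _ => by
      cases b
      · have h1 : (4 : Ω) ∈ N₁ := by exact_mod_cast _root_.natCast_mem N₁ 4
        rw [if_neg (by decide)]
        exact div_mem (one_mem N₁) h1
      · have h1 : (5 : Ω) ∈ N₁ := by exact_mod_cast _root_.natCast_mem N₁ 5
        rw [if_pos rfl]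
        exact neg_mem h1) (D := 40) (fun b _ => by cases b <;> norm_num)
  refine ⟨N', hfd', ?_, ?_, ?_⟩
  · let _ : Algebra N₁ N' := (IntermediateField.inclusion hle).toRingHom.toAlgebra
    have _ : IsScalarTower F N₁ N' := IsScalarTower.of_algebraMap_eq fun x => Subtype.ext rfl
    exact ⟨T.up N'⟩
  · have h1 := hr true (Finset.mem_univ _)
    have h2 := hr false (Finset.mem_univ _)
    refine ⟨⟨⟨r true, h1.1⟩, ⟨r false, h2.1⟩, ?_, ?_⟩⟩
    · apply Subtype.ext
      have h3 := h1.2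
      rw [if_pos rfl, if_pos rfl] at h3
      exact h3
    · apply Subtype.ext
      have h3 := h2.2
      rw [if_neg (by decide), if_neg (by decide)] at h3
      have h4 : (4 : Ω) ≠ 0 := by
        have : CharZero Ω := charZero_of_injective_algebraMap (algebraMap K Ω).injective
        norm_num
      change (4 : Ω) * r false ^ 5 = 1
      rw [h3, mul_one_div_cancel h4]
  · rw [hk', hk, IntermediateField.finrank_bot, one_mul]
    intro q hq hd
    rcases (Nat.Prime.dvd_mul hq).1 hd with h1 | h1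
    · exact (hp q hq h1).trans (by norm_num)
    · have h2 := hp' q hq h1
      have h3 : q ∣ 10 * 2 ^ 2 := by
        have e : 10 * 2 ^ 2 = 40 := by norm_num
        rw [e]
        exact h2
      rcases (Nat.Prime.dvd_mul hq).1 h3 with h4 | h4
      · exact h4
      · exact (hq.dvd_of_dvd_pow h4).trans (by norm_num)

/-- **The local theorem for quintics, `v` over `5`.** Proof: `exists_r5`, `L.exists_bsL`, `exists_fer`, `exists_quint`,
`quint_mod` (`π = ρ ^ 2` is in the maximal ideal, `2` is a unit), `dvnm5`, `dvG_of` (`exPr`), `con`, `dm_desc`. -/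
theorem loc5 (hn : 2 ≤ n) (hp : L.p = 5) (ha : ∀ i, a i ≠ 0) {l : ℕ} (hl : l.Prime)
    (h2 : l ≠ 2) (h5 : l ≠ 5) : Dl (Xd 5 a) K Ω l := by
  obtain ⟨N, hN, ⟨T⟩, ⟨R⟩, hPf⟩ := exists_r5 (K := K) (Ω := Ω) ha
  obtain ⟨L', hp', hL'⟩ := L.exists_bsL N
  have halg : Algebra.IsAlgebraic K Ω := IsAlgClosure.isAlgebraic
  have i1 : IsAlgClosure N Ω := ⟨IsAlgClosure.isAlgClosed K, halg.tower_top N⟩
  have i2 : CharZero N := charZero_of_injective_algebraMap (algebraMap K N).injective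
  have hlt : L'.nm (5 : Ω) < 1 := by
    have h0 := L'.lt
    rw [hp', hp] at h0
    exact_mod_cast h0
  have hρ : L'.nm (algebraMap N Ω R.ρ) < 1 := by
    by_contra hcon
    have h0 : (algebraMap N Ω R.ρ) ^ 8 = -5 := by
      rw [← map_pow, R.hρ, map_neg, map_ofNat]
    have h3 : L'.nm (algebraMap N Ω R.ρ) ^ 8 < 1 := by
      rw [← L'.pow, h0, L'.neg]
      exact hlt
    exact absurd h3 (not_lt.2 (one_le_pow₀ (not_lt.1 hcon)))
  have hρ2 : L'.nm (algebraMap N Ω (R.ρ ^ 2)) < 1 := by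
    rw [map_pow, L'.pow]
    exact pow_lt_one₀ (L'.nonneg _) hρ (by norm_num)
  let π : Ok L' := ⟨R.ρ ^ 2, hρ2.le⟩
  have hπ : π ∈ IsLocalRing.maximalIdeal (Ok L') := l5_mem L' π hρ2
  have h5m : (5 : Ok L') ∈ IsLocalRing.maximalIdeal (Ok L') := by
    apply l5_mem
    have e : (algebraMap N Ω ((5 : Ok L') : N)) = 5 := by
      change algebraMap N Ω (5 : N) = 5
      rw [map_ofNat]
    rw [e]
    exact hlt
  have h2u : IsUnit (2 : Ok L') := by
    by_contra hcon
    have h3 : (2 : Ok L') ∈ IsLocalRing.maximalIdeal (Ok L') :=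
      (IsLocalRing.mem_maximalIdeal _).2 (mem_nonunits_iff.2 hcon)
    have h4 : (1 : Ok L') ∈ IsLocalRing.maximalIdeal (Ok L') := by
      have h6 := sub_mem h5m (Ideal.mul_mem_left _ 2 h3)
      have e : (5 : Ok L') - 2 * 2 = 1 := by norm_num
      rwa [e] at h6
    exact (Ideal.ne_top_iff_one _).1 (IsLocalRing.maximalIdeal.isMaximal _).ne_top h4
  obtain ⟨D, ⟨c⟩⟩ := exists_fer (M := N) (d := 5) (by norm_num) T.hε
  obtain ⟨E, ⟨e⟩⟩ := exists_quint (O := Ok L') (M := N) h5m hπ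
  obtain ⟨m⟩ := quint_mod e h2u h5m hπ
  have hlp : l ≠ L'.p := by
    rw [hp', hp]
    exact h5
  obtain ⟨hd, hn'⟩ := dvnm5 c R e L' T.hε m hl h5 hlp
  have hg : DvG (fun _ : Fin n => D.V) N Ω l :=
    dvG_of (L := L') (C := fun _ : Fin n => D) (fun _ => exPr D) (fun _ => hd) fun _ => hn'
  have hld : ¬ l ∣ 5 := fun h => h5 ((Nat.prime_dvd_prime_iff_eq hl (by norm_num)).1 h)
  have hc := con T c hl hld (by norm_num) (by norm_num) hn hg
  refine dm_desc fct N (hPf.coprime hl fun h => ?_) hc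
  have h6 : l ∣ 2 * 5 := by
    have e' : 2 * 5 = 10 := by norm_num
    rw [e']
    exact h
  rcases (Nat.Prime.dvd_mul hl).1 h6 with h7 | h7
  · exact h2 ((Nat.prime_dvd_prime_iff_eq hl Nat.prime_two).1 h7)
  · exact hld h7

end DH
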