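import Pool.Agent.Lib.MP_f80667_ag.Dh.E4g
import Pool.Agent.Lib.MP_f80667_ag.Dh.L5
import Pool.Agent.Lib.MP_f80667_ag.Dh.B4p
import Pool.Agent.Lib.MP_f80667_ag.Dh.B4i
import Pool.Agent.Lib.MP_f80667_ag.Pe.Bs

/-! The local theorem for quartics at the places over `2`. -/

open ZC BE PE CV QS Polynomial IntermediateField

namespace DH

section tf

variable {M : Type} [Field M] [CharZero M] {ε : M} {D : Crv M} (c : Cu D 4 (Af 4 ε))
  {E : Crv M} (e : Cu E 2 (a4 M)) {Ω : Type} [Field Ω] [Algebra M Ω] [IsAlgClosure M Ω]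
  (L : Ld M Ω)

include c e in
/-- Transfer from `E` to `D`. Proof: `tf_of` with `b = sb c`, `g4`, `r = 2`, `k = 4`, `q = 2`: `g4_pa`, `exc_pc`, `id4`; `Tf.dvL`,
`Tf.nmL`; `dvL_of`, `nmL_of` for `E`. -/
theorem dvnm4 (hε : ε ^ 4 = -1) (m : Mod E (Ok L) M) {l : ℕ} (hl : l.Prime) (h2 : l ≠ 2)
    (h : l ≠ L.p) : DvL L D l ∧ NmL L D l := by
  have hc : IsAlgClosed Ω := IsAlgClosure.isAlgClosed M
  obtain ⟨T⟩ : Nonempty (Tf D E M Ω 4 2) :=
    ⟨tf_of (K := M) e (sb c) (g4 c hε) (fun _ => rfl) (g4_pa c e hε) 2 4 2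
      (fun φ hφ => exc_pc c (by norm_num) hε hφ) (fun φ hφ => id4 c e hε hφ)⟩
  have hco : Nat.Coprime (4 * 2) l := by
    rw [Nat.coprime_comm, hl.coprime_iff_not_dvd]
    intro hd
    have h3 : l ∣ 2 ^ 3 := by
      norm_num
      exact hd
    exact h2 ((Nat.prime_dvd_prime_iff_eq hl Nat.prime_two).1 (hl.dvd_of_dvd_pow h3))
  exact ⟨T.dvL hco (dvL_of m hl h), T.nmL hco (nmL_of m hl h)⟩

end tf

variable {F : Type} [Field F] {n : ℕ} {a : Fin (n + 2) → F} {K : Type} [Field K] [CharZero K]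
  [Algebra F K] {Ω : Type} [Field Ω] [Algebra K Ω] [Algebra F Ω] [IsScalarTower F K Ω]
  [IsAlgClosure K Ω] {L : Ld K Ω}

/-- The numbers of `R4` and the roots in one extension. Proof: `exists_rt` (`N = ⊥`), then `exists_roots` with `D = 2`: first
`r ^ 2 = 3`, then `b ^ 2 = 1 + 2 / r`, then `s ^ 2 = 3 b` and `α ^ 2 = 2`; `t = (3 b ^ 2 - 1) / (2 s)`, `Rt.up`. -/
theorem exists_r4 (ha : ∀ i, a i ≠ 0) : ∃ N' : IntermediateField K Ω, FiniteDimensional K N' ∧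
    Nonempty (Rt 4 a N') ∧ Nonempty (R4 N') ∧ Pf 2 (Module.finrank K N') := by
  have hc : IsAlgClosed Ω := IsAlgClosure.isAlgClosed K
  have hz : CharZero Ω := charZero_of_injective_algebraMap (algebraMap K Ω).injective
  have hnat : ∀ (N : IntermediateField K Ω) (k : ℕ), (k : Ω) ∈ N := fun N k =>
    IntermediateField.natCast_mem N k
  obtain ⟨N₁, r, -, hf₁, hr, hr2, k₁, hk₁, hp₁⟩ :=
    exists_root (⊥ : IntermediateField K Ω) (d := 2) two_pos (S := ((3 : ℕ) : Ω)) (hnat _ 3)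
  obtain ⟨N₂, b, h₂, hf₂, hb, hb2, k₂, hk₂, hp₂⟩ :=
    exists_root N₁ (d := 2) two_pos (S := 1 + ((2 : ℕ) : Ω) / r)
      (add_mem (one_mem _) (div_mem (hnat _ 2) hr))
  obtain ⟨N₃, s, h₃, hf₃, hs, hs2, k₃, hk₃, hp₃⟩ :=
    exists_root N₂ (d := 2) two_pos (S := ((3 : ℕ) : Ω) * b) (mul_mem (hnat _ 3) hb)
  obtain ⟨N₄, α, h₄, hf₄, hα, hα2, k₄, hk₄, hp₄⟩ :=
    exists_root N₃ (d := 2) two_pos (S := ((2 : ℕ) : Ω)) (hnat _ 2)
  obtain ⟨N', h₅, hf₅, hT, k₅, hk₅, hp₅⟩ := exists_rt (d := 4) (by norm_num) ha N₄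
  have hbN : b ∈ N' := h₅ (h₄ (h₃ hb))
  have hsN : s ∈ N' := h₅ (h₄ hs)
  have hαN : α ∈ N' := h₅ hα
  rw [Nat.cast_ofNat] at hr2 hb2 hs2 hα2
  have hr0 : r ≠ 0 := by
    rintro rfl
    norm_num at hr2
  have hbq : 3 * (b ^ 2 - 1) ^ 2 = 4 := by
    have h1 : b ^ 2 - 1 = 2 / r := by rw [hb2]; ring
    rw [h1, div_pow, hr2]
    norm_num
  have hb0 : b ≠ 0 := by
    rintro rfl
    norm_num at hbq
  have hs0 : s ≠ 0 := by
    rintro rfl
    rw [zero_pow two_ne_zero] at hs2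
    exact hb0 ((mul_eq_zero.1 hs2.symm).resolve_left three_ne_zero)
  have h2s : 2 * s ≠ 0 := mul_ne_zero two_ne_zero hs0
  obtain ⟨t, ht⟩ : ∃ t : Ω, t = (3 * b ^ 2 - 1) / (2 * s) := ⟨_, rfl⟩
  have hnat' : ∀ k : ℕ, (k : Ω) ∈ N' := hnat N'
  have htN : t ∈ N' := by
    rw [ht]
    have h2 : (2 : Ω) ∈ N' := by exact_mod_cast hnat' 2
    have h3 : (3 : Ω) ∈ N' := by exact_mod_cast hnat' 3
    exact div_mem (sub_mem (mul_mem h3 (pow_mem hbN 2)) (one_mem _)) (mul_mem h2 hsN)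
  have hst : 2 * (s * t) = 3 * b ^ 2 - 1 := by
    rw [ht, ← mul_assoc, mul_div_cancel₀ _ h2s]
  have htt : t ^ 2 = b ^ 3 - b := by
    have h1 : (2 * (s * t)) ^ 2 = (3 * b ^ 2 - 1) ^ 2 := by rw [hst]
    have h2 : 12 * b * t ^ 2 = 12 * b * (b ^ 3 - b) := by
      linear_combination h1 - 4 * t ^ 2 * hs2 - hbq
    exact mul_left_cancel₀ (mul_ne_zero (by norm_num) hb0) h2
  refine ⟨N', hf₅, hT, ⟨?_⟩, ?_⟩
  · exact
      { b := ⟨b, hbN⟩
        s := ⟨s, hsN⟩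
        t := ⟨t, htN⟩
        α := ⟨α, hαN⟩
        hs := Subtype.ext hs2
        hst := Subtype.ext hst
        ht := Subtype.ext htt
        hα := Subtype.ext hα2 }
  · have h4 : Pf 2 k₅ := fun p hp hd => by
      have h5 := hp₅ p hp hd
      have h6 : p ∣ 2 ^ 2 := by
        norm_num
        exact h5
      exact hp.dvd_of_dvd_pow h6
    rw [hk₅, hk₄, hk₃, hk₂, hk₁, IntermediateField.finrank_bot, one_mul]
    exact (((hp₁.mul hp₂).mul hp₃).mul hp₄).mul h4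

/-- A number of absolute value less than `1` is in the maximal ideal. -/
private theorem l4_two {K Ω : Type} [Field K] [Field Ω] [Algebra K Ω] (L : Ld K Ω) (hp : L.p = 2) :
    (2 : Ok L) ∈ IsLocalRing.maximalIdeal (Ok L) := by
  rw [IsLocalRing.mem_maximalIdeal, mem_nonunits_iff]
  intro hu
  obtain ⟨y, hy⟩ := hu.exists_right_inv
  have h1 : (2 : Ω) * algebraMap K Ω (y : K) = 1 := by
    have h2 := congrArg (fun z : Ok L => algebraMap K Ω (z : K)) hy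
    have h3 : algebraMap K Ω (((2 : Ok L) * y : Ok L) : K) = 2 * algebraMap K Ω (y : K) := by
      rw [← map_ofNat (algebraMap K Ω) 2, ← map_mul]
      rfl
    have h4 : algebraMap K Ω ((1 : Ok L) : K) = 1 := map_one (algebraMap K Ω)
    exact h3.symm.trans (h2.trans h4)
  have h5 : L.nm (algebraMap K Ω (y : K)) ≤ 1 := y.2
  have h6 : L.nm (2 : Ω) < 1 := by
    have := L.lt
    rw [hp] at this
    exact_mod_cast this
  have h7 := congrArg L.nm h1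
  rw [L.mul, L.one] at h7
  have h8 : 0 ≤ L.nm (2 : Ω) := L.nonneg _
  have h9 : 0 ≤ L.nm (algebraMap K Ω (y : K)) := L.nonneg _
  nlinarith

/-- **The local theorem for quartics, `v` over `2`.** Proof: `exists_r4`, `L.exists_bsL`, `exists_fer`, `exists_e4`, `e4_mod`
(`Ok L'` is a valuation ring, so it is integrally closed), `dvnm4`, `dvG_of` (`exPr`), `con`, `dm_desc`. -/
theorem loc4 (hn : 2 ≤ n) (hp : L.p = 2) (ha : ∀ i, a i ≠ 0) {l : ℕ} (hl : l.Prime)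
    (h2 : l ≠ 2) : Dl (Xd 4 a) K Ω l := by
  obtain ⟨N', hf, ⟨T⟩, ⟨R⟩, hpf⟩ := exists_r4 (K := K) (Ω := Ω) ha
  obtain ⟨L', hp', -⟩ := L.exists_bsL N'
  have hcl : IsAlgClosure N' Ω := ⟨IsAlgClosure.isAlgClosed K, inferInstance⟩
  have hcz : CharZero N' := charZero_of_injective_algebraMap (algebraMap K N').injective
  obtain ⟨D, ⟨c⟩⟩ := exists_fer (M := N') (d := 4) (by norm_num) T.hε
  obtain ⟨E, ⟨e⟩⟩ := exists_e4 N'
  have hp2 : L'.p = 2 := hp'.trans hp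
  obtain ⟨m⟩ : Nonempty (Mod E (Ok L') N') := e4_mod e R (l4_two L' hp2)
  obtain ⟨hd, hn'⟩ := dvnm4 c e L' T.hε m hl h2 (by rw [hp2]; exact h2)
  have hG : DvG (fun _ : Fin n => D.V) N' Ω l :=
    dvG_of (L := L') (C := fun _ : Fin n => D) (fun _ => exPr D) (fun _ => hd) (fun _ => hn')
  have hl2 : ¬ l ∣ 2 := fun hd => h2 ((Nat.prime_dvd_prime_iff_eq hl Nat.prime_two).1 hd)
  have hl4 : ¬ l ∣ 4 := fun hd => by
    have h6 : l ∣ 2 ^ 2 := by
      norm_num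
      exact hd
    exact hl2 (hl.dvd_of_dvd_pow h6)
  have hcon : Dl (Xd 4 a) N' Ω l := con T c hl hl4 (by norm_num) (by norm_num) hn hG
  exact dm_desc fct N' (hpf.coprime hl hl2) hcon

end DH
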