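import Pool.Agent.Lib.MP_f80667_ag.Dh.Gy
import Pool.Agent.Lib.MP_f80667_ag.Dh.L4

/-! Zero-cycles on diagonal hypersurfaces over number fields. -/

open ZC BE PE CV QS Polynomial IntermediateField IsDedekindDomain NumberField

namespace DH

section nf

variable {F : Type} [Field F] [NumberField F] {n d : ℕ}

/-- **Quintics and quartics, all places.** Proof: `exists_gd`; if `L.p ∣ d` then `L.p = 5` and `loc5`, or `L.p = 2` and `loc4`;
otherwise `loc_good`. -/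
theorem all_pl (hd : d = 4 ∨ d = 5) (hn : 2 ≤ n) {a : Fin (n + 2) → F} (ha : ∀ i, a i ≠ 0)
    (v : HeightOneSpectrum (𝓞 F)) {l : ℕ} (hl : l.Prime) (hld : ¬ l ∣ 2 * d) (h : Cd d a l v) :
    Dq (Xd d a) (FK F v) (AlgebraicClosure (FK F v)) l := by
  have : CharZero (FK F v) := charZero_of_injective_algebraMap (algebraMap F (FK F v)).injective
  have h2d : 2 ≤ d := by omega
  have hl2 : l ≠ 2 := by
    rintro rfl
    exact hld (dvd_mul_right 2 d)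
  have hl3 : ¬ l ∣ d := fun h' => hld (h'.mul_left 2)
  obtain ⟨L, -, hL⟩ := exists_gd (d := d) (by omega) ha v
  by_cases hp : L.p ∣ d
  · rcases hd with rfl | rfl
    · have hp2 : L.p = 2 := by
        have h1 : L.p ∣ 2 ^ 2 := hp
        exact (Nat.prime_dvd_prime_iff_eq L.pp Nat.prime_two).1 (L.pp.dvd_of_dvd_pow h1)
      exact loc4 hn hp2 ha hl hl2
    · have hp5 : L.p = 5 := (Nat.prime_dvd_prime_iff_eq L.pp Nat.prime_five).1 hp
      have hl5 : l ≠ 5 := by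
        rintro rfl
        exact hl3 dvd_rfl
      exact loc5 hn hp5 ha hl hl2 hl5
  · exact loc_good h2d hn hp ha hl hl3 (hL l hl h)

/-- **Theorem**, all degrees. Proof: `good_plD`, `dq_prime`, `glob`. -/
theorem main_D (hd : 2 ≤ d) (hn : 2 ≤ n) {a : Fin (n + 2) → F} (ha : ∀ i, a i ≠ 0) :
    (∀ v : HeightOneSpectrum (𝓞 F), v.valuation F (d : F) = 1 → ∀ m : ℕ, m ≠ 0 →
      (∀ l : ℕ, l.Prime → l ∣ m → ¬ l ∣ d ∧ Cd d a l v) →
        Dq (Xd d a) (FK F v) (AlgebraicClosure (FK F v)) m) ∧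
      ∀ Λ : Set ℕ, (∀ l ∈ Λ, l.Prime ∧ ¬ l ∣ 2 * d ∧ (∀ v, Cd d a l v) ∧
          ∀ v : HeightOneSpectrum (𝓞 F), v.valuation F (d : F) < 1 →
            Dq (Xd d a) (FK F v) (AlgebraicClosure (FK F v)) l) →
        (∀ m : ℕ, m ≠ 0 → Sf Λ m → ∀ c : Fam (Xd d a), ∃ c' : Fam (Xd d a), c.cl = m • c'.cl) ∧
          ∀ z : LHat (FA (Xd d a)), ImDeS Λ z := by
  refine ⟨fun v hv m hm h => dq_prime hm fun l hl hlm =>
    good_plD hd hn ha hv hl (h l hl hlm).1 (h l hl hlm).2, fun Λ hΛ => ?_⟩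
  refine glob (fun h2 => (hΛ 2 h2).2.1 (dvd_mul_right 2 d)) fun l hl hlp v => ?_
  obtain ⟨-, hld, hgp, hbad⟩ := hΛ l hl
  have hle : v.valuation F (d : F) ≤ 1 := by
    have h1 : v.valuation F (algebraMap (𝓞 F) F (d : 𝓞 F)) ≤ 1 := v.valuation_le_one (d : 𝓞 F)
    rwa [map_natCast] at h1
  rcases hle.lt_or_eq with hv | hv
  · exact hbad v hv
  · exact good_plD hd hn ha hv hlp (fun h' => hld (h'.mul_left 2)) (hgp v)

/-- The prime numbers of the theorem. -/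
def Ls (d : ℕ) (a : Fin (n + 2) → F) : Set ℕ := {l | l.Prime ∧ ¬ l ∣ 2 * d ∧ ∀ v, Cd d a l v}

/-- **Theorem**, quartics and quintics. Proof: `all_pl`, `dq_prime`, `glob`; `gp_of`. -/
theorem main_D45 (hd : d = 4 ∨ d = 5) (hn : 2 ≤ n) {a : Fin (n + 2) → F} (ha : ∀ i, a i ≠ 0) :
    (∀ v : HeightOneSpectrum (𝓞 F), ∀ m : ℕ, m ≠ 0 →
      (∀ l : ℕ, l.Prime → l ∣ m → ¬ l ∣ 2 * d ∧ Cd d a l v) →
        Dq (Xd d a) (FK F v) (AlgebraicClosure (FK F v)) m) ∧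
      (∀ m : ℕ, m ≠ 0 → Sf (Ls d a) m → ∀ c : Fam (Xd d a), ∃ c' : Fam (Xd d a),
        c.cl = m • c'.cl) ∧
      (∀ z : LHat (FA (Xd d a)), ImDeS (Ls d a) z) ∧
      ∀ l : ℕ, l.Prime → d * Module.finrank ℚ F + 1 < l → l ∈ Ls d a := by
  have hg := glob (V := Xd d a) (Λ := Ls d a) (fun h2 => h2.2.1 (dvd_mul_right 2 d))
    fun l hl hlp v => all_pl hd hn ha v hlp hl.2.1 (hl.2.2 v)
  refine ⟨fun v m hm h => dq_prime hm fun l hl hlm =>
    all_pl hd hn ha v hl (h l hl hlm).1 (h l hl hlm).2, hg.1, hg.2, fun l hl hlt => ?_⟩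
  have hpos : 1 ≤ Module.finrank ℚ F := Module.finrank_pos
  have h1 : d ≤ d * Module.finrank ℚ F := Nat.le_mul_of_pos_right d hpos
  refine ⟨hl, fun h' => ?_, fun v => gp_of (by omega) hl hlt v⟩
  rcases (Nat.Prime.dvd_mul hl).1 h' with h2 | h2
  · have h3 := Nat.le_of_dvd (by norm_num) h2
    omega
  · have h3 := Nat.le_of_dvd (by omega) h2
    omega

end nf

end DH
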