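import Mathlib

/-!
The formulas for the map from the product of `n` Fermat curves to the Fermat hypersurface of dimension `n`.

Sequences `x y z : ℕ → L` with `x j ^ d + y j ^ d = z j ^ d` and `x 0 = 0`, `y 0 = z 0 = 1`.
* `Wc x z n k = ∏ (j ≤ k) z j * ∏ (k < j ≤ n) x j`.
* `Xc x y z n k = ∏ (j < k) z j * y k * ∏ (k < j ≤ n) x j` for `k ≤ n`, `∏ (j ≤ n) z j` for `k = n + 1`.
-/

namespace DH

section co

variable {L : Type} [Field L]

/-- The roots of the partial sums. -/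
def Wc (x z : ℕ → L) (n k : ℕ) : L := (∏ j ∈ Finset.range (k + 1), z j) * ∏ j ∈ Finset.Ioc k n, x j

/-- The coordinates. -/
def Xc (x y z : ℕ → L) (n k : ℕ) : L :=
  if k ≤ n then (∏ j ∈ Finset.range k, z j) * y k * ∏ j ∈ Finset.Ioc k n, x j
  else ∏ j ∈ Finset.range (n + 1), z j

/-- The sequences. -/
structure Sq (d : ℕ) (x y z : ℕ → L) : Prop where
  eq : ∀ j, x j ^ d + y j ^ d = z j ^ d
  x0 : x 0 = 0
  y0 : y 0 = 1
  z0 : z 0 = 1
  ne : ∀ j, x j ≠ 0 ∨ y j ≠ 0 ∨ z j ≠ 0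

variable {d : ℕ} {x y z : ℕ → L}

private theorem co_Ioc {f : ℕ → L} {k n : ℕ} (h : k < n) :
    ∏ j ∈ Finset.Ioc k n, f j = f (k + 1) * ∏ j ∈ Finset.Ioc (k + 1) n, f j := by
  have h1 : Finset.Ioc k n = insert (k + 1) (Finset.Ioc (k + 1) n) := by
    ext j
    rw [Finset.mem_insert, Finset.mem_Ioc, Finset.mem_Ioc]
    omega
  rw [h1, Finset.prod_insert]
  rw [Finset.mem_Ioc]
  omega

/-- **Partial sums.** Proof: induction on `k`; `y 0 = z 0 = 1`. -/
theorem sum_Xc (h : Sq d x y z) {n k : ℕ} (hk : k ≤ n) :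
    ∑ j ∈ Finset.range (k + 1), Xc x y z n j ^ d = Wc x z n k ^ d := by
  induction k with
  | zero =>
    rw [zero_add, Finset.sum_range_one]
    unfold Xc Wc
    rw [if_pos (Nat.zero_le n), Finset.prod_range_zero, zero_add, Finset.prod_range_one, h.y0, h.z0,
      mul_one]
  | succ k ih =>
    rw [Finset.sum_range_succ, ih (by omega)]
    unfold Xc Wc
    rw [if_pos hk, co_Ioc (by omega : k < n), Finset.prod_range_succ z (k + 1)]
    simp only [mul_pow]
    rw [← h.eq (k + 1)]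
    ring

theorem Xc_last (n : ℕ) : Xc x y z n (n + 1) = Wc x z n n := by
  unfold Xc Wc
  rw [if_neg (by omega), Finset.Ioc_self, Finset.prod_empty, mul_one]

/-- `W_k = X_k z_k / y_k`. -/
theorem Wc_mul {n k : ℕ} (hk : k ≤ n) : Wc x z n k * y k = Xc x y z n k * z k := by
  unfold Xc Wc
  rw [if_pos hk, Finset.prod_range_succ]
  ring

/-- If all coordinates vanish then there is `1 ≤ k < n` with `z k = 0` (and `y k ≠ 0`). Proof: `X_(n+1) = 0`, so some
`z k = 0`, take the smallest `k`; `k ≥ 1`; `x k ^ d = - y k ^ d`, so `y k ≠ 0` (`ne`); `X_k = 0` gives `x i = 0` for some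
`k < i ≤ n`. -/
theorem exists_zero (hd : 0 < d) (h : Sq d x y z) {n : ℕ} (h0 : ∀ k ≤ n + 1, Xc x y z n k = 0) :
    ∃ k, 1 ≤ k ∧ k < n ∧ z k = 0 ∧ y k ≠ 0 := by
  classical
  have h1 : ∃ k, k ≤ n ∧ z k = 0 := by
    have h2 := h0 (n + 1) le_rfl
    unfold Xc at h2
    rw [if_neg (by omega), Finset.prod_eq_zero_iff] at h2
    obtain ⟨k, hk, hz⟩ := h2
    rw [Finset.mem_range] at hk
    exact ⟨k, by omega, hz⟩
  obtain ⟨k, ⟨hkn, hz⟩, hmin⟩ : ∃ k, (k ≤ n ∧ z k = 0) ∧ ∀ j < k, z j ≠ 0 := by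
    refine ⟨Nat.find h1, Nat.find_spec h1, fun j hj hzj => ?_⟩
    exact Nat.find_min h1 hj ⟨hj.le.trans (Nat.find_spec h1).1, hzj⟩
  have hk1 : 1 ≤ k := by
    rcases Nat.eq_zero_or_pos k with h2 | h2
    · rw [h2, h.z0] at hz
      exact absurd hz one_ne_zero
    · exact h2
  have hy : y k ≠ 0 := by
    intro hy
    have h2 := h.eq k
    rw [hy, hz, zero_pow hd.ne', add_zero] at h2
    rcases h.ne k with h3 | h3 | h3
    · exact h3 (pow_eq_zero_iff hd.ne' |>.1 h2)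
    · exact h3 hy
    · exact h3 hz
  refine ⟨k, hk1, ?_, hz, hy⟩
  have h2 := h0 k (by omega)
  unfold Xc at h2
  rw [if_pos hkn] at h2
  rcases mul_eq_zero.1 h2 with h3 | h3
  · rcases mul_eq_zero.1 h3 with h4 | h4
    · rw [Finset.prod_eq_zero_iff] at h4
      obtain ⟨j, hj, hzj⟩ := h4
      exact absurd hzj (hmin j (Finset.mem_range.1 hj))
    · exact absurd h4 hy
  · rw [Finset.prod_eq_zero_iff] at h3
    obtain ⟨j, hj, -⟩ := h3
    rw [Finset.mem_Ioc] at hj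
    omega

/-- A base point among the first `n - 1` coordinates. -/
theorem Wc_zero {n j : ℕ} (hz : z j = 0) : Wc x z n j = 0 := by
  unfold Wc
  rw [Finset.prod_eq_zero (Finset.mem_range.2 (Nat.lt_succ_self j)) hz, zero_mul]

/-- The last point is the base point `(0 : 1 : 1)`. Proof: `X_k` contains `x n` for `k < n`. -/
theorem Xc_base {n : ℕ} (hn : 1 ≤ n) (hx : x n = 0) (hyz : y n = z n) :
    (∀ k < n, Xc x y z n k = 0) ∧ Xc x y z n n = Xc x y z n (n + 1) := by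
  have _ := hn
  refine ⟨fun k hk => ?_, ?_⟩
  · unfold Xc
    rw [if_pos hk.le, Finset.prod_eq_zero (Finset.mem_Ioc.2 ⟨hk, le_rfl⟩) hx, mul_zero]
  · unfold Xc
    rw [if_pos le_rfl, if_neg (by omega), Finset.Ioc_self, Finset.prod_empty, mul_one, hyz,
      Finset.prod_range_succ]

theorem Xc_map {N : Type} [Field N] (σ : L →+* N) (n k : ℕ) :
    σ (Xc x y z n k) = Xc (fun j => σ (x j)) (fun j => σ (y j)) (fun j => σ (z j)) n k := by
  unfold Xc
  split_ifs
  · simp only [map_mul, map_prod]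
  · simp only [map_prod]

end co

end DH
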