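import Pool.Agent.Lib.MP_f80667_ag.Dh.Fun

/-!
The roots of the coefficients, the point `B`, degenerate points and the retraction `nu`.

* `Rt d a M`: `ε ^ d = -1`, `a_i α_i ^ d = c` (`i ≤ n`), `a_(n+1) α_(n+1) ^ d = - c`, `c ≠ 0`.
* `ps a v k`: the sum of the `a_i v_i ^ d`, `i ≤ k`.
* `Dgn`: `ps a v k = 0` for some `1 ≤ k ≤ n - 1`.
* `T.B L`: the point `(0 : ⋯ : 0 : α_n : α_(n+1))`.
* `T.nu`: degenerate points go to `B`, the other points are fixed.
-/

open ZC BE PE CV

namespace DH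

/-- The roots. -/
structure Rt {F : Type} [Field F] (d : ℕ) {n : ℕ} (a : Fin (n + 2) → F) (M : Type) [Field M]
    [Algebra F M] where
  c : M
  hc : c ≠ 0
  ε : M
  hε : ε ^ d = -1
  α : Fin (n + 2) → M
  hα : ∀ i : Fin (n + 1), algebraMap F M (a i.castSucc) * α i.castSucc ^ d = c
  hl : algebraMap F M (a (Fin.last (n + 1))) * α (Fin.last (n + 1)) ^ d = -c

section dgn

variable {F : Type} [Field F] {d n : ℕ} (a : Fin (n + 2) → F) {L : Type} [Field L] [Algebra F L]

/-- The partial sums. -/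
def ps (d : ℕ) (v : Fin (n + 2) → L) (k : ℕ) : L :=
  ∑ i : Fin (n + 2), if (i : ℕ) ≤ k then algebraMap F L (a i) * v i ^ d else 0

theorem ps_mul (c : L) (v : Fin (n + 2) → L) (k : ℕ) :
    ps a d (fun i => c * v i) k = c ^ d * ps a d v k := by
  unfold ps
  rw [Finset.mul_sum]
  refine Finset.sum_congr rfl fun i _ => ?_
  split_ifs
  · rw [mul_pow]
    ring
  · rw [mul_zero]

theorem ps_map {M : Type} [Field M] [Algebra F M] (σ : L →ₐ[F] M) (v : Fin (n + 2) → L) (k : ℕ) :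
    ps a d (fun i => σ (v i)) k = σ (ps a d v k) := by
  unfold ps
  rw [map_sum]
  refine Finset.sum_congr rfl fun i _ => ?_
  split_ifs
  · rw [map_mul, map_pow, AlgHom.commutes]
  · rw [map_zero]

variable {a}

/-- A degenerate vector. -/
def Dgv (d : ℕ) (a : Fin (n + 2) → F) (v : Fin (n + 2) → L) : Prop :=
  ∃ k : ℕ, 1 ≤ k ∧ k < n ∧ ps a d v k = 0

theorem dgv_mul {c : L} (hc : c ≠ 0) {v : Fin (n + 2) → L} :
    Dgv d a (fun i => c * v i) ↔ Dgv d a v := by
  unfold Dgv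
  refine exists_congr fun k => and_congr_right fun _ => and_congr_right fun _ => ?_
  rw [ps_mul]
  exact mul_eq_zero_iff_left (pow_ne_zero d hc)

theorem dgv_map {M : Type} [Field M] [Algebra F M] (σ : L →ₐ[F] M) {v : Fin (n + 2) → L} :
    Dgv d a (fun i => σ (v i)) ↔ Dgv d a v := by
  unfold Dgv
  refine exists_congr fun k => and_congr_right fun _ => and_congr_right fun _ => ?_
  rw [ps_map]
  exact map_eq_zero σ

/-- A degenerate point. -/
def Dgn : (Xd d a).pt L → Prop :=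
  Quotient.lift (fun P : Hc d a L => Dgv d a P.x) (by
    rintro P Q ⟨c, hc, h⟩
    rw [h]
    exact propext (dgv_mul hc).symm)

theorem dgn_mk (P : Hc d a L) : Dgn (Quotient.mk _ P : (Xd d a).pt L) ↔ Dgv d a P.x := Iff.rfl

theorem dgn_map {M : Type} [Field M] [Algebra F M] (σ : L →ₐ[F] M) (x : (Xd d a).pt L) :
    Dgn ((Xd d a).map σ x) ↔ Dgn x := by
  induction x using Quotient.inductionOn with
  | h P => exact dgv_map σ

end dgn

namespace Rt

variable {F : Type} [Field F] {d n : ℕ} {a : Fin (n + 2) → F} {M : Type} [Field M] [Algebra F M]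
  (T : Rt d a M)

theorem a_ne (hd : 0 < d) (i : Fin (n + 2)) : T.α i ≠ 0 := by
  intro h
  rcases Fin.eq_castSucc_or_eq_last i with ⟨j, rfl⟩ | rfl
  · have h1 := T.hα j
    rw [h, zero_pow hd.ne', mul_zero] at h1
    exact T.hc h1.symm
  · have h1 := T.hl
    rw [h, zero_pow hd.ne', mul_zero] at h1
    exact T.hc (neg_eq_zero.1 h1.symm)

variable (L : Type) [Field L] [Algebra F L] [Algebra M L] [IsScalarTower F M L]

/-- The coordinates of `B`. -/
def bv (i : Fin (n + 2)) : L := if n ≤ (i : ℕ) then algebraMap M L (T.α i) else 0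

/-- Proof: the two last coordinates; `a_n α_n ^ d + a_(n+1) α_(n+1) ^ d = 0`. -/
theorem bv_eq (hd : 0 < d) : ∑ i, algebraMap F L (a i) * T.bv L i ^ d = 0 := by
  rw [Fin.sum_univ_castSucc, Fin.sum_univ_castSucc]
  have h0 : ∀ i : Fin n, algebraMap F L (a i.castSucc.castSucc)
      * T.bv L i.castSucc.castSucc ^ d = 0 := by
    intro i
    have h1 : ¬ n ≤ ((i.castSucc.castSucc : Fin (n + 2)) : ℕ) := by
      have := i.2
      simp only [Fin.val_castSucc]
      omega
    rw [bv, if_neg h1, zero_pow hd.ne', mul_zero]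
  rw [Finset.sum_eq_zero fun i _ => h0 i, zero_add]
  have h2 : n ≤ (((Fin.last n).castSucc : Fin (n + 2)) : ℕ) := by simp
  have h3 : n ≤ ((Fin.last (n + 1) : Fin (n + 2)) : ℕ) := by simp
  rw [bv, bv, if_pos h2, if_pos h3, IsScalarTower.algebraMap_apply F M L,
    IsScalarTower.algebraMap_apply F M L, ← map_pow, ← map_pow, ← map_mul, ← map_mul, T.hα, T.hl,
    map_neg, add_neg_cancel]

theorem bv_ne (hd : 0 < d) : T.bv L ≠ 0 := by
  intro h
  have h1 := congrFun h (Fin.last (n + 1))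
  have h2 : n ≤ ((Fin.last (n + 1) : Fin (n + 2)) : ℕ) := by simp
  rw [bv, if_pos h2] at h1
  exact T.a_ne hd _ ((map_eq_zero _).1 h1)

/-- The point `B`. -/
def B (hd : 0 < d) : (Xd d a).pt L := Quotient.mk _ ⟨T.bv L, T.bv_ne L hd, T.bv_eq L hd⟩

variable {L}

/-- `B` is degenerate. -/
theorem dgn_B (hd : 0 < d) (hn : 2 ≤ n) : Dgn (T.B L hd) := by
  change Dgv d a (T.bv L)
  refine ⟨1, le_refl 1, by omega, ?_⟩
  unfold ps
  refine Finset.sum_eq_zero fun i _ => ?_
  split_ifs with h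
  · have h1 : ¬ n ≤ (i : ℕ) := by omega
    rw [bv, if_neg h1, zero_pow hd.ne', mul_zero]
  · rfl

theorem map_B (hd : 0 < d) {N : Type} [Field N] [Algebra F N] [Algebra M N] [IsScalarTower F M N]
    (σ : L →ₐ[F] N) (hσ : ∀ x : M, σ (algebraMap M L x) = algebraMap M N x) :
    (Xd d a).map σ (T.B L hd) = T.B N hd := by
  have h : Hc.mp σ (⟨T.bv L, T.bv_ne L hd, T.bv_eq L hd⟩ : Hc d a L)
      = ⟨T.bv N, T.bv_ne N hd, T.bv_eq N hd⟩ := by
    have h1 : (fun i => σ (T.bv L i)) = T.bv N := by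
      funext i
      unfold bv
      split_ifs
      · exact hσ _
      · exact map_zero σ
    unfold Hc.mp
    simp only [h1]
  exact congrArg (Quotient.mk (Hc.sd d a N)) h

open Classical in
/-- The retraction. -/
noncomputable def nu (hd : 0 < d) (x : (Xd d a).pt L) : (Xd d a).pt L :=
  if Dgn x then T.B L hd else x

theorem nu_of (hd : 0 < d) {x : (Xd d a).pt L} (h : Dgn x) : T.nu hd x = T.B L hd := if_pos h

theorem nu_not (hd : 0 < d) {x : (Xd d a).pt L} (h : ¬ Dgn x) : T.nu hd x = x := if_neg h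

theorem nu_map (hd : 0 < d) {N : Type} [Field N] [Algebra F N] [Algebra M N] [IsScalarTower F M N]
    (σ : L →ₐ[F] N) (hσ : ∀ x : M, σ (algebraMap M L x) = algebraMap M N x) (x : (Xd d a).pt L) :
    (Xd d a).map σ (T.nu hd x) = T.nu hd ((Xd d a).map σ x) := by
  by_cases h : Dgn x
  · rw [T.nu_of hd h, T.nu_of hd ((dgn_map σ x).2 h), T.map_B hd σ hσ]
  · rw [T.nu_not hd h, T.nu_not hd (fun h' => h ((dgn_map σ x).1 h'))]

end Rt

end DH
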