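import Pool.Agent.Lib.MP_f80667_ag.Qs.CuR
import Pool.Agent.Lib.MP_f80667_ag.Dh.Rt
import Pool.Agent.Lib.MP_f80667_ag.Dh.Co

/-!
The Fermat curve `x ^ d + y ^ d = z ^ d` with the base point `(1 : ε : 0)`, `ε ^ d = -1`: the curve `s ^ d = A(t)`,
`A = t ^ d + (1 + ε t) ^ d`, `t = x / (y - ε x)`, `s = z / (y - ε x)`.

* `Af d ε`: the polynomial `A`, of degree `d - 1`.
* `cx`, `cy`, `cz`: the homogeneous coordinates `(t, 1 + ε t, s)` of a point, `(1, ε, 0)` at infinity.
-/

open ZC BE PE CV QS Polynomial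

namespace DH

variable {M : Type} [Field M]

/-- The polynomial of the curve. -/
noncomputable def Af (d : ℕ) (ε : M) : M[X] := X ^ d + (1 + C ε * X) ^ d

private theorem af_coeff (d : ℕ) (ε : M) (i : ℕ) :
    (Af d ε).coeff i = (if i = d then 1 else 0) + (d.choose i : M) * ε ^ i := by
  have h1 : (1 + C ε * X : M[X]) ^ d = ((1 + X : M[X]) ^ d).comp (C ε * X) := by
    rw [pow_comp, add_comp, one_comp, X_comp]
  rw [Af, coeff_add, coeff_X_pow, h1, comp_C_mul_X_coeff, coeff_one_add_X_pow]

/-- Proof: the coefficient of `X ^ d` is `1 + ε ^ d = 0`, the coefficient of `X ^ (d-1)` is `d ε ^ (d-1)`. -/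
theorem Af_deg [CharZero M] {d : ℕ} (hd : 2 ≤ d) {ε : M} (hε : ε ^ d = -1) :
    (Af d ε).natDegree + 1 = d * 1 := by
  have hε0 : ε ≠ 0 := by
    rintro rfl
    rw [zero_pow (by omega)] at hε
    exact neg_ne_zero.2 one_ne_zero hε.symm
  have h1 : (Af d ε).natDegree = d - 1 := by
    refine natDegree_eq_of_le_of_coeff_ne_zero ?_ ?_
    · rw [natDegree_le_iff_coeff_eq_zero]
      intro N hN
      rw [af_coeff]
      rcases Nat.lt_or_ge d N with h | h
      · rw [if_neg (by omega), Nat.choose_eq_zero_of_lt h, Nat.cast_zero, zero_mul, add_zero]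
      · have h2 : N = d := by omega
        rw [h2, if_pos rfl, Nat.choose_self, Nat.cast_one, one_mul, hε, add_neg_cancel]
    · rw [af_coeff, if_neg (by omega), zero_add]
      refine mul_ne_zero ?_ (pow_ne_zero _ hε0)
      rw [Nat.cast_ne_zero]
      exact (Nat.choose_pos (by omega)).ne'
  rw [h1]
  omega

variable {d : ℕ} {ε : M} {D : Crv M} (c : Cu D d (Af d ε)) {L : Type} [Field L] [Algebra M L]

/-- The coordinate `x`. -/
noncomputable def cx (P : D.V.pt L) : L := (c.xh P).1

/-- The coordinate `y`. -/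
noncomputable def cy (P : D.V.pt L) : L := (c.xh P).2 + algebraMap M L ε * (c.xh P).1

/-- The coordinate `z`. -/
noncomputable def cz (P : D.V.pt L) : L := c.eta P

/-- The equation. Proof: `none`: `1 + ε ^ d = 0`; `some φ`: `c.eq`. -/
theorem c_eq (hd : 0 < d) (hε : ε ^ d = -1) (P : D.V.pt L) :
    cx c P ^ d + cy c P ^ d = cz c P ^ d := by
  have key : ∀ P : Option (D.A →ₐ[M] L),
      cx c (L := L) P ^ d + cy c (L := L) P ^ d = cz c (L := L) P ^ d := by
    intro P
    cases P with
    | none =>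
      change (1 : L) ^ d + (0 + algebraMap M L ε * 1) ^ d = 0 ^ d
      rw [one_pow, zero_add, mul_one, ← map_pow, hε, map_neg, map_one, add_neg_cancel,
        zero_pow hd.ne']
    | some φ =>
      change φ c.X ^ d + (1 + algebraMap M L ε * φ c.X) ^ d = φ c.U ^ d
      have h1 : aeval (φ c.X) (Af d ε) = φ c.X ^ d + (1 + algebraMap M L ε * φ c.X) ^ d := by
        unfold Af
        simp only [map_add, map_pow, map_mul, map_one, aeval_X, aeval_C]
      rw [← map_pow φ c.U, c.eq, ← aeval_algHom_apply, h1]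
  exact key P

theorem c_ne (P : D.V.pt L) : cx c P ≠ 0 ∨ cy c P ≠ 0 := by
  have key : ∀ P : Option (D.A →ₐ[M] L), cx c (L := L) P ≠ 0 ∨ cy c (L := L) P ≠ 0 := by
    intro P
    cases P with
    | none => exact Or.inl (one_ne_zero (α := L))
    | some φ =>
      change φ c.X ≠ 0 ∨ 1 + algebraMap M L ε * φ c.X ≠ 0
      by_cases h : φ c.X = 0
      · right
        rw [h, mul_zero, add_zero]
        exact one_ne_zero
      · exact Or.inl h
  exact key P

theorem c_map {N : Type} [Field N] [Algebra M N] (σ : L →ₐ[M] N) (P : D.V.pt L) :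
    cx c (D.V.map σ P) = σ (cx c P) ∧ cy c (D.V.map σ P) = σ (cy c P) ∧
      cz c (D.V.map σ P) = σ (cz c P) := by
  refine ⟨?_, ?_, c.eta_map σ P⟩
  · rw [cx, c.xh_map]
    rfl
  · rw [cy, c.xh_map, cy, map_add, map_mul, AlgHom.commutes]

section sq

variable {n : ℕ} (P : Fin n → D.V.pt L)

/-- The sequence of the `x`-coordinates, with `0` at the index `0` and at the indices `> n`. -/
noncomputable def sx (j : ℕ) : L := if h : 1 ≤ j ∧ j ≤ n then cx c (P ⟨j - 1, by omega⟩) else 0

/-- The sequence of the `y`-coordinates. -/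
noncomputable def sy (j : ℕ) : L := if h : 1 ≤ j ∧ j ≤ n then cy c (P ⟨j - 1, by omega⟩) else 1

/-- The sequence of the `z`-coordinates. -/
noncomputable def sz (j : ℕ) : L := if h : 1 ≤ j ∧ j ≤ n then cz c (P ⟨j - 1, by omega⟩) else 1

theorem sq (hd : 0 < d) (hε : ε ^ d = -1) : Sq d (sx c P) (sy c P) (sz c P) where
  eq j := by
    unfold sx sy sz
    split_ifs
    · exact c_eq c hd hε _
    · rw [zero_pow hd.ne', one_pow, zero_add]
  x0 := dif_neg (by omega)
  y0 := dif_neg (by omega)
  z0 := dif_neg (by omega)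
  ne j := by
    unfold sx sy sz
    split_ifs
    · rcases c_ne c (P ⟨j - 1, by omega⟩) with h | h
      · exact Or.inl h
      · exact Or.inr (Or.inl h)
    · exact Or.inr (Or.inl one_ne_zero)

/-- The coordinates of the image in `L ^ (n+2)`. -/
noncomputable def fv (k : Fin (n + 2)) : L := Xc (sx c P) (sy c P) (sz c P) n k

end sq

end DH
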