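import Pool.Agent.Lib.MP_f80667_ag.Dh.Fer
import Pool.Agent.Lib.MP_f80667_ag.Qs.GdA
import Pool.Agent.Lib.MP_f80667_ag.Cv.SeF

/-!
Existence and good reduction of the Fermat curve `s ^ d = A(t)` (`v` not over `d`) and of the quotient curve
`u ^ 2 = q5(y)` of the Fermat quintic (residue characteristic `5`).
-/

open BE CV QS Polynomial IsLocalRing

namespace DH

theorem exists_fer {M : Type} [Field M] [CharZero M] {d : ℕ} (hd : 2 ≤ d) {ε : M}
    (hε : ε ^ d = -1) : ∃ D : Crv M, Nonempty (Cu D d (Af d ε)) := by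
  have hM : IsUnit (d : M) := (Nat.cast_ne_zero.2 (by omega : d ≠ 0)).isUnit
  obtain ⟨h1, -⟩ := Se.fer_lead hd hM hε
  have h2 : (Af d ε).natDegree = d - 1 := h1
  refine exists_cu hd (Se.fer_cop hd hM) (by omega) ?_
  rw [h2]
  have h3 : (d - 1).Coprime (d - 1 + 1) := (Nat.coprime_self_add_right).2 (Nat.coprime_one_right _)
  rw [Nat.sub_add_cancel (by omega)] at h3
  exact h3.symm

section loc

variable {O M : Type} [CommRing O] [IsLocalRing O] [Field M] [Algebra O M]

/-- Good reduction of the Fermat curve if `d` is a unit. -/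
theorem fer_mod {D : Crv M} {d : ℕ} {ε : M} (c : Cu D d (Af d ε)) (hd : 2 ≤ d)
    (hu : IsUnit (d : O)) {e : O} (he : e ^ d = -1) (h : algebraMap O M e = ε) :
    Nonempty (Mod D O M) := by
  refine Se.mod_fer (e := e) ?_ hd hu he
  have h1 : (X ^ d + (1 + C e * X) ^ d : O[X]).map (algebraMap O M) = Af d ε := by
    rw [Af, ← h, Polynomial.map_add, Polynomial.map_pow, Polynomial.map_pow, Polynomial.map_add,
      Polynomial.map_mul, Polynomial.map_one, map_X, map_C]
  rw [h1]
  exact c.ps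

/-- The quotient curve of the Fermat quintic. -/
theorem exists_quint [CharZero M] {π : O} (h5 : (5 : O) ∈ maximalIdeal O)
    (hπ : π ∈ maximalIdeal O) :
    ∃ C' : Crv M, Nonempty (Cu C' 2 (Se.q5 (algebraMap O M π))) := by
  obtain ⟨h1, -⟩ := Se.q5_lead (algebraMap O M π)
  obtain ⟨b, c, h⟩ := Se.q5_cop π h5 hπ
  refine exists_cu le_rfl ⟨b.map (algebraMap O M), c.map (algebraMap O M), ?_⟩ ?_ ?_
  · rw [← Se.q5_map, derivative_map, ← Polynomial.map_mul, ← Polynomial.map_mul,
      ← Polynomial.map_add, h, Polynomial.map_one]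
  · rw [h1]
    norm_num
  · rw [h1]
    norm_num

/-- Good reduction of the quotient curve in residue characteristic `5`. -/
theorem quint_mod {C' : Crv M} {π : O} (c : Cu C' 2 (Se.q5 (algebraMap O M π)))
    (h2 : IsUnit (2 : O)) (h5 : (5 : O) ∈ maximalIdeal O) (hπ : π ∈ maximalIdeal O) :
    Nonempty (Mod C' O M) := by
  refine Se.mod_quint (π := π) ?_ h2 h5 hπ
  rw [Se.q5_map]
  exact c.ps

end loc

end DH
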