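import Pool.Agent.Lib.MP_f80667_ag.Dh.Bl

/-!
Degree `4`: the three maps from the Fermat curve `D` to the curve `u ^ 2 = x ^ 3 - x`.

With `{i, j, k} = {i, i + 1, i + 2}`: `x = (c_j ^ 2 + ε ^ 2 c_i ^ 2) / c_k ^ 2`, `u = θ x c_j / c_k`, `θ = ε - ε ^ 3`,
`θ ^ 2 = 2`.
-/

open ZC BE PE CV QS Polynomial TensorProduct

namespace DH

/-- The polynomial of the curve. -/
noncomputable def a4 (M : Type) [Field M] : M[X] := X ^ 3 - X

variable {M : Type} [Field M] [CharZero M] {ε : M} {D : Crv M} (c : Cu D 4 (Af 4 ε))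

/-- The numerator of `x`. -/
noncomputable def x4 (i : Fin 3) : D.A :=
  (sc c (i + 1) ^ 2 + ε ^ 2 • sc c i ^ 2) * sc c i ^ 2 * sc c (i + 1) ^ 2

/-- The numerator of `u`. -/
noncomputable def u4 (i : Fin 3) : D.A :=
  (ε - ε ^ 3) • ((sc c (i + 1) ^ 2 + ε ^ 2 • sc c i ^ 2) * sc c i ^ 3 * sc c (i + 1) ^ 4)

private theorem b4_prod {A : Type*} [CommMonoid A] (f : Fin 3 → A) (i : Fin 3) :
    ∏ j, f j = f i * f (i + 1) * f (i + 2) := by
  rw [Fin.prod_univ_three]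
  fin_cases i
  · rfl
  · change f 0 * f 1 * f 2 = f 1 * f 2 * f 0
    rw [mul_assoc, mul_comm (f 0)]
  · change f 0 * f 1 * f 2 = f 2 * f 0 * f 1
    rw [mul_comm, mul_assoc]

private theorem b4_sum {A : Type*} [AddCommMonoid A] (f : Fin 3 → A) (i : Fin 3) :
    ∑ j, f j = f i + f (i + 1) + f (i + 2) := by
  rw [Fin.sum_univ_three]
  fin_cases i
  · rfl
  · change f 0 + f 1 + f 2 = f 1 + f 2 + f 0
    rw [add_assoc, add_comm (f 0)]
  · change f 0 + f 1 + f 2 = f 2 + f 0 + f 1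
    rw [add_comm, add_assoc]

section val

variable {L : Type} [Field L] [Algebra M L]

omit [CharZero M] in
private theorem b4_sb (i : Fin 3) (φ : D.A →ₐ[M] L) :
    φ (sb c) = φ (sc c i) * φ (sc c (i + 1)) * φ (sc c (i + 2)) := by
  unfold sb
  rw [map_prod]
  exact b4_prod (fun j => φ (sc c j)) i

omit [CharZero M] in
private theorem b4_ne (i : Fin 3) {φ : D.A →ₐ[M] L} (h : φ (sb c) ≠ 0) :
    φ (sc c i) ≠ 0 ∧ φ (sc c (i + 1)) ≠ 0 ∧ φ (sc c (i + 2)) ≠ 0 := by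
  rw [b4_sb c i] at h
  exact ⟨left_ne_zero_of_mul (left_ne_zero_of_mul h), right_ne_zero_of_mul (left_ne_zero_of_mul h),
    right_ne_zero_of_mul h⟩

theorem x4_val (i : Fin 3) {φ : D.A →ₐ[M] L} (h : φ (sb c) ≠ 0) :
    φ (x4 c i) / φ (sb c) ^ 2 = (φ (sc c (i + 1)) ^ 2 + algebraMap M L ε ^ 2 * φ (sc c i) ^ 2) /
      φ (sc c (i + 2)) ^ 2 := by
  obtain ⟨h1, h2, h3⟩ := b4_ne c i h
  rw [b4_sb c i]
  unfold x4
  rw [map_mul, map_mul, map_add, map_pow, map_pow, map_smul, map_pow, Algebra.smul_def, map_pow]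
  field_simp

theorem u4_val (i : Fin 3) {φ : D.A →ₐ[M] L} (h : φ (sb c) ≠ 0) :
    φ (u4 c i) / φ (sb c) ^ 3 = (algebraMap M L ε - algebraMap M L ε ^ 3) *
      ((φ (sc c (i + 1)) ^ 2 + algebraMap M L ε ^ 2 * φ (sc c i) ^ 2) / φ (sc c (i + 2)) ^ 2) *
        (φ (sc c (i + 1)) / φ (sc c (i + 2))) := by
  obtain ⟨h1, h2, h3⟩ := b4_ne c i h
  rw [b4_sb c i]
  unfold u4
  rw [map_smul, map_mul, map_mul, map_add, map_pow, map_pow, map_pow, map_smul, map_pow,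
    Algebra.smul_def, Algebra.smul_def, map_pow, map_sub, map_pow]
  field_simp

end val

/-- The maps. Proof of `eq`: `x4_val`, `u4_val`, `sc_sum`. -/
noncomputable def g4 (hε : ε ^ 4 = -1) (i : Fin 3) : Gm D 2 (a4 M) where
  b := sb c
  x := x4 c i
  u := u4 c i
  N := 2
  N' := 3
  ne := sb_ne c (by norm_num) hε
  eq L _ _ φ h := by
    obtain ⟨h1, h2, h3⟩ := b4_ne c i h
    rw [x4_val c i h, u4_val c i h]
    have hs : φ (sc c i) ^ 4 + φ (sc c (i + 1)) ^ 4 + φ (sc c (i + 2)) ^ 4 = 0 := by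
      have h4 := congrArg φ (sc_sum c hε)
      rw [map_sum, map_zero, b4_sum (fun j => φ (sc c j ^ 4)) i] at h4
      simpa only [map_pow] using h4
    have he : algebraMap M L ε ^ 4 = -1 := by
      rw [← map_pow, hε, map_neg, map_one]
    obtain ⟨q, hq⟩ : ∃ q, q = algebraMap M L ε := ⟨_, rfl⟩
    obtain ⟨a, ha⟩ : ∃ a, a = φ (sc c i) := ⟨_, rfl⟩
    obtain ⟨b, hb⟩ : ∃ b, b = φ (sc c (i + 1)) := ⟨_, rfl⟩
    obtain ⟨k, hk⟩ : ∃ k, k = φ (sc c (i + 2)) := ⟨_, rfl⟩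
    rw [← ha, ← hb, ← hk] at hs
    rw [← hk] at h3
    rw [← hq] at he
    rw [← ha, ← hb, ← hk, ← hq]
    unfold a4
    rw [map_sub, map_pow, aeval_X]
    obtain ⟨α, hα⟩ : ∃ α, α = a / k := ⟨_, rfl⟩
    obtain ⟨β, hβ⟩ : ∃ β, β = b / k := ⟨_, rfl⟩
    have ht : (b ^ 2 + q ^ 2 * a ^ 2) / k ^ 2 = β ^ 2 + q ^ 2 * α ^ 2 := by
      rw [hα, hβ]
      field_simp
    have hs' : α ^ 4 + β ^ 4 + 1 = 0 := by
      rw [hα, hβ]
      field_simp
      rw [mul_zero]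
      exact hs
    rw [ht, ← hβ]
    linear_combination (β ^ 2 + q ^ 2 * α ^ 2) * hs' + (β ^ 2 + q ^ 2 * α ^ 2) *
      ((β ^ 2 + q ^ 2 * α ^ 2) * β ^ 2 * (q ^ 2 - 2) - α ^ 4) * he

end DH
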