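import Pool.Agent.Lib.MP_f80667_ag.Qs.Cu

/-!
A rational map from a curve `D` to a curve `E : u ^ n = a(x)`, given by `x = g.x / b ^ N`, `u = g.u / b ^ N'` at the points
of `D` where `b ≠ 0`. The other points go to infinity.
-/

open ZC BE PE CV QS Polynomial

namespace DH

section gn

variable {M : Type} [Field M] {D : Crv M} {L : Type} [Field L] [Algebra M L]

/-- A point where `b ≠ 0`. -/
def Gn (b : D.A) (P : D.V.pt L) : Prop := ∃ φ : D.A →ₐ[M] L, P = some φ ∧ φ b ≠ 0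

theorem gn_some {b : D.A} {φ : D.A →ₐ[M] L} : Gn (D := D) b (some φ : D.V.pt L) ↔ φ b ≠ 0 := by
  constructor
  · rintro ⟨ψ, h, h'⟩
    obtain rfl : φ = ψ := Option.some_injective _ h
    exact h'
  · exact fun h => ⟨φ, rfl, h⟩

theorem gn_none {b : D.A} : ¬ Gn (D := D) b (none : D.V.pt L) := by
  rintro ⟨ψ, h, -⟩
  exact Option.some_ne_none ψ h.symm

theorem gn_map {b : D.A} {N : Type} [Field N] [Algebra M N] (σ : L →ₐ[M] N) (P : D.V.pt L) :
    Gn b (D.V.map σ P) ↔ Gn b P := by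
  rcases P with _ | φ
  · exact iff_of_false gn_none gn_none
  · have h1 : D.V.map σ (some φ : D.V.pt L) = (some (σ.comp φ) : D.V.pt N) := rfl
    have h2 : Gn (D := D) b (some (σ.comp φ) : D.V.pt N) ↔ (σ.comp φ) b ≠ 0 := gn_some
    have h3 : Gn (D := D) b (some φ : D.V.pt L) ↔ φ b ≠ 0 := gn_some
    rw [h1]
    refine h2.trans (Iff.trans ?_ h3.symm)
    change σ (φ b) ≠ 0 ↔ φ b ≠ 0
    exact not_congr (map_eq_zero σ)

end gn

/-- A rational map. -/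
structure Gm {M : Type} [Field M] (D : Crv M) (n : ℕ) (a : M[X]) where
  b : D.A
  x : D.A
  u : D.A
  N : ℕ
  N' : ℕ
  ne : b ≠ 0
  eq : ∀ (L : Type) [Field L] [Algebra M L] (φ : D.A →ₐ[M] L), φ b ≠ 0 →
    (φ u / φ b ^ N') ^ n = aeval (φ x / φ b ^ N) a

namespace Gm

variable {M : Type} [Field M] {D E : Crv M} {n : ℕ} {a : M[X]} (g : Gm D n a) (e : Cu E n a)
  {L : Type} [Field L] [Algebra M L]

theorem exists_f {φ : D.A →ₐ[M] L} (h : φ g.b ≠ 0) : ∃ ψ : E.A →ₐ[M] L,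
    ψ e.X = φ g.x / φ g.b ^ g.N ∧ ψ e.U = φ g.u / φ g.b ^ g.N' :=
  e.lift L _ _ (g.eq L φ h)

open Classical in
/-- The map. -/
noncomputable def f (P : D.V.pt L) : E.V.pt L :=
  if h : Gn g.b P then some (g.exists_f e h.choose_spec.2).choose else none

theorem f_not {P : D.V.pt L} (h : ¬ Gn g.b P) : g.f e P = none := dif_neg h

/-- The value. Proof: `dif_pos`; the homomorphism of a point is unique. -/
theorem f_gn {φ : D.A →ₐ[M] L} (h : φ g.b ≠ 0) : ∃ ψ : E.A →ₐ[M] L,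
    g.f e (some φ : D.V.pt L) = some ψ ∧ ψ e.X = φ g.x / φ g.b ^ g.N ∧
      ψ e.U = φ g.u / φ g.b ^ g.N' := by
  have h1 : Gn g.b (some φ : D.V.pt L) := gn_some.2 h
  have h2 : h1.choose = φ := (Option.some_injective _ h1.choose_spec.1).symm
  have h3 := (g.exists_f e h1.choose_spec.2).choose_spec
  have h5 : ∀ z, h1.choose z = φ z := fun z => DFunLike.congr_fun h2 z
  refine ⟨(g.exists_f e h1.choose_spec.2).choose, dif_pos h1, ?_, ?_⟩
  · rw [h3.1, h5, h5]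
  · rw [h3.2, h5, h5]

/-- Two points with the same image. Proof: `f_gn`, `Cu.hom_ext`. -/
theorem f_eq {φ φ' : D.A →ₐ[M] L} (h : φ g.b ≠ 0) (h' : φ' g.b ≠ 0) :
    g.f e (some φ : D.V.pt L) = g.f e (some φ' : D.V.pt L) ↔
      φ g.x / φ g.b ^ g.N = φ' g.x / φ' g.b ^ g.N ∧ φ g.u / φ g.b ^ g.N' = φ' g.u / φ' g.b ^ g.N' := by
  obtain ⟨ψ, h1, h2, h3⟩ := g.f_gn e h
  obtain ⟨ψ', h1', h2', h3'⟩ := g.f_gn e h'
  rw [h1, h1', ← h2, ← h3, ← h2', ← h3']
  constructor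
  · intro h4
    obtain rfl : ψ = ψ' := Option.some_injective _ h4
    exact ⟨rfl, rfl⟩
  · rintro ⟨h4, h5⟩
    rw [e.hom_ext h4 h5]

/-- Naturality. Proof: `gn_map`, `f_gn`, `Cu.hom_ext`. -/
theorem f_map {N : Type} [Field N] [Algebra M N] (σ : L →ₐ[M] N) (P : D.V.pt L) :
    E.V.map σ (g.f e P) = g.f e (D.V.map σ P) := by
  by_cases hP : Gn g.b P
  · obtain ⟨φ, rfl, hφ⟩ := hP
    obtain ⟨ψ, h1, h2, h3⟩ := g.f_gn e hφ
    have h4 : (σ.comp φ) g.b ≠ 0 := fun h => hφ ((map_eq_zero σ).1 h)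
    obtain ⟨ψ', h5, h6, h7⟩ := g.f_gn e h4
    have h8 : D.V.map σ (some φ : D.V.pt L) = (some (σ.comp φ) : D.V.pt N) := rfl
    rw [h8, h5, h1]
    change (some (σ.comp ψ) : E.V.pt N) = some ψ'
    congr 1
    refine e.hom_ext ?_ ?_
    · rw [h6]
      change σ (ψ e.X) = σ (φ g.x) / σ (φ g.b) ^ g.N
      rw [h2, map_div₀, map_pow]
    · rw [h7]
      change σ (ψ e.U) = σ (φ g.u) / σ (φ g.b) ^ g.N'
      rw [h3, map_div₀, map_pow]
  · have h1 : ¬ Gn g.b (D.V.map σ P) := fun h => hP ((gn_map σ P).1 h)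
    rw [g.f_not e hP, g.f_not e h1]
    rfl

end Gm

end DH
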