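import Pool.Agent.Lib.MP_f80667_ag.Cv.Lc
import Pool.Agent.Lib.MP_f80667_ag.Dh.Bg

/-!
The fibres of a rational map and the pull-back of cycles: a point `Q` of `E` goes to the sum of the points of the fibre
over `Q` where `b ≠ 0`, completed by a multiple of the point at infinity to a cycle of degree `r`.
-/

open ZC BE PE CV QS Polynomial TensorProduct

namespace DH

namespace Gm

variable {M : Type} [Field M] {D E : Crv M} {n : ℕ} {a : M[X]} (g : Gm D n a) (e : Cu E n a)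
  {Ω : Type} [Field Ω] [Algebra M Ω]

/-- The points of the fibre where `b ≠ 0`. -/
def Fb (Q : E.V.pt Ω) : Set (D.V.pt Ω) := {P | Gn g.b P ∧ g.f e P = Q}

/-- The sum of the points of the fibre where `b ≠ 0`. -/
noncomputable def sf (Q : E.V.pt Ω) : D.V.pt Ω →₀ ℤ := ∑ᶠ P ∈ g.Fb e Q, Finsupp.single P 1

/-- The pull-back of cycles. -/
noncomputable def psi (r : ℤ) : (E.V.pt Ω →₀ ℤ) →+ (D.V.pt Ω →₀ ℤ) :=
  Finsupp.liftAddHom fun Q => zmultiplesHom _
    (g.sf e Q + Finsupp.single (D.bp.o Ω) (r - D.V.deg Ω (g.sf e Q)))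

/-- The pull-back of a point. -/
private theorem bf_single (r : ℤ) (Q : E.V.pt Ω) : g.psi e r (Finsupp.single Q 1) =
    g.sf e Q + Finsupp.single (D.bp.o Ω) (r - D.V.deg Ω (g.sf e Q)) := by
  change Finsupp.liftAddHom _ (Finsupp.single Q 1) = _
  rw [Finsupp.liftAddHom_apply_single]
  exact one_zsmul _

private theorem bf_deg {F : Type} [Field F] (V : Vr F) {Ω : Type} [Field Ω] [Algebra F Ω]
    (x : V.pt Ω) (n : ℤ) : V.deg Ω (Finsupp.single x n) = n := by
  change Finsupp.liftAddHom _ (Finsupp.single x n) = _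
  rw [Finsupp.liftAddHom_apply_single]
  rfl

private theorem bf_ext {X : Type*} {N : Type*} [AddCommGroup N] {f f' : (X →₀ ℤ) →+ N}
    (h : ∀ x, f (Finsupp.single x 1) = f' (Finsupp.single x 1)) (z : X →₀ ℤ) : f z = f' z := by
  refine DFunLike.congr_fun (Finsupp.addHom_ext' fun x => ?_) z
  exact AddMonoidHom.ext_int (h x)

private theorem bf_act_inv {K : Type} [Field K] [Algebra K Ω] [Algebra M K] [IsScalarTower M K Ω]
    (C : Crv M) (γ : Ω ≃ₐ[K] Ω) (x : C.V.pt Ω) : C.V.act γ⁻¹ (C.V.act γ x) = x := by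
  rcases x with _ | φ
  · rfl
  · refine congrArg some (AlgHom.ext fun a => ?_)
    change γ⁻¹ (γ (φ a)) = φ a
    exact γ.symm_apply_apply (φ a)

private theorem bf_act_inv' {K : Type} [Field K] [Algebra K Ω] [Algebra M K]
    [IsScalarTower M K Ω] (C : Crv M) (γ : Ω ≃ₐ[K] Ω) (x : C.V.pt Ω) :
    C.V.act γ (C.V.act γ⁻¹ x) = x := by
  rcases x with _ | φ
  · rfl
  · refine congrArg some (AlgHom.ext fun a => ?_)
    change γ (γ⁻¹ (φ a)) = φ a
    exact γ.apply_symm_apply (φ a)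

theorem psi_deg (r : ℤ) (z : E.V.pt Ω →₀ ℤ) : D.V.deg Ω (g.psi e r z) = r * E.V.deg Ω z := by
  refine bf_ext (f := (D.V.deg Ω).comp (g.psi e r)) (f' := (AddMonoidHom.mulLeft r).comp (E.V.deg Ω))
    (fun Q => ?_) z
  change D.V.deg Ω (g.psi e r (Finsupp.single Q 1)) = r * E.V.deg Ω (Finsupp.single Q 1)
  rw [g.bf_single e, map_add, bf_deg, bf_deg, mul_one]
  ring

/-- A point whose fibre is empty. -/
theorem psi_emp (r : ℤ) {Q : E.V.pt Ω} (h : g.Fb e Q = ∅) :
    g.psi e r (Finsupp.single Q 1) = Finsupp.single (D.bp.o Ω) r := by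
  have h1 : g.sf e Q = 0 := by
    rw [sf, h]
    exact finsum_mem_empty
  rw [g.bf_single e, h1, map_zero, sub_zero, zero_add]

theorem fb_none : g.Fb e (none : E.V.pt Ω) = ∅ := by
  refine Set.eq_empty_iff_forall_notMem.2 fun P hP => ?_
  obtain ⟨⟨φ, rfl, h⟩, h2⟩ := hP
  obtain ⟨ψ, h3, -⟩ := g.f_gn e h
  rw [h3] at h2
  exact Option.some_ne_none ψ h2

/-- A point whose fibre is known. -/
theorem psi_fin (r : ℤ) {Q : E.V.pt Ω} (S : Finset (D.V.pt Ω)) (h : g.Fb e Q = S) :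
    g.psi e r (Finsupp.single Q 1) =
      ∑ P ∈ S, Finsupp.single P 1 + Finsupp.single (D.bp.o Ω) (r - S.card) := by
  have h1 : g.sf e Q = ∑ P ∈ S, Finsupp.single P 1 := by
    rw [sf, h]
    exact finsum_mem_coe_finset _ _
  have h2 : D.V.deg Ω (∑ P ∈ S, Finsupp.single P 1) = S.card := by
    rw [map_sum, Finset.sum_congr rfl fun P _ => bf_deg D.V P 1, Finset.sum_const, nsmul_eq_mul,
      mul_one]
  rw [g.bf_single e, h1, h2]

section act

variable {K : Type} [Field K] [Algebra K Ω] [Algebra M K] [IsScalarTower M K Ω]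

/-- Proof: `f_map`. -/
theorem f_act (γ : Ω ≃ₐ[K] Ω) (P : D.V.pt Ω) : E.V.act γ (g.f e P) = g.f e (D.V.act γ P) := by
  exact g.f_map e _ P

/-- Proof: `D.V.act γ` is a bijection from the fibre over `Q` to the fibre over `E.V.act γ Q` (`f_act`, `gn_map`; the inverse
is `D.V.act γ⁻¹`), degrees. -/
theorem psi_act (r : ℤ) (γ : Ω ≃ₐ[K] Ω) (z : E.V.pt Ω →₀ ℤ) :
    Finsupp.mapDomain (D.V.act γ) (g.psi e r z) =
      g.psi e r (Finsupp.mapDomain (E.V.act γ) z) := by
  have him : ∀ Q : E.V.pt Ω, g.Fb e (E.V.act γ Q) = D.V.act γ '' g.Fb e Q := by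
    intro Q
    ext P
    constructor
    · rintro ⟨h1, h2⟩
      refine ⟨D.V.act γ⁻¹ P, ⟨(gn_map _ P).2 h1, ?_⟩, bf_act_inv' D γ P⟩
      rw [← g.f_act e γ⁻¹ P, h2, bf_act_inv]
    · rintro ⟨P, ⟨h1, h2⟩, rfl⟩
      refine ⟨(gn_map _ P).2 h1, ?_⟩
      rw [← g.f_act e γ P, h2]
  have hinj : Function.Injective (D.V.act γ : D.V.pt Ω → D.V.pt Ω) :=
    Function.LeftInverse.injective (bf_act_inv D γ)
  have hsf : ∀ Q : E.V.pt Ω, Finsupp.mapDomain (D.V.act γ) (g.sf e Q) =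
      g.sf e (E.V.act γ Q) := by
    intro Q
    rw [sf, sf, him Q, finsum_mem_image hinj.injOn]
    by_cases hf : (g.Fb e Q).Finite
    · have h1 := AddMonoidHom.map_finsum_mem (fun P : D.V.pt Ω => Finsupp.single P (1 : ℤ))
        (Finsupp.mapDomain.addMonoidHom (D.V.act γ)) hf
      refine h1.trans (finsum_mem_congr rfl fun P _ => ?_)
      exact Finsupp.mapDomain_single
    · have hs : ∀ P : D.V.pt Ω, Finsupp.single P (1 : ℤ) ≠ 0 := fun P h =>
        one_ne_zero (Finsupp.single_eq_zero.1 h)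
      rw [finsum_mem_eq_zero_of_infinite, finsum_mem_eq_zero_of_infinite, Finsupp.mapDomain_zero]
      · exact fun h => hf (h.subset fun P hP => ⟨hP, hs _⟩)
      · exact fun h => hf (h.subset fun P hP => ⟨hP, hs _⟩)
  have hdeg : ∀ y : D.V.pt Ω →₀ ℤ, D.V.deg Ω (Finsupp.mapDomain (D.V.act γ) y) =
      D.V.deg Ω y := by
    refine bf_ext (f := (D.V.deg Ω).comp (Finsupp.mapDomain.addMonoidHom (D.V.act γ)))
      (f' := D.V.deg Ω) fun P => ?_
    change D.V.deg Ω (Finsupp.mapDomain (D.V.act γ) (Finsupp.single P 1)) = _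
    rw [Finsupp.mapDomain_single, bf_deg, bf_deg]
  refine bf_ext (f := (Finsupp.mapDomain.addMonoidHom (D.V.act γ)).comp (g.psi e r))
    (f' := (g.psi e r).comp (Finsupp.mapDomain.addMonoidHom (E.V.act γ))) (fun Q => ?_) z
  change Finsupp.mapDomain (D.V.act γ) (g.psi e r (Finsupp.single Q 1)) =
    g.psi e r (Finsupp.mapDomain (E.V.act γ) (Finsupp.single Q 1))
  rw [Finsupp.mapDomain_single, g.bf_single e, g.bf_single e, Finsupp.mapDomain_add,
    Finsupp.mapDomain_single, hsf, ← hsf, hdeg]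
  rfl

end act

end Gm

end DH
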