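import Pool.Agent.Lib.MP_f80667_ag.Dh.B4
import Pool.Agent.Lib.MP_f80667_ag.Dh.Bf

/-! Degree `4`: the fibres of the three maps. -/

open ZC BE PE CV QS Polynomial TensorProduct

namespace DH

variable {M : Type} [Field M] [CharZero M] {ε : M} {D : Crv M} (c : Cu D 4 (Af 4 ε))
  {E : Crv M} (e : Cu E 2 (a4 M)) {Ω : Type} [Field Ω] [Algebra M Ω] [IsAlgClosed Ω]

/-- The change of the sign of `c_i`. -/
def h4 (i : Fin 3) : Fin 3 → Ω := fun m => if m = i then -1 else 1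

omit [CharZero M] [IsAlgClosed Ω] in
private theorem b4f_ne (i : Fin 3) {φ : D.A →ₐ[M] Ω} (h : φ (sb c) ≠ 0) :
    φ (sc c i) ≠ 0 ∧ φ (sc c (i + 1)) ≠ 0 ∧ φ (sc c (i + 2)) ≠ 0 := by
  rw [sb_val] at h
  exact ⟨h i, h (i + 1), h (i + 2)⟩

private theorem b4f_cases : ∀ i m : Fin 3, m = i ∨ m = i + 1 ∨ m = i + 2 := by decide

private theorem b4f_ne1 : ∀ i : Fin 3, i + 1 ≠ i := by decide

private theorem b4f_ne2 : ∀ i : Fin 3, i + 2 ≠ i := by decide

omit [IsAlgClosed Ω] in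
private theorem b4f_root (i m : Fin 3) : (h4 i m : Ω) ^ 4 = 1 := by
  unfold h4
  split_ifs
  · norm_num
  · norm_num

omit [CharZero M] [IsAlgClosed Ω] in
private theorem b4f_sum (hε : ε ^ 4 = -1) (i : Fin 3) (φ : D.A →ₐ[M] Ω) :
    φ (sc c i) ^ 4 + φ (sc c (i + 1)) ^ 4 + φ (sc c (i + 2)) ^ 4 = 0 := by
  have h4 := congrArg φ (sc_sum c hε)
  have h5 : ∀ f : Fin 3 → Ω, ∑ j, f j = f i + f (i + 1) + f (i + 2) := by
    intro f
    rw [Fin.sum_univ_three]
    fin_cases i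
    · rfl
    · change f 0 + f 1 + f 2 = f 1 + f 2 + f 0
      ring
    · change f 0 + f 1 + f 2 = f 2 + f 0 + f 1
      ring
  rw [map_sum, map_zero, h5] at h4
  simpa only [map_pow] using h4

omit [CharZero M] [IsAlgClosed Ω] in
/-- The value of `x` is not `0`. -/
private theorem b4f_x_ne (hε : ε ^ 4 = -1) (i : Fin 3) {φ : D.A →ₐ[M] Ω} (h : φ (sb c) ≠ 0) :
    φ (sc c (i + 1)) ^ 2 + algebraMap M Ω ε ^ 2 * φ (sc c i) ^ 2 ≠ 0 := by
  intro h0
  obtain ⟨h1, h2, h3⟩ := b4f_ne c i h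
  have he : algebraMap M Ω ε ^ 4 = -1 := by
    rw [← map_pow, hε, map_neg, map_one]
  have hs := b4f_sum c hε i φ
  have h4 : φ (sc c (i + 2)) ^ 4 = 0 := by
    linear_combination hs - (φ (sc c (i + 1)) ^ 2 - algebraMap M Ω ε ^ 2 * φ (sc c i) ^ 2) * h0 -
      φ (sc c i) ^ 4 * he
  exact h3 (pow_eq_zero_iff (by norm_num) |>.1 h4)

private theorem b4f_mem {T : Type} [DecidableEq T] (a b p : T) :
    p ∈ (({a, b} : Finset T) : Set T) ↔ p = a ∨ p = b := by
  rw [Finset.mem_coe, Finset.mem_insert, Finset.mem_singleton]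

private theorem b4f_pair {T : Type} [DecidableEq T] {a b : T} (hab : a ≠ b) (o : T) :
    ∑ P ∈ ({a, b} : Finset T), (Finsupp.single P 1 : T →₀ ℤ) +
        Finsupp.single o ((2 : ℤ) - (({a, b} : Finset T).card : ℤ)) =
      (Finsupp.single a 1 : T →₀ ℤ) + Finsupp.single b 1 := by
  rw [Finset.card_pair hab, Finset.sum_pair hab]
  norm_num

open Classical in
/-- The fibre. Proof: `f_eq`, `x4_val`, `u4_val`: `c_j / c_k` and `c_i ^ 2 / c_k ^ 2` agree. -/
theorem fb4 (hε : ε ^ 4 = -1) (i : Fin 3) {φ : D.A →ₐ[M] Ω} (h : φ (sb c) ≠ 0) :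
    (g4 c hε i).Fb e ((g4 c hε i).f e (some φ : D.V.pt Ω)) =
      (({(some φ : D.V.pt Ω), (some (zs c φ (h4 i)) : D.V.pt Ω)} : Finset (D.V.pt Ω)) :
        Set (D.V.pt Ω)) := by
  have hε0 : ε ≠ 0 := by
    rintro rfl
    norm_num at hε
  have he : algebraMap M Ω ε ^ 4 = -1 := by
    rw [← map_pow, hε, map_neg, map_one]
  have hθ : algebraMap M Ω ε - algebraMap M Ω ε ^ 3 ≠ 0 := by
    intro h0
    have h1 : (2 : Ω) = 0 := by
      linear_combination (algebraMap M Ω ε - algebraMap M Ω ε ^ 3) * h0 -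
        (algebraMap M Ω ε ^ 2 - 2) * he
    have : CharZero Ω := charZero_of_injective_algebraMap (algebraMap M Ω).injective
    exact two_ne_zero h1
  have hg : ∀ {ψ : D.A →ₐ[M] Ω}, ψ (sb c) ≠ 0 → ψ (g4 c hε i).b ≠ 0 := fun h => h
  -- the criterion
  have hiff : ∀ {ψ : D.A →ₐ[M] Ω}, ψ (sb c) ≠ 0 →
      ((g4 c hε i).f e (some ψ : D.V.pt Ω) = (g4 c hε i).f e (some φ : D.V.pt Ω) ↔
        (ψ (sc c i) / ψ (sc c (i + 2))) ^ 2 = (φ (sc c i) / φ (sc c (i + 2))) ^ 2 ∧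
          ψ (sc c (i + 1)) / ψ (sc c (i + 2)) = φ (sc c (i + 1)) / φ (sc c (i + 2))) := by
    intro ψ hψ
    rw [(g4 c hε i).f_eq e (hg hψ) (hg h)]
    change ψ (x4 c i) / ψ (sb c) ^ 2 = φ (x4 c i) / φ (sb c) ^ 2 ∧
      ψ (u4 c i) / ψ (sb c) ^ 3 = φ (u4 c i) / φ (sb c) ^ 3 ↔ _
    rw [x4_val c i hψ, x4_val c i h, u4_val c i hψ, u4_val c i h]
    obtain ⟨-, -, k0⟩ := b4f_ne c i h
    obtain ⟨-, -, k0'⟩ := b4f_ne c i hψ
    have hx := b4f_x_ne c hε i h
    constructor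
    · rintro ⟨h1, h2⟩
      rw [h1] at h2
      have h3 : ψ (sc c (i + 1)) / ψ (sc c (i + 2)) = φ (sc c (i + 1)) / φ (sc c (i + 2)) := by
        refine mul_left_cancel₀ (mul_ne_zero hθ (div_ne_zero hx (pow_ne_zero 2 k0))) h2
      refine ⟨?_, h3⟩
      have h4 : (ψ (sc c (i + 1)) / ψ (sc c (i + 2))) ^ 2 +
          algebraMap M Ω ε ^ 2 * (ψ (sc c i) / ψ (sc c (i + 2))) ^ 2 =
          (φ (sc c (i + 1)) / φ (sc c (i + 2))) ^ 2 +
          algebraMap M Ω ε ^ 2 * (φ (sc c i) / φ (sc c (i + 2))) ^ 2 := by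
        rw [add_div, add_div, mul_div_assoc, mul_div_assoc, ← div_pow, ← div_pow, ← div_pow,
          ← div_pow] at h1
        exact h1
      rw [h3] at h4
      have h5 := add_left_cancel h4
      have h6 : algebraMap M Ω ε ^ 2 ≠ 0 :=
        pow_ne_zero 2 (by rw [Ne, FaithfulSMul.algebraMap_eq_zero_iff]; exact hε0)
      exact mul_left_cancel₀ h6 h5
    · rintro ⟨h1, h2⟩
      have h3 : (ψ (sc c (i + 1)) ^ 2 + algebraMap M Ω ε ^ 2 * ψ (sc c i) ^ 2) /
          ψ (sc c (i + 2)) ^ 2 = (φ (sc c (i + 1)) ^ 2 + algebraMap M Ω ε ^ 2 * φ (sc c i) ^ 2) /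
          φ (sc c (i + 2)) ^ 2 := by
        rw [add_div, add_div, mul_div_assoc, mul_div_assoc, ← div_pow, ← div_pow, ← div_pow,
          ← div_pow, h1, h2]
      exact ⟨h3, by rw [h3, h2]⟩
  ext P
  refine Iff.trans ?_ (b4f_mem (T := D.V.pt Ω) (some φ) (some (zs c φ (h4 i))) P).symm
  constructor
  · rintro ⟨⟨ψ, rfl, hψ⟩, hf⟩
    have hψ' : ψ (sb c) ≠ 0 := hψ
    obtain ⟨h1, h2⟩ := (hiff hψ').1 hf
    obtain ⟨-, -, k0⟩ := b4f_ne c i h
    obtain ⟨-, -, k0'⟩ := b4f_ne c i hψ'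
    have hk : ψ (sc c (i + 2)) = ψ (sc c (i + 2)) / φ (sc c (i + 2)) * φ (sc c (i + 2)) := by
      field_simp
    have hb : ψ (sc c (i + 1)) = ψ (sc c (i + 2)) / φ (sc c (i + 2)) * φ (sc c (i + 1)) := by
      rw [div_eq_iff k0'] at h2
      rw [h2]
      ring
    rcases sq_eq_sq_iff_eq_or_eq_neg.1 h1 with h3 | h3
    · left
      have ha : ψ (sc c i) = ψ (sc c (i + 2)) / φ (sc c (i + 2)) * φ (sc c i) := by
        rw [div_eq_iff k0'] at h3
        rw [h3]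
        ring
      have h4 := sc_ext c hε0 (φ := φ) (ψ := ψ) (r := ψ (sc c (i + 2)) / φ (sc c (i + 2)))
        (fun m => by
          rcases b4f_cases i m with rfl | rfl | rfl
          · exact ha
          · exact hb
          · exact hk)
      rw [h4.2]
    · right
      have ha : ψ (sc c i) = ψ (sc c (i + 2)) / φ (sc c (i + 2)) * (-1 * φ (sc c i)) := by
        rw [← neg_div, div_eq_iff k0'] at h3
        rw [h3]
        ring
      obtain ⟨r, hr, hz⟩ := zs_spec c hε (by norm_num) h (b4f_root (Ω := Ω) i)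
      have h4 := sc_ext c hε0 (φ := zs c φ (h4 i)) (ψ := ψ)
        (r := ψ (sc c (i + 2)) / φ (sc c (i + 2)) / r)
        (fun m => by
          rw [hz m]
          rcases b4f_cases i m with rfl | rfl | rfl
          · rw [ha]
            unfold h4
            rw [if_pos rfl]
            field_simp
          · rw [hb]
            unfold h4
            rw [if_neg (b4f_ne1 i)]
            field_simp
          · unfold h4
            rw [if_neg (b4f_ne2 i)]
            field_simp)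
      rw [h4.2]
  · rintro (rfl | rfl)
    · exact ⟨⟨φ, rfl, hg h⟩, rfl⟩
    · have hz := zs_gn c hε (by norm_num) h (b4f_root (Ω := Ω) i)
      refine ⟨⟨_, rfl, hg hz⟩, (hiff hz).2 ?_⟩
      obtain ⟨r, hr, hz'⟩ := zs_spec c hε (by norm_num) h (b4f_root (Ω := Ω) i)
      obtain ⟨-, -, k0⟩ := b4f_ne c i h
      rw [hz' i, hz' (i + 1), hz' (i + 2)]
      unfold h4
      rw [if_pos rfl, if_neg (b4f_ne1 i), if_neg (b4f_ne2 i)]
      constructor
      · field_simp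
      · field_simp

/-- Proof: `psi_fin`, `fb4`, the two points are distinct (`zs_eq`). -/
theorem psi4 (hε : ε ^ 4 = -1) (i : Fin 3) {φ : D.A →ₐ[M] Ω} (h : φ (sb c) ≠ 0) :
    (g4 c hε i).psi e 2 (Finsupp.single ((g4 c hε i).f e (some φ : D.V.pt Ω)) 1) =
      (Finsupp.single (some φ) 1 : D.V.pt Ω →₀ ℤ) +
        (Finsupp.single (some (zs c φ (h4 i))) 1 : D.V.pt Ω →₀ ℤ) := by
  classical
  have : CharZero Ω := charZero_of_injective_algebraMap (algebraMap M Ω).injective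
  have hne : (some φ : D.V.pt Ω) ≠ some (zs c φ (h4 i)) := by
    intro h0
    have h1 : φ = zs c φ (h4 i) := Option.some_injective _ h0
    have h2 : zs c φ (fun _ => 1) = zs c φ (h4 i) := by
      rw [zs_one c hε (by norm_num) h]
      exact h1
    obtain ⟨r, hr⟩ := (zs_eq c hε (by norm_num) h (fun _ => one_pow 4)
      (b4f_root (Ω := Ω) i)).1 h2
    have h3 := hr i
    have h4' := hr (i + 1)
    unfold h4 at h3 h4'
    rw [if_pos rfl, mul_one] at h3
    rw [if_neg (b4f_ne1 i), mul_one, ← h3] at h4'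
    norm_num at h4'
  exact ((g4 c hε i).psi_fin e 2 _ (fb4 c e hε i h)).trans
    (b4f_pair (T := D.V.pt Ω) hne (D.bp.o Ω))

end DH
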