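import Pool.Agent.Lib.MP_f80667_ag.Dh.Bs
import Pool.Agent.Lib.MP_f80667_ag.Dh.Bz

/-!
The functions `gl φ j k = c_j(φ) c_k - c_k(φ) c_j` and their orders.
-/

open ZC BE PE CV QS Polynomial TensorProduct

namespace DH

/-- The maximal ideal of a point is generated by `X - X(φ)`, `U - U(φ)`. Proof: `c.gen`. -/
theorem mx_gen {M : Type} [Field M] {n : ℕ} {a : M[X]} {D : Crv M} (c : Cu D n a) {Ω : Type}
    [Field Ω] [Algebra M Ω] (φ : D.A →ₐ[M] Ω) :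
    (mx φ : Ideal (Ω ⊗[M] D.A)) = Ideal.span {(1 : Ω) ⊗ₜ[M] c.X - φ c.X ⊗ₜ[M] (1 : D.A),
      (1 : Ω) ⊗ₜ[M] c.U - φ c.U ⊗ₜ[M] (1 : D.A)} := by
  apply le_antisymm
  · have h1 : ∀ x : D.A, (1 : Ω) ⊗ₜ[M] x - φ x ⊗ₜ[M] (1 : D.A) ∈
        Ideal.span {(1 : Ω) ⊗ₜ[M] c.X - φ c.X ⊗ₜ[M] (1 : D.A),
          (1 : Ω) ⊗ₜ[M] c.U - φ c.U ⊗ₜ[M] (1 : D.A)} := by
      intro x
      have hx : x ∈ Algebra.adjoin M ({c.X, c.U} : Set D.A) := by rw [c.gen]; trivial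
      induction hx using Algebra.adjoin_induction with
      | mem x hx =>
        rcases hx with rfl | hx
        · exact Ideal.subset_span (Set.mem_insert _ _)
        · rw [Set.mem_singleton_iff] at hx
          rw [hx]
          exact Ideal.subset_span (Set.mem_insert_of_mem _ (Set.mem_singleton _))
      | algebraMap r =>
        have h2 : (1 : Ω) ⊗ₜ[M] algebraMap M D.A r - φ (algebraMap M D.A r) ⊗ₜ[M] (1 : D.A) = 0 := by
          rw [φ.commutes, Algebra.algebraMap_eq_smul_one, Algebra.algebraMap_eq_smul_one,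
            TensorProduct.smul_tmul, sub_self]
        rw [h2]
        exact Ideal.zero_mem _
      | add x y _ _ hx hy =>
        have h2 : (1 : Ω) ⊗ₜ[M] (x + y) - φ (x + y) ⊗ₜ[M] (1 : D.A) =
            ((1 : Ω) ⊗ₜ[M] x - φ x ⊗ₜ[M] (1 : D.A)) + ((1 : Ω) ⊗ₜ[M] y - φ y ⊗ₜ[M] (1 : D.A)) := by
          rw [map_add, TensorProduct.tmul_add, TensorProduct.add_tmul]
          abel
        rw [h2]
        exact Ideal.add_mem _ hx hy
      | mul x y _ _ hx hy =>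
        have h2 : (1 : Ω) ⊗ₜ[M] (x * y) - φ (x * y) ⊗ₜ[M] (1 : D.A) =
            ((1 : Ω) ⊗ₜ[M] y) * ((1 : Ω) ⊗ₜ[M] x - φ x ⊗ₜ[M] (1 : D.A)) +
            (φ x ⊗ₜ[M] (1 : D.A)) * ((1 : Ω) ⊗ₜ[M] y - φ y ⊗ₜ[M] (1 : D.A)) := by
          rw [map_mul, mul_sub, mul_sub]
          simp only [Algebra.TensorProduct.tmul_mul_tmul, mul_one, one_mul]
          rw [mul_comm y x]
          abel
        rw [h2]
        exact Ideal.add_mem _ (Ideal.mul_mem_left _ _ hx) (Ideal.mul_mem_left _ _ hy)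
    intro z hz
    rw [mem_mx] at hz
    have h3 : z - vx φ z ⊗ₜ[M] (1 : D.A) ∈
        Ideal.span {(1 : Ω) ⊗ₜ[M] c.X - φ c.X ⊗ₜ[M] (1 : D.A),
          (1 : Ω) ⊗ₜ[M] c.U - φ c.U ⊗ₜ[M] (1 : D.A)} := by
      clear hz
      induction z using TensorProduct.induction_on with
      | zero => simp
      | tmul w x =>
        have h2 : w ⊗ₜ[M] x - vx φ (w ⊗ₜ[M] x) ⊗ₜ[M] (1 : D.A) =
            (w ⊗ₜ[M] (1 : D.A)) * ((1 : Ω) ⊗ₜ[M] x - φ x ⊗ₜ[M] (1 : D.A)) := by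
          rw [vx_tmul, mul_sub]
          simp only [Algebra.TensorProduct.tmul_mul_tmul, mul_one, one_mul]
        rw [h2]
        exact Ideal.mul_mem_left _ _ (h1 x)
      | add z w hz hw =>
        have h2 : (z + w) - vx φ (z + w) ⊗ₜ[M] (1 : D.A) =
            (z - vx φ z ⊗ₜ[M] (1 : D.A)) + (w - vx φ w ⊗ₜ[M] (1 : D.A)) := by
          rw [map_add, TensorProduct.add_tmul]
          abel
        rw [h2]
        exact Ideal.add_mem _ hz hw
    rwa [hz, TensorProduct.zero_tmul, sub_zero] at h3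
  · rw [Ideal.span_le]
    rintro z hz
    rcases hz with rfl | hz
    · rw [SetLike.mem_coe, mem_mx, map_sub, vx_tmul, vx_tmul, map_one, one_mul, mul_one, sub_self]
    · rw [Set.mem_singleton_iff] at hz
      rw [hz, SetLike.mem_coe, mem_mx, map_sub, vx_tmul, vx_tmul, map_one, one_mul, mul_one,
        sub_self]

variable {M : Type} [Field M] [CharZero M] {d : ℕ} {ε : M} {D : Crv M} (c : Cu D d (Af d ε))

private theorem bl_eps (hd : 2 ≤ d) (hε : ε ^ d = -1) : ε ≠ 0 := by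
  rintro rfl
  rw [zero_pow (by omega)] at hε
  exact neg_ne_zero.2 one_ne_zero hε.symm

/-- The order of the pole of `U`. Proof: `U ^ d = A(X)`, `A` of degree `d - 1` (`Af_deg`). -/
theorem deg_U (hd : 2 ≤ d) (hε : ε ^ d = -1) : D.G.d c.U = ((d - 1 : ℕ) : WithBot ℕ) := by
  have h1 : (Af d ε).natDegree + 1 = d * 1 := Af_deg hd hε
  have h2 : (Af d ε).natDegree = d - 1 := by omega
  have h0 : Af d ε ≠ 0 := by
    intro h
    rw [h, natDegree_zero] at h2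
    omega
  have h3 := D.G.dgA_aeval c.deg (by omega) (Af d ε).natDegree (Af d ε) h0 le_rfl
  rw [← c.eq, h2] at h3
  have hU : c.U ≠ 0 := by
    intro h
    rw [h, zero_pow (by omega), D.G.zero] at h3
    exact WithBot.bot_ne_coe h3
  obtain ⟨m, hm⟩ := D.G.exists_nat hU
  rw [D.G.pow hm, Nat.cast_inj, mul_comm m d] at h3
  have h4 : m = d - 1 := Nat.eq_of_mul_eq_mul_left (by omega) h3
  rw [hm, h4]

omit [CharZero M] in
private theorem deg_sc0 : D.G.d (sc c 0) = (d : ℕ) := c.deg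

private theorem deg_sc1 (hd : 2 ≤ d) (hε : ε ^ d = -1) : D.G.d (sc c 1) = (d : ℕ) := by
  change D.G.d (1 + ε • c.X) = (d : ℕ)
  have h1 : D.G.d (ε • c.X) = (d : ℕ) := by rw [D.G.smul (bl_eps hd hε), c.deg]
  rw [D.G.add_eq (by rw [D.G.one, h1, ← Nat.cast_zero, Nat.cast_lt]; omega), h1]

private theorem deg_sc2 (hd : 2 ≤ d) (hε : ε ^ d = -1) : D.G.d (sc c 2) = ((d - 1 : ℕ) : WithBot ℕ) := by
  change D.G.d (ε • c.U) = _
  rw [D.G.smul (bl_eps hd hε), deg_U c hd hε]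

/-- Proof: the coordinates have the degrees `d`, `d`, `d - 1`. -/
theorem sb_ne (hd : 2 ≤ d) (hε : ε ^ d = -1) : sb c ≠ 0 := by
  have := D.G.isDomain
  unfold sb
  rw [Finset.prod_ne_zero_iff]
  intro i _
  fin_cases i
  · exact D.G.ne_zero (deg_sc0 c)
  · exact D.G.ne_zero (deg_sc1 c hd hε)
  · exact D.G.ne_zero (deg_sc2 c hd hε)

variable {Ω : Type} [Field Ω] [Algebra M Ω]

/-- The function `c_j(φ) c_k - c_k(φ) c_j`. -/
noncomputable def gl (φ : D.A →ₐ[M] Ω) (j k : Fin 3) : Ω ⊗[M] D.A :=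
  φ (sc c j) ⊗ₜ sc c k - φ (sc c k) ⊗ₜ sc c j

theorem vx_gl (φ ψ : D.A →ₐ[M] Ω) (j k : Fin 3) :
    vx ψ (gl c φ j k) = φ (sc c j) * ψ (sc c k) - φ (sc c k) * ψ (sc c j) := by
  unfold gl
  rw [map_sub, vx_tmul, vx_tmul]

theorem gl_symm (φ : D.A →ₐ[M] Ω) (j k : Fin 3) : gl c φ j k = - gl c φ k j := by
  unfold gl
  rw [neg_sub]

omit [CharZero M] in
private theorem bl_tmul (w : Ω) (x : D.A) : w ⊗ₜ[M] x = w • ((1 : Ω) ⊗ₜ[M] x) := by
  rw [TensorProduct.smul_tmul', smul_eq_mul, mul_one]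

private theorem deg_sc_le (hd : 2 ≤ d) (hε : ε ^ d = -1) (j : Fin 3) :
    D.G.d (sc c j) ≤ ((d : ℕ) : WithBot ℕ) := by
  fin_cases j
  · exact (deg_sc0 c).le
  · exact (deg_sc1 c hd hε).le
  · refine (deg_sc2 c hd hε).le.trans ?_
    rw [Nat.cast_le]
    omega

/-- The degree is at most `d`. Proof: `c.deg`, `deg_U`, `Crv.dgO_one`. -/
theorem gl_deg (hd : 2 ≤ d) (hε : ε ^ d = -1) (φ : D.A →ₐ[M] Ω) (j k : Fin 3) :
    (D.dgO Ω).d (gl c φ j k) ≤ (d : ℕ) := by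
  have h1 : ∀ (w : Ω) (j : Fin 3), (D.dgO Ω).d (w ⊗ₜ[M] sc c j) ≤ ((d : ℕ) : WithBot ℕ) := by
    intro w j
    rw [bl_tmul]
    refine ((D.dgO Ω).smul_le _ _).trans ?_
    rw [Crv.dgO_one]
    exact deg_sc_le c hd hε j
  unfold gl
  exact ((D.dgO Ω).sub _ _).trans (max_le (h1 _ _) (h1 _ _))

private theorem bl_deg {w : Ω} (hw : w ≠ 0) (x : D.A) : (D.dgO Ω).d (w ⊗ₜ[M] x) = D.G.d x := by
  rw [bl_tmul, (D.dgO Ω).smul hw, Crv.dgO_one]

/-- Proof: the degree of `gl` is `d`: `gl 0 1 = - (X - X(φ))`, `gl 0 2 = ε X(φ) U - φ(c_2) X`, .. . -/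
theorem gl_ne (hd : 2 ≤ d) (hε : ε ^ d = -1) (φ : D.A →ₐ[M] Ω) {j k : Fin 3} (hjk : j ≠ k)
    (hj : φ (sc c j) ≠ 0) (hk : φ (sc c k) ≠ 0) : gl c φ j k ≠ 0 := by
  have key : ∀ {j : Fin 3}, φ (sc c j) ≠ 0 → φ (sc c 2) ≠ 0 → D.G.d (sc c j) = (d : ℕ) →
      gl c φ j 2 ≠ 0 := by
    intro j hj h2 hd' h
    unfold gl at h
    rw [sub_eq_zero] at h
    have h3 := congrArg (D.dgO Ω).d h
    rw [bl_deg hj, bl_deg h2, hd', deg_sc2 c hd hε, Nat.cast_inj] at h3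
    omega
  have h01 : gl c φ 0 1 ≠ 0 := by
    intro h
    have h1 : gl c φ 0 1 = φ c.X ⊗ₜ[M] (1 : D.A) - (1 : Ω) ⊗ₜ[M] c.X := by
      change φ c.X ⊗ₜ[M] (1 + ε • c.X) - φ (1 + ε • c.X) ⊗ₜ[M] c.X = _
      rw [map_add, map_one, map_smul, TensorProduct.tmul_add, TensorProduct.add_tmul,
        TensorProduct.tmul_smul, TensorProduct.smul_tmul']
      abel
    rw [h1, sub_eq_zero] at h
    have h3 := congrArg (D.dgO Ω).d h
    rw [bl_deg one_ne_zero, c.deg, bl_tmul] at h3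
    have h4 := (D.dgO Ω).smul_le (φ c.X) ((1 : Ω) ⊗ₜ[M] (1 : D.A))
    rw [h3, Crv.dgO_one, D.G.one, ← Nat.cast_zero, Nat.cast_le] at h4
    omega
  fin_cases j <;> fin_cases k
  · exact absurd rfl hjk
  · exact h01
  · exact key hj hk (deg_sc0 c)
  · change gl c φ 1 0 ≠ 0
    rw [gl_symm, neg_ne_zero]
    exact h01
  · exact absurd rfl hjk
  · exact key hj hk (deg_sc1 c hd hε)
  · change gl c φ 2 0 ≠ 0
    rw [gl_symm, neg_ne_zero]
    exact key hk hj (deg_sc0 c)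
  · change gl c φ 2 1 ≠ 0
    rw [gl_symm, neg_ne_zero]
    exact key hk hj (deg_sc1 c hd hε)
  · exact absurd rfl hjk

end DH
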