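import Pool.Agent.Lib.MP_f80667_ag.Cv.SeF
import Pool.Agent.Lib.MP_f80667_ag.Dh.Bl

/-!
Degree `5`: the three maps from the Fermat curve `D` to the curve `u ^ 2 = a(x)`, `a = Se.q5 (ρ ^ 2)`,
`a = - x ^ 5 + ρ ^ 6 x ^ 4 + 2 ρ ^ 4 x ^ 3 + 2 ρ ^ 2 x ^ 2 + x`, `ρ ^ 8 = - 5`, `4 κ ^ 5 = 1`.

With `{i, j, k} = {i, i + 1, i + 2}`, `X = - c_j ^ 5 / c_i ^ 5`, `Y = c_j c_k / c_i ^ 2`: `Y ^ 5 = X (1 - X)`,
`Y = κ (1 + ρ ^ 2 x)`, `2 X - 1 = ρ ^ 5 u`.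
-/

open ZC BE PE CV QS Polynomial TensorProduct

namespace DH

/-- The numbers `ρ`, `κ`. -/
structure R5 (M : Type) [Field M] where
  ρ : M
  κ : M
  hρ : ρ ^ 8 = -5
  hκ : 4 * κ ^ 5 = 1

/-- The identity. Proof: `5 = - ρ ^ 8`, `(1 + ρ ^ 2 x) ^ 5 - 1 = - ρ ^ 10 (..)`. -/
theorem q5_eq {M : Type} [Field M] [CharZero M] (R : R5 M) {L : Type} [Field L] [Algebra M L]
    {X Y : L} (h : Y ^ 5 = X * (1 - X)) :
    ((2 * X - 1) / algebraMap M L (R.ρ ^ 5)) ^ 2 =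
      aeval ((Y / algebraMap M L R.κ - 1) / algebraMap M L (R.ρ ^ 2)) (Se.q5 (R.ρ ^ 2)) := by
  have hρ : (algebraMap M L R.ρ) ^ 8 = -5 := by
    rw [← map_pow, R.hρ, map_neg, map_ofNat]
  have hκ : 4 * (algebraMap M L R.κ) ^ 5 = 1 := by
    have h1 := congrArg (algebraMap M L) R.hκ
    rwa [map_mul, map_pow, map_ofNat, map_one] at h1
  have hρ0 : algebraMap M L R.ρ ≠ 0 := by
    intro h0
    have h5 : (5 : L) = 0 := by
      rw [h0, zero_pow (by norm_num)] at hρ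
      have := neg_eq_zero.1 hρ.symm
      exact this
    have : CharZero L := charZero_of_injective_algebraMap (algebraMap M L).injective
    exact (by norm_num : (5 : L) ≠ 0) h5
  have hκ0 : algebraMap M L R.κ ≠ 0 := by
    intro h0
    rw [h0, zero_pow (by norm_num), mul_zero] at hκ
    exact zero_ne_one hκ
  rw [map_pow, map_pow]
  have ev : ∀ t : L, aeval t (Se.q5 (R.ρ ^ 2)) = -t ^ 5 + algebraMap M L R.ρ ^ 6 * t ^ 4 +
      2 * algebraMap M L R.ρ ^ 4 * t ^ 3 + 2 * algebraMap M L R.ρ ^ 2 * t ^ 2 + t := by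
    intro t
    unfold Se.q5
    simp only [map_add, map_neg, map_mul, map_pow, aeval_X, aeval_C, map_ofNat]
    ring
  obtain ⟨r, hr⟩ : ∃ r : L, r = algebraMap M L R.ρ := ⟨_, rfl⟩
  obtain ⟨k, hk⟩ : ∃ k : L, k = algebraMap M L R.κ := ⟨_, rfl⟩
  rw [ev, ← hr, ← hk]
  rw [← hr] at hρ hρ0
  rw [← hk] at hκ hκ0
  obtain ⟨t, ht⟩ : ∃ t : L, t = (Y / k - 1) / r ^ 2 := ⟨_, rfl⟩
  rw [← ht]
  have hY : Y = k * (1 + r ^ 2 * t) := by
    rw [ht]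
    field_simp
    ring
  rw [div_pow, div_eq_iff (pow_ne_zero _ (pow_ne_zero _ hρ0))]
  have h1 : (2 * X - 1) ^ 2 = 1 - 4 * Y ^ 5 := by
    rw [h]
    ring
  have h2 : 4 * Y ^ 5 = (1 + r ^ 2 * t) ^ 5 := by
    rw [hY, mul_pow, ← mul_assoc, hκ, one_mul]
  rw [h1, h2]
  linear_combination (-(r ^ 2 * t) - 2 * r ^ 4 * t ^ 2 - 2 * r ^ 6 * t ^ 3 - r ^ 8 * t ^ 4) * hρ

variable {M : Type} [Field M] [CharZero M] {ε : M} {D : Crv M} (c : Cu D 5 (Af 5 ε)) (R : R5 M)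

/-- The numerator of `x`. -/
noncomputable def x5 (i : Fin 3) : D.A :=
  (R.κ * R.ρ ^ 2)⁻¹ • (sc c (i + 1) ^ 3 * sc c (i + 2) ^ 3) - (R.ρ ^ 2)⁻¹ • sb c ^ 2

/-- The numerator of `u`. -/
noncomputable def u5 (i : Fin 3) : D.A :=
  (R.ρ ^ 5)⁻¹ • (-2 * (sc c (i + 1) ^ 10 * sc c (i + 2) ^ 5) - sb c ^ 5)

section val

variable {L : Type} [Field L] [Algebra M L]

omit [CharZero M] in
private theorem b5_eq (i : Fin 3) (φ : D.A →ₐ[M] L) :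
    φ (sb c) = φ (sc c i) * φ (sc c (i + 1)) * φ (sc c (i + 2)) := by
  unfold sb
  rw [map_prod, Fin.prod_univ_three]
  fin_cases i
  · rfl
  · change φ (sc c 0) * φ (sc c 1) * φ (sc c 2) = φ (sc c 1) * φ (sc c 2) * φ (sc c 0)
    ring
  · change φ (sc c 0) * φ (sc c 1) * φ (sc c 2) = φ (sc c 2) * φ (sc c 0) * φ (sc c 1)
    ring

omit [CharZero M] in
private theorem b5_ne (i : Fin 3) {φ : D.A →ₐ[M] L} (h : φ (sb c) ≠ 0) :
    φ (sc c i) ≠ 0 ∧ φ (sc c (i + 1)) ≠ 0 ∧ φ (sc c (i + 2)) ≠ 0 := by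
  rw [b5_eq c i φ] at h
  exact ⟨left_ne_zero_of_mul (left_ne_zero_of_mul h), right_ne_zero_of_mul (left_ne_zero_of_mul h),
    right_ne_zero_of_mul h⟩

omit [CharZero M] in
private theorem s5_eq (hε : ε ^ 5 = -1) (i : Fin 3) (φ : D.A →ₐ[M] L) :
    φ (sc c i) ^ 5 + φ (sc c (i + 1)) ^ 5 + φ (sc c (i + 2)) ^ 5 = 0 := by
  have h := congrArg φ (sc_sum c hε)
  rw [map_sum, Fin.sum_univ_three, map_pow, map_pow, map_pow, map_zero] at h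
  fin_cases i
  · exact h
  · change φ (sc c 1) ^ 5 + φ (sc c 2) ^ 5 + φ (sc c 0) ^ 5 = 0
    rw [← h]
    ring
  · change φ (sc c 2) ^ 5 + φ (sc c 0) ^ 5 + φ (sc c 1) ^ 5 = 0
    rw [← h]
    ring

private theorem r5_ne (R : R5 M) : algebraMap M L R.ρ ≠ 0 := by
  intro h0
  have h1 : R.ρ = 0 := (map_eq_zero _).1 h0
  have h2 := R.hρ
  rw [h1, zero_pow (by norm_num)] at h2
  exact (by norm_num : (0 : M) ≠ -5) h2

omit [CharZero M] in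
private theorem k5_ne (R : R5 M) : algebraMap M L R.κ ≠ 0 := by
  intro h0
  have h1 : R.κ = 0 := (map_eq_zero _).1 h0
  have h2 := R.hκ
  rw [h1, zero_pow (by norm_num), mul_zero] at h2
  exact zero_ne_one h2

/-- Proof: `b = c_i c_j c_k`. -/
theorem x5_val (i : Fin 3) {φ : D.A →ₐ[M] L} (h : φ (sb c) ≠ 0) :
    φ (x5 c R i) / φ (sb c) ^ 2 = (φ (sc c (i + 1)) * φ (sc c (i + 2)) / φ (sc c i) ^ 2 /
      algebraMap M L R.κ - 1) / algebraMap M L (R.ρ ^ 2) := by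
  have hb := b5_eq c i φ
  have h0 := b5_ne c i h
  unfold x5
  rw [map_sub, map_smul, map_smul, map_mul, map_pow, map_pow, map_pow, hb, Algebra.smul_def,
    Algebra.smul_def, map_inv₀, map_inv₀, map_mul]
  obtain ⟨hi, hj, hk⟩ := h0
  have hρ := r5_ne (L := L) R
  have hκ := k5_ne (L := L) R
  rw [map_pow]
  field_simp

theorem u5_val (i : Fin 3) {φ : D.A →ₐ[M] L} (h : φ (sb c) ≠ 0) :
    φ (u5 c R i) / φ (sb c) ^ 5 = (2 * (-φ (sc c (i + 1)) ^ 5 / φ (sc c i) ^ 5) - 1) /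
      algebraMap M L (R.ρ ^ 5) := by
  have hb := b5_eq c i φ
  obtain ⟨hi, hj, hk⟩ := b5_ne c i h
  unfold u5
  rw [map_smul, map_sub, map_mul, map_mul, map_pow, map_pow, map_pow, hb, Algebra.smul_def,
    map_inv₀, map_neg, map_ofNat]
  have hρ := r5_ne (L := L) R
  rw [map_pow]
  field_simp

end val

/-- The maps. Proof of `eq`: `x5_val`, `u5_val`, `q5_eq`, `sc_sum`. -/
noncomputable def g5 (hε : ε ^ 5 = -1) (i : Fin 3) : Gm D 2 (Se.q5 (R.ρ ^ 2)) where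
  b := sb c
  x := x5 c R i
  u := u5 c R i
  N := 2
  N' := 5
  ne := sb_ne c (by norm_num) hε
  eq L _ _ φ h := by
    rw [x5_val c R i h, u5_val c R i h]
    refine q5_eq R ?_
    obtain ⟨hi, hj, hk⟩ := b5_ne c i h
    have h1 := s5_eq c hε i φ
    obtain ⟨p, hp⟩ : ∃ p : L, p = φ (sc c i) := ⟨_, rfl⟩
    obtain ⟨q, hq⟩ : ∃ q : L, q = φ (sc c (i + 1)) := ⟨_, rfl⟩
    obtain ⟨r, hr⟩ : ∃ r : L, r = φ (sc c (i + 2)) := ⟨_, rfl⟩
    rw [← hp, ← hq, ← hr] at h1 ⊢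
    rw [← hp] at hi
    have h2 : r ^ 5 = -(p ^ 5 + q ^ 5) := by linear_combination h1
    rw [div_pow, mul_pow, h2]
    field_simp
    ring

end DH
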