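import Pool.Agent.Lib.MP_f80667_ag.Dh.B5a
import Pool.Agent.Lib.MP_f80667_ag.Dh.Bf

/-!
Degree `5`: the fibres of the three maps.
-/

open ZC BE PE CV QS Polynomial TensorProduct

namespace DH

variable {M : Type} [Field M] [CharZero M] {ε : M} {D : Crv M} (c : Cu D 5 (Af 5 ε)) (R : R5 M)
  {E : Crv M} (e : Cu E 2 (Se.q5 (R.ρ ^ 2))) {Ω : Type} [Field Ω] [Algebra M Ω] [IsAlgClosed Ω]

/-- The action of `ζ` with quotient map `g5 i`. -/
def h5 (i : Fin 3) (ζ : Ω) : Fin 3 → Ω :=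
  fun m => if m = i then 1 else if m = i + 1 then ζ else ζ ^ 4

omit [IsAlgClosed Ω] in
private theorem h5_i (i : Fin 3) (ζ : Ω) : h5 i ζ i = 1 := by
  simp [h5]

omit [IsAlgClosed Ω] in
private theorem h5_j (i : Fin 3) (ζ : Ω) : h5 i ζ (i + 1) = ζ := by
  have h : i + 1 ≠ i := by revert i; decide
  simp only [h5, if_neg h, if_true]

omit [IsAlgClosed Ω] in
private theorem h5_k (i : Fin 3) (ζ : Ω) : h5 i ζ (i + 2) = ζ ^ 4 := by
  have h : i + 2 ≠ i := by revert i; decide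
  have h' : i + 2 ≠ i + 1 := by revert i; decide
  simp only [h5, if_neg h, if_neg h']

private theorem fin3_all {p : Fin 3 → Prop} (i : Fin 3) (h0 : p i) (h1 : p (i + 1))
    (h2 : p (i + 2)) (m : Fin 3) : p m := by
  have h : ∀ i m : Fin 3, m = i ∨ m = i + 1 ∨ m = i + 2 := by decide
  rcases h i m with h | h | h
  · rw [h]; exact h0
  · rw [h]; exact h1
  · rw [h]; exact h2

omit [IsAlgClosed Ω] in
private theorem h5_pow (i : Fin 3) {ζ : Ω} (h : ζ ^ 5 = 1) (m : Fin 3) : h5 i ζ m ^ 5 = 1 := by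
  refine fin3_all (p := fun m => h5 i ζ m ^ 5 = 1) i ?_ ?_ ?_ m
  · simp only [h5_i, one_pow]
  · simp only [h5_j, h]
  · simp only [h5_k]
    rw [← pow_mul, mul_comm, pow_mul, h, one_pow]

omit [IsAlgClosed Ω] in
private theorem alg1 {a b c a' b' c' : Ω} (ha : a ≠ 0) (hb : b ≠ 0) (ha' : a' ≠ 0)
    (hb' : b' ≠ 0) (h1 : b * c / a ^ 2 = b' * c' / a' ^ 2) (h2 : b ^ 5 / a ^ 5 = b' ^ 5 / a' ^ 5) :
    ∃ ζ : Ω, ζ ^ 5 = 1 ∧ ∃ r : Ω, a' = r * (1 * a) ∧ b' = r * (ζ * b) ∧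
      c' = r * (ζ ^ 4 * c) := by
  have h2' : b ^ 5 * a' ^ 5 = b' ^ 5 * a ^ 5 := by
    rwa [div_eq_div_iff (pow_ne_zero _ ha) (pow_ne_zero _ ha')] at h2
  have h1' : b * c * a' ^ 2 = b' * c' * a ^ 2 := by
    rwa [div_eq_div_iff (pow_ne_zero _ ha) (pow_ne_zero _ ha')] at h1
  have hne : a' * b ≠ 0 := mul_ne_zero ha' hb
  have hz : (b' * a / (a' * b)) ^ 5 = 1 := by
    rw [div_pow, div_eq_one_iff_eq (pow_ne_zero _ hne), mul_pow, mul_pow]
    linear_combination - h2'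
  have hz1 : b' * a / (a' * b) ≠ 0 := div_ne_zero (mul_ne_zero hb' ha) hne
  have hz4 : (b' * a / (a' * b)) ^ 4 = a' * b / (b' * a) := by
    have h := hz
    rw [pow_succ] at h
    rw [eq_div_of_mul_eq hz1 h, one_div, inv_div]
  refine ⟨b' * a / (a' * b), hz, a' / a, ?_, ?_, ?_⟩
  · field_simp
  · field_simp
  · rw [hz4]
    field_simp
    linear_combination - h1'

omit [IsAlgClosed Ω] in
private theorem rho_ne : algebraMap M Ω R.ρ ≠ 0 := by
  intro h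
  have h0 : R.ρ = 0 := (map_eq_zero _).1 h
  have h1 := R.hρ
  rw [h0] at h1
  norm_num at h1

omit [IsAlgClosed Ω] in
private theorem kap_ne : algebraMap M Ω R.κ ≠ 0 := by
  intro h
  have h0 : R.κ = 0 := (map_eq_zero _).1 h
  have h1 := R.hκ
  rw [h0] at h1
  norm_num at h1

omit [IsAlgClosed Ω] in
private theorem xu {a b c a' b' c' : Ω} :
    ((b * c / a ^ 2 / algebraMap M Ω R.κ - 1) / algebraMap M Ω (R.ρ ^ 2) =
      (b' * c' / a' ^ 2 / algebraMap M Ω R.κ - 1) / algebraMap M Ω (R.ρ ^ 2) ∧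
    (2 * (-b ^ 5 / a ^ 5) - 1) / algebraMap M Ω (R.ρ ^ 5) =
      (2 * (-b' ^ 5 / a' ^ 5) - 1) / algebraMap M Ω (R.ρ ^ 5)) ↔
    b * c / a ^ 2 = b' * c' / a' ^ 2 ∧ b ^ 5 / a ^ 5 = b' ^ 5 / a' ^ 5 := by
  have : CharZero Ω := charZero_of_injective_algebraMap (algebraMap M Ω).injective
  have hρ : ∀ n : ℕ, algebraMap M Ω (R.ρ ^ n) ≠ 0 := fun n => by
    rw [map_pow]; exact pow_ne_zero _ (rho_ne R)
  have h2 : (2 : Ω) ≠ 0 := two_ne_zero
  rw [div_left_inj' (hρ 2), sub_left_inj, div_left_inj' (kap_ne R), div_left_inj' (hρ 5),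
    sub_left_inj, mul_right_inj' h2, neg_div, neg_div, neg_inj]

section main

variable {c R e}

omit [IsAlgClosed Ω] in
private theorem eps_ne (hε : ε ^ 5 = -1) : ε ≠ 0 := by
  rintro rfl
  norm_num at hε

omit [IsAlgClosed Ω] in
/-- Two points have the same image iff the symmetric coordinates satisfy two relations. -/
private theorem feq5 (hε : ε ^ 5 = -1) (i : Fin 3) {φ φ' : D.A →ₐ[M] Ω} (h : φ (sb c) ≠ 0)
    (h' : φ' (sb c) ≠ 0) :
    (g5 c R hε i).f e (some φ : D.V.pt Ω) = (g5 c R hε i).f e (some φ' : D.V.pt Ω) ↔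
      φ (sc c (i + 1)) * φ (sc c (i + 2)) / φ (sc c i) ^ 2 =
        φ' (sc c (i + 1)) * φ' (sc c (i + 2)) / φ' (sc c i) ^ 2 ∧
      φ (sc c (i + 1)) ^ 5 / φ (sc c i) ^ 5 = φ' (sc c (i + 1)) ^ 5 / φ' (sc c i) ^ 5 := by
  rw [(g5 c R hε i).f_eq e h h']
  change φ (x5 c R i) / φ (sb c) ^ 2 = φ' (x5 c R i) / φ' (sb c) ^ 2 ∧
    φ (u5 c R i) / φ (sb c) ^ 5 = φ' (u5 c R i) / φ' (sb c) ^ 5 ↔ _
  rw [x5_val c R i h, x5_val c R i h', u5_val c R i h, u5_val c R i h', xu]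

end main

open Classical in
/-- The fibre. Proof: `f_eq`, `x5_val`, `u5_val`: `c_j ^ 5 / c_i ^ 5` and `c_j c_k / c_i ^ 2` agree, so
`c'_j / c'_i = ζ c_j / c_i`, `c'_k / c'_i = ζ⁻¹ c_k / c_i`: `sc_ext`, `zs_spec`. -/
theorem fb5 (hε : ε ^ 5 = -1) (i : Fin 3) {φ : D.A →ₐ[M] Ω} (h : φ (sb c) ≠ 0) :
    (g5 c R hε i).Fb e ((g5 c R hε i).f e (some φ : D.V.pt Ω)) =
      (((nthRootsFinset 5 (1 : Ω)).image fun ζ => (some (zs c φ (h5 i ζ)) : D.V.pt Ω) :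
        Finset (D.V.pt Ω)) : Set (D.V.pt Ω)) := by
  have hs := (sb_val c φ).1 h
  ext P
  rw [Finset.coe_image, Set.mem_image]
  constructor
  · rintro ⟨⟨φ', rfl, h'⟩, hf⟩
    change φ' (sb c) ≠ 0 at h'
    have hs' := (sb_val c φ').1 h'
    rw [eq_comm, feq5 hε i h h'] at hf
    obtain ⟨ζ, hζ, r, h0, h1, h2⟩ := alg1 (hs i) (hs (i + 1)) (hs' i) (hs' (i + 1)) hf.1 hf.2
    refine ⟨ζ, ?_, ?_⟩
    · rw [Finset.mem_coe, mem_nthRootsFinset (by norm_num)]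
      exact hζ
    · have hr : ∀ m, φ' (sc c m) = r * (h5 i ζ m * φ (sc c m)) := by
        refine fin3_all (p := fun m => φ' (sc c m) = r * (h5 i ζ m * φ (sc c m))) i ?_ ?_ ?_
        · simp only [h5_i]; exact h0
        · simp only [h5_j]; exact h1
        · simp only [h5_k]; exact h2
      obtain ⟨t, ht, hz⟩ := zs_spec c hε (by norm_num) h (h5_pow i hζ)
      have : φ' = zs c φ (h5 i ζ) := by
        refine (sc_ext c (eps_ne hε) (r := r / t) fun m => ?_).2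
        rw [hr m, hz m]
        field_simp
      rw [this]
  · rintro ⟨ζ, hζ, rfl⟩
    rw [Finset.mem_coe, mem_nthRootsFinset (by norm_num)] at hζ
    have hg := zs_gn c hε (by norm_num) h (h5_pow i hζ)
    refine ⟨⟨_, rfl, hg⟩, ?_⟩
    rw [eq_comm, feq5 hε i h hg]
    obtain ⟨t, ht, hz⟩ := zs_spec c hε (by norm_num) h (h5_pow i hζ)
    rw [hz, hz, hz, h5_i, h5_j, h5_k]
    have hi := hs i
    constructor
    · rw [div_eq_div_iff (pow_ne_zero _ hi)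
        (pow_ne_zero _ (mul_ne_zero ht (mul_ne_zero one_ne_zero hi)))]
      linear_combination (-(t ^ 2 * φ (sc c i) ^ 2 * φ (sc c (i + 1)) * φ (sc c (i + 2)))) * hζ
    · rw [div_eq_div_iff (pow_ne_zero _ hi)
        (pow_ne_zero _ (mul_ne_zero ht (mul_ne_zero one_ne_zero hi)))]
      linear_combination (-(t ^ 5 * φ (sc c i) ^ 5 * φ (sc c (i + 1)) ^ 5)) * hζ

/-- Proof: `psi_fin`, `fb5`, the five points are distinct (`zs_eq`). -/
theorem psi5 (hε : ε ^ 5 = -1) (i : Fin 3) {φ : D.A →ₐ[M] Ω} (h : φ (sb c) ≠ 0) :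
    (g5 c R hε i).psi e 5 (Finsupp.single ((g5 c R hε i).f e (some φ : D.V.pt Ω)) 1) =
      ∑ ζ ∈ nthRootsFinset 5 (1 : Ω), Finsupp.single (some (zs c φ (h5 i ζ)) : D.V.pt Ω) 1 := by
  classical
  have : CharZero Ω := charZero_of_injective_algebraMap (algebraMap M Ω).injective
  have hinj : Set.InjOn (fun ζ => (some (zs c φ (h5 i ζ)) : D.V.pt Ω))
      (nthRootsFinset 5 (1 : Ω) : Set Ω) := by
    intro ζ hζ ζ' hζ' he
    rw [Finset.mem_coe, mem_nthRootsFinset (by norm_num)] at hζ hζ'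
    obtain ⟨r, hr⟩ := (zs_eq c hε (by norm_num) h (h5_pow i hζ) (h5_pow i hζ')).1
      (Option.some_injective _ he)
    have h0 := hr i
    have h1 := hr (i + 1)
    rw [h5_i, h5_i] at h0
    rw [h5_j, h5_j] at h1
    rw [h1]
    linear_combination ζ * h0
  have hcard : (nthRootsFinset 5 (1 : Ω)).card = 5 := by
    have : NeZero ((5 : ℕ) : Ω) := ⟨by exact_mod_cast (by norm_num : (5 : Ω) ≠ 0)⟩
    obtain ⟨z, hz⟩ := HasEnoughRootsOfUnity.exists_primitiveRoot Ω 5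
    exact hz.card_nthRootsFinset
  have key : ∀ F : Ω → D.V.pt Ω, Set.InjOn F (nthRootsFinset 5 (1 : Ω) : Set Ω) →
      ((g5 c R hε i).Fb e ((g5 c R hε i).f e (some φ : D.V.pt Ω)) =
        (((nthRootsFinset 5 (1 : Ω)).image F : Finset (D.V.pt Ω)) : Set (D.V.pt Ω))) →
      (g5 c R hε i).psi e 5 (Finsupp.single ((g5 c R hε i).f e (some φ : D.V.pt Ω)) 1) =
        ∑ ζ ∈ nthRootsFinset 5 (1 : Ω), Finsupp.single (F ζ) 1 := by
    intro F hF hf
    rw [(g5 c R hε i).psi_fin e 5 _ hf, Finset.card_image_of_injOn hF, hcard,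
      Finset.sum_image hF]
    simp
  exact key _ hinj (fb5 c R e hε i h)

end DH
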