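import Pool.Agent.Lib.MP_f80667_ag.Dh.Bf
import Pool.Agent.Lib.MP_f80667_ag.Dh.Bq

/-! The fibres of a rational map are finite; the coefficients of the pull-back of a cycle. -/

open ZC BE PE CV QS Polynomial TensorProduct

namespace DH

namespace Gm

variable {M : Type} [Field M] {D E : Crv M} {n : ℕ} {a : M[X]} (g : Gm D n a) (e : Cu E n a)
  {Ω : Type} [Field Ω] [Algebra M Ω]

variable [IsAlgClosed Ω] (hp : g.Pa e Ω)

include hp

/-- The fibres are finite. Proof: over `some ψ`: `h ≠ 0` with `vx ψ h = 0` (`exists_unif`), its pull-back is not `0`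
(`Pb.ne`) and vanishes on the fibre: `zer_fin`. -/
theorem fb_fin (Q : E.V.pt Ω) : (g.Fb e Q).Finite := by
  rcases Q with _ | ψ
  · have h1 : g.Fb e (none : E.V.pt Ω) = ∅ := g.fb_none e
    rw [h1]
    exact Set.finite_empty
  · obtain ⟨q, hq0, hq1, _⟩ := exists_unif ψ
    obtain ⟨H, k, hb⟩ := exists_pb g e q
    have hH : H ≠ 0 := Pb.ne hp hq0 hb
    refine ((zer_fin hH).image (fun φ => (some φ : D.V.pt Ω))).subset ?_
    rintro P ⟨⟨φ, rfl, hφ⟩, hP⟩
    refine ⟨φ, ?_, rfl⟩
    change vx φ H = 0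
    rw [hb φ ψ hφ hP, hq1, mul_zero]

open Classical in
/-- The coefficient at a finite point. Proof: `fb_fin`, `Finsupp` induction on `z`. -/
theorem psi_apply (r : ℤ) (z : E.V.pt Ω →₀ ℤ) (φ : D.A →ₐ[M] Ω) :
    g.psi e r z (some φ) = if φ g.b ≠ 0 then z (g.f e (some φ : D.V.pt Ω)) else 0 := by
  induction z using Finsupp.induction_linear with
  | zero =>
    rw [map_zero]
    split_ifs <;> rfl
  | add z w hz hw =>
    rw [map_add, Finsupp.add_apply, hz, hw]
    split_ifs
    · rw [Finsupp.add_apply]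
    · rw [add_zero]
  | single Q c =>
    have h1 : g.psi e r (Finsupp.single Q c) =
        c • (g.sf e Q + Finsupp.single (D.bp.o Ω) (r - D.V.deg Ω (g.sf e Q))) := by
      unfold psi
      rw [Finsupp.liftAddHom_apply_single]
      rfl
    have h2 : g.sf e Q (some φ) = if φ g.b ≠ 0 ∧ g.f e (some φ : D.V.pt Ω) = Q then 1 else 0 := by
      have h3 : g.sf e Q = ∑ P ∈ (g.fb_fin e hp Q).toFinset, Finsupp.single P 1 :=
        finsum_mem_eq_finite_toFinset_sum _ _
      rw [h3, Finsupp.finsetSum_apply]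
      have h4 : ∀ P ∈ (g.fb_fin e hp Q).toFinset, (Finsupp.single P (1 : ℤ)) (some φ : D.V.pt Ω) =
          if P = (some φ : D.V.pt Ω) then 1 else 0 := fun P _ => Finsupp.single_apply
      rw [Finset.sum_congr rfl h4, Finset.sum_ite_eq']
      refine if_congr ?_ rfl rfl
      rw [Set.Finite.mem_toFinset]
      change Gn g.b (some φ : D.V.pt Ω) ∧ _ ↔ _
      rw [gn_some]
    have h5 : (Finsupp.single (D.bp.o Ω) (r - D.V.deg Ω (g.sf e Q)) : D.V.pt Ω →₀ ℤ) (some φ) = 0 :=
      Finsupp.single_eq_of_ne (fun h => Option.some_ne_none φ h)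
    rw [h1, Finsupp.smul_apply, Finsupp.add_apply, h5, add_zero, h2, smul_eq_mul]
    by_cases h6 : φ g.b ≠ 0
    · rw [if_pos h6, Finsupp.single_apply]
      by_cases h7 : g.f e (some φ : D.V.pt Ω) = Q
      · rw [if_pos ⟨h6, h7⟩, if_pos h7.symm, mul_one]
      · rw [if_neg (fun h => h7 h.2), if_neg (fun h => h7 h.symm), mul_zero]
    · rw [if_neg h6, if_neg (fun h => h6 h.1), mul_zero]

end Gm

end DH
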