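import Pool.Agent.Lib.MP_f80667_ag.Cv.CyZ

/-!
The order of a function at a point of a curve over an algebraically closed field `Ω`.
-/

open ZC BE PE CV Polynomial TensorProduct

namespace DH

variable {F : Type} [Field F] {C : Crv F} {Ω : Type} [Field Ω] [Algebra F Ω]

/-- The order of the function `f` at the point `φ`. -/
noncomputable def vo (φ : C.A →ₐ[F] Ω) (f : Ω ⊗[F] C.A) : ℤ := cy (Ideal.span {f}) (some φ)

theorem vo_nonneg (φ : C.A →ₐ[F] Ω) (f : Ω ⊗[F] C.A) : 0 ≤ vo φ f := (cy_efc _).1 _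

private theorem vo_ne_zero {φ : C.A →ₐ[F] Ω} {f : Ω ⊗[F] C.A} (h : vo φ f ≠ 0) : f ≠ 0 := by
  rintro rfl
  apply h
  have h1 : ¬ ∃ z : C.V.pt Ω →₀ ℤ, Efc z ∧ idl C z = Ideal.span {(0 : Ω ⊗[F] C.A)} := by
    rintro ⟨z, -, hz⟩
    refine idl_ne_bot z ?_
    rw [hz, Ideal.span_singleton_eq_bot]
  unfold vo cy
  rw [dif_neg h1]
  rfl

variable [IsAlgClosed Ω] {φ : C.A →ₐ[F] Ω} {f g : Ω ⊗[F] C.A}

private theorem vo_span (hf : f ≠ 0) : (Ideal.span {f} : Ideal (Ω ⊗[F] C.A)) ≠ ⊥ := by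
  rwa [Ne, Ideal.span_singleton_eq_bot]

/-- Proof: `cy_pow`. -/
theorem mem_mxp (hf : f ≠ 0) (n : ℕ) : f ∈ mx φ ^ n ↔ (n : ℤ) ≤ vo φ f := by
  unfold vo
  rw [← cy_pow (vo_span hf) φ n, Ideal.span_singleton_le_iff_mem]

/-- Proof: `cy_mul`. -/
theorem vo_mul (hf : f ≠ 0) (hg : g ≠ 0) : vo φ (f * g) = vo φ f + vo φ g := by
  unfold vo
  rw [← Ideal.span_singleton_mul_span_singleton, cy_mul (vo_span hf) (vo_span hg)]
  rfl

private theorem vo_one' : vo φ (1 : Ω ⊗[F] C.A) = 0 := by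
  unfold vo
  rw [Ideal.span_singleton_one, ← Ideal.one_eq_top, cy_one]
  rfl

theorem vo_pow (hf : f ≠ 0) (n : ℕ) : vo φ (f ^ n) = n * vo φ f := by
  have := C.domO Ω
  induction n with
  | zero => rw [pow_zero, vo_one', Nat.cast_zero, zero_mul]
  | succ n ih =>
    rw [pow_succ, vo_mul (pow_ne_zero n hf) hf, ih]
    push_cast
    ring

theorem vo_prod {ι : Type} (s : Finset ι) (h : ι → Ω ⊗[F] C.A) (hh : ∀ i ∈ s, h i ≠ 0) :
    vo φ (∏ i ∈ s, h i) = ∑ i ∈ s, vo φ (h i) := by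
  classical
  have := C.domO Ω
  induction s using Finset.induction_on with
  | empty => rw [Finset.prod_empty, Finset.sum_empty, vo_one']
  | insert a s ha ih =>
    have h1 : ∀ i ∈ s, h i ≠ 0 := fun i hi => hh i (Finset.mem_insert_of_mem hi)
    rw [Finset.prod_insert ha, Finset.sum_insert ha,
      vo_mul (hh a (Finset.mem_insert_self a s)) (Finset.prod_ne_zero_iff.2 h1), ih h1]

/-- Proof: `mem_mxp` with `n = 1`, `mem_mx`. -/
theorem vo_zero (hf : f ≠ 0) : vo φ f = 0 ↔ vx φ f ≠ 0 := by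
  have h1 := mem_mxp (φ := φ) hf 1
  rw [pow_one, mem_mx, Nat.cast_one] at h1
  have h2 := vo_nonneg φ f
  rw [Ne, h1]
  omega

theorem vo_neg (f : Ω ⊗[F] C.A) : vo φ (-f) = vo φ f := by
  unfold vo
  rw [Ideal.span_singleton_neg]

/-- Multiplication by a constant. -/
theorem vo_smul {c : Ω} (hc : c ≠ 0) (f : Ω ⊗[F] C.A) : vo φ (c • f) = vo φ f := by
  unfold vo
  rw [Algebra.smul_def, Ideal.span_singleton_mul_left_unit]
  exact (isUnit_iff_ne_zero.2 hc).map (algebraMap Ω (Ω ⊗[F] C.A))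

/-- Proof: `mx φ ^ 2 ≠ mx φ` (`cy_mx`, `cy_pow`). -/
theorem exists_unif (φ : C.A →ₐ[F] Ω) :
    ∃ q : Ω ⊗[F] C.A, q ≠ 0 ∧ vx φ q = 0 ∧ vo φ q = 1 := by
  have h1 : ¬ (mx φ ≤ mx φ ^ 2) := by
    have h2 : cy (mx φ) (some φ) = 1 := by
      rw [cy_mx]
      exact Finsupp.single_eq_same
    rw [cy_pow (mx_ne_bot φ) φ 2, h2]
    norm_num
  obtain ⟨q, hq, hq2⟩ := Set.not_subset.1 h1
  have hq0 : q ≠ 0 := by
    rintro rfl
    exact hq2 (Submodule.zero_mem _)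
  refine ⟨q, hq0, hq, ?_⟩
  have h3 := (mem_mxp (φ := φ) hq0 1).1 (by rw [pow_one]; exact hq)
  have h4 : ¬ (((2 : ℕ) : ℤ) ≤ vo φ q) := fun h => hq2 ((mem_mxp hq0 2).2 h)
  push_cast at h3 h4
  omega

/-- Factorisation. Proof: `span {q ^ n} = mx φ ^ n * J`, `J` not contained in `mx φ` (`n = vo φ f`, write the ideals with
`idl`, `cy`); `s ∈ J`, `s ∉ mx φ`: `s * f ∈ mx φ ^ n * J`. The order of `t` is `0`. -/
theorem vo_fac (hf : f ≠ 0) {q : Ω ⊗[F] C.A} (hq : vo φ q = 1) :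
    ∃ (n : ℕ) (s t : Ω ⊗[F] C.A), vo φ f = n ∧ vx φ s ≠ 0 ∧ vx φ t ≠ 0 ∧ s * f = t * q ^ n := by
  classical
  have := C.domO Ω
  have hq0 : q ≠ 0 := vo_ne_zero (φ := φ) (by rw [hq]; exact one_ne_zero)
  obtain ⟨n, hn⟩ : ∃ n : ℕ, vo φ f = n := ⟨(vo φ f).toNat, (Int.toNat_of_nonneg (vo_nonneg φ f)).symm⟩
  have hqn : q ^ n ≠ 0 := pow_ne_zero n hq0
  have hvq : vo φ (q ^ n) = n := by rw [vo_pow hq0, hq, mul_one]
  obtain ⟨z, hz⟩ : ∃ z : C.V.pt Ω →₀ ℤ, z = cy (Ideal.span {q ^ n}) := ⟨_, rfl⟩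
  have hzE : Efc z := hz ▸ cy_efc _
  have hzn : z (some φ) = n := by
    rw [hz]
    exact hvq
  obtain ⟨x₀, hx₀⟩ : ∃ x₀ : C.V.pt Ω, x₀ = some φ := ⟨_, rfl⟩
  obtain ⟨w, hw⟩ : ∃ w : C.V.pt Ω →₀ ℤ, w = z.erase x₀ := ⟨_, rfl⟩
  have hw1 : ∀ y, w y = 0 ∨ w y = z y := by
    intro y
    rw [hw, Finsupp.erase_apply]
    split_ifs
    · exact Or.inl rfl
    · exact Or.inr rfl
  have hwE : Efc w := by
    constructor
    · intro x
      rcases hw1 x with h1 | h1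
      · exact h1.ge
      · exact (hzE.1 x).trans_eq h1.symm
    · rcases hw1 none with h1 | h1
      · exact h1
      · exact h1.trans hzE.2
  have hw0 : w (some φ) = 0 := by
    rw [hw, ← hx₀]
    exact Finsupp.erase_same
  have hzw : z = (Finsupp.single (some φ) (n : ℤ) : C.V.pt Ω →₀ ℤ) + w := by
    rw [hw, ← hzn, ← hx₀]
    exact (Finsupp.single_add_erase x₀ z).symm
  have hJ : Ideal.span {q ^ n} = mx φ ^ n * idl C w := by
    have h1 := idl_cy (vo_span hqn)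
    rw [← hz, hzw, idl_add (efc_single φ (Int.natCast_nonneg n)).1 hwE.1, idl_single,
      Int.toNat_natCast] at h1
    exact h1.symm
  have hJ2 : ¬ (idl C w ≤ mx φ) := by
    have h1 := idl_le_pow hwE φ 1
    rw [pow_one, hw0, Nat.cast_one] at h1
    rw [h1]
    norm_num
  obtain ⟨s, hs, hs2⟩ := Set.not_subset.1 hJ2
  have hs3 : vx φ s ≠ 0 := fun h => hs2 h
  have hs0 : s ≠ 0 := by
    rintro rfl
    exact hs3 (map_zero _)
  have hfn : f ∈ mx φ ^ n := (mem_mxp hf n).2 hn.ge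
  have hsf : s * f ∈ Ideal.span {q ^ n} := by
    rw [hJ, mul_comm]
    exact Ideal.mul_mem_mul hs hfn
  obtain ⟨t, ht⟩ := Ideal.mem_span_singleton'.1 hsf
  have hsf0 : s * f ≠ 0 := mul_ne_zero hs0 hf
  have ht0 : t ≠ 0 := by
    rintro rfl
    rw [zero_mul] at ht
    exact hsf0 ht.symm
  refine ⟨n, s, t, hn, hs3, ?_, ht.symm⟩
  rw [← vo_zero ht0]
  have h1 : vo φ (t * q ^ n) = vo φ t + n := by rw [vo_mul ht0 hqn, hvq]
  rw [ht, vo_mul hs0 hf, (vo_zero hs0).2 hs3, hn] at h1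
  omega

end DH
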