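import Pool.Agent.Lib.MP_f80667_ag.Dh.Fer
import Pool.Agent.Lib.MP_f80667_ag.Dh.Bg

/-!
Symmetric coordinates of the Fermat curve: `c_0 = x`, `c_1 = y`, `c_2 = ε z`, `c_0 ^ d + c_1 ^ d + c_2 ^ d = 0`, normalised
by `c_1 - ε c_0 = 1` at the finite points. The product `b = c_0 c_1 c_2`. The `d`-th roots of unity act on the
coordinates.
-/

open ZC BE PE CV QS Polynomial

namespace DH

variable {M : Type} [Field M] {d : ℕ} {ε : M} {D : Crv M} (c : Cu D d (Af d ε))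

/-- The coordinates. -/
noncomputable def sc : Fin 3 → D.A := ![c.X, 1 + ε • c.X, ε • c.U]

/-- The product of the coordinates. -/
noncomputable def sb : D.A := ∏ i, sc c i

/-- Proof: `c.eq`, `Af`, `hε`. -/
theorem sc_sum (hε : ε ^ d = -1) : ∑ i, sc c i ^ d = 0 := by
  have h1 : c.U ^ d = c.X ^ d + (1 + algebraMap M D.A ε * c.X) ^ d := by
    refine c.eq.trans ?_
    change aeval c.X (X ^ d + (1 + C ε * X) ^ d : M[X]) = _
    simp only [map_add, map_pow, map_mul, map_one, aeval_X, aeval_C]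
  rw [Fin.sum_univ_three]
  change c.X ^ d + (1 + ε • c.X) ^ d + (ε • c.U) ^ d = 0
  rw [Algebra.smul_def, Algebra.smul_def, mul_pow, h1, ← map_pow, hε, map_neg, map_one]
  ring

theorem sc_one : sc c 1 - ε • sc c 0 = 1 := by
  change (1 + ε • c.X) - ε • c.X = 1
  exact add_sub_cancel_right _ _

variable {L : Type} [Field L] [Algebra M L]

theorem sb_val (φ : D.A →ₐ[M] L) : φ (sb c) ≠ 0 ↔ ∀ i, φ (sc c i) ≠ 0 := by
  rw [sb, map_prod, Finset.prod_ne_zero_iff]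
  exact ⟨fun h i => h i (Finset.mem_univ i), fun h i _ => h i⟩

/-- Two points with proportional coordinates are equal. Proof: `sc_one`: `r = 1`; `Cu.hom_ext`, `ε ≠ 0`. -/
theorem sc_ext (hε : ε ≠ 0) {φ ψ : D.A →ₐ[M] L} {r : L} (h : ∀ i, ψ (sc c i) = r * φ (sc c i)) :
    r = 1 ∧ ψ = φ := by
  have h1 : ∀ χ : D.A →ₐ[M] L, χ (sc c 1) - algebraMap M L ε * χ (sc c 0) = 1 := by
    intro χ
    have h2 := congrArg χ (sc_one c)
    rwa [map_sub, map_smul, map_one, Algebra.smul_def] at h2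
  have hr : r = 1 := by
    have h2 := h1 ψ
    rw [h 0, h 1] at h2
    have h3 : r * (φ (sc c 1) - algebraMap M L ε * φ (sc c 0)) = 1 := by
      rw [← h2]
      ring
    rwa [h1 φ, mul_one] at h3
  refine ⟨hr, c.hom_ext ?_ ?_⟩
  · have h2 := h 0
    rw [hr, one_mul] at h2
    exact h2
  · have h2 := h 2
    rw [hr, one_mul] at h2
    change ψ (ε • c.U) = φ (ε • c.U) at h2
    rw [map_smul, map_smul, Algebra.smul_def, Algebra.smul_def] at h2
    exact mul_left_cancel₀ ((map_ne_zero (algebraMap M L)).2 hε) h2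

/-- The points with given coordinates. Proof: `c.lift` with `x = v 0 / e`, `u = v 2 / (ε e)`, `e = v 1 - ε v 0`. -/
theorem exists_sc (hε : ε ^ d = -1) (hd : 0 < d) {v : Fin 3 → L} (h : ∑ i, v i ^ d = 0)
    (h2 : v 2 ≠ 0) :
    ∃ (φ : D.A →ₐ[M] L) (r : L), r ≠ 0 ∧ ∀ i, φ (sc c i) = r * v i := by
  have hε0 : ε ≠ 0 := by
    rintro rfl
    rw [zero_pow hd.ne'] at hε
    exact one_ne_zero (neg_eq_zero.1 hε.symm)
  obtain ⟨η, hη⟩ : ∃ η, η = algebraMap M L ε := ⟨_, rfl⟩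
  have hη0 : η ≠ 0 := by
    rw [hη]
    exact (map_ne_zero (algebraMap M L)).2 hε0
  have hηd : η ^ d = -1 := by rw [hη, ← map_pow, hε, map_neg, map_one]
  rw [Fin.sum_univ_three] at h
  obtain ⟨e, he⟩ : ∃ e, e = v 1 - η * v 0 := ⟨_, rfl⟩
  have he0 : e ≠ 0 := by
    intro h0
    apply h2
    have h3 : v 1 = η * v 0 := by
      rw [h0] at he
      exact sub_eq_zero.1 he.symm
    rw [h3, mul_pow, hηd] at h
    have h4 : v 2 ^ d = 0 := by
      rw [← h]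
      ring
    exact pow_eq_zero_iff hd.ne' |>.1 h4
  have hv1 : 1 + η * (v 0 / e) = v 1 / e := by
    rw [eq_div_iff he0, add_mul, one_mul, mul_assoc, div_mul_cancel₀ _ he0, he]
    ring
  have h3 : (v 2 / (η * e)) ^ d = aeval (v 0 / e) (Af d ε) := by
    rw [Af]
    simp only [map_add, map_pow, map_mul, map_one, aeval_X, aeval_C]
    rw [← hη, hv1, div_pow, div_pow, div_pow, mul_pow, hηd, neg_one_mul, div_neg, ← add_div,
      ← neg_div]
    congr 1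
    linear_combination -h
  obtain ⟨φ, h4, h5⟩ := c.lift L _ _ h3
  refine ⟨φ, e⁻¹, inv_ne_zero he0, fun i => ?_⟩
  fin_cases i
  · change φ c.X = e⁻¹ * v 0
    rw [h4, div_eq_inv_mul]
  · change φ (1 + ε • c.X) = e⁻¹ * v 1
    rw [map_add, map_one, map_smul, h4, Algebra.smul_def, ← hη, hv1, div_eq_inv_mul]
  · change φ (ε • c.U) = e⁻¹ * v 2
    rw [map_smul, h5, Algebra.smul_def, ← hη, ← mul_div_assoc, mul_div_mul_left _ _ hη0,
      div_eq_inv_mul]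

/-- Multiplication of the coordinates by roots of unity. Proof: `exists_sc`. -/
theorem exists_zs (hε : ε ^ d = -1) (hd : 0 < d) (φ : D.A →ₐ[M] L) (h : φ (sb c) ≠ 0)
    (ζ : Fin 3 → L) (hζ : ∀ i, ζ i ^ d = 1) :
    ∃ ψ : D.A →ₐ[M] L, ∃ r : L, r ≠ 0 ∧ ∀ i, ψ (sc c i) = r * (ζ i * φ (sc c i)) := by
  refine exists_sc c hε hd ?_ ?_
  · have h1 := congrArg φ (sc_sum c hε)
    rw [map_sum, map_zero] at h1
    rw [← h1]
    refine Finset.sum_congr rfl fun i _ => ?_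
    rw [mul_pow, hζ, one_mul, map_pow]
  · refine mul_ne_zero ?_ ((sb_val c φ).1 h 2)
    intro h0
    have h1 := hζ 2
    rw [h0, zero_pow hd.ne'] at h1
    exact zero_ne_one h1

open Classical in
/-- The point with the coordinates `ζ i * c_i` (the given point if this is impossible). -/
noncomputable def zs (φ : D.A →ₐ[M] L) (ζ : Fin 3 → L) : D.A →ₐ[M] L :=
  if h : ∃ ψ : D.A →ₐ[M] L, ∃ r : L, r ≠ 0 ∧ ∀ i, ψ (sc c i) = r * (ζ i * φ (sc c i)) then h.choose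
  else φ

private theorem bs_ne {L : Type} [Field L] {d : ℕ} (hd : 0 < d) {z : L} (h : z ^ d = 1) :
    z ≠ 0 := by
  rintro rfl
  rw [zero_pow hd.ne'] at h
  exact zero_ne_one h

private theorem bs_ε {M : Type} [Field M] {d : ℕ} (hd : 0 < d) {ε : M} (hε : ε ^ d = -1) :
    ε ≠ 0 := by
  rintro rfl
  rw [zero_pow hd.ne'] at hε
  exact one_ne_zero (neg_eq_zero.1 hε.symm)

variable (hε : ε ^ d = -1) (hd : 0 < d)

include hε hd

theorem zs_spec {φ : D.A →ₐ[M] L} (h : φ (sb c) ≠ 0) {ζ : Fin 3 → L} (hζ : ∀ i, ζ i ^ d = 1) :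
    ∃ r : L, r ≠ 0 ∧ ∀ i, zs c φ ζ (sc c i) = r * (ζ i * φ (sc c i)) := by
  have h1 := exists_zs c hε hd φ h ζ hζ
  rw [zs, dif_pos h1]
  exact h1.choose_spec

theorem zs_gn {φ : D.A →ₐ[M] L} (h : φ (sb c) ≠ 0) {ζ : Fin 3 → L} (hζ : ∀ i, ζ i ^ d = 1) :
    zs c φ ζ (sb c) ≠ 0 := by
  obtain ⟨r, hr, h1⟩ := zs_spec c hε hd h hζ
  rw [sb_val]
  intro i
  rw [h1]
  exact mul_ne_zero hr (mul_ne_zero (bs_ne hd (hζ i)) ((sb_val c φ).1 h i))

/-- Proof: `zs_spec`, `sc_ext`. -/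
theorem zs_eq {φ : D.A →ₐ[M] L} (h : φ (sb c) ≠ 0) {ζ ζ' : Fin 3 → L} (hζ : ∀ i, ζ i ^ d = 1)
    (hζ' : ∀ i, ζ' i ^ d = 1) : zs c φ ζ = zs c φ ζ' ↔ ∃ r : L, ∀ i, ζ' i = r * ζ i := by
  obtain ⟨r, hr, h1⟩ := zs_spec c hε hd h hζ
  obtain ⟨r', hr', h1'⟩ := zs_spec c hε hd h hζ'
  constructor
  · intro he
    refine ⟨r'⁻¹ * r, fun i => ?_⟩
    have h2 := h1' i
    rw [← he, h1 i, ← mul_assoc, ← mul_assoc] at h2
    have h3 := mul_right_cancel₀ ((sb_val c φ).1 h i) h2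
    rw [mul_assoc, h3, inv_mul_cancel_left₀ hr']
  · rintro ⟨s, hs⟩
    refine ((sc_ext c (bs_ε hd hε) (r := r * (r' * s)⁻¹) fun i => ?_).2)
    have hs0 : s ≠ 0 := by
      rintro rfl
      have h2 := hs 0
      rw [zero_mul] at h2
      exact bs_ne hd (hζ' 0) h2
    rw [h1 i, h1' i, hs i]
    have h3 : r' * s ≠ 0 := mul_ne_zero hr' hs0
    field_simp

theorem zs_zs {φ : D.A →ₐ[M] L} (h : φ (sb c) ≠ 0) {ζ ζ' : Fin 3 → L} (hζ : ∀ i, ζ i ^ d = 1)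
    (hζ' : ∀ i, ζ' i ^ d = 1) : zs c (zs c φ ζ) ζ' = zs c φ fun i => ζ' i * ζ i := by
  obtain ⟨r, hr, h1⟩ := zs_spec c hε hd h hζ
  obtain ⟨r', hr', h1'⟩ := zs_spec c hε hd (zs_gn c hε hd h hζ) hζ'
  obtain ⟨s, hs, h2⟩ := zs_spec c hε hd h (ζ := fun i => ζ' i * ζ i)
    (fun i => by rw [mul_pow, hζ, hζ', one_mul])
  refine (sc_ext c (bs_ε hd hε) (r := r' * r * s⁻¹) fun i => ?_).2
  rw [h1' i, h1 i, h2 i]
  field_simp

theorem zs_one {φ : D.A →ₐ[M] L} (h : φ (sb c) ≠ 0) : zs c φ (fun _ => 1) = φ := by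
  obtain ⟨r, -, h1⟩ := zs_spec c hε hd h (ζ := fun _ => 1) (fun i => one_pow d)
  refine (sc_ext c (bs_ε hd hε) (r := r) fun i => ?_).2
  rw [h1 i, one_mul]

end DH
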