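import Pool.Agent.Lib.MP_f80667_ag.Dh.Co

/-! Multiples of the coordinates, preimages. -/

namespace DH

section co

variable {L : Type} [Field L] {x y z : ℕ → L}

private theorem coA_prod (c : ℕ → L) {k n : ℕ} (h : k ≤ n) :
    (∏ j ∈ Finset.range k, c j) * c k * ∏ j ∈ Finset.Ioc k n, c j =
      ∏ j ∈ Finset.range (n + 1), c j := by
  have h1 : Finset.Ioc k n = Finset.Ico (k + 1) (n + 1) := by
    ext j
    rw [Finset.mem_Ioc, Finset.mem_Ico]
    omega
  rw [h1, ← Finset.prod_range_succ, Finset.prod_range_mul_prod_Ico c (by omega : k + 1 ≤ n + 1)]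

/-- The coordinates of multiples. Proof: every index `1 ≤ j ≤ n` occurs exactly once in every `X_k`. -/
theorem Xc_mul (c : ℕ → L) (n k : ℕ) (hk : k ≤ n + 1) :
    Xc (fun j => c j * x j) (fun j => c j * y j) (fun j => c j * z j) n k =
      (∏ j ∈ Finset.range (n + 1), c j) * Xc x y z n k := by
  unfold Xc
  by_cases h : k ≤ n
  · rw [if_pos h, if_pos h, ← coA_prod c h, Finset.prod_mul_distrib, Finset.prod_mul_distrib]
    ring
  · rw [if_neg h, if_neg h, Finset.prod_mul_distrib]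

private theorem coA_shift {f g : ℕ → L} {k n : ℕ} (hkn : k ≤ n)
    (h : ∀ j, k < j → j ≤ n → f j = g (j - 1)) :
    ∏ j ∈ Finset.Ioc k n, f j = ∏ j ∈ Finset.Ico k n, g j := by
  induction n, hkn using Nat.le_induction with
  | base => rw [Finset.Ioc_self, Finset.Ico_self, Finset.prod_empty, Finset.prod_empty]
  | succ n hn ih =>
    have h1 : Finset.Ioc k (n + 1) = insert (n + 1) (Finset.Ioc k n) := by
      ext j
      rw [Finset.mem_insert, Finset.mem_Ioc, Finset.mem_Ioc]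
      omega
    have h2 : n + 1 ∉ Finset.Ioc k n := by
      rw [Finset.mem_Ioc]
      omega
    rw [h1, Finset.prod_insert h2, Finset.prod_Ico_succ_top hn,
      ih fun j hj hj' => h j hj (by omega), h (n + 1) (by omega) le_rfl, Nat.add_sub_cancel]
    ring

/-- The coordinates of the preimage: `e_k = (W_(k-1) : X_k : W_k)`, `W 0 = X 0`, `W n = X (n+1)`. Proof: telescoping
products. -/
theorem Xc_pre {n : ℕ} (hn : 1 ≤ n) (W X : ℕ → L) (hx : ∀ j, 1 ≤ j → j ≤ n → x j = W (j - 1))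
    (hy : ∀ j, 1 ≤ j → j ≤ n → y j = X j) (hz : ∀ j, 1 ≤ j → j ≤ n → z j = W j) (h0 : W 0 = X 0)
    (hl : W n = X (n + 1)) (hy0 : y 0 = 1) (hz0 : z 0 = 1) :
    ∀ k ≤ n + 1, Xc x y z n k = (∏ j ∈ Finset.Ioo 0 n, W j) * X k := by
  have hI : Finset.Ioo 0 n = Finset.Ico 1 n := by
    ext j
    rw [Finset.mem_Ioo, Finset.mem_Ico]
    omega
  have hZ : ∀ k, 1 ≤ k → k ≤ n + 1 → ∏ j ∈ Finset.range k, z j = ∏ j ∈ Finset.Ico 1 k, W j := by
    intro k hk hkn
    rw [Finset.prod_range_eq_mul_Ico _ hk, hz0, one_mul]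
    refine Finset.prod_congr rfl fun j hj => ?_
    rw [Finset.mem_Ico] at hj
    exact hz j hj.1 (by omega)
  have hX : ∀ k, k ≤ n → ∏ j ∈ Finset.Ioc k n, x j = ∏ j ∈ Finset.Ico k n, W j := fun k hk =>
    coA_shift hk fun j hj hj' => hx j (by omega) hj'
  rw [hI]
  intro k hk
  unfold Xc
  by_cases h : k ≤ n
  · rw [if_pos h, hX k h]
    rcases Nat.eq_zero_or_pos k with h1 | h1
    · subst h1
      rw [Finset.prod_range_zero, hy0, Finset.prod_eq_prod_Ico_succ_bot (by omega : 0 < n), h0]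
      ring
    · rw [hZ k h1 hk, hy k h1 h, ← Finset.prod_Ico_consecutive W h1 h]
      ring
  · have h1 : k = n + 1 := by omega
    rw [if_neg h, hZ (n + 1) (by omega) le_rfl, Finset.prod_Ico_succ_top hn, hl, h1]

theorem Xc_congr {x' y' z' : ℕ → L} {n : ℕ} (h : ∀ j ≤ n, x j = x' j ∧ y j = y' j ∧ z j = z' j)
    (k : ℕ) (hk : k ≤ n + 1) : Xc x y z n k = Xc x' y' z' n k := by
  have _ := hk
  unfold Xc
  by_cases h1 : k ≤ n
  · rw [if_pos h1, if_pos h1, (h k h1).2.1]
    have e1 : ∏ j ∈ Finset.range k, z j = ∏ j ∈ Finset.range k, z' j :=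
      Finset.prod_congr rfl fun j hj => (h j (by have := Finset.mem_range.1 hj; omega)).2.2
    have e2 : ∏ j ∈ Finset.Ioc k n, x j = ∏ j ∈ Finset.Ioc k n, x' j :=
      Finset.prod_congr rfl fun j hj => (h j (Finset.mem_Ioc.1 hj).2).1
    rw [e1, e2]
  · rw [if_neg h1, if_neg h1]
    exact Finset.prod_congr rfl fun j hj => (h j (by have := Finset.mem_range.1 hj; omega)).2.2

end co

end DH
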