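import Pool.Agent.Lib.MP_f80667_ag.Be.Defs

/-!
Diagonal hypersurfaces `∑ a_i x_i ^ d = 0` in `P^(n+1)`.

* `Hc d a L`: homogeneous coordinates of an `L`-point: `x ∈ L^(n+2)`, `x ≠ 0`, `∑ a_i x_i ^ d = 0`.
* `Hc.Rel`: coordinates of the same point: `x` is multiplied by a number `c ≠ 0`.
* `Xd d a`: the hypersurface. The reduction of a point at a place: all coordinates are integral and their residues are the
  coordinates of the value.
-/

open ZC

namespace DH

/-- Homogeneous coordinates of a point. -/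
structure Hc {F : Type} [Field F] (d : ℕ) {n : ℕ} (a : Fin (n + 2) → F) (L : Type) [Field L]
    [Algebra F L] where
  /-- the coordinates -/
  x : Fin (n + 2) → L
  ne : x ≠ 0
  eq : ∑ i, algebraMap F L (a i) * x i ^ d = 0

namespace Hc

variable {F : Type} [Field F] {d n : ℕ} {a : Fin (n + 2) → F} {L : Type} [Field L] [Algebra F L]

/-- Coordinates of the same point. -/
def Rel (P Q : Hc d a L) : Prop := ∃ c : L, c ≠ 0 ∧ Q.x = fun i => c * P.x i

theorem rel_refl (P : Hc d a L) : P.Rel P :=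
  ⟨1, one_ne_zero, funext fun i => (one_mul (P.x i)).symm⟩

theorem rel_symm {P Q : Hc d a L} (h : P.Rel Q) : Q.Rel P := by
  obtain ⟨c, hc, h1⟩ := h
  refine ⟨c⁻¹, inv_ne_zero hc, funext fun i => ?_⟩
  rw [h1]
  exact (inv_mul_cancel_left₀ hc _).symm

theorem rel_trans {P Q R : Hc d a L} (h : P.Rel Q) (h' : Q.Rel R) : P.Rel R := by
  obtain ⟨c, hc, h1⟩ := h
  obtain ⟨c', hc', h1'⟩ := h'
  refine ⟨c' * c, mul_ne_zero hc' hc, funext fun i => ?_⟩
  rw [h1', h1]
  exact (mul_assoc _ _ _).symm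

variable (d a L) in
/-- The equality of points. -/
def sd : Setoid (Hc d a L) where
  r := Rel
  iseqv := ⟨rel_refl, rel_symm, rel_trans⟩

/-- The map induced by a homomorphism. -/
def mp {M : Type} [Field M] [Algebra F M] (σ : L →ₐ[F] M) (P : Hc d a L) : Hc d a M where
  x i := σ (P.x i)
  ne := by
    intro h
    apply P.ne
    funext i
    exact (map_eq_zero σ).1 (congrFun h i)
  eq := by
    have h := congrArg σ P.eq
    rw [map_sum, map_zero] at h
    rw [← h]
    refine Finset.sum_congr rfl fun i _ => ?_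
    rw [map_mul, map_pow, AlgHom.commutes]

theorem mp_rel {M : Type} [Field M] [Algebra F M] (σ : L →ₐ[F] M) {P Q : Hc d a L}
    (h : P.Rel Q) : (P.mp σ).Rel (Q.mp σ) := by
  obtain ⟨c, hc, h1⟩ := h
  refine ⟨σ c, (map_ne_zero σ).2 hc, funext fun i => ?_⟩
  change σ (Q.x i) = σ c * σ (P.x i)
  rw [h1, map_mul]

end Hc

/-- The hypersurface. -/
def Xd {F : Type} [Field F] (d : ℕ) {n : ℕ} (a : Fin (n + 2) → F) : BE.Vr F where
  pt L _ _ := Quotient (Hc.sd d a L)
  map σ := Quotient.map (Hc.mp σ) fun _ _ h => Hc.mp_rel σ h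
  red w x y := ∃ P Q, x = Quotient.mk _ P ∧ y = Quotient.mk _ Q ∧
    ∀ i, ∃ h : P.x i ∈ w.V, w.res ⟨P.x i, h⟩ = Q.x i

end DH
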