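import Pool.Agent.Lib.MP_f80667_ag.Dh.B4
import Pool.Agent.Lib.MP_f80667_ag.Dh.FerM

/-!
The curve `u ^ 2 = x ^ 3 - x` in residue characteristic `2`: the change of variables `x = α ^ 2 X + b`,
`u = α ^ 3 Y + s α ^ 2 X + t` with `s ^ 2 = 3 b`, `2 s t = 3 b ^ 2 - 1`, `t ^ 2 = b ^ 3 - b`, `α ^ 2 = 2` gives
`Y ^ 2 + a₁ X Y + a₃ Y = X ^ 3`, `a₁ = 2 s / α = α s`, `a₃ = 2 t / α ^ 3 = t / α`. The number `b` is a unit, `a₁` is in the
maximal ideal, `a₃` is a unit: `3 (b ^ 2 - 1) ^ 2 = 4`, `(t / α) ^ 2 = b (b ^ 2 - 1) / 2`.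
-/

open BE CV QS Polynomial IsLocalRing

namespace DH

/-- The numbers `b`, `s`, `t`, `α`. -/
structure R4 (M : Type) [Field M] where
  b : M
  s : M
  t : M
  α : M
  hs : s ^ 2 = 3 * b
  hst : 2 * (s * t) = 3 * b ^ 2 - 1
  ht : t ^ 2 = b ^ 3 - b
  hα : α ^ 2 = 2

/-- Proof: `exists_cu`. -/
theorem exists_e4 (M : Type) [Field M] [CharZero M] : ∃ E : Crv M, Nonempty (Cu E 2 (a4 M)) := by
  have hd : (a4 M).natDegree = 3 := by
    unfold a4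
    compute_degree!
  refine exists_cu le_rfl ?_ (by rw [hd]; norm_num) (by rw [hd]; norm_num)
  have h2 : (C (1 / 2 : M)) * 2 = (1 : M[X]) := by
    have h3 : (2 : M[X]) = C 2 := rfl
    rw [h3, ← C_mul, one_div, inv_mul_cancel₀ two_ne_zero, map_one]
  refine ⟨-(9 * C (1 / 2) * X), -1 + 3 * C (1 / 2) * X ^ 2, ?_⟩
  have h1 : derivative (a4 M) = 3 * X ^ 2 - 1 := by
    unfold a4
    rw [derivative_sub, derivative_X_pow, derivative_X]
    norm_num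
    rfl
  rw [h1]
  unfold a4
  linear_combination (3 * X ^ 2 : M[X]) * h2

section ring

variable {O : Type} [CommRing O]

/-- The ring `O[X, Y] / (Y ^ 2 + a₁ X Y + a₃ Y - X ^ 3)`. -/
abbrev We (a₁ a₃ : O) : Type :=
  AdjoinRoot (X ^ 2 + C (C a₁ * X + C a₃) * X - C (X ^ 3) : O[X][X])

private theorem we_eval {R : Type} [CommRing R] (a₁ a₃ : O) (φ : O[X] →+* R) (r : R) :
    eval₂ φ r (X ^ 2 + C (C a₁ * X + C a₃) * X - C (X ^ 3) : O[X][X]) =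
      r ^ 2 + (φ (C a₁) * φ X + φ (C a₃)) * r - φ X ^ 3 := by
  rw [eval₂_sub, eval₂_add, eval₂_mul, eval₂_pow, eval₂_X, eval₂_C, eval₂_C, map_add, map_mul,
    map_pow]

private theorem we_rel {a₁ a₃ : O} {p : O[X][X]}
    (hp : p = X ^ 2 + C (C a₁ * X + C a₃) * X - C (X ^ 3)) :
    AdjoinRoot.root p ^ 2 + (algebraMap O (AdjoinRoot p) a₁ * AdjoinRoot.of p X +
      algebraMap O (AdjoinRoot p) a₃) * AdjoinRoot.root p - AdjoinRoot.of p X ^ 3 = 0 := by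
  have h4 : eval₂ (AdjoinRoot.of p) (AdjoinRoot.root p) p = 0 := AdjoinRoot.eval₂_root _
  have h5 := (congrArg (eval₂ (AdjoinRoot.of p) (AdjoinRoot.root p)) hp).trans
    (we_eval a₁ a₃ (AdjoinRoot.of p) (AdjoinRoot.root p))
  have h6 : ∀ a : O, algebraMap O (AdjoinRoot p) a = AdjoinRoot.of p (C a) := fun a => by
    rw [IsScalarTower.algebraMap_apply O O[X] (AdjoinRoot p) a]
    rfl
  rw [h6, h6, ← h5]
  exact h4

private theorem we_lift {a₁ a₃ : O} {p : O[X][X]}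
    (hp : p = X ^ 2 + C (C a₁ * X + C a₃) * X - C (X ^ 3)) {B : Type} [CommRing B] [Algebra O B]
    {x y : B} (h : y ^ 2 + (algebraMap O B a₁ * x + algebraMap O B a₃) * y - x ^ 3 = 0) :
    ∃ φ : AdjoinRoot p →ₐ[O] B, φ (AdjoinRoot.of p X) = x ∧ φ (AdjoinRoot.root p) = y := by
  have e1 : eval₂ ((aeval x : O[X] →ₐ[O] B) : O[X] →+* B) y p = 0 := by
    rw [hp, we_eval]
    have h4 : ∀ a, ((aeval x : O[X] →ₐ[O] B) : O[X] →+* B) (C a) = algebraMap O B a := fun a =>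
      aeval_C x a
    have h5 : ((aeval x : O[X] →ₐ[O] B) : O[X] →+* B) X = x := aeval_X x
    rw [h4, h4, h5]
    exact h
  refine ⟨AdjoinRoot.liftAlgHom _ (aeval x) y e1, ?_, AdjoinRoot.liftAlgHom_root _ _ _ e1⟩
  exact (AdjoinRoot.liftAlgHom_of _ _ _ e1 X).trans (aeval_X x)

private theorem we_ext {p : O[X][X]} {B : Type} [CommRing B] [Algebra O B]
    {φ ψ : AdjoinRoot p →ₐ[O] B} (h : φ (AdjoinRoot.of p X) = ψ (AdjoinRoot.of p X))
    (h' : φ (AdjoinRoot.root p) = ψ (AdjoinRoot.root p)) : φ = ψ :=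
  AdjoinRoot.algHom_ext' (Polynomial.algHom_ext h) h'

private theorem we_id {B : Type} [CommRing B] (b₁ b₃ x y d : B)
    (hd : d * (3 * b₃ ^ 3 * (b₁ ^ 3 - 27 * b₃)) = 1) :
    ∃ α β γ : B, α * (y ^ 2 + (b₁ * x + b₃) * y - x ^ 3) + β * (b₁ * y - 3 * x ^ 2) +
      γ * (2 * y + b₁ * x + b₃) = 1 := by
  obtain ⟨q, hq⟩ : ∃ q, q = 2 * y + b₁ * x + b₃ := ⟨_, rfl⟩
  obtain ⟨K, hK⟩ : ∃ K, K = b₃ * (b₁ ^ 3 - 27 * b₃) - (b₁ ^ 3 - 24 * b₃) * y := ⟨_, rfl⟩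
  obtain ⟨L, hL⟩ : ∃ L, L = (b₁ ^ 3 - 24 * b₃) ^ 2 := ⟨_, rfl⟩
  refine ⟨d * (36 * K + 3 * L), -(d * (K * (b₁ ^ 2 + 12 * x) + L * x)),
    -(d * (K * (3 * q + 12 * y - 6 * b₃) + 2 * L * y)), ?_⟩
  rw [← hd, hK, hL, hq]
  ring

private theorem we_step {B : Type} [CommRing B] (b₁ b₃ x y α β γ F : B)
    (hF : F = y ^ 2 + (b₁ * x + b₃) * y - x ^ 3) (hFF : F ^ 2 = 0)
    (hid : α * (y ^ 2 + (b₁ * x + b₃) * y - x ^ 3) + β * (b₁ * y - 3 * x ^ 2) +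
      γ * (2 * y + b₁ * x + b₃) = 1) :
    (y + -(γ * F)) ^ 2 + (b₁ * (x + -(β * F)) + b₃) * (y + -(γ * F)) - (x + -(β * F)) ^ 3 = 0 := by
  rw [← hF] at hid
  linear_combination -hF - F * hid + (γ ^ 2 + b₁ * β * γ - 3 * x * β ^ 2 + β ^ 3 * F + α) * hFF

private theorem we_formal {a₁ a₃ : O} {p : O[X][X]}
    (hp : p = X ^ 2 + C (C a₁ * X + C a₃) * X - C (X ^ 3))
    (hD : IsUnit (3 * a₃ ^ 3 * (a₁ ^ 3 - 27 * a₃))) : Algebra.FormallySmooth O (AdjoinRoot p) := by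
  obtain ⟨D, hD⟩ := hD
  refine .of_comp_surjective fun B _ _ I hI f => ?_
  obtain ⟨x₀, hx₀⟩ := Ideal.Quotient.mk_surjective (f (AdjoinRoot.of p X))
  obtain ⟨y₀, hy₀⟩ := Ideal.Quotient.mk_surjective (f (AdjoinRoot.root p))
  have hdD : algebraMap O B ((D⁻¹ : Oˣ) : O) *
      (3 * algebraMap O B a₃ ^ 3 * (algebraMap O B a₁ ^ 3 - 27 * algebraMap O B a₃)) = 1 := by
    have h4 : ((D⁻¹ : Oˣ) : O) * (3 * a₃ ^ 3 * (a₁ ^ 3 - 27 * a₃)) = 1 := by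
      rw [← hD, Units.inv_mul]
    have h5 := congrArg (algebraMap O B) h4
    simpa only [map_mul, map_sub, map_pow, map_one, map_ofNat] using h5
  -- the defect
  have hF : y₀ ^ 2 + (algebraMap O B a₁ * x₀ + algebraMap O B a₃) * y₀ - x₀ ^ 3 ∈ I := by
    rw [← Ideal.Quotient.eq_zero_iff_mem]
    have h5 := congrArg f (we_rel hp)
    rw [map_zero, map_sub, map_add, map_mul, map_add, map_mul, map_pow, map_pow, f.commutes,
      f.commutes, ← hx₀, ← hy₀] at h5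
    rw [map_sub, map_add, map_mul, map_add, map_mul, map_pow, map_pow]
    exact h5
  obtain ⟨F, hFd⟩ : ∃ F, F = y₀ ^ 2 + (algebraMap O B a₁ * x₀ + algebraMap O B a₃) * y₀ -
    x₀ ^ 3 := ⟨_, rfl⟩
  rw [← hFd] at hF
  have hFF : F ^ 2 = 0 := by
    have := Ideal.pow_mem_pow hF 2
    rwa [hI, Submodule.mem_bot] at this
  obtain ⟨α, β, γ, hid⟩ := we_id _ _ x₀ y₀ _ hdD
  obtain ⟨φ, hφ1, hφ2⟩ := we_lift hp (we_step _ _ x₀ y₀ α β γ F hFd hFF hid)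
  refine ⟨φ, we_ext ?_ ?_⟩
  · change Ideal.Quotient.mk I (φ (AdjoinRoot.of p X)) = _
    rw [hφ1, ← hx₀, Ideal.Quotient.eq, add_sub_cancel_left]
    exact I.neg_mem (Ideal.mul_mem_left _ _ hF)
  · change Ideal.Quotient.mk I (φ (AdjoinRoot.root p)) = _
    rw [hφ2, ← hy₀, Ideal.Quotient.eq, add_sub_cancel_left]
    exact I.neg_mem (Ideal.mul_mem_left _ _ hF)

/-- The Jacobian criterion: `a₁` is in the maximal ideal, `a₃`, `3` are units. Proof: as `Se.smooth`; the ideal generated by the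
two derivatives is everything: modulo `a₁ Y = 3 X ^ 2` the ring is finite over `O`, and `2 Y + a₁ X + a₃` is the unit `a₃` modulo the
maximal ideal (Nakayama, compare `Se.nak'`). -/
theorem we_smooth [IsLocalRing O] {a₁ a₃ : O} (h1 : a₁ ∈ maximalIdeal O) (h3 : IsUnit a₃)
    (h2 : (2 : O) ∈ maximalIdeal O) : Algebra.Smooth O (We a₁ a₃) := by
  have hD : IsUnit (3 * a₃ ^ 3 * (a₁ ^ 3 - 27 * a₃)) := by
    have h3' : IsUnit (3 : O) := by
      by_contra h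
      have h4 : (3 : O) ∈ maximalIdeal O := (mem_maximalIdeal _).2 h
      have h5 : (1 : O) ∈ maximalIdeal O := by
        have h6 := (maximalIdeal O).sub_mem h4 h2
        have h7 : (3 : O) - 2 = 1 := by norm_num
        rwa [h7] at h6
      exact (mem_maximalIdeal _).1 h5 isUnit_one
    refine (h3'.mul (h3.pow 3)).mul ?_
    by_contra h
    have h4 := (mem_maximalIdeal _).2 h
    have h5 : a₁ ^ 3 ∈ maximalIdeal O := (maximalIdeal O).pow_mem_of_mem h1 3 (by norm_num)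
    have h6 := (maximalIdeal O).sub_mem h5 h4
    have h7 : a₁ ^ 3 - (a₁ ^ 3 - 27 * a₃) = 3 ^ 3 * a₃ := by ring
    rw [h7] at h6
    exact (mem_maximalIdeal _).1 h6 ((h3'.pow 3).mul h3)
  exact ⟨we_formal rfl hD, inferInstance⟩

end ring

end DH
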