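import Pool.Agent.Lib.MP_f80667_ag.Dh.E4m

/-! The curve `u ^ 2 = x ^ 3 - x` in residue characteristic `2`: the units. -/

open BE CV QS Polynomial IsLocalRing

namespace DH

variable {O M : Type} [CommRing O] [IsLocalRing O] [Field M] [Algebra O M]

/-- A square root of an element of `O` is in `O`. -/
private theorem e4g_sqrt [IsDomain O] [IsIntegrallyClosed O] [IsFractionRing O M] {x : M} {y : O}
    (h : x ^ 2 = algebraMap O M y) : ∃ x' : O, algebraMap O M x' = x ∧ x' ^ 2 = y := by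
  have h1 : IsIntegral O x := by
    refine IsIntegral.of_pow (n := 2) (by norm_num) ?_
    rw [h]
    exact isIntegral_algebraMap
  obtain ⟨x', hx'⟩ := IsIntegrallyClosed.isIntegral_iff.1 h1
  refine ⟨x', hx', ?_⟩
  apply IsFractionRing.injective O M
  rw [map_pow, hx', h]

/-- **Good reduction.** Proof: `3 b ^ 4 - 6 b ^ 2 = 1`, `3` is a unit: `b` is integral, so it is (the image of) a unit of `O`;
`s`, `α` are integral, `s` is a unit, `α` is in the maximal ideal (`α ^ 2 = 2`); `w = (b ^ 2 - 1) / 2` satisfies `3 w ^ 2 = 1`, so it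
is a unit, `(t / α) ^ 2 = b w`; `we_mod`. -/
theorem e4_mod [IsDomain O] [IsIntegrallyClosed O] [IsFractionRing O M] [CharZero M] {E : Crv M}
    (e : Cu E 2 (a4 M)) (R : R4 M) (h2 : (2 : O) ∈ maximalIdeal O) : Nonempty (Mod E O M) := by
  have hinj : Function.Injective (algebraMap O M) := IsFractionRing.injective O M
  have h3 : IsUnit (3 : O) := by
    by_contra h
    have h4 : (3 : O) ∈ maximalIdeal O := (mem_maximalIdeal _).2 h
    have h5 := (maximalIdeal O).sub_mem h4 h2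
    have h6 : (3 : O) - 2 = 1 := by norm_num
    rw [h6] at h5
    exact (Ideal.ne_top_iff_one _).1 (maximalIdeal.isMaximal O).ne_top h5
  obtain ⟨c, hc⟩ := h3.exists_right_inv
  have hcM : 3 * algebraMap O M c = 1 := by
    have h4 := congrArg (algebraMap O M) hc
    rwa [map_mul, map_ofNat, map_one] at h4
  have ne2 : (2 : M) ≠ 0 := two_ne_zero
  have ne3 : (3 : M) ≠ 0 := three_ne_zero
  have hα0 : R.α ≠ 0 := by
    intro h
    have h4 := R.hα
    rw [h] at h4
    exact ne2 (by rw [← h4]; ring)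
  have hb : 3 * R.b ^ 4 - 6 * R.b ^ 2 = 1 := by
    have e1 : (2 * (R.s * R.t)) ^ 2 = (3 * R.b ^ 2 - 1) ^ 2 := by rw [R.hst]
    have e2 : (2 * (R.s * R.t)) ^ 2 = 4 * (3 * R.b) * (R.b ^ 3 - R.b) := by
      rw [← R.hs, ← R.ht]
      ring
    linear_combination e1 - e2
  -- the number `w`
  obtain ⟨w, hw⟩ : ∃ w : M, w = (R.b ^ 2 - 1) / 2 := ⟨_, rfl⟩
  have hw2 : 2 * w = R.b ^ 2 - 1 := by
    rw [hw]
    field_simp
  have hw3 : 3 * w ^ 2 = 1 := by
    have h4 : 4 * (3 * w ^ 2) = 4 * 1 := by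
      have h5 : 4 * (3 * w ^ 2) = 3 * (2 * w) ^ 2 := by ring
      rw [h5, hw2]
      linear_combination hb
    exact mul_left_cancel₀ (by norm_num : (4 : M) ≠ 0) h4
  have hwc : w ^ 2 = algebraMap O M c := mul_left_cancel₀ ne3 (hw3.trans hcM.symm)
  obtain ⟨w', hw', hwc'⟩ := e4g_sqrt hwc
  have hwu : IsUnit w' := by
    have h4 : 3 * w' * w' = 1 := by
      rw [mul_assoc, ← pow_two, hwc', hc]
    exact IsUnit.of_mul_eq_one (3 * w') (by rw [mul_comm]; exact h4)
  -- the number `b`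
  have hb2 : R.b ^ 2 = algebraMap O M (2 * w' + 1) := by
    rw [map_add, map_mul, map_ofNat, map_one, hw']
    linear_combination -hw2
  obtain ⟨b', hb', hbc'⟩ := e4g_sqrt hb2
  have hbu : IsUnit b' := by
    have h4 : (3 * b' ^ 3 - 6 * b') * b' = 1 := by
      apply hinj
      rw [map_mul, map_sub, map_mul, map_mul, map_pow, map_ofNat, map_ofNat, map_one, hb']
      linear_combination hb
    exact IsUnit.of_mul_eq_one (3 * b' ^ 3 - 6 * b') (by rw [mul_comm]; exact h4)
  -- the number `s`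
  have hs2 : R.s ^ 2 = algebraMap O M (3 * b') := by
    rw [map_mul, map_ofNat, hb', R.hs]
  obtain ⟨s', hs', -⟩ := e4g_sqrt hs2
  -- the number `α`
  have hα2 : R.α ^ 2 = algebraMap O M 2 := by
    rw [map_ofNat, R.hα]
  obtain ⟨α', hα', hαc'⟩ := e4g_sqrt hα2
  have hαm : α' ∈ maximalIdeal O := by
    refine (maximalIdeal.isMaximal O).isPrime.mem_of_pow_mem 2 ?_
    rw [hαc']
    exact h2
  -- the number `t / α`
  have ha2 : (R.t / R.α) ^ 2 = algebraMap O M (b' * w') := by
    rw [map_mul, hb', hw', div_pow, R.ht, R.hα, div_eq_iff ne2]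
    linear_combination (-R.b) * hw2
  obtain ⟨a₃, ha₃, hac⟩ := e4g_sqrt ha2
  have hau : IsUnit a₃ := by
    have h4 : IsUnit (a₃ ^ 2) := by
      rw [hac]
      exact hbu.mul hwu
    exact (isUnit_pow_iff two_ne_zero).1 h4
  refine we_mod e R (a₁ := α' * s') (a₃ := a₃) ((maximalIdeal O).mul_mem_right _ hαm) hau h2 ?_ ?_
  · rw [map_mul, hα', hs']
  · rw [ha₃, div_mul_cancel₀ _ hα0]

end DH
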