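import Pool.Agent.Lib.MP_f80667_ag.Dh.E4

/-! The curve `u ^ 2 = x ^ 3 - x` in residue characteristic `2`: the model. -/

open BE CV QS Polynomial IsLocalRing TensorProduct

namespace DH

section ring

variable {S : Type} [CommRing S] (a₁ a₃ : S)

/-- The equation. -/
private noncomputable abbrev wq : S[X][X] := X ^ 2 + C (C a₁ * X + C a₃) * X - C (X ^ 3)

private theorem wq_deg : (C (C a₁ * X + C a₃) * X - C (X ^ 3) : S[X][X]).degree < (2 : ℕ) := by
  refine lt_of_le_of_lt (degree_sub_le _ _) (max_lt ?_ ?_)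
  · refine lt_of_le_of_lt (degree_C_mul_X_le _) ?_
    norm_num
  · refine lt_of_le_of_lt degree_C_le ?_
    norm_num

private theorem wq_eq : wq a₁ a₃ = X ^ 2 + (C (C a₁ * X + C a₃) * X - C (X ^ 3)) := by
  rw [wq, add_sub_assoc]

private theorem wq_monic : (wq a₁ a₃).Monic := by
  rw [wq_eq]
  exact monic_X_pow_add (wq_deg a₁ a₃)

private theorem wq_nd [Nontrivial S] : (wq a₁ a₃).natDegree = 2 := by
  rw [wq_eq]
  refine natDegree_eq_of_degree_eq_some ?_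
  rw [degree_add_eq_left_of_degree_lt, degree_X_pow]
  rw [degree_X_pow]
  exact wq_deg a₁ a₃

/-- The element `X`. -/
private noncomputable def wx : We a₁ a₃ := algebraMap S[X] (We a₁ a₃) X

/-- The element `Y`. -/
private noncomputable def wy : We a₁ a₃ := AdjoinRoot.root (wq a₁ a₃)

private theorem wxy : wy a₁ a₃ ^ 2 + (a₁ • wx a₁ a₃ + algebraMap S _ a₃) * wy a₁ a₃ =
    wx a₁ a₃ ^ 3 := by
  have h : eval₂ (AdjoinRoot.of (wq a₁ a₃)) (AdjoinRoot.root (wq a₁ a₃)) (wq a₁ a₃) = 0 :=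
    AdjoinRoot.eval₂_root (wq a₁ a₃)
  have h2 : eval₂ (AdjoinRoot.of (wq a₁ a₃)) (AdjoinRoot.root (wq a₁ a₃))
      (X ^ 2 + C (C a₁ * X + C a₃) * X - C (X ^ 3)) = 0 := h
  rw [eval₂_sub, eval₂_add, eval₂_mul, eval₂_pow, eval₂_X, eval₂_C, eval₂_C, sub_eq_zero,
    map_add, map_mul, map_pow] at h2
  rw [Algebra.smul_def]
  exact h2

/-- The basis of the monomials. -/
private noncomputable def wb [Nontrivial S] : Module.Basis (ℕ × Fin 2) S (We a₁ a₃) :=
  ((basisMonomials S).smulTower (AdjoinRoot.powerBasis' (wq_monic a₁ a₃)).basis).reindex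
    (Equiv.prodCongr (Equiv.refl ℕ) (finCongr
      ((AdjoinRoot.powerBasis'_dim (wq_monic a₁ a₃)).trans (wq_nd a₁ a₃))))

private theorem wb_apply [Nontrivial S] (p : ℕ × Fin 2) :
    wb a₁ a₃ p = wx a₁ a₃ ^ p.1 * wy a₁ a₃ ^ (p.2 : ℕ) := by
  rw [wb, Module.Basis.reindex_apply, Module.Basis.smulTower_apply, PowerBasis.basis_eq_pow,
    Algebra.smul_def, coe_basisMonomials]
  congr 1
  change algebraMap S[X] (We a₁ a₃) (monomial p.1 1) = _
  rw [← X_pow_eq_monomial, map_pow]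
  rfl

private theorem w_gen [Nontrivial S] : Algebra.adjoin S {wx a₁ a₃, wy a₁ a₃} = ⊤ := by
  rw [eq_top_iff]
  intro y _
  have h : y ∈ Submodule.span S (Set.range (wb a₁ a₃)) := by
    rw [(wb a₁ a₃).span_eq]
    trivial
  refine Submodule.span_le (p := (Algebra.adjoin S {wx a₁ a₃, wy a₁ a₃}).toSubmodule).2 ?_ h
  rintro z ⟨p, rfl⟩
  rw [wb_apply]
  have h1 : wx a₁ a₃ ^ p.1 * wy a₁ a₃ ^ (p.2 : ℕ) ∈ Algebra.adjoin S {wx a₁ a₃, wy a₁ a₃} :=
    mul_mem (pow_mem (Algebra.subset_adjoin (by simp)) _)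
      (pow_mem (Algebra.subset_adjoin (by simp)) _)
  exact h1

private theorem w_rel : wy a₁ a₃ ^ 2 - wx a₁ a₃ ^ 3 ∈ Submodule.span S {y | ∃ i j,
    2 * i + 3 * j < 2 * 3 ∧ y = wx a₁ a₃ ^ i * wy a₁ a₃ ^ j} := by
  have h : wy a₁ a₃ ^ 2 - wx a₁ a₃ ^ 3 = (-a₁) • (wx a₁ a₃ ^ 1 * wy a₁ a₃ ^ 1) +
      (-a₃) • (wx a₁ a₃ ^ 0 * wy a₁ a₃ ^ 1) := by
    rw [← wxy, Algebra.smul_def, Algebra.smul_def, Algebra.smul_def, map_neg, map_neg]
    ring
  rw [h]
  refine add_mem (Submodule.smul_mem _ _ (Submodule.subset_span ⟨1, 1, by norm_num, rfl⟩))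
    (Submodule.smul_mem _ _ (Submodule.subset_span ⟨0, 1, by norm_num, rfl⟩))

/-- The monic table. -/
private noncomputable def w_tb [Nontrivial S] : Mt S (We a₁ a₃) :=
  Se.mt (by norm_num) (by norm_num) (wb a₁ a₃) (wb_apply a₁ a₃) (w_rel a₁ a₃)

variable {a₁ a₃}

/-- The universal property. -/
private theorem w_lift {B : Type} [CommRing B] [Algebra S B] {x y : B}
    (h : y ^ 2 + (algebraMap S B a₁ * x + algebraMap S B a₃) * y = x ^ 3) :
    ∃ φ : We a₁ a₃ →ₐ[S] B, φ (wx a₁ a₃) = x ∧ φ (wy a₁ a₃) = y := by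
  have h1 : eval₂ ((aeval x : S[X] →ₐ[S] B) : S[X] →+* B) y
      (X ^ 2 + C (C a₁ * X + C a₃) * X - C (X ^ 3)) = 0 := by
    rw [eval₂_sub, eval₂_add, eval₂_mul, eval₂_pow, eval₂_X, eval₂_C, eval₂_C, sub_eq_zero]
    change y ^ 2 + aeval x (C a₁ * X + C a₃) * y = aeval x (X ^ 3)
    rw [map_add, map_mul, aeval_C, aeval_C, map_pow, aeval_X]
    exact h
  refine ⟨AdjoinRoot.liftAlgHom _ (aeval x) y h1, ?_, ?_⟩
  · have h2 : AdjoinRoot.liftAlgHom _ (aeval x) y h1 (wx a₁ a₃) = aeval x (X : S[X]) :=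
      AdjoinRoot.liftAlgHom_of _ (aeval x) y h1 X
    rw [h2, aeval_X]
  · exact AdjoinRoot.liftAlgHom_root _ (aeval x) y h1

end ring

variable {O M : Type} [CommRing O] [IsLocalRing O] [Field M] [Algebra O M]

/-- The change of variables. -/
private theorem w_eq {B : Type} [CommRing B] [Algebra M B] (R : R4 M) {c₁ c₃ : M}
    (e1 : c₁ = R.α * R.s) (e3 : c₃ * R.α = R.t) (X Y : B) :
    (algebraMap M B R.α ^ 3 * Y + algebraMap M B R.s * (algebraMap M B R.α ^ 2 * X) +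
      algebraMap M B R.t) ^ 2 - ((algebraMap M B R.α ^ 2 * X + algebraMap M B R.b) ^ 3 -
        (algebraMap M B R.α ^ 2 * X + algebraMap M B R.b)) =
    algebraMap M B R.α ^ 6 * (Y ^ 2 + (algebraMap M B c₁ * X + algebraMap M B c₃) * Y - X ^ 3) := by
  have f1 : algebraMap M B c₁ = algebraMap M B R.α * algebraMap M B R.s := by rw [e1, map_mul]
  have f3 : algebraMap M B c₃ * algebraMap M B R.α = algebraMap M B R.t := by rw [← e3, map_mul]
  have g1 : algebraMap M B R.s ^ 2 = 3 * algebraMap M B R.b := by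
    rw [← map_pow, R.hs, map_mul, map_ofNat]
  have g2 : 2 * (algebraMap M B R.s * algebraMap M B R.t) = 3 * algebraMap M B R.b ^ 2 - 1 := by
    have h := congrArg (algebraMap M B) R.hst
    rw [map_mul, map_ofNat, map_mul, map_sub, map_mul, map_ofNat, map_pow, map_one] at h
    exact h
  have g3 : algebraMap M B R.t ^ 2 = algebraMap M B R.b ^ 3 - algebraMap M B R.b := by
    rw [← map_pow, R.ht, map_sub, map_pow]
  have g4 : algebraMap M B R.α ^ 2 = 2 := by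
    rw [← map_pow, R.hα, map_ofNat]
  generalize algebraMap M B c₁ = d₁ at *
  generalize algebraMap M B c₃ = d₃ at *
  generalize algebraMap M B R.α = α at *
  generalize algebraMap M B R.s = s at *
  generalize algebraMap M B R.t = t at *
  generalize algebraMap M B R.b = b at *
  linear_combination (-(α ^ 6 * X * Y)) * f1 - α ^ 5 * s * X * Y * g4 - α ^ 3 * t * Y * g4 -
    α ^ 5 * Y * f3 + α ^ 4 * X ^ 2 * g1 + α ^ 2 * X * g2 + g3

omit [IsLocalRing O] in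
private theorem w_iso [CharZero M] {E : Crv M} (e : Cu E 2 (a4 M)) (R : R4 M) {a₁ a₃ : O}
    (e1 : algebraMap O M a₁ = R.α * R.s) (e3 : algebraMap O M a₃ * R.α = R.t)
    {W : Type} [CommRing W] [Algebra O W] {x₀ y₀ : W} (hg : Algebra.adjoin O {x₀, y₀} = ⊤)
    (he : y₀ ^ 2 + (algebraMap O W a₁ * x₀ + algebraMap O W a₃) * y₀ = x₀ ^ 3)
    (hl : ∀ (B : Type) [CommRing B] [Algebra O B] (x y : B),
      y ^ 2 + (algebraMap O B a₁ * x + algebraMap O B a₃) * y = x ^ 3 →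
        ∃ φ : W →ₐ[O] B, φ x₀ = x ∧ φ y₀ = y) :
    Nonempty (M ⊗[O] W ≃ₐ[M] E.A) := by
  let _ : Algebra O E.A := ((algebraMap M E.A).comp (algebraMap O M)).toAlgebra
  have : IsScalarTower O M E.A := IsScalarTower.of_algebraMap_eq fun _ => rfl
  have hα : R.α ≠ 0 := by
    intro h0
    have h1 := R.hα
    rw [h0] at h1
    norm_num at h1
  -- the map to `E.A`
  have hv : ∀ (B : Type) [CommRing B] [Algebra M B], algebraMap M B R.α * algebraMap M B R.α⁻¹ = 1 :=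
    fun B _ _ => by rw [← map_mul, mul_inv_cancel₀ hα, map_one]
  have eq : e.U ^ 2 = e.X ^ 3 - e.X := by
    have h : e.U ^ 2 = aeval e.X (X ^ 3 - X : M[X]) := e.eq
    rw [map_sub, map_pow, aeval_X] at h
    exact h
  obtain ⟨X, hX⟩ : ∃ X, X = algebraMap M E.A R.α⁻¹ ^ 2 * (e.X - algebraMap M E.A R.b) := ⟨_, rfl⟩
  obtain ⟨Y, hY⟩ : ∃ Y, Y = algebraMap M E.A R.α⁻¹ ^ 3 * (e.U - algebraMap M E.A R.s *
    (e.X - algebraMap M E.A R.b) - algebraMap M E.A R.t) := ⟨_, rfl⟩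
  have hx : algebraMap M E.A R.α ^ 2 * X + algebraMap M E.A R.b = e.X := by
    rw [hX, ← mul_assoc, ← mul_pow, hv, one_pow, one_mul, sub_add_cancel]
  have hx' : algebraMap M E.A R.α ^ 2 * X = e.X - algebraMap M E.A R.b := by
    rw [← hx, add_sub_cancel_right]
  have hu : algebraMap M E.A R.α ^ 3 * Y + algebraMap M E.A R.s * (algebraMap M E.A R.α ^ 2 * X) +
      algebraMap M E.A R.t = e.U := by
    rw [hx', hY, ← mul_assoc (algebraMap M E.A R.α ^ 3), ← mul_pow, hv, one_pow, one_mul]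
    ring
  have h0 := w_eq R e1 e3 X Y
  rw [hx, hu, eq, sub_self] at h0
  have h1 : Y ^ 2 + (algebraMap O E.A a₁ * X + algebraMap O E.A a₃) * Y = X ^ 3 := by
    have h2 := congrArg (fun z => algebraMap M E.A R.α⁻¹ ^ 6 * z) h0
    simp only [mul_zero] at h2
    rw [← mul_assoc, ← mul_pow, mul_comm (algebraMap M E.A R.α⁻¹), hv, one_pow, one_mul] at h2
    exact (sub_eq_zero.1 h2.symm)
  obtain ⟨f, fx, fy⟩ := hl E.A X Y h1
  let φ : M ⊗[O] W →ₐ[M] E.A :=
    Algebra.TensorProduct.lift (Algebra.ofId M E.A) f fun _ _ => Commute.all _ _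
  have φx : φ ((1 : M) ⊗ₜ[O] x₀) = X := by
    rw [Algebra.TensorProduct.lift_tmul, map_one, one_mul, fx]
  have φy : φ ((1 : M) ⊗ₜ[O] y₀) = Y := by
    rw [Algebra.TensorProduct.lift_tmul, map_one, one_mul, fy]
  -- the map from `E.A`
  obtain ⟨x, hx1⟩ : ∃ x : M ⊗[O] W, x = (1 : M) ⊗ₜ[O] x₀ := ⟨_, rfl⟩
  obtain ⟨y, hy1⟩ : ∃ y : M ⊗[O] W, y = (1 : M) ⊗ₜ[O] y₀ := ⟨_, rfl⟩
  have hxy : y ^ 2 + (algebraMap M (M ⊗[O] W) (algebraMap O M a₁) * x +
      algebraMap M (M ⊗[O] W) (algebraMap O M a₃)) * y = x ^ 3 := by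
    have h2 := congrArg (Algebra.TensorProduct.includeRight : W →ₐ[O] M ⊗[O] W) he
    rw [map_add, map_mul, map_add, map_mul, map_pow, map_pow, AlgHom.commutes, AlgHom.commutes,
      IsScalarTower.algebraMap_apply O M (M ⊗[O] W),
      IsScalarTower.algebraMap_apply O M (M ⊗[O] W)] at h2
    rw [hx1, hy1]
    exact h2
  have h3 := w_eq R e1 e3 x y
  rw [hxy, sub_self, mul_zero, sub_eq_zero] at h3
  obtain ⟨ψ, ψx, ψu⟩ := e.lift (M ⊗[O] W) (algebraMap M (M ⊗[O] W) R.α ^ 2 * x +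
    algebraMap M (M ⊗[O] W) R.b) (algebraMap M (M ⊗[O] W) R.α ^ 3 * y +
      algebraMap M (M ⊗[O] W) R.s * (algebraMap M (M ⊗[O] W) R.α ^ 2 * x) +
        algebraMap M (M ⊗[O] W) R.t) (by
    rw [h3]
    unfold a4
    rw [map_sub, map_pow, aeval_X])
  refine Se.iso_core φ ψ e.gen hg ?_ ?_ ?_ ?_
  · rw [ψx, map_add, map_mul, map_pow, AlgHom.commutes, AlgHom.commutes, hx1, φx, hx]
  · rw [ψu, map_add, map_add, map_mul, map_mul, map_mul, map_pow, map_pow, AlgHom.commutes,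
      AlgHom.commutes, AlgHom.commutes, hx1, hy1, φx, φy, hu]
  · rw [φx, hX, map_mul, map_pow, map_sub, AlgHom.commutes, AlgHom.commutes, ψx,
      add_sub_cancel_right, ← mul_assoc, ← mul_pow, mul_comm (algebraMap M _ R.α⁻¹), hv, one_pow,
      one_mul, hx1]
  · rw [φy, hY, map_mul, map_pow, map_sub, map_sub, map_mul, map_sub, AlgHom.commutes,
      AlgHom.commutes, AlgHom.commutes, AlgHom.commutes, ψx, ψu, add_sub_cancel_right,
      add_sub_right_comm, add_sub_cancel_right, add_sub_cancel_right,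
      ← mul_assoc, ← mul_pow, mul_comm (algebraMap M _ R.α⁻¹), hv, one_pow, one_mul, hy1]

/-- The model. Proof: as `Se.mod_of`: the basis `X ^ i Y ^ j`, `j < 2` (compare `Se.bs`), the monic table `Se.mt`, `we_smooth`,
`Se.iso_core`. -/
theorem we_mod [CharZero M] {E : Crv M} (e : Cu E 2 (a4 M)) (R : R4 M) {a₁ a₃ : O}
    (h1 : a₁ ∈ maximalIdeal O) (h3 : IsUnit a₃) (h2 : (2 : O) ∈ maximalIdeal O)
    (e1 : algebraMap O M a₁ = R.α * R.s) (e3 : algebraMap O M a₃ * R.α = R.t) :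
    Nonempty (Mod E O M) := by
  obtain ⟨i⟩ := w_iso e R e1 e3 (w_gen a₁ a₃) (by
    rw [← Algebra.smul_def]
    exact wxy a₁ a₃) fun B _ _ x y h => w_lift h
  exact modOf E O M (We a₁ a₃) (we_smooth h1 h3 h2) (w_tb a₁ a₃)
    (i.trans (Algebra.TensorProduct.lid M E.A).symm)

end DH
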