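import Pool.Agent.Lib.MP_f80667_ag.Dh.Val
import Pool.Agent.Lib.MP_f80667_ag.Cv.Tc
import Pool.Agent.Lib.MP_f80667_ag.Pe.Pv

/-!
The hypersurface as a functor: `Fct (Xd d a)`, Galois descent of points, points over a function field.
-/

open ZC BE PE CV IntermediateField

namespace DH

section fct

variable {F : Type} [Field F] {d n : ℕ} {a : Fin (n + 2) → F}

/-- Proof: by representatives (`rfl`); `gal`: the residues of the coordinates are moved by `γ`. -/
theorem fct : Fct (Xd d a) where
  id L _ _ x := by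
    induction x using Quotient.inductionOn with
    | h P => rfl
  comp L M N _ _ _ _ _ _ σ τ x := by
    induction x using Quotient.inductionOn with
    | h P => rfl
  gal K Ω _ _ _ _ _ _ M E _ _ _ _ _ γ w x y h := by
    obtain ⟨P, Q, rfl, rfl, h1⟩ := h
    refine ⟨P, Q.mp (γ.restrictScalars F : Ω →ₐ[F] Ω), rfl, rfl, fun i => ?_⟩
    obtain ⟨h2, h3⟩ := h1 i
    refine ⟨h2, ?_⟩
    rw [temb_res]
    exact congrArg γ h3

/-- The point over `Ω` of a point over `K`. -/
noncomputable def up (K Ω : Type) [Field K] [Field Ω] [Algebra K Ω] [Algebra F K] [Algebra F Ω]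
    [IsScalarTower F K Ω] (x : (Xd d a).pt K) : (Xd d a).pt Ω :=
  (Xd d a).map (IsScalarTower.toAlgHom F K Ω) x

end fct

end DH
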