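import Pool.Agent.Lib.MP_f80667_ag.Dh.Fun

/-! Galois descent of the points of the hypersurface. -/

open ZC BE PE CV IntermediateField

namespace DH

section desc

variable {F : Type} [Field F] {d n : ℕ} {a : Fin (n + 2) → F} {K Ω : Type} [Field K] [CharZero K]
  [Field Ω] [Algebra F K] [Algebra K Ω] [Algebra F Ω] [IsScalarTower F K Ω] [IsAlgClosure K Ω]

/-- Invariant points have coordinates in `K`. Proof: divide the coordinates by one of them which is not `0`; then they are
invariant (compare `exists_kdesc` in `Pe/Kt.lean`). -/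
theorem exists_desc {x : (Xd d a).pt Ω} (hx : ∀ σ : Ω ≃ₐ[K] Ω, (Xd d a).act σ x = x) :
    ∃ P : (Xd d a).pt K, x = up K Ω P := by
  induction x using Quotient.inductionOn with
  | h P =>
    obtain ⟨j, hj⟩ : ∃ j, P.x j ≠ 0 := by
      by_contra h
      push Not at h
      exact P.ne (funext h)
    have hr : ∀ i, ∃ r : K, algebraMap K Ω r = (P.x j)⁻¹ * P.x i := by
      intro i
      refine (InfiniteGalois.mem_range_algebraMap_iff_fixed (k := K) ((P.x j)⁻¹ * P.x i)).2
        fun γ => ?_
      have h1 : (P.mp ((γ.restrictScalars F : Ω ≃ₐ[F] Ω) : Ω →ₐ[F] Ω)).Rel P :=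
        Quotient.exact (hx γ)
      obtain ⟨c, hc, h2⟩ := h1
      have h3 : ∀ i, P.x i = c * γ (P.x i) := fun i => congrFun h2 i
      have hj' : γ (P.x j) ≠ 0 := (map_ne_zero γ).2 hj
      rw [map_mul, map_inv₀]
      conv_rhs => rw [h3 i, h3 j]
      rw [mul_inv]
      field_simp
    choose r hr using hr
    have hne : r ≠ 0 := by
      intro h
      have h1 := hr j
      rw [h, Pi.zero_apply, map_zero, inv_mul_cancel₀ hj] at h1
      exact zero_ne_one h1
    have heq : ∑ i, algebraMap F K (a i) * r i ^ d = 0 := by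
      apply (algebraMap K Ω).injective
      rw [map_sum, map_zero]
      have h1 : ∀ i, algebraMap K Ω (algebraMap F K (a i) * r i ^ d) =
          ((P.x j)⁻¹) ^ d * (algebraMap F Ω (a i) * P.x i ^ d) := by
        intro i
        rw [map_mul, map_pow, hr, mul_pow, ← IsScalarTower.algebraMap_apply F K Ω]
        ring
      rw [Finset.sum_congr rfl fun i _ => h1 i, ← Finset.mul_sum, P.eq, mul_zero]
    refine ⟨Quotient.mk _ (⟨r, hne, heq⟩ : Hc d a K), ?_⟩
    exact Quotient.sound ⟨(P.x j)⁻¹, inv_ne_zero hj, funext hr⟩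

/-- The stabiliser of a point is open. Proof: `kv_stab` in `Pe/Kt.lean`: the coordinates generate a finite extension. -/
theorem stab (x : (Xd d a).pt Ω) :
    letI := vact (fct (d := d) (a := a)) K Ω
    opn K Ω (MulAction.stabilizer (Ω ≃ₐ[K] Ω) x) := by
  letI := vact (fct (d := d) (a := a)) K Ω
  induction x using Quotient.inductionOn with
  | h P =>
    have halg : Algebra.IsAlgebraic K Ω := IsAlgClosure.isAlgebraic
    have hfin : Finite (Set.range P.x) := Set.Finite.to_subtype (Set.finite_range P.x)
    refine ⟨IntermediateField.adjoin K (Set.range P.x),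
      IntermediateField.finiteDimensional_adjoin fun z _ => (halg.isAlgebraic z).isIntegral,
      fun γ hγ => ?_⟩
    rw [IntermediateField.mem_fixingSubgroup_iff] at hγ
    have h : ∀ i, γ (P.x i) = P.x i := fun i =>
      hγ _ (IntermediateField.subset_adjoin K _ (Set.mem_range_self i))
    refine MulAction.mem_stabilizer_iff.2 (Quotient.sound ⟨1, one_ne_zero, funext fun i => ?_⟩)
    change P.x i = 1 * γ (P.x i)
    rw [h, one_mul]

end desc

end DH
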