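import Pool.Agent.Lib.MP_f80667_ag.Dh.FunD
import Pool.Agent.Lib.MP_f80667_ag.Fa.Inv

/-! Points of the hypersurface over function fields. -/

open ZC BE PE CV IntermediateField

namespace DH

section pv

variable {F : Type} [Field F] {d n : ℕ} {a : Fin (n + 2) → F} {K : Type} [Field K] [CharZero K]
  [Algebra F K] {Ω : Type} [Field Ω] [Algebra K Ω] [Algebra F Ω] [IsScalarTower F K Ω]
  [IsAlgClosure K Ω]

/-- An automorphism over `E` fixes the points over `E`. -/
private theorem funP_fix {E : Type} [Field E] [Algebra F E]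
    (σ : AlgebraicClosure E ≃ₐ[E] AlgebraicClosure E) (x : (Xd d a).pt E) :
    (Xd d a).map (σ.restrictScalars F : AlgebraicClosure E →ₐ[F] AlgebraicClosure E)
      ((Xd d a).map (IsScalarTower.toAlgHom F E (AlgebraicClosure E)) x) =
      (Xd d a).map (IsScalarTower.toAlgHom F E (AlgebraicClosure E)) x := by
  induction x using Quotient.inductionOn with
  | h P =>
    refine Quotient.sound ⟨1, one_ne_zero, funext fun i => ?_⟩
    change algebraMap E (AlgebraicClosure E) (P.x i) =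
      1 * σ (algebraMap E (AlgebraicClosure E) (P.x i))
    rw [σ.commutes, one_mul]

/-- The value does not change at a place above. -/
private theorem funP_up {E : Type} [Field E] [Algebra K E] [Algebra F E]
    {w : Place K E Ω} {W : Place K (AlgebraicClosure E) Ω} (hW : Above w W)
    {x : (Xd d a).pt E} {y : (Xd d a).pt Ω} (h : (Xd d a).red w x y) :
    (Xd d a).red W ((Xd d a).map (IsScalarTower.toAlgHom F E (AlgebraicClosure E)) x) y := by
  obtain ⟨P, Q, rfl, rfl, h1⟩ := h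
  refine ⟨P.mp (IsScalarTower.toAlgHom F E (AlgebraicClosure E)), Q, rfl, rfl, fun i => ?_⟩
  obtain ⟨h2, h3⟩ := h1 i
  exact ⟨(hW.1 _).2 h2, (hW.2 _ h2 _).trans h3⟩

/-- The value is moved by an automorphism. -/
private theorem funP_act {E : Type} [Field E] [Algebra K E] [Algebra F E]
    {w w' : Place K E Ω} {σ : Ω ≃ₐ[F] Ω} (hV : w'.V = w.V)
    (hr : ∀ (a : E) (h : a ∈ w.V) (h' : a ∈ w'.V), w'.res ⟨a, h'⟩ = σ (w.res ⟨a, h⟩))
    {x : (Xd d a).pt E} {y : (Xd d a).pt Ω} (h : (Xd d a).red w x y) :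
    (Xd d a).red w' x ((Xd d a).map (σ : Ω →ₐ[F] Ω) y) := by
  obtain ⟨P, Q, rfl, rfl, h1⟩ := h
  refine ⟨P, Q.mp (σ : Ω →ₐ[F] Ω), rfl, rfl, fun i => ?_⟩
  obtain ⟨h2, h3⟩ := h1 i
  have h2' : P.x i ∈ w'.V := by rw [hV]; exact h2
  exact ⟨h2', (hr _ h2 h2').trans (congrArg σ h3)⟩

/-- The divisor of a function on a curve, for a point over the function field. Proof: `pvK_ratEq` in `Pe/Kw.lean`, the
value does not change at a place of the algebraic closure above (`kred_up` in `Pe/Kt.lean`). -/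
theorem pv_ratEqX {z : (Xd d a).pt Ω →₀ ℤ} (h : Pv (Xd d a) K Ω z) : z ∈ (Xd d a).ratEq K Ω := by
  have hac : IsAlgClosed Ω := IsAlgClosure.isAlgClosed K
  obtain ⟨E, i1, i2, i3, i4, hE, G, ξ, hG, S, m, y, hS, hv, rfl⟩ := h
  refine AddSubgroup.subset_closure ⟨E, i1, i2, i3, i4, hE, G,
    (Xd d a).map (IsScalarTower.toAlgHom F E (AlgebraicClosure E)) ξ, hG, fun σ => funP_fix σ ξ,
    S, m, y, hS, fun w hw => ⟨(hv w hw).1, ?_⟩, rfl⟩
  obtain ⟨W', hW'⟩ := exists_above w
  exact ⟨W', hW'.1, hW'.2, funP_up hW' (hv w hw).2⟩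

/-- The cycles rationally equivalent to `0` are cycles over `K`. Proof: `kwCyc_le` in `Pe/KwA.lean`, `Pe/KwCyc.lean`. -/
theorem ratEq_cycX : (Xd d a).ratEq K Ω ≤ (Xd d a).cyc K Ω := by
  refine (AddSubgroup.closure_le _).2 ?_
  rintro z ⟨E, _, _, _, _, hE, G, x, hG, hx, S, m, y, h1, h2, rfl⟩
  have hc : CharZero E := charZero_of_injective_algebraMap (algebraMap K E).injective
  obtain ⟨ξ, rfl⟩ := exists_desc (a := a) (d := d) (K := E) (Ω := AlgebraicClosure E) hx
  have hval : ∀ w ∈ S, (Xd d a).red w ξ (y w) := by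
    intro w hw
    obtain ⟨W, hW1, hW2, hred⟩ := (h2 w hw).2
    obtain ⟨y', hy'⟩ := red_ex w ξ
    have h3 := funP_up (w := w) (W := W) ⟨hW1, hW2⟩ hy'
    have e : y w = y' := red_uniq W hred h3
    rw [e]
    exact hy'
  intro σ
  refine sum_inv σ ((Xd d a).act σ) S m y h1 (fun v hv => (h2 v hv).1) fun v hv hv' => ?_
  have h3 := funP_act (w := v) (w' := v.gal σ)
    (σ := (σ.restrictScalars F : Ω ≃ₐ[F] Ω)) rfl (fun a h h' => rfl) (hval v hv)
  exact red_uniq _ (hval _ hv') h3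

end pv

end DH
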