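import Pool.Agent.Lib.MP_f80667_ag.Dh.GenP
import Pool.Agent.Lib.MP_f80667_ag.Pe.Kn

/-! Up to a factor with prime factors dividing `d` every cycle on the hypersurface comes from the product of curves. -/

open ZC BE PE CV QS Polynomial IntermediateField

namespace DH

variable {F : Type} [Field F] {d n : ℕ} {a : Fin (n + 2) → F} {M : Type} [Field M] [CharZero M]
  [Algebra F M] (T : Rt d a M) {D : Crv M} (c : Cu D d (Af d T.ε)) {K : Type} [Field K] [CharZero K]
  [Algebra F K] [Algebra M K] [IsScalarTower F M K] {Ω : Type} [Field Ω] [Algebra K Ω]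
  [Algebra F Ω] [Algebra M Ω] [IsScalarTower F K Ω] [IsScalarTower M K Ω] [IsScalarTower F M Ω]
  [IsAlgClosure K Ω]

/-- Proof: `inv_gen` in `Pe/Kn.lean`: cycles are combinations of traces of points; `gen_pt`; for a sum take the product of the
numbers `R`. -/
theorem gen (hd : 2 ≤ d) (hd0 : 0 < d) (hn : 2 ≤ n) {z : (Xd d a).pt Ω →₀ ℤ}
    (hz : z ∈ (Xd d a).cyc K Ω) :
    ∃ R : ℕ, R ≠ 0 ∧ Pf d R ∧ ∃ b ∈ (Vn D n).cyc K Ω,
      (Vn D n).deg Ω b = R * (Xd d a).deg Ω z ∧
      R • z - Finsupp.mapDomain (phi T c hd0) b ∈ (Xd d a).ratEq K Ω := by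
  let _ := vact (fct (d := d) (a := a)) K Ω
  have hX : ∀ x : (Xd d a).pt Ω, (MulAction.stabilizer (Ω ≃ₐ[K] Ω) x).FiniteIndex :=
    fun x => opn_fin _ (stab x)
  have h2 := inv_gen (Γ := Ω ≃ₐ[K] Ω) hX hz
  have hmap : ∀ u v : (Vn D n).pt Ω →₀ ℤ, Finsupp.mapDomain (phi T c hd0) (u + v) =
      Finsupp.mapDomain (phi T c hd0) u + Finsupp.mapDomain (phi T c hd0) v :=
    fun u v => Finsupp.mapDomain_add
  have hsm : ∀ (k : ℕ) (u : (Vn D n).pt Ω →₀ ℤ), Finsupp.mapDomain (phi T c hd0) (k • u) =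
      k • Finsupp.mapDomain (phi T c hd0) u := fun k u =>
    map_nsmul (Finsupp.mapDomain.addMonoidHom (M := ℤ) (phi T c hd0)) k u
  have hng : ∀ u : (Vn D n).pt Ω →₀ ℤ, Finsupp.mapDomain (phi T c hd0) (-u) =
      -Finsupp.mapDomain (phi T c hd0) u := fun u =>
    map_neg (Finsupp.mapDomain.addMonoidHom (M := ℤ) (phi T c hd0)) u
  clear hz
  induction h2 using AddSubgroup.closure_induction with
  | mem z hz =>
    obtain ⟨x, rfl⟩ := hz
    obtain ⟨N, hN, hNe⟩ := exists_fix (stab (K := K) x)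
    have hx : ∀ γ : Ω ≃ₐ[K] Ω, γ ∈ N.fixingSubgroup ↔ (Xd d a).act γ x = x := by
      intro γ
      rw [hNe]
      exact MulAction.mem_stabilizer_iff
    have h3 := gen_pt T c hd hd0 hn N hx
    have h4 : vtr (fct (d := d) (a := a)) K N (Finsupp.single x 1) =
        trG ((Xd d a).pt Ω) (MulAction.stabilizer (Ω ≃ₐ[K] Ω) x) (Finsupp.single x 1) := by
      rw [← hNe]
      rfl
    rw [h4] at h3
    exact h3
  | zero =>
    refine ⟨1, one_ne_zero, Pf.one d, 0, zero_mem _, ?_, ?_⟩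
    · rw [map_zero, map_zero, mul_zero]
    · rw [smul_zero, Finsupp.mapDomain_zero, sub_zero]
      exact zero_mem _
  | add u v _ _ hu hv =>
    obtain ⟨R, hR, hRp, b, hb, hbd, hbr⟩ := hu
    obtain ⟨R', hR', hRp', b', hb', hbd', hbr'⟩ := hv
    refine ⟨R * R', mul_ne_zero hR hR', hRp.mul hRp', R' • b + R • b',
      add_mem (nsmul_mem hb _) (nsmul_mem hb' _), ?_, ?_⟩
    · rw [map_add, map_add, map_nsmul, map_nsmul, hbd, hbd', nsmul_eq_mul, nsmul_eq_mul]
      push_cast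
      ring
    · have h5 : (R * R') • (u + v) - Finsupp.mapDomain (phi T c hd0) (R' • b + R • b') =
          R' • (R • u - Finsupp.mapDomain (phi T c hd0) b) +
            R • (R' • v - Finsupp.mapDomain (phi T c hd0) b') := by
        rw [hmap, hsm, hsm, smul_add, smul_sub, smul_sub, smul_smul, smul_smul, mul_comm R' R]
        abel
      rw [h5]
      exact add_mem (nsmul_mem hbr _) (nsmul_mem hbr' _)
  | neg u _ hu =>
    obtain ⟨R, hR, hRp, b, hb, hbd, hbr⟩ := hu
    refine ⟨R, hR, hRp, -b, neg_mem hb, ?_, ?_⟩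
    · rw [map_neg, map_neg, hbd]
      ring
    · have h5 : R • -u - Finsupp.mapDomain (phi T c hd0) (-b) =
          -(R • u - Finsupp.mapDomain (phi T c hd0) b) := by
        rw [hng, smul_neg]
        abel
      rw [h5]
      exact neg_mem hbr

end DH
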