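import Pool.Agent.Lib.MP_f80667_ag.Dh.Pre
import Pool.Agent.Lib.MP_f80667_ag.Dh.FunD
import Pool.Agent.Lib.MP_f80667_ag.Dh.Root
import Pool.Agent.Lib.MP_f80667_ag.Cv.Lc

/-!
Points over a nondegenerate point.
-/

open ZC BE PE CV QS Polynomial IntermediateField

namespace DH

variable {F : Type} [Field F] {d n : ℕ} {a : Fin (n + 2) → F} {M : Type} [Field M] [CharZero M]
  [Algebra F M] (T : Rt d a M) {D : Crv M} (c : Cu D d (Af d T.ε))

variable {K : Type} [Field K] [CharZero K] [Algebra F K] [Algebra M K] [IsScalarTower F M K]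
  {Ω : Type} [Field Ω] [Algebra K Ω] [Algebra F Ω] [Algebra M Ω] [IsScalarTower F K Ω]
  [IsScalarTower M K Ω] [IsScalarTower F M Ω] [IsAlgClosure K Ω]

/-- **A preimage of controlled degree.** `x` is a point over the finite extension `N` of `K` (fixed by its Galois group), not
degenerate. Proof: `exists_desc` over `N`: `x` has coordinates in `N`; `exists_roots` for the `ps a x k / c`; `exists_pre` with
`L = N'`, and `phi_map` to go up to `Ω`. -/
theorem exists_over (hd : 0 < d) (hn : 2 ≤ n) (N : IntermediateField K Ω) [FiniteDimensional K N]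
    {x : (Xd d a).pt Ω} (hx : ∀ γ ∈ N.fixingSubgroup, (Xd d a).act γ x = x) (hx' : ¬ Dgn x) :
    ∃ (N' : IntermediateField K Ω) (e : (Vn D n).pt Ω), N ≤ N' ∧ FiniteDimensional K N' ∧
      (∀ γ ∈ N'.fixingSubgroup, (Vn D n).act γ e = e) ∧ phi T c hd e = x ∧
      ∃ k, Module.finrank K N' = Module.finrank K N * k ∧ Pf d k := by
  classical
  have hO : IsAlgClosed Ω := IsAlgClosure.isAlgClosed K
  have i1 : IsScalarTower F N Ω := IsScalarTower.of_algebraMap_eq fun _ => rfl
  have i2 : IsAlgClosure N Ω := ⟨hO, inferInstance⟩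
  obtain ⟨y, hy⟩ := exists_desc (K := N) (Ω := Ω) (x := x) fun σ =>
    hx (σ.restrictScalars K)
      ((IntermediateField.mem_fixingSubgroup_iff _ _).2 fun z hz => σ.commutes ⟨z, hz⟩)
  induction y using Quotient.inductionOn with
  | h P =>
    have hP : ¬ Dgv d a P.x := by
      intro h
      apply hx'
      rw [hy]
      exact (dgn_map (IsScalarTower.toAlgHom F N Ω) (Quotient.mk _ P)).2 ((dgn_mk P).2 h)
    have hcN : ∀ k, algebraMap N Ω (ps a d P.x k) / algebraMap M Ω T.c ∈ N := by
      intro k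
      refine N.div_mem (ps a d P.x k).2 ?_
      rw [IsScalarTower.algebraMap_apply M K Ω]
      exact N.algebraMap_mem _
    obtain ⟨N', r, hNN, hfin, hr, k, hk, hpf⟩ := exists_roots N (Finset.Ico 1 n) (fun _ => d)
      (fun _ _ => hd) (fun k => algebraMap N Ω (ps a d P.x k) / algebraMap M Ω T.c)
      (fun k _ => hcN k) (D := d) (fun _ _ => dvd_rfl)
    have i3 : IsScalarTower F M N' := IsScalarTower.of_algebraMap_eq fun z =>
      Subtype.ext (IsScalarTower.algebraMap_apply F M Ω z)
    have i4 : IsScalarTower F N' Ω := IsScalarTower.of_algebraMap_eq fun _ => rfl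
    have i5 : IsScalarTower M N' Ω := IsScalarTower.of_algebraMap_eq fun _ => rfl
    let ι : N →ₐ[F] N' := (IntermediateField.inclusion hNN).restrictScalars F
    have hι : ∀ z : N, ((ι z : N') : Ω) = z := fun _ => rfl
    have hP' : ¬ Dgv d a (P.mp ι).x := fun h => hP ((dgv_map ι).1 h)
    obtain ⟨e, he⟩ := exists_pre T c hd hn (P.mp ι) hP'
      (fun k => if h : k ∈ Finset.Ico 1 n then ⟨r k, (hr k h).1⟩ else 0) fun k h1 h2 => by
        have hkI : k ∈ Finset.Ico 1 n := Finset.mem_Ico.2 ⟨h1, h2⟩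
        rw [dif_pos hkI]
        apply (algebraMap N' Ω).injective
        have h3 : ps a d (P.mp ι).x k = ι (ps a d P.x k) := ps_map a ι P.x k
        rw [h3, map_mul, map_pow, ← IsScalarTower.algebraMap_apply M N' Ω]
        change algebraMap M Ω T.c * r k ^ d = ((ι (ps a d P.x k) : N') : Ω)
        rw [hι, (hr k hkI).2]
        exact mul_div_cancel₀ _ ((_root_.map_ne_zero _).2 T.hc)
    let τ : N' →ₐ[M] Ω := IsScalarTower.toAlgHom M N' Ω
    refine ⟨N', (Vn D n).map τ e, hNN, hfin, fun γ hγ => ?_, ?_, k, hk, hpf⟩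
    · have hF : Fct (Vn D n) := Fct.pi fun _ => D.fct
      refine (hF.comp N' Ω Ω τ (γ.restrictScalars M : Ω →ₐ[M] Ω) e).symm.trans ?_
      have h4 : ((γ.restrictScalars M : Ω ≃ₐ[M] Ω) : Ω →ₐ[M] Ω).comp τ = τ := by
        ext z
        exact (IntermediateField.mem_fixingSubgroup_iff N' γ).1 hγ _ z.2
      exact congrArg (fun g => (Vn D n).map g e) h4
    · rw [← phi_map T c hd τ e, he, hy]
      rfl

end DH
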