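import Pool.Agent.Lib.MP_f80667_ag.Dh.Phi

/-! Points with a base point as coordinate. -/

open ZC BE PE CV QS Polynomial

namespace DH

section phi

variable {F : Type} [Field F] {d n : ℕ} {a : Fin (n + 2) → F} {M : Type} [Field M] [Algebra F M]
  (T : Rt d a M) {D : Crv M} (c : Cu D d (Af d T.ε)) {L : Type} [Field L] [Algebra F L]
  [Algebra M L] [IsScalarTower F M L]

/-- If a point with a base point as coordinate: `z_j = 0` for some `j < n` (the `j`-th curve, `1 ≤ j`), or the last point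
is `(0 : 1 : 1)`. Proof: `Wc_zero`, `ps_gv`, `Xc_base` (then `gv` is a multiple of the coordinates of `B`, or `0`). -/
theorem phi_base (hd : 0 < d) (hn : 2 ≤ n) {P : (Vn D n).pt L}
    (h : (∃ j : Fin n, (j : ℕ) + 1 < n ∧ cz c (P j) = 0) ∨
      ∀ j : Fin n, (j : ℕ) + 1 = n → cx c (P j) = 0 ∧ cy c (P j) = cz c (P j)) :
    phi T c hd P = T.B L hd := by
  refine phi_B T c hd (Or.inr ?_)
  rcases h with ⟨j, hj, h0⟩ | h
  · refine ⟨(j : ℕ) + 1, by omega, hj, ?_⟩
    have hz : sz c P ((j : ℕ) + 1) = 0 := by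
      rw [sz, dif_pos ⟨by omega, by omega⟩]
      exact h0
    rw [ps_gv T c hd P hj.le, Wc_zero hz, zero_pow hd.ne', mul_zero]
  · obtain ⟨h1, h2⟩ := h ⟨n - 1, by omega⟩ (by
      change n - 1 + 1 = n
      omega)
    have hx : sx c P n = 0 := by
      rw [sx, dif_pos ⟨by omega, le_rfl⟩]
      exact h1
    have hyz : sy c P n = sz c P n := by
      rw [sy, sz, dif_pos ⟨by omega, le_rfl⟩, dif_pos ⟨by omega, le_rfl⟩]
      exact h2
    obtain ⟨h3, -⟩ := Xc_base (n := n) (by omega) hx hyz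
    refine ⟨1, le_rfl, by omega, ?_⟩
    unfold ps
    refine Finset.sum_eq_zero fun i _ => ?_
    split_ifs with hi
    · have h4 : gv T c P i = 0 := by
        rw [gv, fv, h3 i (by omega), mul_zero]
      rw [h4, zero_pow hd.ne', mul_zero]
    · rfl

end phi

end DH
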