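import Pool.Agent.Lib.MP_f80667_ag.Dh.Push
import Pool.Agent.Lib.MP_f80667_ag.Dh.PhiB
import Pool.Agent.Lib.MP_f80667_ag.Dh.Over
import Pool.Agent.Lib.MP_f80667_ag.Cv.Lc

/-!
Up to a factor with prime factors dividing `d` every cycle on the hypersurface comes from the product of curves.
-/

open ZC BE PE CV QS Polynomial IntermediateField

namespace DH

variable {F : Type} [Field F] {d n : ℕ} {a : Fin (n + 2) → F} {M : Type} [Field M] [CharZero M]
  [Algebra F M] (T : Rt d a M) {D : Crv M} (c : Cu D d (Af d T.ε)) {K : Type} [Field K] [CharZero K]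
  [Algebra F K] [Algebra M K] [IsScalarTower F M K] {Ω : Type} [Field Ω] [Algebra K Ω]
  [Algebra F Ω] [Algebra M Ω] [IsScalarTower F K Ω] [IsScalarTower M K Ω] [IsScalarTower F M Ω]
  [IsAlgClosure K Ω]

section aux

variable {F₁ : Type} [Field F₁] {V : Vr F₁} (hV : Fct V) {K₁ : Type} [Field K₁] [CharZero K₁]
  [Algebra F₁ K₁] {Ω₁ : Type} [Field Ω₁] [Algebra K₁ Ω₁] [Algebra F₁ Ω₁] [IsScalarTower F₁ K₁ Ω₁]
  [IsAlgClosure K₁ Ω₁]

private theorem GenP_deg (N : IntermediateField K₁ Ω₁) [FiniteDimensional K₁ N]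
    (z : V.pt Ω₁ →₀ ℤ) : V.deg Ω₁ (vtr hV K₁ N z) = Module.finrank K₁ N * V.deg Ω₁ z := by
  classical
  let iA := vact hV K₁ Ω₁
  have hH : N.fixingSubgroup.FiniteIndex := opn_fin _ (opn_fix N)
  let i0 : Fintype ((Ω₁ ≃ₐ[K₁] Ω₁) ⧸ N.fixingSubgroup) := Fintype.ofFinite _
  change V.deg Ω₁ (trG (V.pt Ω₁) N.fixingSubgroup z) = _
  rw [trG_apply hH, finsum_eq_sum_of_fintype, map_sum, Finset.sum_congr rfl fun q _ => Mo.deg _ _,
    Finset.sum_const, Finset.card_univ, ← Nat.card_eq_fintype_card,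
    IntermediateField.finrank_eq_fixingSubgroup_index Ω₁ N, nsmul_eq_mul]
  rfl

private theorem GenP_cyc (N : IntermediateField K₁ Ω₁) [FiniteDimensional K₁ N]
    {z : V.pt Ω₁ →₀ ℤ} (hz : ∀ γ ∈ N.fixingSubgroup, Finsupp.mapDomain (V.act γ) z = z) :
    vtr hV K₁ N z ∈ V.cyc K₁ Ω₁ := by
  let iA := vact hV K₁ Ω₁
  have hH : N.fixingSubgroup.FiniteIndex := opn_fin _ (opn_fix N)
  exact fun σ => smul_trG (X := V.pt Ω₁) hH hz σ

private theorem GenP_res {N N' : IntermediateField K₁ Ω₁} [FiniteDimensional K₁ N']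
    (h : N ≤ N') {z : V.pt Ω₁ →₀ ℤ}
    (hz : ∀ γ ∈ N.fixingSubgroup, Finsupp.mapDomain (V.act γ) z = z) :
    vtr hV K₁ N' z = N'.fixingSubgroup.relIndex N.fixingSubgroup • vtr hV K₁ N z := by
  let iA := vact hV K₁ Ω₁
  exact trG_res (X := V.pt Ω₁) (opn_fin _ (opn_fix N')) (fix_le h) hz

private theorem GenP_map {F₂ : Type} [Field F₂] {V' : Vr F₂} (hV' : Fct V') [Algebra F₂ K₁]
    [Algebra F₂ Ω₁] [IsScalarTower F₂ K₁ Ω₁] (f : V.pt Ω₁ → V'.pt Ω₁)
    (hf : ∀ (γ : Ω₁ ≃ₐ[K₁] Ω₁) x, f (V.act γ x) = V'.act γ (f x)) (N : IntermediateField K₁ Ω₁)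
    [FiniteDimensional K₁ N] (z : V.pt Ω₁ →₀ ℤ) :
    Finsupp.mapDomain f (vtr hV K₁ N z) = vtr hV' K₁ N (Finsupp.mapDomain f z) := by
  classical
  let iA := vact hV K₁ Ω₁
  let iB := vact hV' K₁ Ω₁
  have hH : N.fixingSubgroup.FiniteIndex := opn_fin _ (opn_fix N)
  let i0 : Fintype ((Ω₁ ≃ₐ[K₁] Ω₁) ⧸ N.fixingSubgroup) := Fintype.ofFinite _
  change Finsupp.mapDomain f (trG (V.pt Ω₁) N.fixingSubgroup z) =
    trG (V'.pt Ω₁) N.fixingSubgroup (Finsupp.mapDomain f z)
  rw [trG_apply hH, trG_apply hH, finsum_eq_sum_of_fintype, finsum_eq_sum_of_fintype,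
    Finsupp.mapDomain_finsetSum]
  refine Finset.sum_congr rfl fun q _ => ?_
  rw [← Finsupp.mapDomain_comp, ← Finsupp.mapDomain_comp]
  exact congrArg (fun g => Finsupp.mapDomain g z) (funext fun x => hf q.out x)

end aux

/-- The trace of one point. `N`: the field of definition of `x` (the fixed field of its stabilizer). Proof: if `x` is not
degenerate: `exists_over`; `b` = the trace of `e` from `N'` to `K`; its image is the trace of `x` from `N'` to `K`, which is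
`[N' : N]` times the trace of `x` from `N` to `K`. If `x` is degenerate: over `N` `[x] - [B] ∈ ratEq N Ω` (`exists_desc`,
`dgn_ratEq`), `tr_ratEqV`; `b = [N : K] [o]`, `o` the point with all coordinates `∞` (`phi_base`), `R = 1`. -/
theorem gen_pt (hd : 2 ≤ d) (hd0 : 0 < d) (hn : 2 ≤ n) (N : IntermediateField K Ω)
    [FiniteDimensional K N] {x : (Xd d a).pt Ω}
    (hx : ∀ γ : Ω ≃ₐ[K] Ω, γ ∈ N.fixingSubgroup ↔ (Xd d a).act γ x = x) :
    ∃ R : ℕ, R ≠ 0 ∧ Pf d R ∧ ∃ b ∈ (Vn D n).cyc K Ω,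
      (Vn D n).deg Ω b = R * (Xd d a).deg Ω (vtr fct K N (Finsupp.single x 1)) ∧
      R • vtr fct K N (Finsupp.single x 1) - Finsupp.mapDomain (phi T c hd0) b ∈
        (Xd d a).ratEq K Ω := by
  have hW : Fct (Vn D n) := Fct.pi fun _ => D.fct
  have hφ : ∀ (γ : Ω ≃ₐ[K] Ω) (P : (Vn D n).pt Ω),
      phi T c hd0 ((Vn D n).act γ P) = (Xd d a).act γ (phi T c hd0 P) := fun γ P =>
    (phi_map T c hd0 (γ.restrictScalars M : Ω →ₐ[M] Ω) P).symm
  have hxN : ∀ γ ∈ N.fixingSubgroup, Finsupp.mapDomain ((Xd d a).act γ)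
      (Finsupp.single x (1 : ℤ)) = Finsupp.single x 1 := fun γ hγ => by
    rw [Finsupp.mapDomain_single, (hx γ).1 hγ]
  by_cases hD : Dgn x
  · have i1 : IsAlgClosure N Ω := ⟨IsAlgClosure.isAlgClosed K, inferInstance⟩
    have i2 : IsScalarTower F N Ω := IsScalarTower.of_algebraMap_eq fun _ => rfl
    have i3 : IsScalarTower F M N := IsScalarTower.of_algebraMap_eq fun b =>
      Subtype.ext (IsScalarTower.algebraMap_apply F M Ω b)
    have i4 : IsScalarTower M N Ω := IsScalarTower.of_algebraMap_eq fun _ => rfl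
    obtain ⟨P, hP⟩ : ∃ P : (Xd d a).pt N, x = up N Ω P := by
      refine exists_desc fun σ => ?_
      exact (hx (σ.restrictScalars K)).1 (sia_mem_fix N σ)
    have hDP : Dgn P := by
      rw [hP] at hD
      exact (dgn_map _ P).1 hD
    have h5 : Finsupp.single x 1 - Finsupp.single (T.B Ω hd0) 1 ∈ (Xd d a).ratEq N Ω := by
      rw [hP]
      exact dgn_ratEq T hd0 hn hDP
    have h6 := tr_ratEqV fct N h5
    have hB : (Finsupp.single (T.B Ω hd0) 1 : (Xd d a).pt Ω →₀ ℤ) ∈ (Xd d a).cyc K Ω := by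
      intro σ
      rw [Finsupp.mapDomain_single]
      have h7 : (Xd d a).act σ (T.B Ω hd0) = T.B Ω hd0 :=
        T.map_B hd0 (σ.restrictScalars F : Ω →ₐ[F] Ω) fun y => by
          change σ (algebraMap M Ω y) = algebraMap M Ω y
          rw [IsScalarTower.algebraMap_apply M K Ω, σ.commutes]
      rw [h7]
    rw [map_sub, vtr_res fct N hB] at h6
    obtain ⟨o, ho, hoa⟩ : ∃ o : (Vn D n).pt Ω, phi T c hd0 o = T.B Ω hd0 ∧
        ∀ σ : Ω ≃ₐ[K] Ω, (Vn D n).act σ o = o :=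
      ⟨fun _ => none, phi_base T c hd0 hn (Or.inl ⟨⟨0, by omega⟩, by simp only []; omega, rfl⟩),
        fun σ => rfl⟩
    refine ⟨1, one_ne_zero, Pf.one d, Module.finrank K N • Finsupp.single o 1, ?_, ?_, ?_⟩
    · refine AddSubgroup.nsmul_mem _ ?_ _
      intro σ
      rw [Finsupp.mapDomain_single, hoa]
    · rw [map_nsmul, GenP_deg, nsmul_eq_mul, Nat.cast_one, one_mul]
      simp [Vr.deg]
    · have h7 : Finsupp.mapDomain (phi T c hd0) (Module.finrank K N •
          Finsupp.single o (1 : ℤ)) = Module.finrank K N • Finsupp.single (T.B Ω hd0) 1 := by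
        have h8 := map_nsmul (Finsupp.mapDomain.addMonoidHom (M := ℤ) (phi T c hd0))
          (Module.finrank K N) (Finsupp.single o (1 : ℤ))
        refine h8.trans ?_
        rw [Finsupp.mapDomain.addMonoidHom_apply, Finsupp.mapDomain_single, ho]
      rw [one_smul, h7]
      exact h6
  · obtain ⟨N', e, hle, hfd, he, hex, k, hk, hPk⟩ := exists_over T c hd0 hn N
      (fun γ hγ => (hx γ).1 hγ) hD
    have heN : ∀ γ ∈ N'.fixingSubgroup, Finsupp.mapDomain ((Vn D n).act γ)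
        (Finsupp.single e (1 : ℤ)) = Finsupp.single e 1 := fun γ hγ => by
      rw [Finsupp.mapDomain_single, he γ hγ]
    have hrel := relIndex_fix (M := N) (N := N') hle
    have hpos : 0 < Module.finrank K N := Module.finrank_pos
    have hrk : N'.fixingSubgroup.relIndex N.fixingSubgroup = k := by
      rw [hk, mul_comm] at hrel
      exact Nat.eq_of_mul_eq_mul_left hpos hrel
    refine ⟨k, ?_, hPk, vtr hW K N' (Finsupp.single e 1), GenP_cyc hW N' heN, ?_, ?_⟩
    · rintro rfl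
      rw [mul_zero] at hk
      exact (Module.finrank_pos (R := K) (M := N')).ne' hk
    · rw [GenP_deg, GenP_deg, hk]
      simp [Vr.deg]
      ring
    · rw [GenP_map hW fct (phi T c hd0) hφ, Finsupp.mapDomain_single, hex,
        GenP_res fct hle hxN, hrk, sub_self]
      exact zero_mem _

end DH
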