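import Pool.Agent.Lib.MP_f80667_ag.Cv.RamA

/-! The values of the elements of `U(ϖ)`, `U` unramified, `ϖ ^ d = π`. -/

open ZC BE PE CV Polynomial IntermediateField

namespace DH

variable {K Ω : Type} [Field K] [CharZero K] [Field Ω] [Algebra K Ω] [IsAlgClosure K Ω]
  {L : Ld K Ω}

/-- The values of an unramified extension. Proof: `exists_frob`, `frob_q`, `ur_val` (compare `ur_unr`). -/
theorem val_ur {N : ℕ} (hN : N ≠ 0) {x : Ω} (hx : x ∈ L.Ur ⊥ N) :
    ∃ y : K, L.nm x = L.nm (algebraMap K Ω y) := by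
  obtain ⟨φ, q, hφ⟩ := exists_frob L.toLf (⊥ : IntermediateField K Ω)
  obtain ⟨f, hf, hq, -⟩ := Ld.frob_q hφ
  rw [hq] at hφ
  have hx' : x ∈ L.Ur ⊥ (f * N) := Ld.ur_dvd ⊥ (dvd_mul_left N f) hx
  obtain ⟨y, hy, hyx⟩ := Ld.ur_val hφ hf hN hx'
  obtain ⟨k, rfl⟩ := IntermediateField.mem_bot.1 hy
  exact ⟨k, hyx.symm⟩

omit [CharZero K] [IsAlgClosure K Ω] in
/-- The value of a sum of terms with distinct values. Proof: induction on the finite set. -/
theorem nm_sum {ι : Type} (s : Finset ι) (f : ι → Ω)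
    (h : ∀ i ∈ s, ∀ j ∈ s, i ≠ j → f i ≠ 0 → f j ≠ 0 → L.nm (f i) ≠ L.nm (f j)) :
    ∑ i ∈ s, f i = 0 ∨ ∃ i ∈ s, f i ≠ 0 ∧ L.nm (∑ i ∈ s, f i) = L.nm (f i) := by
  classical
  induction s using Finset.induction_on with
  | empty => exact Or.inl Finset.sum_empty
  | insert a s ha ih =>
    rw [Finset.sum_insert ha]
    have ih' := ih fun i hi j hj => h i (Finset.mem_insert_of_mem hi) j
      (Finset.mem_insert_of_mem hj)
    by_cases h0 : f a = 0
    · rw [h0, zero_add]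
      rcases ih' with h1 | ⟨i, hi, h1, h2⟩
      · exact Or.inl h1
      · exact Or.inr ⟨i, Finset.mem_insert_of_mem hi, h1, h2⟩
    · right
      rcases ih' with h1 | ⟨i, hi, h1, h2⟩
      · exact ⟨a, Finset.mem_insert_self a s, h0, by rw [h1, add_zero]⟩
      · have hne : i ≠ a := by
          rintro rfl
          exact ha hi
        have h3 := h i (Finset.mem_insert_of_mem hi) a (Finset.mem_insert_self a s) hne h1 h0
        rw [← h2] at h3
        rcases lt_or_gt_of_ne h3 with h4 | h4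
        · exact ⟨a, Finset.mem_insert_self a s, h0, L.add_eq' h4⟩
        · exact ⟨i, Finset.mem_insert_of_mem hi, h1, (L.add_eq h4).trans h2⟩

omit [CharZero K] [IsAlgClosure K Ω] in
/-- The elements of `U(ϖ)` are the sums `∑ (i < d) c_i ϖ ^ i`, `c_i ∈ U`. Proof: `ϖ` is integral over `U`
(`IntermediateField.adjoin`, `Algebra.adjoin`, `ϖ ^ d ∈ U`). -/
theorem mem_adj {U : IntermediateField K Ω} {d : ℕ} (hd : 0 < d) {w : Ω} (hw : w ^ d ∈ U) {x : Ω}
    (hx : x ∈ U ⊔ adjoin K {w}) : ∃ c : ℕ → Ω, (∀ i, c i ∈ U) ∧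
      x = ∑ i ∈ Finset.range d, c i * w ^ i := by
  let q : U[X] := X ^ d - C (⟨w ^ d, hw⟩ : U)
  have hq : q.Monic := monic_X_pow_sub_C _ hd.ne'
  have hq0 : aeval w q = 0 := by
    rw [map_sub, map_pow, aeval_X, aeval_C]
    exact sub_self _
  have hint : IsIntegral U w := ⟨q, hq, hq0⟩
  have h1 : U ⊔ adjoin K {w} ≤ (adjoin U {w}).restrictScalars K := by
    refine sup_le (fun u hu => ?_) ?_
    · exact (adjoin U {w}).algebraMap_mem ⟨u, hu⟩
    · rw [adjoin_le_iff, Set.singleton_subset_iff]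
      exact mem_adjoin_simple_self U w
  have h2 : x ∈ (adjoin U {w}).toSubalgebra := h1 hx
  rw [adjoin_simple_toSubalgebra_of_isAlgebraic hint.isAlgebraic, Algebra.adjoin_singleton_eq_range_aeval] at h2
  obtain ⟨p, hp⟩ := h2
  have hp' : aeval w p = x := hp
  have h3 : (p %ₘ q).natDegree < d := by
    have hqd : q.natDegree = d := natDegree_X_pow_sub_C
    have hq1 : q ≠ 1 := by
      intro h
      rw [h, natDegree_one] at hqd
      omega
    have h4 := natDegree_modByMonic_lt p hq hq1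
    rwa [hqd] at h4
  refine ⟨fun i => ((p %ₘ q).coeff i : U), fun i => ((p %ₘ q).coeff i).2, ?_⟩
  rw [← hp', ← aeval_modByMonic_eq_self_of_root hq0, aeval_eq_sum_range' h3]
  exact Finset.sum_congr rfl fun i _ => Algebra.smul_def _ _

/-- **Values.** Proof: `mem_adj`, `val_ur`, `nm_sum`: for `c_i ≠ 0`, `nm (c_i ϖ ^ i) ^ d = nm π ^ (d k_i + i)`, so the values are
distinct; the `d`-th power of the value of `x` is `nm c_i ^ d * nm π ^ i`. -/
theorem val_adj {N : ℕ} (hN : N ≠ 0) {d : ℕ} (hd : 0 < d) {π : K}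
    (h0 : 0 < L.nm (algebraMap K Ω π)) (h1 : L.nm (algebraMap K Ω π) < 1)
    (hπ : ∀ x : K, x ≠ 0 → ∃ n : ℤ, L.nm (algebraMap K Ω x) = L.nm (algebraMap K Ω π) ^ n) {w : Ω}
    (hw : w ^ d = algebraMap K Ω π) {x : Ω} (hx : x ∈ L.Ur ⊥ N ⊔ adjoin K {w}) :
    ∃ y : K, L.nm x ^ d = L.nm (algebraMap K Ω y) := by
  obtain ⟨c, hc, rfl⟩ := mem_adj hd (by rw [hw]; exact (L.Ur ⊥ N).algebraMap_mem π) hx
  have hval : ∀ i, c i * w ^ i ≠ 0 → ∃ (y : K) (n : ℤ),
      L.nm (c i * w ^ i) ^ d = L.nm (algebraMap K Ω (y ^ d * π ^ i)) ∧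
      L.nm (c i * w ^ i) ^ d = L.nm (algebraMap K Ω π) ^ (n * d + i) := by
    intro i hi
    have hci : c i ≠ 0 := left_ne_zero_of_mul hi
    obtain ⟨y, hy⟩ := val_ur hN (hc i)
    have hy0 : y ≠ 0 := by
      rintro rfl
      rw [map_zero, L.zero] at hy
      exact (L.pos hci).ne' hy
    obtain ⟨n, hn⟩ := hπ y hy0
    have e1 : L.nm (c i * w ^ i) ^ d = L.nm (algebraMap K Ω (y ^ d * π ^ i)) := by
      rw [L.mul, mul_pow, hy, ← L.pow, ← L.pow, ← pow_mul, mul_comm i d, pow_mul, hw, ← L.mul,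
        ← map_pow, ← map_pow, ← map_mul]
    refine ⟨y, n, e1, ?_⟩
    rw [e1, map_mul, map_pow, map_pow, L.mul, L.pow, L.pow, hn, zpow_add₀ h0.ne', zpow_mul,
      zpow_natCast, zpow_natCast]
  rcases nm_sum (L := L) (Finset.range d) (fun i => c i * w ^ i) (by
    intro i hi j hj hij hi0 hj0 he
    rw [Finset.mem_range] at hi hj
    obtain ⟨-, n, -, e2⟩ := hval i hi0
    obtain ⟨-, n', -, e4⟩ := hval j hj0
    rw [he, e4] at e2
    have e5 := zpow_right_injective₀ h0 h1.ne e2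
    have e6 : (n' - n) * (d : ℤ) = i - j := by linear_combination e5
    have e7 : (d : ℤ) ∣ i - j := ⟨n' - n, by rw [← e6, mul_comm]⟩
    have e8 := Int.eq_zero_of_abs_lt_dvd e7 (by rw [abs_lt]; constructor <;> omega)
    exact hij (by omega)) with h2 | ⟨i, hi, h2, h3⟩
  · refine ⟨0, ?_⟩
    rw [h2, map_zero, L.zero, zero_pow hd.ne']
  · obtain ⟨y, n, e1, -⟩ := hval i h2
    exact ⟨_, by rw [h3, e1]⟩

end DH
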