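import Pool.Agent.Lib.MP_f80667_ag.Dh.Ra
import Pool.Agent.Lib.MP_f80667_ag.Dh.Rv
import Pool.Agent.Lib.MP_f80667_ag.Dh.RtE

/-! The extension with the roots: values. -/

open ZC BE PE CV Polynomial IntermediateField

namespace DH

variable {F : Type} [Field F] {d n : ℕ} {a : Fin (n + 2) → F} {K : Type} [Field K] [CharZero K]
  [Algebra F K] {Ω : Type} [Field Ω] [Algebra K Ω] [Algebra F Ω] [IsScalarTower F K Ω]
  [IsAlgClosure K Ω] {L : Ld K Ω}

/-- Finitely many roots are in one extension `L.Ur ⊥ N ⊔ K(ϖ)`. Proof: `r ^ d = S`, `nm S = nm π ^ k`: `r / ϖ ^ k` is the root of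
a unit of `K`: `root_ur`; take the product of the numbers `N` (`Ld.ur_dvd`). -/
theorem exists_ur (hd : 0 < d) (hp : ¬ L.p ∣ d) {π : K} (h0 : 0 < L.nm (algebraMap K Ω π))
    (hπ : ∀ x : K, x ≠ 0 → ∃ n : ℤ, L.nm (algebraMap K Ω x) = L.nm (algebraMap K Ω π) ^ n) {w : Ω}
    (hw : w ^ d = algebraMap K Ω π) {ι : Type} (I : Finset ι) (r : ι → Ω) (S : ι → K)
    (hr : ∀ i ∈ I, r i ^ d = algebraMap K Ω (S i)) (hS : ∀ i ∈ I, S i ≠ 0) :
    ∃ N : ℕ, N ≠ 0 ∧ ∀ i ∈ I, r i ∈ L.Ur ⊥ N ⊔ adjoin K {w} := by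
  classical
  have hK : ∀ i ∈ I, ∃ N : ℕ, N ≠ 0 ∧ r i ∈ L.Ur ⊥ N ⊔ adjoin K {w} := by
    intro i hi
    obtain ⟨k, hk⟩ := hπ (S i) (hS i hi)
    have hw0 : w ≠ 0 := by
      rintro rfl
      rw [zero_pow hd.ne'] at hw
      rw [← hw, L.zero] at h0
      exact lt_irrefl _ h0
    have hwk : (w ^ k) ^ d = algebraMap K Ω (π ^ k) := by
      rw [map_zpow₀, ← hw, ← zpow_natCast, ← zpow_natCast, ← zpow_mul, ← zpow_mul, mul_comm]
    have h1 : (r i / w ^ k) ^ d = algebraMap K Ω (S i / π ^ k) := by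
      rw [div_pow, hr i hi, map_div₀, hwk]
    have h2 : L.nm (r i / w ^ k) = 1 := by
      have h3 : L.nm (r i / w ^ k) ^ d = 1 := by
        rw [← L.pow, h1, map_div₀, L.div, hk, map_zpow₀, L.zpow, div_self (zpow_ne_zero k h0.ne')]
      exact (pow_eq_one_iff_of_nonneg (L.nonneg _) hd.ne').1 h3
    obtain ⟨N, hN, hmem⟩ := root_ur hp h1 h2
    refine ⟨N, hN, ?_⟩
    have h4 : r i = r i / w ^ k * w ^ k := (div_mul_cancel₀ _ (zpow_ne_zero k hw0)).symm
    rw [h4]
    have h5 : w ∈ L.Ur ⊥ N ⊔ adjoin K {w} :=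
      (le_sup_right : adjoin K {w} ≤ L.Ur ⊥ N ⊔ adjoin K {w}) (mem_adjoin_simple_self K w)
    exact mul_mem ((le_sup_left : L.Ur ⊥ N ≤ L.Ur ⊥ N ⊔ adjoin K {w}) hmem) (zpow_mem h5 k)
  choose! N hN using hK
  refine ⟨∏ i ∈ I, N i, Finset.prod_ne_zero_iff.2 fun i hi => (hN i hi).1, fun i hi => ?_⟩
  exact sup_le_sup_right (Ld.ur_dvd ⊥ (Finset.dvd_prod_of_mem N hi)) _ (hN i hi).2

/-- Finitely many roots of elements whose values are `d`-th powers are in an unramified extension. -/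
theorem exists_ur' (hp : ¬ L.p ∣ d) {ι : Type} (I : Finset ι) (r : ι → Ω) (S : ι → K)
    (hr : ∀ i ∈ I, r i ^ d = algebraMap K Ω (S i)) (hS : ∀ i ∈ I, S i ≠ 0)
    (hb : ∀ i ∈ I, ∃ b : K, L.nm (algebraMap K Ω (S i)) = L.nm (algebraMap K Ω b) ^ d) :
    ∃ N : ℕ, N ≠ 0 ∧ ∀ i ∈ I, r i ∈ L.Ur ⊥ N := by
  classical
  have hd : d ≠ 0 := by
    rintro rfl
    exact hp (dvd_zero _)
  have hK : ∀ i ∈ I, ∃ N : ℕ, N ≠ 0 ∧ r i ∈ L.Ur ⊥ N := by
    intro i hi
    obtain ⟨b, hb'⟩ := hb i hi
    have hS0 : 0 < L.nm (algebraMap K Ω (S i)) := L.pos ((_root_.map_ne_zero _).2 (hS i hi))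
    have hb0 : algebraMap K Ω b ≠ 0 := by
      intro h
      rw [hb', h, L.zero, zero_pow hd] at hS0
      exact lt_irrefl _ hS0
    have h1 : (r i / algebraMap K Ω b) ^ d = algebraMap K Ω (S i / b ^ d) := by
      rw [div_pow, hr i hi, map_div₀, map_pow]
    have h2 : L.nm (r i / algebraMap K Ω b) = 1 := by
      have h3 : L.nm (r i / algebraMap K Ω b) ^ d = 1 := by
        rw [← L.pow, h1, map_div₀, L.div, hb', map_pow, L.pow,
          div_self (pow_ne_zero d (L.pos hb0).ne')]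
      exact (pow_eq_one_iff_of_nonneg (L.nonneg _) hd).1 h3
    obtain ⟨N, hN, hmem⟩ := root_ur hp h1 h2
    refine ⟨N, hN, ?_⟩
    have h4 : r i = r i / algebraMap K Ω b * algebraMap K Ω b := (div_mul_cancel₀ _ hb0).symm
    rw [h4]
    exact mul_mem hmem (IntermediateField.algebraMap_mem _ b)
  choose! N hN using hK
  refine ⟨∏ i ∈ I, N i, Finset.prod_ne_zero_iff.2 fun i hi => (hN i hi).1, fun i hi => ?_⟩
  exact Ld.ur_dvd ⊥ (Finset.dvd_prod_of_mem N hi) (hN i hi).2

/-- The elements of `K` whose roots are needed. -/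
private noncomputable def rwS (a : Fin (n + 2) → F) (K : Type) [Field K] [Algebra F K] :
    Option (Fin (n + 2)) → K
  | none => -1
  | some i => if i = Fin.last (n + 1) then -(algebraMap F K (a 0)) / algebraMap F K (a i) else
      algebraMap F K (a 0) / algebraMap F K (a i)

omit [CharZero K] [IsAlgClosure K Ω] in
/-- The roots give `Rt`. -/
private theorem rw_rt (ha : ∀ i, a i ≠ 0) (N' : IntermediateField K Ω)
    (r : Option (Fin (n + 2)) → Ω) (hr : ∀ o, r o ∈ N')
    (hr' : ∀ o, r o ^ d = algebraMap K Ω (rwS a K o)) : Nonempty (Rt d a N') := by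
  have hane : ∀ i, algebraMap F Ω (a i) ≠ 0 := fun i => by
    rw [Ne, map_eq_zero]
    exact ha i
  have hFK : ∀ x : F, algebraMap K Ω (algebraMap F K x) = algebraMap F Ω x := fun x =>
    (IsScalarTower.algebraMap_apply F K Ω x).symm
  refine ⟨
    { c := algebraMap F N' (a 0)
      hc := by
        rw [Ne, map_eq_zero]
        exact ha 0
      ε := ⟨r none, hr none⟩
      hε := by
        apply Subtype.ext
        have h1 := hr' none
        have h2 : algebraMap K Ω (rwS a K none) = -1 := by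
          change algebraMap K Ω (-1) = -1
          rw [map_neg, map_one]
        rw [h2] at h1
        simpa using h1
      α := fun i => ⟨r (some i), hr (some i)⟩
      hα := ?_
      hl := ?_ }⟩
  · intro i
    apply Subtype.ext
    have h1 := hr' (some i.castSucc)
    have h2 : i.castSucc ≠ Fin.last (n + 1) := (Fin.castSucc_lt_last i).ne
    have h3 : rwS a K (some i.castSucc) =
        algebraMap F K (a 0) / algebraMap F K (a i.castSucc) := if_neg h2
    rw [h3, map_div₀, hFK, hFK] at h1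
    have h4 : algebraMap F Ω (a i.castSucc) * r (some i.castSucc) ^ d = algebraMap F Ω (a 0) := by
      rw [h1, mul_div_cancel₀ _ (hane _)]
    exact h4
  · apply Subtype.ext
    have h1 := hr' (some (Fin.last (n + 1)))
    have h3 : rwS a K (some (Fin.last (n + 1))) =
        -(algebraMap F K (a 0)) / algebraMap F K (a (Fin.last (n + 1))) := if_pos rfl
    rw [h3, map_div₀, map_neg, hFK, hFK] at h1
    have h4 : algebraMap F Ω (a (Fin.last (n + 1))) * r (some (Fin.last (n + 1))) ^ d =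
        -(algebraMap F Ω (a 0)) := by
      rw [h1, mul_div_cancel₀ _ (hane _)]
    exact h4

/-- **The extension with the roots.** Proof: `exists_roots` as in `exists_rt` gives the roots `r` of `- 1`, `a 0 / a i`,
`- a 0 / a_(n+1)` in an extension whose degree has only prime factors dividing `d`; `N' = K(r)` is contained in it, so its
degree divides; `exists_ur`, `val_adj`; in the second case `exists_ur'`, `val_ur`. -/
theorem exists_rtv (hd : 0 < d) (hp : ¬ L.p ∣ d) (ha : ∀ i, a i ≠ 0) :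
    ∃ N' : IntermediateField K Ω, FiniteDimensional K N' ∧ Nonempty (Rt d a N') ∧
      Pf d (Module.finrank K N') ∧ (∀ x ∈ N', ∃ y : K, L.nm x ^ d = L.nm (algebraMap K Ω y)) ∧
      ((∀ i, ∃ b : K, L.nm (algebraMap F Ω (a i)) =
        L.nm (algebraMap F Ω (a 0)) * L.nm (algebraMap K Ω b) ^ d) →
        ∀ x ∈ N', ∃ y : K, L.nm x = L.nm (algebraMap K Ω y)) := by
  classical
  have : IsAlgClosed Ω := IsAlgClosure.isAlgClosed K
  have hFK : ∀ x : F, algebraMap K Ω (algebraMap F K x) = algebraMap F Ω x := fun x =>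
    (IsScalarTower.algebraMap_apply F K Ω x).symm
  have haK : ∀ i, algebraMap F K (a i) ≠ 0 := fun i => (_root_.map_ne_zero _).2 (ha i)
  have hS0 : ∀ o, rwS a K o ≠ 0 := by
    intro o
    rcases o with _ | i
    · exact neg_ne_zero.2 one_ne_zero
    · change (if i = Fin.last (n + 1) then -(algebraMap F K (a 0)) / algebraMap F K (a i) else
        algebraMap F K (a 0) / algebraMap F K (a i)) ≠ 0
      split_ifs
      · exact div_ne_zero (neg_ne_zero.2 (haK 0)) (haK i)
      · exact div_ne_zero (haK 0) (haK i)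
  obtain ⟨N₁, r, -, hfin, hr, k, hk, hpf⟩ := exists_roots (⊥ : IntermediateField K Ω)
    (Finset.univ : Finset (Option (Fin (n + 2)))) (fun _ => d) (fun _ _ => hd)
    (fun o => algebraMap K Ω (rwS a K o)) (fun o _ => IntermediateField.algebraMap_mem _ _)
    (D := d) (fun _ _ => dvd_rfl)
  have hr1 : ∀ o, r o ∈ N₁ := fun o => (hr o (Finset.mem_univ o)).1
  have hr2 : ∀ o, r o ^ d = algebraMap K Ω (rwS a K o) := fun o => (hr o (Finset.mem_univ o)).2
  have hle : adjoin K (Set.range r) ≤ N₁ := by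
    rw [adjoin_le_iff]
    rintro _ ⟨o, rfl⟩
    exact hr1 o
  have hmem : ∀ o, r o ∈ adjoin K (Set.range r) := fun o => subset_adjoin K _ ⟨o, rfl⟩
  rw [IntermediateField.finrank_bot, one_mul] at hk
  refine ⟨adjoin K (Set.range r), FiniteDimensional.of_injective
    (IntermediateField.inclusion hle).toLinearMap (IntermediateField.inclusion_injective hle),
    rw_rt ha _ r hmem hr2, ?_, ?_, ?_⟩
  · intro q hq hqd
    exact hpf q hq (hk ▸ hqd.trans (finrank_dvd_of_le_right hle))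
  · obtain ⟨π, h0, h1, hπ⟩ := exists_pi L
    obtain ⟨w, hw⟩ := IsAlgClosed.exists_pow_nat_eq (algebraMap K Ω π) hd
    obtain ⟨N, hN, hrN⟩ := exists_ur (L := L) hd hp h0 hπ hw
      (Finset.univ : Finset (Option (Fin (n + 2)))) r (rwS a K) (fun o _ => hr2 o) fun o _ => hS0 o
    intro x hx
    refine val_adj hN hd h0 h1 hπ hw ((adjoin_le_iff.2 ?_ : adjoin K (Set.range r) ≤ _) hx)
    rintro _ ⟨o, rfl⟩
    exact hrN o (Finset.mem_univ o)
  · intro hb
    have hb' : ∀ o, ∃ b : K, L.nm (algebraMap K Ω (rwS a K o)) =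
        L.nm (algebraMap K Ω b) ^ d := by
      intro o
      rcases o with _ | i
      · refine ⟨1, ?_⟩
        change L.nm (algebraMap K Ω (-1)) = _
        rw [map_neg, L.neg, map_one, L.one, one_pow]
      · obtain ⟨b, hb1⟩ := hb i
        have h1 : L.nm (algebraMap K Ω (rwS a K (some i))) =
            L.nm (algebraMap F Ω (a 0)) / L.nm (algebraMap F Ω (a i)) := by
          change L.nm (algebraMap K Ω (if i = Fin.last (n + 1) then
            -(algebraMap F K (a 0)) / algebraMap F K (a i) else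
            algebraMap F K (a 0) / algebraMap F K (a i))) = _
          split_ifs
          · rw [map_div₀, map_neg, hFK, hFK, L.div, L.neg]
          · rw [map_div₀, hFK, hFK, L.div]
        have h2 : 0 < L.nm (algebraMap F Ω (a 0)) := L.pos ((_root_.map_ne_zero _).2 (ha 0))
        refine ⟨b⁻¹, ?_⟩
        rw [h1, hb1, map_inv₀, L.inv, inv_pow, div_mul_eq_div_div, div_self h2.ne', one_div]
    obtain ⟨N, hN, hrN⟩ := exists_ur' (L := L) hp (Finset.univ : Finset (Option (Fin (n + 2)))) r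
      (rwS a K) (fun o _ => hr2 o) (fun o _ => hS0 o) fun o _ => hb' o
    intro x hx
    refine val_ur hN ((adjoin_le_iff.2 ?_ : adjoin K (Set.range r) ≤ _) hx)
    rintro _ ⟨o, rfl⟩
    exact hrN o (Finset.mem_univ o)

end DH
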