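import Pool.Agent.Lib.MP_f80667_ag.Qs.BrA
import Pool.Agent.Lib.MP_f80667_ag.Cv.LocN
import Pool.Agent.Lib.MP_f80667_ag.Dh.Rw
import Pool.Agent.Lib.MP_f80667_ag.Dh.FerM
import Pool.Agent.Lib.MP_f80667_ag.Dh.Cnc
import Pool.Agent.Lib.MP_f80667_ag.Dh.Desc

/-! The local theorem at the places which are not over `d`. -/

open ZC BE PE CV QS Polynomial IntermediateField

namespace DH

variable {F : Type} [Field F] {d n : ℕ} {a : Fin (n + 2) → F} {K : Type} [Field K] [CharZero K]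
  [Algebra F K] {Ω : Type} [Field Ω] [Algebra K Ω] [Algebra F Ω] [IsScalarTower F K Ω]
  [IsAlgClosure K Ω] (L : Ld K Ω)

/-- The condition on `l`: `d e(K / ℚ_l) < l - 1`, or `e(K / ℚ_l) < l - 1` and the values of the coefficients are congruent
modulo `d`; no condition if `l` is not the residue characteristic. -/
def Gd (d : ℕ) (a : Fin (n + 2) → F) (l : ℕ) : Prop :=
  (∀ x : K, L.nm (algebraMap K Ω x) < 1 → L.nm (algebraMap K Ω x) ^ (l - 1) < L.nm (l : Ω) ^ d) ∨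
    (Er L l ∧ ∀ i, ∃ b : K, L.nm (algebraMap F Ω (a i)) =
      L.nm (algebraMap F Ω (a 0)) * L.nm (algebraMap K Ω b) ^ d)

variable {L}

/-- No condition if `l` is not the residue characteristic. -/
theorem gd_of {l : ℕ} (hl : l.Prime) (h : l ≠ L.p) : Gd L d a l := by
  have h3 : L.nm (l : Ω) = 1 := L.nat_unit fun h6 =>
    h ((Nat.prime_dvd_prime_iff_eq L.pp hl).1 h6).symm
  have hl1 : l - 1 ≠ 0 := by
    have := hl.two_le
    omega
  refine Or.inl fun x hx => ?_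
  rw [h3, one_pow]
  exact pow_lt_one₀ (L.nonneg _) hx hl1

/-- The condition over the extension. -/
theorem gd_er {l : ℕ} (hd : 0 < d) (hl : l.Prime) (h : Gd L d a l) {N' : IntermediateField K Ω}
    (h1 : ∀ x ∈ N', ∃ y : K, L.nm x ^ d = L.nm (algebraMap K Ω y))
    (h2 : (∀ i, ∃ b : K, L.nm (algebraMap F Ω (a i)) =
      L.nm (algebraMap F Ω (a 0)) * L.nm (algebraMap K Ω b) ^ d) →
      ∀ x ∈ N', ∃ y : K, L.nm x = L.nm (algebraMap K Ω y))
    (L' : Ld N' Ω) (hL : ∀ x, L'.nm x = L.nm x) : Er L' l := by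
  intro x hx
  rw [hL] at hx
  rw [hL, hL]
  change L.nm (x : Ω) < 1 at hx
  change L.nm (x : Ω) ^ (l - 1) < L.nm (l : Ω)
  rcases h with h | ⟨h, h'⟩
  · obtain ⟨y, hy⟩ := h1 x.1 x.2
    have h3 : L.nm (algebraMap K Ω y) < 1 := by
      rw [← hy]
      exact pow_lt_one₀ (L.nonneg _) hx hd.ne'
    have h4 := h y h3
    rw [← hy, ← pow_mul, mul_comm d, pow_mul] at h4
    exact lt_of_pow_lt_pow_left₀ d (L.nonneg _) h4
  · obtain ⟨y, hy⟩ := h2 h' x.1 x.2
    rw [hy] at hx ⊢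
    exact h y hx

/-- **The local theorem, `v` not over `d`.** Proof: `exists_rtv`, `L.exists_bsL`; over `N'`: `exists_fer`, `fer_mod`, `gd_er`,
`er_nmem`, `loc`, `con`; `dm_desc`. -/
theorem loc_good (hd : 2 ≤ d) (hn : 2 ≤ n) (hp : ¬ L.p ∣ d) (ha : ∀ i, a i ≠ 0) {l : ℕ}
    (hl : l.Prime) (hld : ¬ l ∣ d) (h : Gd L d a l) : Dl (Xd d a) K Ω l := by
  have hd0 : 0 < d := by omega
  obtain ⟨N', hfd, ⟨T⟩, hpf, h1, h2⟩ := exists_rtv (L := L) (a := a) hd0 hp ha
  obtain ⟨L', -, hL⟩ := L.exists_bsL N'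
  have halg : Algebra.IsAlgebraic K Ω := IsAlgClosure.isAlgebraic
  have i1 : IsAlgClosure N' Ω := ⟨IsAlgClosure.isAlgClosed K, halg.tower_top N'⟩
  have i2 : CharZero N' := charZero_of_injective_algebraMap (algebraMap K N').injective
  have hT : IsScalarTower F N' Ω := IsScalarTower.of_algebraMap_eq fun _ => rfl
  have hε : L.nm (algebraMap N' Ω T.ε) = 1 := by
    have h3 : L.nm (algebraMap N' Ω T.ε) ^ d = 1 := by
      rw [← L.pow, ← map_pow, T.hε, map_neg, map_one, L.neg, L.one]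
    exact (pow_eq_one_iff_of_nonneg (L.nonneg _) hd0.ne').1 h3
  have hu : IsUnit (d : Ok L') := by
    have h11 : L'.nm (d : Ω) = 1 := by
      rw [hL]
      exact L.nat_unit hp
    have h10 : (d : Ω) ≠ 0 := L'.ne_zero (by rw [h11]; exact one_pos)
    have h12 : (d : N') ≠ 0 := fun e => h10 (by rw [← map_natCast (algebraMap N' Ω), e, map_zero])
    have h13 : (d : N')⁻¹ ∈ Ok L' := by
      change L'.nm (algebraMap N' Ω (d : N')⁻¹) ≤ 1
      rw [map_inv₀, map_natCast, L'.inv, h11, inv_one]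
    exact IsUnit.of_mul_eq_one (⟨(d : N')⁻¹, h13⟩ : Ok L') (Subtype.ext (mul_inv_cancel₀ h12))
  have he : T.ε ∈ Ok L' := by
    change L'.nm (algebraMap N' Ω T.ε) ≤ 1
    rw [hL, hε]
  obtain ⟨D, ⟨c⟩⟩ := exists_fer hd T.hε
  obtain ⟨m⟩ := fer_mod (O := Ok L') c hd hu (e := ⟨T.ε, he⟩) (Subtype.ext T.hε) rfl
  have hE : Er L' l := gd_er hd0 hl h h1 h2 L' hL
  have hD : DvG (fun _ : Fin n => D.V) N' Ω l := loc (L := L') (fun _ => m) hl (er_nmem L' hE)
  have hN : Dl (Xd d a) N' Ω l := con T c hl hld hd hd0 hn hD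
  exact dm_desc fct N' (hpf.coprime hl hld) hN

end DH
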