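import Pool.Agent.Lib.MP_f80667_ag.Dh.Gz
import Pool.Agent.Lib.MP_f80667_ag.Dh.Lg

/-! Diagonal hypersurfaces at the places of a number field. -/

open ZC BE PE CV QS Polynomial IntermediateField IsDedekindDomain NumberField

namespace DH

section nf

variable {F : Type} [Field F] [NumberField F] {n d : ℕ}

/-- **The places.** Proof: `exists_ldE`, compare `exists_er` (`Qs/GlA.lean`): the values of `F_v` are the powers of `c`, `nm x = c ^ k`
if `v.valuation F x = exp (- k)`; `k ≥ 1` if `nm x < 1`. In the second case: `b` is in `F`, `b ≠ 0` by `ha`. -/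
theorem exists_gd (hd : 0 < d) {a : Fin (n + 2) → F} (ha : ∀ i, a i ≠ 0)
    (v : HeightOneSpectrum (𝓞 F)) : ∃ L : Ld (FK F v) (AlgebraicClosure (FK F v)),
      (∀ m : ℕ, v.valuation F (m : F) = 1 → ¬ L.p ∣ m) ∧
        ∀ l : ℕ, l.Prime → Cd d a l v → Gd L d a l := by
  have hc : CharZero (FK F v) := charZero_of_injective_algebraMap (algebraMap F (FK F v)).injective
  have hc' : CharZero (AlgebraicClosure (FK F v)) :=
    charZero_of_injective_algebraMap (algebraMap (FK F v) (AlgebraicClosure (FK F v))).injective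
  obtain ⟨L, c, hc0, hc1, hL, hL'⟩ := exists_ldE v
  have hval : ∀ x : F, x ≠ 0 → ∃ n : ℤ, v.valuation F x = WithZero.exp (-n) := fun x hx =>
    ⟨-(WithZero.log (v.valuation F x)), by
      rw [neg_neg, WithZero.exp_log ((Valuation.ne_zero_iff _).2 hx)]⟩
  refine ⟨L, fun m hm hp => ?_, fun l hl hv => ?_⟩
  · have h0 : v.valuation F (m : F) = WithZero.exp (-0 : ℤ) := by
      rw [hm, neg_zero, WithZero.exp_zero]
    have h1 := hL _ 0 h0
    rw [zpow_zero, map_natCast] at h1
    obtain ⟨k, rfl⟩ := hp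
    rw [Nat.cast_mul, L.mul] at h1
    have h2 : L.nm (L.p : AlgebraicClosure (FK F v)) * L.nm (k : AlgebraicClosure (FK F v)) < 1 :=
      mul_lt_one_of_nonneg_of_lt_one_left (L.nonneg _) L.lt (L.nat_le k)
    rw [h1] at h2
    exact lt_irrefl _ h2
  · have hlpos : 0 < L.nm (l : AlgebraicClosure (FK F v)) := L.pos (Nat.cast_ne_zero.2 hl.ne_zero)
    obtain ⟨e, he⟩ := hval (l : F) (Nat.cast_ne_zero.2 hl.ne_zero)
    have hle : L.nm (l : AlgebraicClosure (FK F v)) = c ^ e := by
      rw [← hL (l : F) e he, map_natCast]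
    have hl2 : l - 1 ≠ 0 := by
      have := hl.two_le
      omega
    have hlz : (0 : ℤ) ≤ ((l - 1 : ℕ) : ℤ) := Int.natCast_nonneg _
    have hk1 : ∀ x : FK F v, x ≠ 0 → L.nm (algebraMap _ _ x) < 1 →
        ∃ k : ℤ, 1 ≤ k ∧ L.nm (algebraMap (FK F v) (AlgebraicClosure (FK F v)) x) = c ^ k := by
      intro x hx0 hx
      obtain ⟨k, hk⟩ := hL' x hx0
      refine ⟨k, ?_, hk⟩
      rw [hk, ← zpow_zero c, zpow_lt_zpow_iff_right_of_lt_one₀ hc0 hc1] at hx
      omega
    rcases hv with hv | ⟨hv, hb⟩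
    · refine Or.inl fun x hx => ?_
      by_cases hx0 : x = 0
      · rw [hx0, map_zero, L.zero, zero_pow hl2]
        exact pow_pos hlpos d
      · obtain ⟨k, hk, hkx⟩ := hk1 x hx0 hx
        have he1 : e * (d : ℤ) < ((l - 1 : ℕ) : ℤ) := by
          rw [val_pow, map_pow, map_natCast, map_pow, he, ← WithZero.exp_nsmul,
            WithZero.exp_le_exp, not_le, nsmul_eq_mul] at hv
          linarith
        rw [hle, hkx, ← zpow_natCast, ← zpow_natCast, ← zpow_mul, ← zpow_mul]
        refine (zpow_lt_zpow_iff_right_of_lt_one₀ hc0 hc1).2 (he1.trans_le ?_)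
        nlinarith
    · refine Or.inr ⟨fun x hx => ?_, fun i => ?_⟩
      · by_cases hx0 : x = 0
        · rw [hx0, map_zero, L.zero, zero_pow hl2]
          exact hlpos
        · obtain ⟨k, hk, hkx⟩ := hk1 x hx0 hx
          have he1 : e < ((l - 1 : ℕ) : ℤ) := by
            rw [val_pow, map_natCast, he, WithZero.exp_le_exp, not_le] at hv
            omega
          rw [hle, hkx, ← zpow_natCast, ← zpow_mul]
          refine (zpow_lt_zpow_iff_right_of_lt_one₀ hc0 hc1).2 (he1.trans_le ?_)
          nlinarith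
      · obtain ⟨b, hbi⟩ := hb i
        have hb0 : b ≠ 0 := by
          rintro rfl
          rw [map_zero, zero_pow (by omega), mul_zero] at hbi
          exact ha i ((Valuation.zero_iff _).1 hbi)
        obtain ⟨n0, hn0⟩ := hval (a 0) (ha 0)
        obtain ⟨m, hm⟩ := hval b hb0
        have h1 : v.valuation F (a i) = WithZero.exp (-(n0 + m * d)) := by
          rw [hbi, hn0, hm, ← WithZero.exp_nsmul, ← WithZero.exp_add, nsmul_eq_mul]
          congr 1
          ring
        refine ⟨algebraMap F (FK F v) b, ?_⟩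
        rw [← IsScalarTower.algebraMap_apply F (FK F v) (AlgebraicClosure (FK F v)), hL _ _ h1,
          hL _ _ hn0, hL _ _ hm, zpow_add₀ hc0.ne', zpow_mul, zpow_natCast]

/-- **The places not over `d`.** Proof: `exists_gd`, `loc_good`. -/
theorem good_plD (hd : 2 ≤ d) (hn : 2 ≤ n) {a : Fin (n + 2) → F} (ha : ∀ i, a i ≠ 0)
    {v : HeightOneSpectrum (𝓞 F)} (hv : v.valuation F (d : F) = 1) {l : ℕ} (hl : l.Prime)
    (hld : ¬ l ∣ d) (h : Cd d a l v) : Dq (Xd d a) (FK F v) (AlgebraicClosure (FK F v)) l := by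
  have hc : CharZero (FK F v) := charZero_of_injective_algebraMap (algebraMap F (FK F v)).injective
  obtain ⟨L, hp, hg⟩ := exists_gd (by omega : 0 < d) ha v
  exact loc_good (L := L) hd hn (hp d hv) ha hl hld (hg l hl h)

end nf

end DH
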