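import Pool.Agent.Lib.MP_f80667_ag.Qs.Gl

/-! The condition on the prime number `l` at the places of a number field. -/

open ZC BE PE CV QS Polynomial IntermediateField IsDedekindDomain NumberField

namespace DH

section nf

variable {F : Type} [Field F] [NumberField F] {n d : ℕ}

/-- The condition on the prime number `l` at the place `v`: `l ^ d ∉ v ^ (l - 1)`, or `l ∉ v ^ (l - 1)` and the valuations of
the coefficients are congruent modulo `d`. It holds if `v` is not over `l`. -/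
def Cd (d : ℕ) (a : Fin (n + 2) → F) (l : ℕ) (v : HeightOneSpectrum (𝓞 F)) : Prop :=
  (l : 𝓞 F) ^ d ∉ v.asIdeal ^ (l - 1) ∨ ((l : 𝓞 F) ∉ v.asIdeal ^ (l - 1) ∧
    ∀ i, ∃ b : F, v.valuation F (a i) = v.valuation F (a 0) * v.valuation F b ^ d)

/-- Proof: `v.asIdeal` is prime. -/
theorem gp_off {a : Fin (n + 2) → F} {l : ℕ} (hl : l.Prime) {v : HeightOneSpectrum (𝓞 F)}
    (h : (l : 𝓞 F) ∉ v.asIdeal) : Cd d a l v := by
  refine Or.inl fun h1 => h ?_
  have h2 : v.asIdeal ^ (l - 1) ≤ v.asIdeal := Ideal.pow_le_self (by have := hl.two_le; omega)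
  exact v.isPrime.mem_of_pow_mem _ (h2 h1)

/-- The ramification is at most the degree. Proof: `l ∈ v ^ k` gives `v ^ k ∣ (l)`; the norm of `(l)` is `l ^ [F : ℚ]`, the norm
of `v` is at least `l`. -/
theorem ram_le {l : ℕ} (hl : l.Prime) (v : HeightOneSpectrum (𝓞 F)) {k : ℕ}
    (h : (l : 𝓞 F) ∈ v.asIdeal ^ k) : k ≤ Module.finrank ℚ F := by
  rcases Nat.eq_zero_or_pos k with hk | hk
  · omega
  have h1 : v.asIdeal ^ k ∣ Ideal.span {(l : 𝓞 F)} := by
    rw [Ideal.dvd_span_singleton]; exact h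
  have h2 := Ideal.absNorm_dvd_absNorm_of_le (Ideal.dvd_iff_le.mp h1)
  have h3 : Ideal.absNorm (Ideal.span {(l : 𝓞 F)}) = l ^ Module.finrank ℚ F := by
    rw [Ideal.absNorm_span_singleton, ← map_natCast (algebraMap ℤ (𝓞 F)) l,
      Algebra.norm_algebraMap, RingOfIntegers.rank]
    simp [Int.natAbs_pow]
  rw [map_pow, h3] at h2
  have h4 : Ideal.absNorm v.asIdeal ∣ l ^ Module.finrank ℚ F :=
    (dvd_pow_self _ (by omega)).trans h2
  obtain ⟨j, _, hj⟩ := (Nat.dvd_prime_pow hl).1 h4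
  have h5 : j ≠ 0 := by
    rintro rfl
    rw [pow_zero, Ideal.absNorm_eq_one_iff] at hj
    exact v.isPrime.ne_top hj
  rw [hj, ← pow_mul] at h2
  have h6 := (Nat.pow_dvd_pow_iff_le_right hl.one_lt).1 h2
  calc k = 1 * k := (one_mul k).symm
    _ ≤ j * k := Nat.mul_le_mul_right k (by omega)
    _ ≤ _ := h6

/-- For `l > d [F : ℚ] + 1` the condition holds at all places. Proof: let `e` be the largest number with `l ∈ v ^ e`
(`v.valuation F l = exp (- e)`): `l ^ d ∈ v ^ k` only for `k ≤ d e`, `ram_le`. -/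
theorem gp_of (hd : 0 < d) {a : Fin (n + 2) → F} {l : ℕ} (hl : l.Prime)
    (h : d * Module.finrank ℚ F + 1 < l) (v : HeightOneSpectrum (𝓞 F)) : Cd d a l v := by
  refine Or.inl fun h1 => ?_
  have h0 : (l : 𝓞 F) ≠ 0 := by exact_mod_cast hl.ne_zero
  have h2 := v.intValuation_if_neg h0
  set e := (Associates.mk v.asIdeal).count (Associates.mk (Ideal.span {(l : 𝓞 F)})).factors with he
  have h3 : (l : 𝓞 F) ∈ v.asIdeal ^ e := (v.intValuation_le_pow_iff_mem _ e).1 h2.le
  have h4 := ram_le hl v h3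
  have h5 := (v.intValuation_le_pow_iff_mem _ (l - 1)).2 h1
  rw [map_pow, h2, ← WithZero.exp_nsmul, WithZero.exp_le_exp] at h5
  have h6 : d * e ≤ d * Module.finrank ℚ F := Nat.mul_le_mul_left d h4
  have h7 : ((l - 1 : ℕ) : ℤ) ≤ ((d * e : ℕ) : ℤ) := by
    rw [nsmul_eq_mul] at h5
    push_cast
    linarith
  have h8 : l - 1 ≤ d * e := by exact_mod_cast h7
  omega

end nf

end DH
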