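import Pool.Agent.Lib.MP_f80667_ag.Dh.FunP
import Pool.Agent.Lib.MP_f80667_ag.Pe.Kw

/-!
Lines on the hypersurface: points `P`, `Q` with disjoint supports: all points `P + c Q` are on the hypersurface.
-/

open ZC BE PE CV

namespace DH

variable {F : Type} [Field F] {d n : ℕ} {a : Fin (n + 2) → F} {K : Type} [Field K] [CharZero K]
  [Algebra F K] {Ω : Type} [Field Ω] [Algebra K Ω] [Algebra F Ω] [IsScalarTower F K Ω]
  [IsAlgClosure K Ω]

/-- Two points on a line: `R = P + c Q` and `Q`. Proof: `exc_ratEq` in `Pe/Kn.lean`: `exists_p1 c` (in `Pe/Kw.lean`) gives the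
function field `E = K(θ)` of the line and its places `w₀` (`θ = c`), `w₁` (`θ = ∞`); the point `ξ = P + θ Q` over `E` has the
value `R` at `w₀` and `Q` at `w₁` (multiply by `θ⁻¹`, `red_mk`); `pv_ratEqX` for the function `θ - c`. (`(P + θ Q) ≠ 0` and on
the hypersurface: at every coordinate one of `P`, `Q` is `0`, and `0 < d`.) -/
theorem line_ratEq (hd : 0 < d) (P Q R : Hc d a K) (h : ∀ i, P.x i = 0 ∨ Q.x i = 0) (c : K)
    (hR : R.x = fun i => P.x i + c * Q.x i) :
    Finsupp.single (up K Ω (Quotient.mk _ R)) 1 - Finsupp.single (up K Ω (Quotient.mk _ Q)) 1 ∈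
      (Xd d a).ratEq K Ω := by
  classical
  have hac : IsAlgClosed Ω := IsAlgClosure.isAlgClosed K
  let σ : K →ₐ[F] Ω := IsScalarTower.toAlgHom F K Ω
  obtain ⟨E, i1, i2, θ, w₀, w₁, hE, hne, hw, ho0, ho1, hv0, hv1, hu⟩ :=
    exists_p1 (K := K) (Ω := Ω) c
  let i3 : Algebra F E := ((algebraMap K E).comp (algebraMap F K)).toAlgebra
  have i4 : IsScalarTower F K E := IsScalarTower.of_algebraMap_eq fun _ => rfl
  have hθ : θ ≠ 0 := by
    intro h
    rw [h] at hv0
    have h2 : algebraMap K Ω c = 0 := hv0.uniq Hv.zero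
    have h3 : c = 0 := (map_eq_zero _).1 h2
    apply hne
    rw [h, h3, map_zero, sub_zero]
  let τ : K →ₐ[F] E := IsScalarTower.toAlgHom F K E
  have hpow : ∀ i, (τ (P.x i) + θ * τ (Q.x i)) ^ d = τ (P.x i ^ d) + θ ^ d * τ (Q.x i ^ d) := by
    intro i
    rcases h i with h0 | h0
    · rw [h0, map_zero, zero_pow hd.ne', map_zero, zero_add, zero_add, mul_pow, map_pow]
    · rw [h0, map_zero, zero_pow hd.ne', map_zero, mul_zero, mul_zero, add_zero, add_zero, map_pow]
  -- the generic point of the line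
  let A : Hc d a E :=
    { x := fun i => τ (P.x i) + θ * τ (Q.x i)
      ne := by
        intro h0
        obtain ⟨i, hi⟩ := Function.ne_iff.1 P.ne
        have hi' : P.x i ≠ 0 := hi
        have hq : Q.x i = 0 := (h i).resolve_left hi'
        have h1 : τ (P.x i) + θ * τ (Q.x i) = 0 := congrFun h0 i
        rw [hq, map_zero, mul_zero, add_zero] at h1
        exact hi' ((map_eq_zero τ).1 h1)
      eq := by
        have h1 : ∀ i, algebraMap F E (a i) * (τ (P.x i) + θ * τ (Q.x i)) ^ d =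
            τ (algebraMap F K (a i) * P.x i ^ d) + θ ^ d * τ (algebraMap F K (a i) * Q.x i ^ d) := by
          intro i
          rw [hpow, map_mul τ, map_mul τ, AlgHom.commutes]
          ring
        rw [Finset.sum_congr rfl fun i _ => h1 i, Finset.sum_add_distrib, ← Finset.mul_sum,
          ← map_sum, ← map_sum, P.eq, Q.eq, map_zero, mul_zero, add_zero] }
  have hrd : ∀ (w : Place K E Ω) (v : K), Hv w (τ v) (σ v) := fun w v => ⟨w.mem v, w.res_k v⟩
  obtain ⟨m, hm0, hm1⟩ : ∃ m : Place K E Ω → ℤ, m w₀ = 1 ∧ m w₁ = -1 :=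
    ⟨fun w => if w = w₀ then 1 else -1, if_pos rfl, if_neg hw.symm⟩
  obtain ⟨y, hy0, hy1⟩ : ∃ y : Place K E Ω → (Xd d a).pt Ω,
      y w₀ = up K Ω (Quotient.mk _ R) ∧ y w₁ = up K Ω (Quotient.mk _ Q) :=
    ⟨fun w => if w = w₀ then up K Ω (Quotient.mk _ R) else up K Ω (Quotient.mk _ Q), if_pos rfl,
      if_neg hw.symm⟩
  apply pv_ratEqX
  refine ⟨E, i1, i2, i3, i4, hE, θ - algebraMap K E c, Quotient.mk _ A, hne,
    {w₀, w₁}, m, y, ?_, ?_, ?_⟩
  · intro w hw'
    rw [Finset.mem_insert, Finset.mem_singleton, not_or] at hw'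
    exact hu w hw'.1 hw'.2
  · intro w hw'
    rw [Finset.mem_insert, Finset.mem_singleton] at hw'
    rcases hw' with h' | h'
    · subst h'
      refine ⟨by rw [hm0]; exact ho0, ?_⟩
      rw [hy0]
      refine red_mk w A (R.mp σ) one_ne_zero fun i => ?_
      change Hv w (1 * (τ (P.x i) + θ * τ (Q.x i))) (σ (R.x i))
      rw [one_mul, hR, map_add, map_mul]
      exact (hrd w _).add (hv0.mul (hrd w _))
    · subst h'
      refine ⟨by rw [hm1]; exact ho1, ?_⟩
      rw [hy1]
      refine red_mk w A (Q.mp σ) (inv_ne_zero hθ) fun i => ?_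
      change Hv w (θ⁻¹ * (τ (P.x i) + θ * τ (Q.x i))) (σ (Q.x i))
      rw [mul_add, inv_mul_cancel_left₀ hθ]
      have h1 := (hv1.mul (hrd w (P.x i))).add (hrd w (Q.x i))
      rwa [zero_mul, zero_add] at h1
  · rw [Finset.sum_pair hw, hm0, hm1, hy0, hy1, Finsupp.single_neg, sub_eq_add_neg]

end DH
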