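import Pool.Agent.Lib.MP_f80667_ag.Dh.NuA
import Pool.Agent.Lib.MP_f80667_ag.Dh.FunD
import Pool.Agent.Lib.MP_f80667_ag.Pe.Kn

/-! The retraction `nu` does not change classes of cycles. -/

open ZC BE PE CV

namespace DH

variable {F : Type} [Field F] {d n : ℕ} {a : Fin (n + 2) → F} {M : Type} [Field M] [Algebra F M]
  (T : Rt d a M) {K : Type} [Field K] [CharZero K] [Algebra F K] [Algebra M K] [IsScalarTower F M K]
  {Ω : Type} [Field Ω] [Algebra K Ω] [Algebra F Ω] [Algebra M Ω] [IsScalarTower F K Ω]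
  [IsScalarTower M K Ω] [IsScalarTower F M Ω] [IsAlgClosure K Ω]

/-- The retraction does not change classes. Proof: `nu_ratEq` in `Pe/Kn.lean`: a cycle over `K` is a combination of traces of
points (`inv_gen`); for a point `x`, defined over the finite extension `M'` (`exists_fix`, `exists_desc` over `M'`), `dgn_ratEq`
over `M'` and `tr_ratEqV`. -/
theorem nu_ratEq (hd : 0 < d) (hn : 2 ≤ n) {z : (Xd d a).pt Ω →₀ ℤ}
    (hz : z ∈ (Xd d a).cyc K Ω) :
    Finsupp.mapDomain (T.nu hd) z - z ∈ (Xd d a).ratEq K Ω := by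
  classical
  let iA : MulAction (Ω ≃ₐ[K] Ω) ((Xd d a).pt Ω) := vact (fct (d := d) (a := a)) K Ω
  have hst : ∀ x : (Xd d a).pt Ω, opn K Ω (MulAction.stabilizer (Ω ≃ₐ[K] Ω) x) := fun x =>
    stab x
  have hX : ∀ x : (Xd d a).pt Ω, (MulAction.stabilizer (Ω ≃ₐ[K] Ω) x).FiniteIndex :=
    fun x => opn_fin _ (hst x)
  let φ : ((Xd d a).pt Ω →₀ ℤ) →+ ((Xd d a).pt Ω →₀ ℤ) :=
    Finsupp.mapDomain.addMonoidHom (T.nu hd) - AddMonoidHom.id _
  have nu_act : ∀ (σ : Ω ≃ₐ[K] Ω) (x : (Xd d a).pt Ω), T.nu hd (σ • x) = σ • T.nu hd x := by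
    intro σ x
    refine (T.nu_map hd (N := Ω) (σ.restrictScalars F : Ω →ₐ[F] Ω) (fun y => ?_) x).symm
    change σ (algebraMap M Ω y) = algebraMap M Ω y
    rw [IsScalarTower.algebraMap_apply M K Ω, σ.commutes]
  have h2 : AddSubgroup.closure {z | ∃ x : (Xd d a).pt Ω, z = trG ((Xd d a).pt Ω)
      (MulAction.stabilizer (Ω ≃ₐ[K] Ω) x) (Finsupp.single x 1)} ≤
      ((Xd d a).ratEq K Ω).comap φ := by
    rw [AddSubgroup.closure_le]
    rintro _ ⟨x, rfl⟩
    obtain ⟨M', hM, hMe⟩ := exists_fix (hst x)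
    have i1 : IsAlgClosure M' Ω := ⟨IsAlgClosure.isAlgClosed K, inferInstance⟩
    have i2 : IsScalarTower F M' Ω := IsScalarTower.of_algebraMap_eq fun _ => rfl
    have i3 : IsScalarTower F M M' := IsScalarTower.of_algebraMap_eq fun b =>
      Subtype.ext (IsScalarTower.algebraMap_apply F M Ω b)
    have i4 : IsScalarTower M M' Ω := IsScalarTower.of_algebraMap_eq fun _ => rfl
    obtain ⟨P, hP⟩ : ∃ P : (Xd d a).pt M', x = up M' Ω P := by
      refine exists_desc fun σ => ?_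
      have h3 : σ.restrictScalars K ∈ M'.fixingSubgroup := sia_mem_fix M' σ
      rw [hMe] at h3
      exact h3
    have h5 : Finsupp.single (T.nu hd x) 1 - Finsupp.single x 1 ∈ (Xd d a).ratEq M' Ω := by
      by_cases hD : Dgn P
      · have h6 : Dgn x := by
          rw [hP]
          exact (dgn_map _ P).2 hD
        rw [T.nu_of hd h6, ← neg_sub, hP]
        exact neg_mem (dgn_ratEq T hd hn hD)
      · have h6 : ¬ Dgn x := by
          rw [hP]
          exact fun h => hD ((dgn_map _ P).1 h)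
        rw [T.nu_not hd h6, sub_self]
        exact zero_mem _
    have h4 : trG ((Xd d a).pt Ω) M'.fixingSubgroup
        (Finsupp.single (T.nu hd x) 1 - Finsupp.single x 1) ∈ (Xd d a).ratEq K Ω :=
      tr_ratEqV fct M' h5
    rw [map_sub, hMe] at h4
    change Finsupp.mapDomain (T.nu hd) (trG ((Xd d a).pt Ω) (MulAction.stabilizer (Ω ≃ₐ[K] Ω) x)
      (Finsupp.single x 1)) - trG ((Xd d a).pt Ω) (MulAction.stabilizer (Ω ≃ₐ[K] Ω) x)
      (Finsupp.single x 1) ∈ (Xd d a).ratEq K Ω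
    rw [sib_map nu_act (hX x), Finsupp.mapDomain_single]
    exact h4
  exact h2 (inv_gen hX hz)

end DH
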