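import Pool.Agent.Lib.MP_f80667_ag.Dh.Rt
import Pool.Agent.Lib.MP_f80667_ag.Dh.Line

/-!
Degenerate points are rationally equivalent to `B`; the retraction `nu` does not change classes.

PROOF of `dgn_ratEq`. `P = (x_i)` over `K` with `ps a x k = 0`, `1 ≤ k ≤ n - 1`. Put `u = (x_0, ..., x_k, 0, ..., 0)`,
`v = (0, ..., 0, x_(k+1), ..., x_(n+1))`; both satisfy the equation. If `v ≠ 0` and `u ≠ 0`: `P = u + 1 · v` is equivalent to
`v` (`line_ratEq`); `v` and `Q0 = (α_0, ε α_1, 0, ..., 0)` have disjoint supports (`k ≥ 1`): `line_ratEq` with `c = 0` for `v`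
and `Q0`: `[v] - [Q0]`; `Q0` and `B` have disjoint supports (`n ≥ 2`). If `u = 0` then `P = v`. If `v = 0` then `P = u` and
`u`, `B` have disjoint supports (`k ≤ n - 1`).
PROOF of `nu_ratEq`: `nu_ratEq` in `Pe/Kn.lean`: a cycle over `K` is a combination of traces of points (`inv_gen`); for a
point `x`, defined over the finite extension `M'` (`exists_fix`, `exists_desc` over `M'`), `dgn_ratEq` over `M'` and `tr_ratEqV`.
-/

open ZC BE PE CV

namespace DH

variable {F : Type} [Field F] {d n : ℕ} {a : Fin (n + 2) → F} {M : Type} [Field M] [Algebra F M]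
  (T : Rt d a M) {K : Type} [Field K] [CharZero K] [Algebra F K] [Algebra M K] [IsScalarTower F M K]
  {Ω : Type} [Field Ω] [Algebra K Ω] [Algebra F Ω] [Algebra M Ω] [IsScalarTower F K Ω]
  [IsScalarTower M K Ω] [IsScalarTower F M Ω] [IsAlgClosure K Ω]

omit [Algebra M K] [IsScalarTower F M K] [Algebra M Ω] [IsScalarTower M K Ω]
  [IsScalarTower F M Ω] in
/-- Points with disjoint supports are equivalent. -/
private theorem dis_ratEq (hd : 0 < d) (P Q : Hc d a K) (h : ∀ i, P.x i = 0 ∨ Q.x i = 0) :
    Finsupp.single (up K Ω (Quotient.mk _ P)) 1 - Finsupp.single (up K Ω (Quotient.mk _ Q)) 1 ∈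
      (Xd d a).ratEq K Ω :=
  line_ratEq hd P Q P h 0 (funext fun i => by rw [zero_mul, add_zero])

/-- The coordinates of `Q0`. -/
private def qv (K : Type) [Field K] [Algebra M K] (i : Fin (n + 2)) : K :=
  if (i : ℕ) = 0 then algebraMap M K (T.α i)
  else if (i : ℕ) = 1 then algebraMap M K (T.ε * T.α i) else 0

omit [CharZero K] in
private theorem qv_eq (hd : 0 < d) (hn : 2 ≤ n) :
    ∑ i, algebraMap F K (a i) * qv T K i ^ d = 0 := by
  rw [Fin.sum_univ_succ, Fin.sum_univ_succ]
  have h0 := T.hα ⟨0, by omega⟩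
  have h1 := T.hα ⟨1, by omega⟩
  have e0 : (⟨0, by omega⟩ : Fin (n + 1)).castSucc = (0 : Fin (n + 2)) := rfl
  have e1 : (⟨1, by omega⟩ : Fin (n + 1)).castSucc = Fin.succ (0 : Fin (n + 1)) := rfl
  rw [e0] at h0
  rw [e1] at h1
  have h2 : ∀ i : Fin n, algebraMap F K (a i.succ.succ) * qv T K i.succ.succ ^ d = 0 := by
    intro i
    have h3 : qv T K i.succ.succ = 0 := by
      unfold qv
      rw [if_neg (by simp), if_neg (by simp)]
    rw [h3, zero_pow hd.ne', mul_zero]
  rw [Finset.sum_eq_zero fun i _ => h2 i, add_zero]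
  have q0 : qv T K 0 = algebraMap M K (T.α 0) := by
    unfold qv
    rw [if_pos (by simp)]
  have q1 : qv T K (Fin.succ 0) = algebraMap M K (T.ε * T.α (Fin.succ 0)) := by
    unfold qv
    rw [if_neg (by simp), if_pos (by simp)]
  rw [q0, q1, IsScalarTower.algebraMap_apply F M K, IsScalarTower.algebraMap_apply F M K (a _),
    ← map_pow, ← map_pow, ← map_mul, ← map_mul, ← map_add, mul_pow, T.hε, h0]
  rw [mul_left_comm, h1, neg_one_mul, add_neg_cancel, map_zero]

omit [CharZero K] [Algebra F K] [IsScalarTower F M K] in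
private theorem qv_ne (hd : 0 < d) : qv T K ≠ 0 := by
  intro h
  have h1 := congrFun h 0
  rw [qv, if_pos (by simp)] at h1
  exact T.a_ne hd _ ((map_eq_zero _).1 h1)

omit [CharZero K] [Algebra M K] [IsScalarTower F M K] in
/-- The parts of a degenerate vector. -/
private theorem part_eq (hd : 0 < d) {x : Fin (n + 2) → K} {k : ℕ} (hk : ps a d x k = 0) :
    ∑ i, algebraMap F K (a i) * (if (i : ℕ) ≤ k then x i else 0) ^ d = 0 := by
  refine Eq.trans (Finset.sum_congr rfl fun i _ => ?_) hk
  split_ifs
  · rfl
  · rw [zero_pow hd.ne', mul_zero]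

/-- Degenerate points over `K` are equivalent to `B`. -/
theorem dgn_ratEq (hd : 0 < d) (hn : 2 ≤ n) {x : (Xd d a).pt K} (hx : Dgn x) :
    Finsupp.single (up K Ω x) 1 - Finsupp.single (T.B Ω hd) 1 ∈ (Xd d a).ratEq K Ω := by
  have hB : up K Ω (T.B K hd) = T.B Ω hd :=
    T.map_B hd _ fun x => (IsScalarTower.algebraMap_apply M K Ω x).symm
  rw [← hB]
  induction x using Quotient.inductionOn with
  | h P =>
    obtain ⟨k, hk1, hkn, hk⟩ := hx
    -- the two parts
    have hu := part_eq (a := a) hd hk
    have hv : ∑ i, algebraMap F K (a i) * (if (i : ℕ) ≤ k then 0 else P.x i) ^ d = 0 := by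
      have h1 := P.eq
      have h2 : ∀ i : Fin (n + 2), algebraMap F K (a i) * P.x i ^ d =
          algebraMap F K (a i) * (if (i : ℕ) ≤ k then P.x i else 0) ^ d +
          algebraMap F K (a i) * (if (i : ℕ) ≤ k then 0 else P.x i) ^ d := by
        intro i
        split_ifs
        · rw [zero_pow hd.ne', mul_zero, add_zero]
        · rw [zero_pow hd.ne', mul_zero, zero_add]
      rw [Finset.sum_congr rfl fun i _ => h2 i, Finset.sum_add_distrib, hu, zero_add] at h1
      exact h1
    by_cases hv0 : (fun i : Fin (n + 2) => if (i : ℕ) ≤ k then 0 else P.x i) = 0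
    · -- `P = u`
      refine dis_ratEq hd P ⟨T.bv K, T.bv_ne K hd, T.bv_eq K hd⟩ fun i => ?_
      by_cases hi : (i : ℕ) ≤ k
      · right
        change T.bv K i = 0
        rw [Rt.bv, if_neg (by omega)]
      · left
        have h1 := congrFun hv0 i
        simp only [if_neg hi] at h1
        exact h1
    · -- `v` is a point
      have hvQ := dis_ratEq (Ω := Ω) hd ⟨_, hv0, hv⟩ ⟨qv T K, qv_ne T hd, qv_eq T hd hn⟩ fun i => by
        by_cases hi : (i : ℕ) ≤ k
        · left
          exact if_pos hi
        · right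
          change qv T K i = 0
          unfold qv
          rw [if_neg (by omega), if_neg (by omega)]
      have hQB := dis_ratEq (Ω := Ω) hd ⟨qv T K, qv_ne T hd, qv_eq T hd hn⟩
        ⟨T.bv K, T.bv_ne K hd, T.bv_eq K hd⟩ fun i => by
        by_cases hi : (i : ℕ) < n
        · right
          change T.bv K i = 0
          rw [Rt.bv, if_neg (by omega)]
        · left
          change qv T K i = 0
          unfold qv
          rw [if_neg (by omega), if_neg (by omega)]
      have hPv : Finsupp.single (up K Ω (Quotient.mk _ P)) 1 -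
          Finsupp.single (up K Ω (Quotient.mk _ (⟨_, hv0, hv⟩ : Hc d a K))) 1 ∈
          (Xd d a).ratEq K Ω := by
        by_cases hu0 : (fun i : Fin (n + 2) => if (i : ℕ) ≤ k then P.x i else 0) = 0
        · have e1 : P = ⟨_, hv0, hv⟩ := by
            have e2 : P.x = fun i : Fin (n + 2) => if (i : ℕ) ≤ k then 0 else P.x i := by
              funext i
              have h1 := congrFun hu0 i
              by_cases hi : (i : ℕ) ≤ k
              · simp only [if_pos hi] at h1 ⊢
                exact h1
              · rw [if_neg hi]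
            obtain ⟨px, pn, pe⟩ := P
            congr 1
          rw [← e1, sub_self]
          exact zero_mem _
        · refine line_ratEq hd ⟨_, hu0, hu⟩ ⟨_, hv0, hv⟩ P (fun i => ?_) 1 ?_
          · by_cases hi : (i : ℕ) ≤ k
            · right
              exact if_pos hi
            · left
              exact if_neg hi
          · funext i
            by_cases hi : (i : ℕ) ≤ k
            · simp only [if_pos hi, mul_zero, add_zero]
            · simp only [if_neg hi, one_mul, zero_add]
      have h := add_mem hPv (add_mem hvQ hQB)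
      rw [sub_add_sub_cancel, sub_add_sub_cancel] at h
      exact h

end DH
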