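import Pool.Agent.Lib.MP_f80667_ag.Dh.Fer

/-!
The map `phi` from the points of the product of `n` copies of the Fermat curve to the points of the hypersurface: the point
with the coordinates `α_k X_k`, retracted by `nu`; it is `B` if all `X_k` vanish.

`V c`: the product of the `n` curves.
-/

open ZC BE PE CV QS Polynomial

namespace DH

/-- The product of `n` copies of the curve. -/
abbrev Vn {M : Type} [Field M] (D : Crv M) (n : ℕ) : Vr M := Vpi fun _ : Fin n => D.V

section mp

variable {M : Type} [Field M] {d n : ℕ} {ε : M} {D : Crv M} (c : Cu D d (Af d ε)) {L : Type}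
  [Field L] [Algebra M L] {N : Type} [Field N] [Algebra M N] (σ : L →ₐ[M] N)
  (P : Fin n → D.V.pt L)

theorem sx_map (j : ℕ) : sx c (fun i => D.V.map σ (P i)) j = σ (sx c P j) := by
  unfold sx
  split_ifs
  · exact (c_map c σ _).1
  · exact (map_zero σ).symm

theorem sy_map (j : ℕ) : sy c (fun i => D.V.map σ (P i)) j = σ (sy c P j) := by
  unfold sy
  split_ifs
  · exact (c_map c σ _).2.1
  · exact (map_one σ).symm

theorem sz_map (j : ℕ) : sz c (fun i => D.V.map σ (P i)) j = σ (sz c P j) := by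
  unfold sz
  split_ifs
  · exact (c_map c σ _).2.2
  · exact (map_one σ).symm

theorem fv_map (k : Fin (n + 2)) : fv c (fun i => D.V.map σ (P i)) k = σ (fv c P k) := by
  have h := Xc_map (x := sx c P) (y := sy c P) (z := sz c P) (σ : L →+* N) n (k : ℕ)
  unfold fv
  rw [funext fun j => sx_map c σ P j, funext fun j => sy_map c σ P j,
    funext fun j => sz_map c σ P j]
  exact h.symm

end mp

section phi

variable {F : Type} [Field F] {d n : ℕ} {a : Fin (n + 2) → F} {M : Type} [Field M] [Algebra F M]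
  (T : Rt d a M) {D : Crv M} (c : Cu D d (Af d T.ε)) {L : Type} [Field L] [Algebra F L]
  [Algebra M L] [IsScalarTower F M L]

/-- The coordinates of the image. -/
noncomputable def gv (P : (Vn D n).pt L) (k : Fin (n + 2)) : L :=
  algebraMap M L (T.α k) * fv c P k

/-- The partial sums. Proof: `sum_Xc`, `a_i α_i ^ d = c`. -/
theorem ps_gv (hd : 0 < d) (P : (Vn D n).pt L) {k : ℕ} (hk : k ≤ n) :
    ps a d (gv T c P) k = algebraMap M L T.c * Wc (sx c P) (sz c P) n k ^ d := by
  have h1 : ∀ i : Fin (n + 2),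
      (if (i : ℕ) ≤ k then algebraMap F L (a i) * gv T c P i ^ d else 0) =
        if (i : ℕ) ≤ k then algebraMap M L T.c * Xc (sx c P) (sy c P) (sz c P) n i ^ d else 0 := by
    intro i
    by_cases hi : (i : ℕ) ≤ k
    · rw [if_pos hi, if_pos hi]
      rcases Fin.eq_castSucc_or_eq_last i with ⟨j, rfl⟩ | rfl
      · rw [gv, fv, mul_pow, ← mul_assoc, IsScalarTower.algebraMap_apply F M L, ← map_pow,
          ← map_mul, T.hα j]
      · rw [Fin.val_last] at hi
        omega
    · rw [if_neg hi, if_neg hi]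
  unfold ps
  rw [Finset.sum_congr rfl fun i _ => h1 i]
  have h2 := Fin.sum_univ_eq_sum_range (fun j : ℕ =>
    if j ≤ k then algebraMap M L T.c * Xc (sx c P) (sy c P) (sz c P) n j ^ d else 0) (n + 2)
  have h3 : (Finset.range (n + 2)).filter (fun j => j ≤ k) = Finset.range (k + 1) := by
    ext j
    rw [Finset.mem_filter, Finset.mem_range, Finset.mem_range]
    omega
  rw [h2, ← Finset.sum_filter, h3, ← Finset.mul_sum, sum_Xc (sq c P hd T.hε) hk]

/-- The equation. Proof: `ps_gv` with `k = n`, `Xc_last`. -/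
theorem gv_eq (hd : 0 < d) (P : (Vn D n).pt L) :
    ∑ i, algebraMap F L (a i) * gv T c P i ^ d = 0 := by
  have h1 := ps_gv T c hd P (le_refl n)
  unfold ps at h1
  rw [Fin.sum_univ_castSucc, if_neg (by rw [Fin.val_last]; omega), add_zero] at h1
  have h2 : ∀ i : Fin (n + 1),
      (if ((i.castSucc : Fin (n + 2)) : ℕ) ≤ n then
        algebraMap F L (a i.castSucc) * gv T c P i.castSucc ^ d else 0) =
        algebraMap F L (a i.castSucc) * gv T c P i.castSucc ^ d := fun i =>
    if_pos (by rw [Fin.val_castSucc]; omega)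
  rw [Finset.sum_congr rfl fun i _ => h2 i] at h1
  rw [Fin.sum_univ_castSucc, h1]
  have h3 : algebraMap F L (a (Fin.last (n + 1))) * gv T c P (Fin.last (n + 1)) ^ d =
      - (algebraMap M L T.c * Wc (sx c P) (sz c P) n n ^ d) := by
    rw [gv, fv, Fin.val_last, Xc_last, mul_pow, ← mul_assoc, IsScalarTower.algebraMap_apply F M L,
      ← map_pow, ← map_mul, T.hl, map_neg, neg_mul]
  rw [h3, add_neg_cancel]

open Classical in
/-- The map. -/
noncomputable def phi (hd : 0 < d) (P : (Vn D n).pt L) : (Xd d a).pt L :=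
  if h : gv T c P ≠ 0 then T.nu hd (Quotient.mk _ ⟨gv T c P, h, gv_eq T c hd P⟩) else T.B L hd

theorem phi_of (hd : 0 < d) {P : (Vn D n).pt L} (h : gv T c P ≠ 0) (h' : ¬ Dgv d a (gv T c P)) :
    phi T c hd P = Quotient.mk _ ⟨gv T c P, h, gv_eq T c hd P⟩ := by
  rw [phi, dif_pos h]
  exact T.nu_not hd h'

theorem phi_B (hd : 0 < d) {P : (Vn D n).pt L} (h : gv T c P = 0 ∨ Dgv d a (gv T c P)) :
    phi T c hd P = T.B L hd := by
  by_cases h0 : gv T c P = 0
  · rw [phi, dif_neg (not_not.2 h0)]
  · rw [phi, dif_pos h0]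
    exact T.nu_of hd (h.resolve_left h0)

/-- `phi` has values in the fixed points of `nu`. -/
theorem nu_phi (hd : 0 < d) (hn : 2 ≤ n) (P : (Vn D n).pt L) :
    T.nu hd (phi T c hd P) = phi T c hd P := by
  by_cases h : gv T c P = 0 ∨ Dgv d a (gv T c P)
  · rw [phi_B T c hd h, T.nu_of hd (T.dgn_B hd hn)]
  · rw [not_or] at h
    rw [phi_of T c hd h.1 h.2]
    exact T.nu_not hd h.2

omit [Algebra F L] [IsScalarTower F M L] in
theorem gv_map {N : Type} [Field N] [Algebra M N]
    (σ : L →ₐ[M] N) (P : (Vn D n).pt L) (k : Fin (n + 2)) :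
    gv T c ((Vn D n).map σ P) k = σ (gv T c P k) := by
  rw [gv, gv, map_mul, σ.commutes]
  exact congrArg _ (fv_map c σ P k)

/-- Naturality. Proof: `c_map`, `Xc_map`, `dgv_map`, `map_B`. -/
theorem phi_map (hd : 0 < d) {N : Type} [Field N] [Algebra F N] [Algebra M N] [IsScalarTower F M N]
    (σ : L →ₐ[M] N) (P : (Vn D n).pt L) :
    (Xd d a).map (σ.restrictScalars F) (phi T c hd P) = phi T c hd ((Vn D n).map σ P) := by
  have hσ : ∀ x : M, (σ.restrictScalars F) (algebraMap M L x) = algebraMap M N x := fun x =>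
    σ.commutes x
  have h1 : gv T c ((Vn D n).map σ P) = fun i => (σ.restrictScalars F) (gv T c P i) :=
    funext fun i => gv_map T c σ P i
  by_cases h : gv T c P ≠ 0
  · have h' : gv T c ((Vn D n).map σ P) ≠ 0 := by
      intro h0
      apply h
      funext i
      have h2 := congrFun h0 i
      rw [h1] at h2
      exact (map_eq_zero (σ.restrictScalars F)).1 h2
    rw [phi, dif_pos h, phi, dif_pos h', T.nu_map hd (σ.restrictScalars F) hσ]
    refine congrArg (T.nu hd) (Quotient.sound ⟨1, one_ne_zero, funext fun i => ?_⟩)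
    rw [one_mul]
    exact congrFun h1 i
  · have h' : ¬ gv T c ((Vn D n).map σ P) ≠ 0 := by
      rw [not_not] at h ⊢
      rw [h1, h]
      funext i
      exact map_zero _
    rw [phi, dif_neg h, phi, dif_neg h', T.map_B hd (σ.restrictScalars F) hσ]

end phi

end DH
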