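import Pool.Agent.Lib.MP_f80667_ag.Dh.Phi
import Pool.Agent.Lib.MP_f80667_ag.Dh.FerA
import Pool.Agent.Lib.MP_f80667_ag.Dh.CoA

/-! The values of the coordinates of the image. -/

open ZC BE PE CV QS Polynomial

namespace DH

section aux

variable {K L Ω : Type} [Field K] [Field L] [Field Ω] [Algebra K L] [Algebra K Ω]

/-- The value of a finite product. -/
private theorem hv_prod (w : Place K L Ω) (s : Finset ℕ) {f : ℕ → L} {g : ℕ → Ω}
    (h : ∀ j, Hv w (f j) (g j)) : Hv w (∏ j ∈ s, f j) (∏ j ∈ s, g j) := by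
  classical
  induction s using Finset.induction_on with
  | empty =>
    rw [Finset.prod_empty, Finset.prod_empty]
    exact Hv.one
  | insert i s hi ih =>
    rw [Finset.prod_insert hi, Finset.prod_insert hi]
    exact (h i).mul ih

/-- The values of the formulas. -/
private theorem hv_Xc (w : Place K L Ω) {x y z : ℕ → L} {x' y' z' : ℕ → Ω}
    (hx : ∀ j, Hv w (x j) (x' j)) (hy : ∀ j, Hv w (y j) (y' j)) (hz : ∀ j, Hv w (z j) (z' j))
    (n k : ℕ) : Hv w (Xc x y z n k) (Xc x' y' z' n k) := by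
  unfold Xc
  split_ifs
  · exact ((hv_prod w _ hz).mul (hy k)).mul (hv_prod w _ hx)
  · exact hv_prod w _ hz

end aux

section val

variable {F : Type} [Field F] {d n : ℕ} {a : Fin (n + 2) → F} {M : Type} [Field M] [CharZero M]
  [Algebra F M] (T : Rt d a M) {D : Crv M} (c : Cu D d (Af d T.ε)) {K L Ω : Type} [Field K]
  [Field L] [Field Ω] [Algebra K L] [Algebra K Ω] [Algebra F K] [Algebra F L] [Algebra F Ω]
  [Algebra M K] [Algebra M L] [Algebra M Ω] [IsScalarTower F K L] [IsScalarTower F K Ω]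
  [IsScalarTower M K L] [IsScalarTower M K Ω] [IsScalarTower F M K] [IsScalarTower F M L]
  [IsScalarTower F M Ω]

/-- The values of the coordinates of the image. Proof: `c_red` for all coordinates with factors `b_j`, `Xc_mul`; products
and the value of a product of integral elements. -/
theorem gv_red (hd : 2 ≤ d) (w : Place K L Ω) {P : (Vn D n).pt L} {Q : (Vn D n).pt Ω}
    (h : (Vn D n).red w P Q) :
    ∃ b : L, b ≠ 0 ∧ Rv w (fun k => b * gv T c P k) (gv T c Q) := by
  have h1 : ∀ j : Fin n, ∃ b : L, b ≠ 0 ∧ Hv w (b * cx c (P j)) (cx c (Q j)) ∧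
      Hv w (b * cy c (P j)) (cy c (Q j)) ∧ Hv w (b * cz c (P j)) (cz c (Q j)) :=
    fun j => c_red c hd T.hε w (h j)
  choose b hb0 hbx hby hbz using h1
  let e : ℕ → L := fun j => if h : 1 ≤ j ∧ j ≤ n then b ⟨j - 1, by omega⟩ else 1
  have he0 : ∀ j, e j ≠ 0 := by
    intro j
    by_cases hj : 1 ≤ j ∧ j ≤ n
    · have h2 : e j = b ⟨j - 1, by omega⟩ := dif_pos hj
      rw [h2]
      exact hb0 _
    · have h2 : e j = 1 := dif_neg hj
      rw [h2]
      exact one_ne_zero
  have hx : ∀ j, Hv w (e j * sx c P j) (sx c Q j) := by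
    intro j
    by_cases hj : 1 ≤ j ∧ j ≤ n
    · have h2 : e j = b ⟨j - 1, by omega⟩ := dif_pos hj
      rw [h2, sx, dif_pos hj, sx, dif_pos hj]
      exact hbx _
    · rw [sx, dif_neg hj, sx, dif_neg hj, mul_zero]
      exact Hv.zero
  have hy : ∀ j, Hv w (e j * sy c P j) (sy c Q j) := by
    intro j
    by_cases hj : 1 ≤ j ∧ j ≤ n
    · have h2 : e j = b ⟨j - 1, by omega⟩ := dif_pos hj
      rw [h2, sy, dif_pos hj, sy, dif_pos hj]
      exact hby _
    · have h2 : e j = 1 := dif_neg hj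
      rw [h2, sy, dif_neg hj, sy, dif_neg hj, one_mul]
      exact Hv.one
  have hz : ∀ j, Hv w (e j * sz c P j) (sz c Q j) := by
    intro j
    by_cases hj : 1 ≤ j ∧ j ≤ n
    · have h2 : e j = b ⟨j - 1, by omega⟩ := dif_pos hj
      rw [h2, sz, dif_pos hj, sz, dif_pos hj]
      exact hbz _
    · have h2 : e j = 1 := dif_neg hj
      rw [h2, sz, dif_neg hj, sz, dif_neg hj, one_mul]
      exact Hv.one
  refine ⟨∏ j ∈ Finset.range (n + 1), e j, Finset.prod_ne_zero_iff.2 fun j _ => he0 j, ?_⟩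
  intro k
  have h2 : (∏ j ∈ Finset.range (n + 1), e j) * fv c P k =
      Xc (fun j => e j * sx c P j) (fun j => e j * sy c P j) (fun j => e j * sz c P j) n k :=
    (Xc_mul e n k (Nat.le_of_lt_succ k.isLt)).symm
  have h3 : (∏ j ∈ Finset.range (n + 1), e j) * gv T c P k =
      algebraMap M L (T.α k) * ((∏ j ∈ Finset.range (n + 1), e j) * fv c P k) := by
    rw [gv, mul_left_comm]
  have h4 : gv T c Q k = algebraMap M Ω (T.α k) * fv c Q k := rfl
  change Hv w ((∏ j ∈ Finset.range (n + 1), e j) * gv T c P k) (gv T c Q k)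
  rw [h3, h2, h4]
  exact (plr_hv w _).mul (hv_Xc w hx hy hz n k)

end val

end DH
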