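import Pool.Agent.Lib.MP_f80667_ag.Dh.PhiR

/-! The value of the image of a point. -/

open ZC BE PE CV QS Polynomial

namespace DH

section aux

variable {F : Type} [Field F] {d n : ℕ} {a : Fin (n + 2) → F} {K L Ω : Type} [Field K] [Field L]
  [Field Ω] [Algebra K L] [Algebra K Ω] [Algebra F K] [Algebra F L] [Algebra F Ω]
  [IsScalarTower F K L] [IsScalarTower F K Ω]

/-- The values of the partial sums. -/
private theorem ps_hv (w : Place K L Ω) {v : Fin (n + 2) → L} {u : Fin (n + 2) → Ω}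
    (h : Rv w v u) (k : ℕ) : Hv w (ps a d v k) (ps a d u k) := by
  classical
  unfold ps
  generalize (Finset.univ : Finset (Fin (n + 2))) = s
  induction s using Finset.induction_on with
  | empty =>
    rw [Finset.sum_empty, Finset.sum_empty]
    exact Hv.zero
  | insert i s hi ih =>
    rw [Finset.sum_insert hi, Finset.sum_insert hi]
    refine Hv.add ?_ ih
    split_ifs
    · exact (plr_hv w _).mul ((h i).pow d)
    · exact Hv.zero

end aux

section val

variable {F : Type} [Field F] {d n : ℕ} {a : Fin (n + 2) → F} {M : Type} [Field M] [CharZero M]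
  [Algebra F M] (T : Rt d a M) {D : Crv M} (c : Cu D d (Af d T.ε)) {K L Ω : Type} [Field K]
  [Field L] [Field Ω] [Algebra K L] [Algebra K Ω] [Algebra F K] [Algebra F L] [Algebra F Ω]
  [Algebra M K] [Algebra M L] [Algebra M Ω] [IsScalarTower F K L] [IsScalarTower F K Ω]
  [IsScalarTower M K L] [IsScalarTower M K Ω] [IsScalarTower F M K] [IsScalarTower F M L]
  [IsScalarTower F M Ω]

/-- Proof: `W_k(P) ^ d` is a partial sum (`ps_gv`); the value of `b W_k(P)` is `W_k(Q)`. -/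
theorem gv_deg (hd : 2 ≤ d) (w : Place K L Ω) {P : (Vn D n).pt L} {Q : (Vn D n).pt Ω}
    (h : (Vn D n).red w P Q) (hP : Dgv d a (gv T c P)) : Dgv d a (gv T c Q) := by
  obtain ⟨b, -, h1⟩ := gv_red T c hd w h
  obtain ⟨k, hk1, hk2, h2⟩ := hP
  refine ⟨k, hk1, hk2, ?_⟩
  have h3 := ps_hv (d := d) (a := a) w h1 k
  rw [ps_mul, h2, mul_zero] at h3
  exact h3.uniq Hv.zero

/-- The value of a point with an indeterminate value is degenerate. Proof: `exists_zero` for `Q`: `1 ≤ k < n`, `z_k(Q) = 0`,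
`y_k(Q) ≠ 0`. If the value of `e * gv P` is `u` then the value of `e * W_k(P) = e * X_k(P) * z_k(P) / y_k(P)` (`Wc_mul`) is
`0`, so the partial sum of `u` up to `k` is `0` (`ps_gv`, `ps_mul`, `plr_hv`, `Hv.uniq`). -/
theorem gv_ind (hd : 2 ≤ d) (w : Place K L Ω) {P : (Vn D n).pt L} {Q : (Vn D n).pt Ω}
    (h : (Vn D n).red w P Q) (hQ : gv T c Q = 0) {e : L} {u : Fin (n + 2) → Ω}
    (hu : Rv w (fun k => e * gv T c P k) u) : Dgv d a u := by
  have hd0 : 0 < d := by omega
  have h0 : ∀ k ≤ n + 1, Xc (sx c Q) (sy c Q) (sz c Q) n k = 0 := by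
    intro k hk
    have h1 := congrFun hQ ⟨k, by omega⟩
    rw [gv, fv] at h1
    exact (mul_eq_zero.1 h1).resolve_left fun h2 => T.a_ne hd0 _ ((map_eq_zero _).1 h2)
  obtain ⟨k, hk1, hk2, hz, hy⟩ := exists_zero hd0 (sq c Q hd0 T.hε) h0
  refine ⟨k, hk1, hk2, ?_⟩
  -- the value of `z_k / y_k`
  have hj : 1 ≤ k ∧ k ≤ n := ⟨hk1, hk2.le⟩
  obtain ⟨b, hb, -, hby, hbz⟩ := c_red c hd T.hε w (h ⟨k - 1, by omega⟩)
  have ey : sy c Q k = cy c (Q ⟨k - 1, by omega⟩) := dif_pos hj
  have ez : sz c Q k = cz c (Q ⟨k - 1, by omega⟩) := dif_pos hj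
  have ey' : sy c P k = cy c (P ⟨k - 1, by omega⟩) := dif_pos hj
  have ez' : sz c P k = cz c (P ⟨k - 1, by omega⟩) := dif_pos hj
  rw [ey] at hy
  rw [ez] at hz
  have hy0 : b * cy c (P ⟨k - 1, by omega⟩) ≠ 0 := hby.ne hy
  have hyP : sy c P k ≠ 0 := by
    rw [ey']
    exact right_ne_zero_of_mul hy0
  have h1 : Hv w (sz c P k / sy c P k) (0 : Ω) := by
    have h2 := hbz.div hby hy
    rw [hz, zero_div, mul_div_mul_left _ _ hb] at h2
    rw [ez', ey']
    exact h2
  -- the value of `e W_k`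
  have hα : T.α ⟨k, by omega⟩ ≠ 0 := T.a_ne hd0 _
  have hαL : algebraMap M L (T.α ⟨k, by omega⟩) ≠ 0 := fun h2 => hα ((map_eq_zero _).1 h2)
  have hαΩ : algebraMap M Ω (T.α ⟨k, by omega⟩) ≠ 0 := fun h2 => hα ((map_eq_zero _).1 h2)
  have h3 : Hv w (e * gv T c P ⟨k, by omega⟩ / algebraMap M L (T.α ⟨k, by omega⟩))
      (u ⟨k, by omega⟩ / algebraMap M Ω (T.α ⟨k, by omega⟩)) :=
    (hu ⟨k, by omega⟩).div (plr_hv w (T.α ⟨k, by omega⟩)) hαΩ
  have h4 : Hv w (e * Wc (sx c P) (sz c P) n k) (0 : Ω) := by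
    have h5 := h3.mul h1
    rw [mul_zero] at h5
    have h6 : e * Wc (sx c P) (sz c P) n k =
        e * gv T c P ⟨k, by omega⟩ / algebraMap M L (T.α ⟨k, by omega⟩) *
          (sz c P k / sy c P k) := by
      have h7 := Wc_mul (x := sx c P) (y := sy c P) (z := sz c P) (n := n) (k := k) hk2.le
      have h8 : gv T c P ⟨k, by omega⟩ = algebraMap M L (T.α ⟨k, by omega⟩) *
          Xc (sx c P) (sy c P) (sz c P) n k := rfl
      rw [h8, mul_left_comm, mul_div_cancel_left₀ _ hαL, ← mul_div_assoc, eq_div_iff hyP,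
        mul_assoc, h7, mul_assoc]
    rw [h6]
    exact h5
  have h5 := ps_hv (d := d) (a := a) w hu k
  rw [ps_mul, ps_gv T c hd0 P hk2.le, mul_left_comm, ← mul_pow] at h5
  have h6 := (plr_hv w T.c).mul (h4.pow d)
  rw [zero_pow hd0.ne', mul_zero] at h6
  exact h5.uniq h6

/-- **The value of the image.** Proof: if `phi P = B` then `gv P = 0` or degenerate, the same for `Q` (`gv_red`, `gv_deg`).
Otherwise `phi P` has a value `u` (`red_ex`, `rv_prim`); if `gv Q ≠ 0` then `u = [gv Q]` (`gv_red`, `rv_unit`), if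
`gv Q = 0` then `u` is degenerate (`gv_ind`). -/
theorem phi_red (hd : 2 ≤ d) (hn : 2 ≤ n) (w : Place K L Ω) {P : (Vn D n).pt L}
    {Q : (Vn D n).pt Ω} (h : (Vn D n).red w P Q) (hd0 : 0 < d) :
    ∃ u : (Xd d a).pt Ω, (Xd d a).red w (phi T c hd0 P) u ∧ T.nu hd0 u = phi T c hd0 Q := by
  obtain ⟨b, hb, h1⟩ := gv_red T c hd w h
  by_cases hP : gv T c P = 0 ∨ Dgv d a (gv T c P)
  · have hQ : gv T c Q = 0 ∨ Dgv d a (gv T c Q) := by
      rcases hP with hP | hP
      · left
        funext k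
        have h2 := h1 k
        rw [hP] at h2
        change Hv w (b * 0) (gv T c Q k) at h2
        rw [mul_zero] at h2
        exact h2.uniq Hv.zero
      · exact Or.inr (gv_deg T c hd w h hP)
    refine ⟨T.B Ω hd0, ?_, ?_⟩
    · rw [phi_B T c hd0 hP]
      refine ⟨_, _, rfl, rfl, fun i => ?_⟩
      change Hv w (T.bv L i) (T.bv Ω i)
      unfold Rt.bv
      split_ifs
      · exact plr_hv w (T.α i)
      · exact Hv.zero
    · rw [phi_B T c hd0 hQ, T.nu_of hd0 (T.dgn_B hd0 hn)]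
  · rw [not_or] at hP
    obtain ⟨u, hu⟩ := red_ex w (phi T c hd0 P)
    refine ⟨u, hu, ?_⟩
    obtain ⟨P', Q', e1, rfl, h2⟩ := hu
    rw [phi_of T c hd0 hP.1 hP.2] at e1
    obtain ⟨e, he, h3⟩ := Quotient.exact e1
    have h4 : Rv w (fun k => e * gv T c P k) Q'.x := by
      intro k
      have h5 := h2 k
      rw [h3] at h5
      exact h5
    by_cases hQ : gv T c Q = 0
    · rw [phi_B T c hd0 (Or.inl hQ)]
      exact T.nu_of hd0 (gv_ind T c hd w h hQ h4)
    · have h5 : Rv w (fun k => b / e * (e * gv T c P k)) (gv T c Q) := by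
        intro k
        have h6 := h1 k
        have h7 : b / e * (e * gv T c P k) = b * gv T c P k := by
          rw [← mul_assoc, div_mul_cancel₀ _ he]
        change Hv w (b / e * (e * gv T c P k)) (gv T c Q k)
        rw [h7]
        exact h6
      obtain ⟨r, hr, -, h6⟩ := rv_unit w Q'.ne hQ h4 h5
      rw [phi, dif_pos hQ]
      exact congrArg (T.nu hd0) (Quotient.sound ⟨r, hr, h6⟩)

end val

end DH
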