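import Pool.Agent.Lib.MP_f80667_ag.Dh.Phi
import Pool.Agent.Lib.MP_f80667_ag.Dh.FerA
import Pool.Agent.Lib.MP_f80667_ag.Dh.CoA

/-!
Points over a nondegenerate point.
-/

open ZC BE PE CV QS Polynomial IntermediateField

namespace DH

variable {F : Type} [Field F] {d n : ℕ} {a : Fin (n + 2) → F} {M : Type} [Field M] [CharZero M]
  [Algebra F M] (T : Rt d a M) {D : Crv M} (c : Cu D d (Af d T.ε))

section pre

variable {L : Type} [Field L] [Algebra F L] [Algebra M L] [IsScalarTower F M L]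

/-- The coordinates divided by the roots. -/
private noncomputable def xq (x : Fin (n + 2) → L) (j : ℕ) : L :=
  if h : j < n + 2 then x ⟨j, h⟩ / algebraMap M L (T.α ⟨j, h⟩) else 0

omit [CharZero M] [IsScalarTower F M L] [Algebra F L] in
private theorem xq_mul (hd : 0 < d) (x : Fin (n + 2) → L) (k : Fin (n + 2)) :
    algebraMap M L (T.α k) * xq T x k = x k := by
  have h0 : algebraMap M L (T.α k) ≠ 0 := fun h => T.a_ne hd k ((map_eq_zero _).1 h)
  rw [xq, dif_pos k.2]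
  exact mul_div_cancel₀ _ h0

omit [CharZero M] in
private theorem xq_pow (hd : 0 < d) (x : Fin (n + 2) → L) (k : Fin (n + 2)) (hk : (k : ℕ) ≤ n) :
    algebraMap F L (a k) * x k ^ d = algebraMap M L T.c * xq T x k ^ d := by
  have h1 := T.hα ⟨k, by omega⟩
  have h2 : (⟨k, by omega⟩ : Fin (n + 1)).castSucc = k := Fin.ext rfl
  rw [h2] at h1
  rw [← h1, ← xq_mul T hd x k, map_mul, map_pow, mul_pow, ← IsScalarTower.algebraMap_apply F M L,
    mul_assoc]

omit [CharZero M] in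
private theorem xq_last (hd : 0 < d) (x : Fin (n + 2) → L) :
    algebraMap F L (a (Fin.last (n + 1))) * x (Fin.last (n + 1)) ^ d =
      -(algebraMap M L T.c * xq T x (n + 1) ^ d) := by
  have h1 := T.hl
  have h3 := xq_mul T hd x (Fin.last (n + 1))
  have h4 : ((Fin.last (n + 1) : Fin (n + 2)) : ℕ) = n + 1 := rfl
  rw [h4] at h3
  have h5 := congrArg (algebraMap M L) h1
  rw [map_mul, map_pow, map_neg, ← IsScalarTower.algebraMap_apply F M L] at h5
  rw [← h3, mul_pow, ← mul_assoc, h5, neg_mul]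

omit [CharZero M] in
private theorem ps_xq (hd : 0 < d) (x : Fin (n + 2) → L) (k : ℕ) (hk : k ≤ n) :
    ps a d x k = algebraMap M L T.c * ∑ j ∈ Finset.range (k + 1), xq T x j ^ d := by
  rw [ps, Finset.mul_sum]
  have h1 : ∀ i : Fin (n + 2), (if (i : ℕ) ≤ k then algebraMap F L (a i) * x i ^ d else 0) =
      (fun j : ℕ => if j ≤ k then algebraMap M L T.c * xq T x j ^ d else 0) i := by
    intro i
    dsimp only
    split_ifs with h
    · exact xq_pow T hd x i (by omega)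
    · rfl
  rw [Finset.sum_congr rfl fun i _ => h1 i,
    Fin.sum_univ_eq_sum_range (fun j : ℕ => if j ≤ k then algebraMap M L T.c * xq T x j ^ d else 0),
    ← Finset.sum_filter]
  refine Finset.sum_congr ?_ fun _ _ => rfl
  ext j
  simp only [Finset.mem_filter, Finset.mem_range]
  omega

omit [CharZero M] in
private theorem xq_sum (hd : 0 < d) (P : Hc d a L) :
    ∑ j ∈ Finset.range (n + 1), xq T P.x j ^ d = xq T P.x (n + 1) ^ d := by
  have hc : algebraMap M L T.c ≠ 0 := fun h => T.hc ((map_eq_zero _).1 h)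
  have h1 := P.eq
  rw [Fin.sum_univ_castSucc, xq_last T hd P.x] at h1
  have h2 := ps_xq T hd P.x n le_rfl
  have h3 : ps a d P.x n = ∑ i : Fin (n + 1), algebraMap F L (a i.castSucc) * P.x i.castSucc ^ d := by
    rw [ps, Fin.sum_univ_castSucc, if_neg (by simp), add_zero]
    refine Finset.sum_congr rfl fun i _ => ?_
    rw [if_pos (by have := i.2; simp only [Fin.val_castSucc]; omega)]
  rw [← h3, h2, ← sub_eq_add_neg, ← mul_sub] at h1
  exact sub_eq_zero.1 ((mul_eq_zero.1 h1).resolve_left hc)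

end pre

/-- A preimage, if the partial sums have roots. Proof: `X_i = x_i / α_i`, `S_k = ∑ (j ≤ k) X_j ^ d = ps a x k / c ≠ 0` for
`1 ≤ k ≤ n - 1`; `W k ^ d = S_k`, `W 0 = X 0`, `W n = X (n+1)`; the `k`-th point is `(W_(k-1) : X_k : W_k)` (`exists_c`), which is
not `0` because `W k ≠ 0` or `W (k-1) ≠ 0`; `Xc_mul`, `Xc_pre`: the image is `(∏ b_k)⁻¹ ∏ W_k` times the point. -/
theorem exists_pre {L : Type} [Field L] [Algebra F L] [Algebra M L] [IsScalarTower F M L]
    (hd : 0 < d) (hn : 2 ≤ n) (P : Hc d a L) (hP : ¬ Dgv d a P.x) (W : ℕ → L)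
    (hW : ∀ k, 1 ≤ k → k < n → algebraMap M L T.c * W k ^ d = ps a d P.x k) :
    ∃ e : (Vn D n).pt L, phi T c hd e = (Quotient.mk _ P : (Xd d a).pt L) := by
  have hc : algebraMap M L T.c ≠ 0 := fun h => T.hc ((map_eq_zero _).1 h)
  set X : ℕ → L := xq T P.x with hX
  obtain ⟨V, hV⟩ : ∃ V : ℕ → L, V = fun k => if k = 0 then X 0 else if k = n then X (n + 1) else W k :=
    ⟨_, rfl⟩
  have V0 : V 0 = X 0 := by rw [hV]; exact if_pos rfl
  have Vn' : V n = X (n + 1) := by
    rw [hV]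
    dsimp only
    rw [if_neg (by omega), if_pos rfl]
  have Vk : ∀ k, 1 ≤ k → k < n → V k = W k := by
    intro k h1 h2
    rw [hV]
    dsimp only
    rw [if_neg (by omega), if_neg (by omega)]
  -- the partial sums
  have hS : ∀ k, k ≤ n → V k ^ d = ∑ j ∈ Finset.range (k + 1), X j ^ d := by
    intro k hk
    rcases Nat.eq_zero_or_pos k with h0 | h0
    · rw [h0, V0, Finset.sum_range_one]
    · rcases Nat.lt_or_ge k n with h1 | h1
      · rw [Vk k h0 h1]
        have h2 := hW k h0 h1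
        rw [ps_xq T hd P.x k hk] at h2
        exact mul_left_cancel₀ hc h2
      · have : k = n := by omega
        rw [this, Vn', xq_sum T hd P]
  have hne : ∀ k, 1 ≤ k → k < n → V k ≠ 0 := by
    intro k h1 h2 h0
    refine hP ⟨k, h1, h2, ?_⟩
    rw [← hW k h1 h2, ← Vk k h1 h2, h0, zero_pow hd.ne', mul_zero]
  have hex : ∀ k : Fin n, ∃ (Q : D.V.pt L) (b : L), b ≠ 0 ∧ V k = b * cx c Q ∧
      X (k + 1) = b * cy c Q ∧ V (k + 1) = b * cz c Q := by
    intro k
    refine exists_c c hd T.hε ?_ ?_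
    · rw [hS k (by omega), hS (k + 1) (by omega), Finset.sum_range_succ _ ((k : ℕ) + 1)]
    · rcases Nat.lt_or_ge ((k : ℕ) + 1) n with h1 | h1
      · exact Or.inr (Or.inr (hne _ (by omega) h1))
      · exact Or.inl (hne _ (by omega) (by omega))
  choose e b hb h1 h2 h3 using hex
  obtain ⟨B, hB⟩ : ∃ B : ℕ → L, B = fun j => if h : 1 ≤ j ∧ j ≤ n then b ⟨j - 1, by omega⟩ else 1 :=
    ⟨_, rfl⟩
  have hBne : ∀ j, B j ≠ 0 := by
    intro j
    rw [hB]
    dsimp only
    split_ifs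
    · exact hb _
    · exact one_ne_zero
  have hB0 : B 0 = 1 := by
    rw [hB]
    exact dif_neg (by omega)
  have ex : ∀ j, 1 ≤ j → j ≤ n → B j * sx c e j = V (j - 1) := by
    intro j hj1 hj2
    rw [hB]
    dsimp only
    rw [sx, dif_pos ⟨hj1, hj2⟩, dif_pos ⟨hj1, hj2⟩]
    exact (h1 _).symm
  have ey : ∀ j, 1 ≤ j → j ≤ n → B j * sy c e j = X j := by
    intro j hj1 hj2
    rw [hB]
    dsimp only
    rw [sy, dif_pos ⟨hj1, hj2⟩, dif_pos ⟨hj1, hj2⟩, ← h2]
    exact congrArg X (by dsimp only; omega)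
  have ez : ∀ j, 1 ≤ j → j ≤ n → B j * sz c e j = V j := by
    intro j hj1 hj2
    rw [hB]
    dsimp only
    rw [sz, dif_pos ⟨hj1, hj2⟩, dif_pos ⟨hj1, hj2⟩, ← h3]
    exact congrArg V (by dsimp only; omega)
  have ey0 : B 0 * sy c e 0 = 1 := by rw [hB0, sy, dif_neg (by omega), one_mul]
  have ez0 : B 0 * sz c e 0 = 1 := by rw [hB0, sz, dif_neg (by omega), one_mul]
  have hmul : ∀ k : ℕ, k ≤ n + 1 → (∏ j ∈ Finset.range (n + 1), B j) *
      Xc (sx c e) (sy c e) (sz c e) n k = (∏ j ∈ Finset.Ioo 0 n, V j) * X k := by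
    intro k hk
    rw [← Xc_mul B n k hk]
    exact Xc_pre (by omega) V X ex ey ez V0 Vn' ey0 ez0 k hk
  have hβ : (∏ j ∈ Finset.range (n + 1), B j) ≠ 0 := Finset.prod_ne_zero_iff.2 fun j _ => hBne j
  have hω : (∏ j ∈ Finset.Ioo 0 n, V j) ≠ 0 := Finset.prod_ne_zero_iff.2 fun j hj => by
    rw [Finset.mem_Ioo] at hj
    exact hne j (by omega) hj.2
  obtain ⟨s, hs⟩ : ∃ s : L, s = (∏ j ∈ Finset.range (n + 1), B j)⁻¹ * (∏ j ∈ Finset.Ioo 0 n, V j) :=
    ⟨_, rfl⟩
  have hs0 : s ≠ 0 := by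
    rw [hs]
    exact mul_ne_zero (inv_ne_zero hβ) hω
  have hgv : gv T c (e : (Vn D n).pt L) = fun k => s * P.x k := by
    funext k
    have h4 := hmul k (by omega)
    have h5 : fv c e k = s * X k := by
      rw [fv, hs, mul_assoc, ← h4, inv_mul_cancel_left₀ hβ]
    rw [gv, h5, ← xq_mul T hd P.x k]
    ring
  refine ⟨e, ?_⟩
  have hg0 : gv T c (e : (Vn D n).pt L) ≠ 0 := by
    intro h
    apply P.ne
    funext k
    have h6 := congrFun h k
    rw [hgv] at h6
    exact (mul_eq_zero.1 h6).resolve_left hs0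
  have hgd : ¬ Dgv d a (gv T c (e : (Vn D n).pt L)) := by
    rw [hgv, dgv_mul hs0]
    exact hP
  rw [phi_of T c hd hg0 hgd]
  refine Quotient.sound ⟨s⁻¹, inv_ne_zero hs0, funext fun k => ?_⟩
  change P.x k = s⁻¹ * gv T c (e : (Vn D n).pt L) k
  rw [hgv]
  exact (inv_mul_cancel_left₀ hs0 _).symm

end DH
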