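import Pool.Agent.Lib.MP_f80667_ag.Dh.PhiV
import Pool.Agent.Lib.MP_f80667_ag.Dh.Nu

/-!
The push-forward of cycles by `phi`: cycles rationally equivalent to `0` go to such cycles.
-/

open ZC BE PE CV QS Polynomial

namespace DH

variable {F : Type} [Field F] {d n : ℕ} {a : Fin (n + 2) → F} {M : Type} [Field M] [CharZero M]
  [Algebra F M] (T : Rt d a M) {D : Crv M} (c : Cu D d (Af d T.ε)) {K : Type} [Field K] [CharZero K]
  [Algebra F K] [Algebra M K] [IsScalarTower F M K] {Ω : Type} [Field Ω] [Algebra K Ω]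
  [Algebra F Ω] [Algebra M Ω] [IsScalarTower F K Ω] [IsScalarTower M K Ω] [IsScalarTower F M Ω]
  [IsAlgClosure K Ω]

/-- **The push-forward.** Proof: as `kpi_ratEq` in `Pe/Kl.lean`: for a generator `(E, G, x, S, m, y)` the point `phi x` over the
algebraic closure of `E` is invariant (`phi_map`), at `w ∈ S` it has a value `u w` with `nu (u w) = phi (y w)` (`phi_red`), the
cycle of the `u w` is rationally equivalent to `0`, and so is its image under `nu` (`ratEq_cycX`, `nu_ratEq`). -/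
theorem phi_ratEq (hd : 2 ≤ d) (hd0 : 0 < d) (hn : 2 ≤ n) {z : (Vn D n).pt Ω →₀ ℤ}
    (hz : z ∈ (Vn D n).ratEq K Ω) :
    Finsupp.mapDomain (phi T c hd0) z ∈ (Xd d a).ratEq K Ω := by
  classical
  have h : (Vn D n).ratEq K Ω ≤ ((Xd d a).ratEq K Ω).comap
      (Finsupp.mapDomain.addMonoidHom (phi T c hd0)) := by
    rw [Vr.ratEq, AddSubgroup.closure_le]
    rintro _ ⟨E, i1, i2, i3, i4, hE, G, x, hG, hx, S, m, y, hS, hv, rfl⟩
    change Finsupp.mapDomain (phi T c hd0) _ ∈ (Xd d a).ratEq K Ω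
    let i5 : Algebra F E := ((algebraMap K E).comp (algebraMap F K)).toAlgebra
    have i6 : IsScalarTower F K E := IsScalarTower.of_algebraMap_eq fun _ => rfl
    have i7 : IsScalarTower F M E := by
      refine IsScalarTower.of_algebraMap_eq fun a => ?_
      rw [IsScalarTower.algebraMap_apply F K E, IsScalarTower.algebraMap_apply M K E,
        ← IsScalarTower.algebraMap_apply F M K]
    have i8 : IsScalarTower F M (AlgebraicClosure E) := by
      refine IsScalarTower.of_algebraMap_eq fun a => ?_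
      rw [IsScalarTower.algebraMap_apply F E (AlgebraicClosure E),
        IsScalarTower.algebraMap_apply M E (AlgebraicClosure E),
        ← IsScalarTower.algebraMap_apply F M E]
    have h1 : ∀ w ∈ S, ∃ u : (Xd d a).pt Ω, (Xd d a).IsVal w (phi T c hd0 x) u ∧
        T.nu hd0 u = phi T c hd0 (y w) := by
      intro w hw
      obtain ⟨W, h2, h3, h4⟩ := (hv w hw).2
      obtain ⟨u, hu, hu'⟩ := phi_red T c hd hn W h4 hd0
      exact ⟨u, ⟨W, h2, h3, hu⟩, hu'⟩
    have hne : Nonempty ((Xd d a).pt Ω) := ⟨T.B Ω hd0⟩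
    choose! u hu hu' using h1
    have h2 : ∑ w ∈ S, Finsupp.single (u w) (m w) ∈ (Xd d a).ratEq K Ω := by
      refine AddSubgroup.subset_closure ⟨E, i1, i2, i5, i6, hE, G, phi T c hd0 x, hG, fun σ => ?_, S,
        m, u, hS, fun w hw => ⟨(hv w hw).1, hu w hw⟩, rfl⟩
      have h3 := phi_map T c hd0 (σ.restrictScalars M : AlgebraicClosure E →ₐ[M] AlgebraicClosure E) x
      refine Eq.trans h3 ?_
      exact congrArg (phi T c hd0) (hx σ)
    have h3 := add_mem (nu_ratEq T hd0 hn (ratEq_cycX h2)) h2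
    rw [sub_add_cancel] at h3
    have e : Finsupp.mapDomain (phi T c hd0) (∑ w ∈ S, Finsupp.single (y w) (m w)) =
        Finsupp.mapDomain (T.nu hd0) (∑ w ∈ S, Finsupp.single (u w) (m w)) := by
      rw [Finsupp.mapDomain_finsetSum, Finsupp.mapDomain_finsetSum]
      refine Finset.sum_congr rfl fun w hw => ?_
      rw [Finsupp.mapDomain_single, Finsupp.mapDomain_single, hu' w hw]
    exact e ▸ h3
  exact h hz

/-- Cycles over `K` go to cycles over `K`. Proof: `phi_map`. -/
theorem phi_cyc (hd : 0 < d) {z : (Vn D n).pt Ω →₀ ℤ} (hz : z ∈ (Vn D n).cyc K Ω) :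
    Finsupp.mapDomain (phi T c hd) z ∈ (Xd d a).cyc K Ω := by
  intro σ
  have h0 : ∀ P : (Vn D n).pt Ω, (Xd d a).act σ (phi T c hd P) = phi T c hd ((Vn D n).act σ P) :=
    fun P => phi_map T c hd (σ.restrictScalars M : Ω →ₐ[M] Ω) P
  have h1 : (Xd d a).act σ ∘ phi T c hd = phi T c hd ∘ (Vn D n).act σ := funext h0
  have h2 : Finsupp.mapDomain ((Vn D n).act σ) z = z := hz σ
  rw [← Finsupp.mapDomain_comp, h1, Finsupp.mapDomain_comp, h2]

end DH
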