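import Pool.Agent.Lib.MP_f80667_ag.Pe.Ur

/-! Roots of units are in unramified extensions. -/

open ZC BE PE Polynomial IntermediateField

namespace DH

variable {K Ω : Type} [Field K] [CharZero K] [Field Ω] [Algebra K Ω] [IsAlgClosure K Ω]
  {L : Ld K Ω}

omit [CharZero K] [IsAlgClosure K Ω] in
private theorem root_close {r r' : Ω} (h1 : L.nm r ≤ 1) (h1' : L.nm r' ≤ 1)
    (h2 : L.nm (r - r') < 1) (n : ℕ) : L.nm (r ^ n - r' ^ n) < 1 := by
  induction n with
  | zero =>
    rw [pow_zero, pow_zero, sub_self, L.zero]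
    exact zero_lt_one
  | succ n ih =>
    have h : r ^ (n + 1) - r' ^ (n + 1) = (r ^ n - r' ^ n) * r + r' ^ n * (r - r') := by ring
    rw [h]
    refine (L.add _ _).trans_lt (max_lt ?_ ?_)
    · rw [L.mul]
      exact (mul_le_of_le_one_right (L.nonneg _) h1).trans_lt ih
    · rw [L.mul, L.pow]
      exact (mul_le_of_le_one_left (L.nonneg _) (pow_le_one₀ (L.nonneg _) h1')).trans_lt h2

/-- Two `d`-th roots of the same unit which are congruent are equal. Proof: the quotient `w` satisfies `w ^ d = 1`; if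
`w ≠ 1` then `1 + w + .. + w ^ (d - 1) = 0` is congruent to `d`, a unit. -/
theorem root_inj {d : ℕ} (hd : ¬ L.p ∣ d) {r r' : Ω} (h : r ^ d = r' ^ d) (h1 : L.nm r = 1)
    (h2 : L.nm (r - r') < 1) : r = r' := by
  by_contra hne
  have h1' : L.nm r' ≤ 1 := by
    have h3 : r' = r - (r - r') := by ring
    rw [h3]
    exact (L.sub _ _).trans (max_le h1.le h2.le)
  have hS := (Commute.all r r').geom_sum₂_mul d
  rw [h, sub_self] at hS
  have hS0 := (mul_eq_zero.1 hS).resolve_right (sub_ne_zero.2 hne)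
  have key : ∀ s : Finset ℕ, (∀ i ∈ s, i < d) →
      L.nm (∑ i ∈ s, r ^ i * r' ^ (d - 1 - i) - (s.card : Ω) * r ^ (d - 1)) < 1 := by
    intro s
    classical
    induction s using Finset.induction_on with
    | empty =>
      intro _
      rw [Finset.sum_empty, Finset.card_empty, Nat.cast_zero, zero_mul, sub_self, L.zero]
      exact zero_lt_one
    | insert a s ha ih =>
      intro hs
      have had : a < d := hs a (Finset.mem_insert_self a s)
      have h3 : ∑ i ∈ insert a s, r ^ i * r' ^ (d - 1 - i) -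
          ((insert a s).card : Ω) * r ^ (d - 1) =
          r ^ a * -(r ^ (d - 1 - a) - r' ^ (d - 1 - a)) +
            (∑ i ∈ s, r ^ i * r' ^ (d - 1 - i) - (s.card : Ω) * r ^ (d - 1)) := by
        have h4 : r ^ (d - 1) = r ^ a * r ^ (d - 1 - a) := by
          rw [← pow_add]
          congr 1
          omega
        rw [Finset.sum_insert ha, Finset.card_insert_of_notMem ha, Nat.cast_add, Nat.cast_one, h4]
        ring
      rw [h3]
      refine (L.add _ _).trans_lt (max_lt ?_ (ih fun i hi => hs i (Finset.mem_insert_of_mem hi)))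
      rw [L.mul, L.pow, h1, one_pow, one_mul, L.neg]
      exact root_close h1.le h1' h2 _
  have h3 := key (Finset.range d) fun i hi => Finset.mem_range.1 hi
  rw [hS0, zero_sub, L.neg, L.mul, L.pow, h1, one_pow, mul_one, Finset.card_range,
    L.nat_unit hd] at h3
  exact lt_irrefl _ h3

/-- **Roots of units.** Proof: `Ld.te_rep`: `t ∈ L.Te N`, `nm (r - t) < 1`; `U = L.Ur ⊥ N`; Newton's iteration
`x ↦ x - (x ^ d - S) / (d x ^ (d - 1))` from `t` in `U` (`L.cpl`) gives `r' ∈ U` with `r' ^ d = S`, `nm (r' - t) < 1`;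
`root_inj`. -/
theorem root_ur {d : ℕ} (hd : ¬ L.p ∣ d) {r : Ω} {S : K} (h : r ^ d = algebraMap K Ω S)
    (h1 : L.nm r = 1) : ∃ N : ℕ, N ≠ 0 ∧ r ∈ L.Ur ⊥ N := by
  have hd0 : d ≠ 0 := by
    rintro rfl
    exact hd (dvd_zero _)
  obtain ⟨N, hN, t, ht, hrt⟩ := L.te_rep h1.le
  refine ⟨N, hN, ?_⟩
  have ht1 : L.nm t = 1 := by
    refine le_antisymm (Ld.te_int hN ht) ?_
    by_contra hlt
    rw [not_le] at hlt
    have h3 : r = (r - t) + t := by ring
    have h4 := L.add (r - t) t
    rw [← h3, h1] at h4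
    exact absurd (max_lt hrt hlt) (not_lt.2 h4)
  have hfin : FiniteDimensional K (L.Ur ⊥ N) := Ld.ur_fin ⊥ N hN
  have hS1 : L.nm (algebraMap K Ω S) = 1 := by rw [← h, L.pow, h1, one_pow]
  obtain ⟨y, hyM, hy, hyt⟩ := L.hens (L.Ur ⊥ N) hfin (X ^ d - C (algebraMap K Ω S))
    (monic_X_pow_sub_C _ hd0) (fun i => by
      rw [coeff_sub, coeff_X_pow, coeff_C]
      refine ⟨sub_mem ?_ ?_, (L.sub _ _).trans (max_le ?_ ?_)⟩
      · split_ifs
        · exact one_mem _
        · exact zero_mem _
      · split_ifs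
        · exact IntermediateField.algebraMap_mem _ _
        · exact zero_mem _
      · split_ifs
        · exact L.one.le
        · rw [L.zero]
          exact zero_le_one
      · split_ifs
        · exact hS1.le
        · rw [L.zero]
          exact zero_le_one) t (Ld.te_ur ht) ht1.le (by
      rw [eval_sub, eval_pow, eval_X, eval_C, ← h, L.sub_comm]
      exact root_close h1.le ht1.le hrt d) (by
      rw [derivative_sub, derivative_X_pow, derivative_C, sub_zero, eval_mul, eval_pow, eval_X,
        eval_C, L.mul, L.pow, ht1, one_pow, mul_one, L.nat_unit hd])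
  rw [eval_sub, eval_pow, eval_X, eval_C] at hy
  have hyd : r ^ d = y ^ d := by rw [h]; exact (sub_eq_zero.1 hy).symm
  have hry : L.nm (r - y) < 1 := by
    have h3 : r - y = (r - t) - (y - t) := by ring
    rw [h3]
    exact (L.sub _ _).trans_lt (max_lt hrt hyt)
  rw [root_inj hd hyd h1 hry]
  exact hyM

end DH
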