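import Pool.Agent.Lib.MP_f80667_ag.Dh.Defs
import Pool.Agent.Lib.MP_f80667_ag.Be.PlR

/-!
Values of vectors and of points of the hypersurface at places (like `Pe/Kt.lean`).
-/

open ZC BE

namespace DH

section vec

variable {K L Ω : Type} [Field K] [Field L] [Field Ω] [Algebra K L] [Algebra K Ω] {N : ℕ}

/-- The vector `v` is integral with the residue `u`. -/
def Rv (w : Place K L Ω) (v : Fin N → L) (u : Fin N → Ω) : Prop := ∀ i, Hv w (v i) (u i)

/-- Divide by the coordinate of largest value. Proof: induction on `N`, or choose `j` such that `v i / v j` is integral for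
all `i` (the ideals of a valuation ring are ordered). -/
theorem rv_prim (w : Place K L Ω) {v : Fin N → L} (hv : v ≠ 0) : ∃ (c : L) (u : Fin N → Ω), c ≠ 0 ∧
    u ≠ 0 ∧ Rv w (fun i => c * v i) u := by
  classical
  obtain ⟨k, hk⟩ := Function.ne_iff.1 hv
  obtain ⟨j, -, hj⟩ := Finset.exists_max_image (Finset.univ : Finset (Fin N))
    (fun i => w.V.valuation (v i)) ⟨k, Finset.mem_univ k⟩
  have hj0 : v j ≠ 0 := by
    intro h0
    have h1 := hj k (Finset.mem_univ k)
    rw [h0, map_zero, le_zero_iff, map_eq_zero] at h1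
    exact hk h1
  have hmem : ∀ i, (v j)⁻¹ * v i ∈ w.V := by
    intro i
    rw [← w.V.valuation_le_one_iff, map_mul, map_inv₀]
    have h1 := hj i (Finset.mem_univ i)
    have h2 : w.V.valuation (v j) ≠ 0 := (map_ne_zero _).2 hj0
    calc (w.V.valuation (v j))⁻¹ * w.V.valuation (v i) ≤
        (w.V.valuation (v j))⁻¹ * w.V.valuation (v j) := mul_le_mul_right h1 _
      _ = 1 := inv_mul_cancel₀ h2
  refine ⟨(v j)⁻¹, fun i => w.res ⟨_, hmem i⟩, inv_ne_zero hj0, ?_, fun i => Hv.of_mem (hmem i)⟩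
  intro h0
  have h1 : w.res ⟨_, hmem j⟩ = 0 := congrFun h0 j
  have h2 : Hv w ((v j)⁻¹ * v j) (0 : Ω) := ⟨hmem j, h1⟩
  rw [inv_mul_cancel₀ hj0] at h2
  exact zero_ne_one (h2.uniq Hv.one)

/-- A factor between two primitive vectors is a unit. -/
theorem rv_unit (w : Place K L Ω) {v : Fin N → L} {u u' : Fin N → Ω} {c : L} (hu : u ≠ 0)
    (hu' : u' ≠ 0) (h : Rv w v u) (h' : Rv w (fun i => c * v i) u') :
    ∃ r : Ω, r ≠ 0 ∧ Hv w c r ∧ u' = fun i => r * u i := by
  obtain ⟨k, hk⟩ := Function.ne_iff.1 hu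
  have hk' : u k ≠ 0 := hk
  have h1 : Hv w (c * v k / v k) (u' k / u k) := (h' k).div (h k) hk'
  rw [mul_div_cancel_right₀ _ ((h k).ne hk')] at h1
  have h2 : u' = fun i => u' k / u k * u i := by
    funext i
    exact (h' i).uniq (h1.mul (h i))
  refine ⟨u' k / u k, ?_, h1, h2⟩
  intro h0
  apply hu'
  rw [h2, h0]
  funext i
  exact zero_mul _

end vec

section pt

variable {F : Type} [Field F] {d n : ℕ} {a : Fin (n + 2) → F} {K L Ω : Type} [Field K] [Field L]
  [Field Ω] [Algebra K L] [Algebra K Ω] [Algebra F K] [Algebra F L] [Algebra F Ω]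
  [IsScalarTower F K L] [IsScalarTower F K Ω]

/-- The reduction in terms of multiples of coordinates. -/
theorem red_mk (w : Place K L Ω) (P : Hc d a L) (Q : Hc d a Ω) {c : L} (hc : c ≠ 0)
    (h : Rv w (fun i => c * P.x i) Q.x) :
    (Xd d a).red w (Quotient.mk _ P) (Quotient.mk _ Q) := by
  refine ⟨⟨fun i => c * P.x i, ?_, ?_⟩, Q, Quotient.sound ⟨c, hc, rfl⟩, rfl, fun i => h i⟩
  · intro h0
    apply P.ne
    funext i
    exact (mul_eq_zero.1 (congrFun h0 i)).resolve_left hc
  · have h1 : ∀ i, algebraMap F L (a i) * (c * P.x i) ^ d =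
        c ^ d * (algebraMap F L (a i) * P.x i ^ d) := by
      intro i
      rw [mul_pow]
      ring
    rw [Finset.sum_congr rfl fun i _ => h1 i, ← Finset.mul_sum, P.eq, mul_zero]

/-- Every point has a value. Proof: `rv_prim`; the equation for the residues by `plr_hv`, `Hv.uniq`. -/
theorem red_ex (w : Place K L Ω) (x : (Xd d a).pt L) : ∃ y, (Xd d a).red w x y := by
  induction x using Quotient.inductionOn with
  | h P =>
    obtain ⟨c, u, hc, hu, h1⟩ := rv_prim w P.ne
    have h2 : ∀ s : Finset (Fin (n + 2)), Hv w (∑ i ∈ s, algebraMap F L (a i) * (c * P.x i) ^ d)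
        (∑ i ∈ s, algebraMap F Ω (a i) * u i ^ d) := by
      classical
      intro s
      induction s using Finset.induction_on with
      | empty =>
        rw [Finset.sum_empty, Finset.sum_empty]
        exact Hv.zero
      | insert i s hi ih =>
        rw [Finset.sum_insert hi, Finset.sum_insert hi]
        exact ((plr_hv w _).mul ((h1 i).pow d)).add ih
    have h3 : ∑ i, algebraMap F L (a i) * (c * P.x i) ^ d = 0 := by
      have h4 : ∀ i, algebraMap F L (a i) * (c * P.x i) ^ d =
          c ^ d * (algebraMap F L (a i) * P.x i ^ d) := by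
        intro i
        rw [mul_pow]
        ring
      rw [Finset.sum_congr rfl fun i _ => h4 i, ← Finset.mul_sum, P.eq, mul_zero]
    have h5 := h2 Finset.univ
    rw [h3] at h5
    exact ⟨Quotient.mk _ ⟨u, hu, h5.uniq Hv.zero⟩, red_mk w P _ hc h1⟩

omit [Algebra F K] [IsScalarTower F K L] [IsScalarTower F K Ω] in
/-- The value is unique. Proof: `rv_unit`. -/
theorem red_uniq (w : Place K L Ω) {x : (Xd d a).pt L} {y y' : (Xd d a).pt Ω}
    (h : (Xd d a).red w x y) (h' : (Xd d a).red w x y') : y = y' := by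
  obtain ⟨P, Q, rfl, rfl, h1⟩ := h
  obtain ⟨P', Q', e, rfl, h1'⟩ := h'
  obtain ⟨c, hc, e1⟩ := Quotient.exact e
  have h2 : Rv w (fun i => c * P.x i) Q'.x := by
    intro i
    have h3 := h1' i
    rw [e1] at h3
    exact h3
  obtain ⟨r, hr, -, h3⟩ := rv_unit w Q.ne Q'.ne h1 h2
  exact Quotient.sound ⟨r, hr, h3⟩

end pt

end DH
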